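import Pool.Agent.H332R3.Defs2

set_option autoImplicit false

namespace Pool.Agent.H332R3

open scoped ComplexConjugate

namespace RootAux

theorem w3_pos (k : ℕ) : 0 < w3 k := by
  induction k with
  | zero => norm_num [w3]
  | succ k ih => exact Real.sqrt_pos.mpr ih

theorem w3_sq (k : ℕ) : w3 (k + 1) ^ 2 = w3 k := Real.sq_sqrt (w3_pos k).le

theorem w3_sqC (k : ℕ) : (w3 (k + 1) : ℂ) ^ 2 = (w3 k : ℂ) := by
  exact_mod_cast w3_sq k

theorem w3_ne (k : ℕ) : (w3 k : ℂ) ≠ 0 := by exact_mod_cast (w3_pos k).ne'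

theorem w3_alg (k : ℕ) : IsAlgebraic ℚ (w3 k : ℂ) := by
  induction k with
  | zero =>
    have : (w3 0 : ℂ) = ((3 : ℕ) : ℂ) := by norm_num [w3]
    rw [this]
    exact isAlgebraic_nat 3
  | succ k ih =>
    rw [← w3_sqC] at ih
    exact IsAlgebraic.of_pow (by norm_num) ih

variable {B : ValuationSubring ℂ}

theorem g_lt (h3 : (3 : ℂ) ∈ B.nonunits) (k : ℕ) : B.valuation (w3 k : ℂ) < 1 := by
  induction k with
  | zero =>
    have : (w3 0 : ℂ) = 3 := by norm_num [w3]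
    rw [this]
    exact B.mem_nonunits_iff.mp h3
  | succ k ih =>
    by_contra hc
    rw [not_lt] at hc
    have : 1 ≤ B.valuation (w3 (k + 1) : ℂ) ^ 2 := one_le_pow₀ hc
    rw [← map_pow, w3_sqC] at this
    exact absurd ih (not_lt.mpr this)

theorem g_pow (B : ValuationSubring ℂ) (k m : ℕ) :
    B.valuation (w3 (k + m) : ℂ) ^ (2 ^ m) = B.valuation (w3 k : ℂ) := by
  induction m with
  | zero => simp
  | succ m ih =>
    rw [pow_succ' 2 m, pow_mul, ← map_pow, ← add_assoc, w3_sqC, ih]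

end RootAux

open RootAux

theorem OB_root {B : ValuationSubring ℂ} (h3 : (3 : ℂ) ∈ B.nonunits) :
    ∀ n : ℕ, 1 ≤ n → ∀ c : ℂ, ‖c‖ = 1 → (∃ k, ∃ y ∈ OB B, c - 1 = (w3 k : ℂ) * y) →
    ∃ d : ℂ, d ^ n = c ∧ ‖d‖ = 1 ∧ (∃ k, ∃ y ∈ OB B, d - 1 = (w3 k : ℂ) * y) := by
  rintro n hn c hc ⟨k, y, ⟨hya, hyB, hyB'⟩, hcy⟩
  have hn0 : n ≠ 0 := by omega
  -- a root and a primitive root of unity
  obtain ⟨d0, hd0⟩ : ∃ d0 : ℂ, d0 ^ n = c := by
    refine ⟨c ^ ((n : ℂ)⁻¹), ?_⟩
    exact Complex.cpow_nat_inv_pow c hn0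
  have hζ := Complex.isPrimitiveRoot_exp n hn0
  set ζ := Complex.exp (2 * Real.pi * Complex.I / n) with hζdef
  have hprod := X_pow_sub_C_eq_prod hζ (by omega : 0 < n) hd0
  have hev := congrArg (Polynomial.eval (1 : ℂ)) hprod
  rw [Polynomial.eval_prod] at hev
  simp only [Polynomial.eval_sub, Polynomial.eval_pow, Polynomial.eval_X, Polynomial.eval_C,
    one_pow] at hev
  have hval : B.valuation (1 - c) ≤ B.valuation (w3 k : ℂ) := by
    have e : 1 - c = -((w3 k : ℂ) * y) := by rw [← hcy]; ring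
    rw [e, Valuation.map_neg, map_mul]
    have : B.valuation y ≤ 1 := (B.valuation_le_one_iff y).mpr hyB
    calc B.valuation (w3 k : ℂ) * B.valuation y ≤ B.valuation (w3 k : ℂ) * 1 :=
          mul_le_mul_right this _
      _ = _ := mul_one _
  obtain ⟨m, hm⟩ : ∃ m : ℕ, n ≤ 2 ^ m := ⟨n, Nat.lt_two_pow_self.le⟩
  have hne : (Finset.range n).Nonempty := ⟨0, by simp; omega⟩
  obtain ⟨i, hi, hmin⟩ := Finset.exists_min_image (Finset.range n)
    (fun i => B.valuation (1 - ζ ^ i * d0)) hne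
  set d := ζ ^ i * d0 with hd
  set t := B.valuation (1 - d) with ht
  have h1 : t ^ n ≤ B.valuation (1 - c) := by
    rw [hev, map_prod]
    have := Finset.pow_card_le_prod (Finset.range n) (fun i => B.valuation (1 - ζ ^ i * d0)) t hmin
    rwa [Finset.card_range] at this
  have h2 : t ^ n ≤ B.valuation (w3 (k + m) : ℂ) ^ n := by
    calc t ^ n ≤ B.valuation (w3 k : ℂ) := h1.trans hval
      _ = B.valuation (w3 (k + m) : ℂ) ^ (2 ^ m) := (g_pow B k m).symm
      _ ≤ B.valuation (w3 (k + m) : ℂ) ^ n := pow_le_pow_right_of_le_one' (g_lt h3 _).le hm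
  have h4 : t ≤ B.valuation (w3 (k + m) : ℂ) := by
    by_contra hcon
    rw [not_le] at hcon
    exact absurd h2 (not_le.mpr (pow_lt_pow_left₀ hcon zero_le hn0))
  have hdn : d ^ n = c := by
    rw [hd, mul_pow, ← pow_mul, mul_comm i n, pow_mul, hζ.pow_eq_one, one_pow, one_mul, hd0]
  have hdnorm : ‖d‖ = 1 := by
    have : ‖d‖ ^ n = 1 := by rw [← norm_pow, hdn, hc]
    exact (pow_eq_one_iff_of_nonneg (norm_nonneg d) hn0).mp this
  have hd0' : d ≠ 0 := by
    intro h0; rw [h0, norm_zero] at hdnorm; norm_num at hdnorm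
  have hcalg : IsAlgebraic ℚ c := by
    have : c = 1 + (w3 k : ℂ) * y := by rw [← hcy]; ring
    rw [this]
    exact isAlgebraic_one.add ((w3_alg k).mul hya)
  have hdalg : IsAlgebraic ℚ d := by
    rw [← hdn] at hcalg
    exact IsAlgebraic.of_pow (by omega) hcalg
  have hWne := w3_ne (k + m)
  have hWv : B.valuation (w3 (k + m) : ℂ) ≠ 0 := by
    rw [Valuation.ne_zero_iff]; exact hWne
  have ht1 : t < 1 := lt_of_le_of_lt h4 (g_lt h3 _)
  have hvd : B.valuation d = 1 := by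
    have e : d = 1 + (d - 1) := by ring
    have h5 : B.valuation (d - 1) < 1 := by
      rw [Valuation.map_sub_swap]; exact ht1
    rw [e]
    exact B.valuation.map_one_add_of_lt h5
  have hz : B.valuation ((d - 1) / (w3 (k + m) : ℂ)) ≤ 1 := by
    rw [map_div₀, Valuation.map_sub_swap]
    exact (div_le_one₀ (zero_lt_iff.mpr hWv)).mpr h4
  refine ⟨d, hdn, hdnorm, k + m, (d - 1) / (w3 (k + m) : ℂ), ⟨?_, ?_, ?_⟩, ?_⟩
  · exact (hdalg.sub isAlgebraic_one).mul ((w3_alg _).inv)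
  · exact (B.valuation_le_one_iff _).mp hz
  · rw [← B.valuation_le_one_iff]
    have hcd : conj d = d⁻¹ := by
      rw [Complex.inv_def, Complex.normSq_eq_norm_sq, hdnorm]; simp
    have e : conj ((d - 1) / (w3 (k + m) : ℂ)) = -(((d - 1) / (w3 (k + m) : ℂ)) * d⁻¹) := by
      rw [map_div₀, map_sub, map_one, Complex.conj_ofReal, hcd]
      field_simp
      ring
    rw [e, Valuation.map_neg, map_mul, map_inv₀, hvd, inv_one, mul_one]
    exact hz
  · field_simp

end Pool.Agent.H332R3
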