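import Pool.Agent.H332R3.Defs2

set_option autoImplicit false

namespace Pool.Agent.H332R3

open scoped ComplexConjugate

lemma T04_pow_mem (B : ValuationSubring ℂ) {x : ℂ} (n : ℕ) (hx : x ^ (n + 1) ∈ B) : x ∈ B := by
  rcases B.mem_or_inv_mem x with h | h
  · exact h
  · by_cases h0 : x = 0
    · rw [h0]; exact B.zero_mem
    · have : x = x ^ (n + 1) * (x⁻¹) ^ n := by
        rw [pow_succ', mul_assoc, ← mul_pow, mul_inv_cancel₀ h0, one_pow, mul_one]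
      rw [this]
      exact B.mul_mem _ _ hx (pow_mem h n)

lemma T04_w3_pos (k : ℕ) : 0 < w3 k := by
  induction k with
  | zero => norm_num [w3]
  | succ k ih => exact Real.sqrt_pos.2 ih

lemma T04_w3_sq (k : ℕ) : w3 (k + 1) ^ 2 = w3 k := Real.sq_sqrt (T04_w3_pos k).le

lemma T04_w3_four (k : ℕ) : w3 (k + 2) ^ 4 = w3 k := by
  have h1 := T04_w3_sq (k + 1)
  have h2 := T04_w3_sq k
  rw [← h2, ← h1]; ring

lemma T04_w3_mem (B : ValuationSubring ℂ) (h3 : (3 : ℂ) ∈ B) (k : ℕ) : (w3 k : ℂ) ∈ B := by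
  induction k with
  | zero => simpa [w3] using h3
  | succ k ih =>
    refine T04_pow_mem B 1 ?_
    have : ((w3 (k + 1) : ℝ) : ℂ) ^ (1 + 1) = (w3 k : ℂ) := by
      rw [← T04_w3_sq k]; push_cast; ring
    rw [this]; exact ih

lemma T04_div_mem (B : ValuationSubring ℂ) (h3 : (3 : ℂ) ∈ B) (k : ℕ) :
    ((3 / w3 k : ℝ) : ℂ) ∈ B := by
  induction k with
  | zero => simpa [w3] using B.one_mem
  | succ k ih =>
    have h1 : (3 / w3 (k + 1) : ℝ) = (3 / w3 k) * w3 (k + 1) := by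
      have h2 := T04_w3_sq k
      have h3 := T04_w3_pos k
      have h4 := T04_w3_pos (k + 1)
      rw [← h2]; field_simp
    rw [h1, Complex.ofReal_mul]
    exact B.mul_mem _ _ ih (T04_w3_mem B h3 (k + 1))

lemma T04_w3_alg (k : ℕ) : IsAlgebraic ℚ (w3 k : ℂ) := by
  induction k with
  | zero =>
    have : ((w3 0 : ℝ) : ℂ) = ((3 : ℕ) : ℂ) := by norm_num [w3]
    rw [this]; exact isAlgebraic_natCast 3
  | succ k ih =>
    refine IsAlgebraic.of_pow (n := 2) (by norm_num) ?_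
    have : ((w3 (k + 1) : ℝ) : ℂ) ^ 2 = (w3 k : ℂ) := by
      rw [← T04_w3_sq k]; push_cast; ring
    rw [this]; exact ih

lemma T04_key {B : ValuationSubring ℂ} (h3 : (3 : ℂ) ∈ B) (d : ℂ) (k : ℕ) (y : ℂ)
    (hy : y ∈ OB B) (h : d ^ 3 - 1 = (w3 k : ℂ) * y) :
    ∃ z ∈ OB B, d - 1 = (w3 (k + 2) : ℂ) * z := by
  obtain ⟨hy1, hy2, hy3⟩ := hy
  have hW : (w3 (k + 2) : ℂ) ≠ 0 := by exact_mod_cast (T04_w3_pos (k + 2)).ne'
  have hw : (w3 k : ℂ) ≠ 0 := by exact_mod_cast (T04_w3_pos k).ne'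
  have hW4 : (w3 (k + 2) : ℂ) ^ 4 = (w3 k : ℂ) := by
    rw [← T04_w3_four k]; push_cast; ring
  have hc : d ^ 3 = 1 + (w3 k : ℂ) * y := by rw [← h]; ring
  have hcc : (conj d) ^ 3 = 1 + (w3 k : ℂ) * conj y := by
    rw [← map_pow, hc, map_add, map_mul, map_one, Complex.conj_ofReal]
  have hwB := T04_w3_mem B h3 k
  have hWB := T04_w3_mem B h3 (k + 2)
  have htB := T04_div_mem B h3 k
  have hdalg : IsAlgebraic ℚ d := by
    refine IsAlgebraic.of_pow (n := 3) (by norm_num) ?_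
    rw [hc]
    exact isAlgebraic_one.add ((T04_w3_alg k).mul hy1)
  have hdB : d ∈ B := by
    refine T04_pow_mem B 2 ?_
    rw [show 2 + 1 = 3 from rfl, hc]
    exact B.add_mem _ _ B.one_mem (B.mul_mem _ _ hwB hy2)
  have hdB' : conj d ∈ B := by
    refine T04_pow_mem B 2 ?_
    rw [show 2 + 1 = 3 from rfl, hcc]
    exact B.add_mem _ _ B.one_mem (B.mul_mem _ _ hwB hy3)
  have hgen : ∀ e f : ℂ, e ∈ B → f ∈ B → e ^ 3 = 1 + (w3 k : ℂ) * f →
      (e - 1) / (w3 (k + 2) : ℂ) ∈ B := by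
    intro e f he hf hef
    refine T04_pow_mem B 2 ?_
    have h1 : ((e - 1) / (w3 (k + 2) : ℂ)) ^ (2 + 1) =
        (w3 (k + 2) : ℂ) * (f - ((3 / w3 k : ℝ) : ℂ) * (e * (e - 1))) := by
      rw [div_pow, div_eq_iff (pow_ne_zero _ hW)]
      have h2 : (e - 1) ^ 3 = (w3 k : ℂ) * f - 3 * (e * (e - 1)) := by
        linear_combination hef
      rw [show 2 + 1 = 3 from rfl, h2]
      have h4 : (w3 (k + 2) : ℂ) * (f - ((3 / w3 k : ℝ) : ℂ) * (e * (e - 1))) *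
          (w3 (k + 2) : ℂ) ^ 3 = (w3 (k + 2) : ℂ) ^ 4 * (f - ((3 / w3 k : ℝ) : ℂ) *
          (e * (e - 1))) := by ring
      rw [h4, hW4]
      push_cast
      field_simp
    rw [h1]
    refine B.mul_mem _ _ hWB ?_
    exact sub_mem hf (B.mul_mem _ _ htB (B.mul_mem _ _ he (sub_mem he B.one_mem)))
  refine ⟨(d - 1) / (w3 (k + 2) : ℂ), ⟨?_, ?_, ?_⟩, ?_⟩
  · rw [div_eq_mul_inv]
    exact (hdalg.sub isAlgebraic_one).mul (T04_w3_alg (k + 2)).inv
  · exact hgen d y hdB hy2 hc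
  · have h5 : conj ((d - 1) / (w3 (k + 2) : ℂ)) = (conj d - 1) / (w3 (k + 2) : ℂ) := by
      rw [map_div₀, map_sub, map_one, Complex.conj_ofReal]
    rw [h5]
    exact hgen (conj d) (conj y) hdB' hy3 hcc
  · field_simp

theorem OB_small_root {B : ValuationSubring ℂ} (h3 : (3 : ℂ) ∈ B.nonunits) :
    ∀ ε : ℝ, 0 < ε → ∀ c : ℂ, ‖c‖ = 1 → (∃ k, ∃ y ∈ OB B, c - 1 = (w3 k : ℂ) * y) →
    ∃ m : ℕ, ∃ d : ℂ, d ^ (3 ^ m) = c ∧ ‖d‖ = 1 ∧ ‖d - 1‖ < ε ∧
      (∃ k, ∃ y ∈ OB B, d - 1 = (w3 k : ℂ) * y) := by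
  intro ε hε c hc hk
  have h3B : (3 : ℂ) ∈ B := ValuationSubring.nonunits_subset h3
  let f : ℕ → ℂ := fun m => Complex.exp (((c.arg / 3 ^ m : ℝ) : ℂ) * Complex.I)
  have hf0 : f 0 = c := by
    have h1 := Complex.norm_mul_exp_arg_mul_I c
    rw [hc] at h1
    simp only [f, pow_zero, div_one]
    simpa using h1
  have hfs : ∀ m, f (m + 1) ^ 3 = f m := by
    intro m
    simp only [f]
    rw [← Complex.exp_nat_mul]
    congr 1
    push_cast
    rw [pow_succ]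
    field_simp
  have hfn : ∀ m, ‖f m‖ = 1 := fun m => Complex.norm_exp_ofReal_mul_I _
  have hfp : ∀ m, f m ^ (3 ^ m) = c := by
    intro m
    induction m with
    | zero => rw [pow_zero, pow_one, hf0]
    | succ m ih => rw [pow_succ', pow_mul, hfs, ih]
  have hfk : ∀ m, ∃ k, ∃ y ∈ OB B, f m - 1 = (w3 k : ℂ) * y := by
    intro m
    induction m with
    | zero => rw [hf0]; exact hk
    | succ m ih =>
      obtain ⟨k, y, hy, hky⟩ := ih
      rw [← hfs] at hky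
      obtain ⟨z, hz, hzd⟩ := T04_key h3B (f (m + 1)) k y hy hky
      exact ⟨k + 2, z, hz, hzd⟩
  have hlim : Filter.Tendsto (fun m => ‖f m - 1‖) Filter.atTop (nhds 0) := by
    have h1 : Filter.Tendsto (fun m : ℕ => c.arg / 3 ^ m) Filter.atTop (nhds 0) := by
      have h2 := (tendsto_pow_atTop_nhds_zero_of_lt_one (r := (1 / 3 : ℝ)) (by norm_num)
        (by norm_num)).const_mul c.arg
      rw [mul_zero] at h2
      refine h2.congr fun m => ?_
      rw [one_div, inv_pow]; rfl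
    have h2 : Continuous fun x : ℝ => ‖Complex.exp ((x : ℂ) * Complex.I) - 1‖ := by fun_prop
    have h3 := (h2.tendsto 0).comp h1
    have h4 : ‖Complex.exp (((0 : ℝ) : ℂ) * Complex.I) - 1‖ = 0 := by simp
    rw [h4] at h3
    exact h3
  obtain ⟨m, hm⟩ := (hlim.eventually (gt_mem_nhds hε)).exists
  exact ⟨m, f m, hfp m, hfn m, hm, hfk m⟩

end Pool.Agent.H332R3
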