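import Pool.Agent.H332R3.Defs2

set_option autoImplicit false

namespace Pool.Agent.H332R3

open scoped ComplexConjugate

private lemma T02_aux {B : ValuationSubring ℂ} (h3 : (3 : ℂ) ∈ B.nonunits) :
    B.valuation (2 : ℂ) = 1 := by
  rw [ValuationSubring.mem_nonunits_iff] at h3
  have h1 : (2 : ℂ) = 1 + (-(2:ℂ) + 3) - 0 + 0 := by ring
  have h2 : B.valuation ((3:ℂ) - 1) = 1 := by
    rw [Valuation.map_sub_swap, Valuation.map_one_sub_of_lt _ h3]
  have : (3:ℂ) - 1 = 2 := by norm_num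
  rwa [this] at h2

private lemma T02_val_conj {B : ValuationSubring ℂ} {x : ℂ} (hx : x ∈ OB B)
    (h : conj x = x ∨ ‖x‖ = 1) (s : ℂ) (hs : s = 1 ∨ s = -1) :
    B.valuation (conj (x - s)) = B.valuation (x - s) := by
  have hcs : conj s = s := by
    rcases hs with rfl | rfl <;> simp
  rcases h with h | h
  · rw [map_sub, h, hcs]
  · have hx0 : x ≠ 0 := by rintro rfl; simp at h
    have hinv : conj x = x⁻¹ := by
      rw [Complex.inv_def, Complex.normSq_eq_norm_sq, h]; simp
    have h1 : B.valuation x ≤ 1 := (B.valuation_le_one_iff x).2 hx.2.1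
    have h2 : B.valuation (conj x) ≤ 1 := (B.valuation_le_one_iff _).2 hx.2.2
    have hv0 : B.valuation x ≠ 0 := (Valuation.ne_zero_iff _).2 hx0
    have h3 : B.valuation x = 1 := by
      rw [hinv, map_inv₀] at h2
      refine le_antisymm h1 ?_
      rwa [inv_le_one₀ (zero_lt_iff.2 hv0)] at h2
    have hss : s * s = 1 := by rcases hs with rfl | rfl <;> norm_num
    have h4 : conj (x - s) = -(s * x⁻¹) * (x - s) := by
      rw [map_sub, hinv, hcs]
      field_simp
      linear_combination (-1 : ℂ) * hss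
    have hvs : B.valuation s = 1 := by
      rcases hs with rfl | rfl
      · exact map_one _
      · rw [Valuation.map_neg, map_one]
    rw [h4, map_mul, Valuation.map_neg, map_mul, map_inv₀, h3, hvs]
    simp

private lemma T02_main {B : ValuationSubring ℂ} {x : ℂ} (hx : x ∈ OB B)
    (h : conj x = x ∨ ‖x‖ = 1) (s : ℂ) (hs : s = 1 ∨ s = -1) (hv : B.valuation (x - s) = 1)
    {w : ℂ} (hy : ∃ y ∈ OB B, x ^ 2 - 1 = w * y) : ∃ y ∈ OB B, x + s = w * y := by
  obtain ⟨y, hyO, hy⟩ := hy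
  have h0 : x - s ≠ 0 := by
    intro h0
    rw [h0, map_zero] at hv
    exact zero_ne_one hv
  have hss : s * s = 1 := by rcases hs with rfl | rfl <;> norm_num
  have hsa : IsAlgebraic ℚ s := by
    rcases hs with rfl | rfl
    · exact isAlgebraic_one
    · exact isAlgebraic_one.neg
  have hmem : (x - s)⁻¹ ∈ OB B := by
    refine ⟨(hx.1.sub hsa).inv, ?_, ?_⟩
    · rw [← B.valuation_le_one_iff, map_inv₀, hv, inv_one]
    · rw [← B.valuation_le_one_iff, map_inv₀, map_inv₀, T02_val_conj hx h s hs, hv, inv_one]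
  refine ⟨y * (x - s)⁻¹, (OB B).mul_mem hyO hmem, ?_⟩
  rw [← mul_assoc, ← hy]
  field_simp
  linear_combination (-1 : ℂ) * hss

theorem OB_sq_one {B : ValuationSubring ℂ} (h3 : (3 : ℂ) ∈ B.nonunits) :
    ∀ k, ∀ x ∈ OB B, (conj x = x ∨ ‖x‖ = 1) → (∃ y ∈ OB B, x ^ 2 - 1 = (w3 k : ℂ) * y) →
    (∃ y ∈ OB B, x - 1 = (w3 k : ℂ) * y) ∨ (∃ y ∈ OB B, x + 1 = (w3 k : ℂ) * y) := by
  intro k x hx h hy
  have h1 : B.valuation (x - 1) ≤ 1 :=
    (B.valuation_le_one_iff _).2 (B.toSubring.sub_mem hx.2.1 B.one_mem)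
  have h2 : B.valuation (x - (-1)) ≤ 1 := by
    rw [sub_neg_eq_add]
    exact (B.valuation_le_one_iff _).2 (B.add_mem _ _ hx.2.1 B.one_mem)
  rcases h1.lt_or_eq with h1 | h1
  · rcases h2.lt_or_eq with h2 | h2
    · exfalso
      have h4 := T02_aux h3
      have h5 : (2:ℂ) = (x - (-1)) - (x - 1) := by ring
      have h6 : B.valuation (2:ℂ) < 1 := by
        rw [h5]
        exact lt_of_le_of_lt (Valuation.map_sub _ _ _) (max_lt h2 h1)
      rw [h4] at h6
      exact lt_irrefl _ h6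
    · left
      have := T02_main hx h (-1) (Or.inr rfl) h2 hy
      simpa [sub_eq_add_neg] using this
  · right
    exact T02_main hx h 1 (Or.inl rfl) h1 hy

end Pool.Agent.H332R3
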