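import Pool.Agent.H332R3.ExistsB
import Pool.Agent.H332R3.SqOne
import Pool.Agent.H332R3.Root
import Pool.Agent.H332R3.SmallRoot

/-!
# Existence of the arithmetic data
-/

set_option autoImplicit false

namespace Pool.Agent.H332R3

open scoped ComplexConjugate

theorem exists_arith : Nonempty Arith := by
  obtain ⟨B, h3⟩ := exists_B
  exact ⟨{ O := OB B
           w := w3
           conj_mem := OB_conj B
           I_mem := OB_I B
           half_mem := OB_half h3
           countable := OB_countable B
           w_zero := rfl
           w_gt := w3_gt
           w_le := w3_le
           w_sq := w3_sq
           w_mem := OB_w3 B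
           unit_one_add := OB_unit h3
           sqrt_mem := OB_sqrt B
           sq_one := OB_sq_one h3
           root := OB_root h3
           small_root := OB_small_root h3 }⟩

end Pool.Agent.H332R3
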