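import Pool.Agent.H332R3.Defs2

set_option autoImplicit false

namespace Pool.Agent.H332R3

open scoped ComplexConjugate

theorem baire_tail {Θ : Type} [CommGroup Θ] [Countable Θ] (H : Subgroup (ℕ → Θ))
    (hclosed : ∀ d : ℕ → Θ, (∀ n, ∃ d' ∈ H, ∀ i < n, d' i = d i) → d ∈ H)
    (hcount : Countable ((ℕ → Θ) ⧸ H)) : ∃ n, ∀ d : ℕ → Θ, (∀ i < n, d i = 1) → d ∈ H := by
  letI : TopologicalSpace Θ := ⊥
  haveI : DiscreteTopology Θ := ⟨rfl⟩
  have hHc : IsClosed (H : Set (ℕ → Θ)) := by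
    refine isClosed_of_closure_subset ?_
    intro d hd
    refine hclosed d fun n => ?_
    have hopen : IsOpen {x : ℕ → Θ | ∀ i < n, x i = d i} := by
      have e : {x : ℕ → Θ | ∀ i < n, x i = d i} =
          (↑(Finset.range n) : Set ℕ).pi (fun i => ({d i} : Set Θ)) := by
        ext x
        simp [Set.mem_pi]
      rw [e]
      exact isOpen_set_pi (Finset.finite_toSet _) (fun i _ => isOpen_discrete _)
    obtain ⟨x, hx, hxH⟩ := mem_closure_iff.1 hd _ hopen (fun i _ => rfl)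
    exact ⟨x, hxH, hx⟩
  have hcl : ∀ q : (ℕ → Θ) ⧸ H, IsClosed {x : ℕ → Θ | (x : (ℕ → Θ) ⧸ H) = q} := by
    intro q
    obtain ⟨g, rfl⟩ := QuotientGroup.mk_surjective q
    have e : {x : ℕ → Θ | (x : (ℕ → Θ) ⧸ H) = (g : (ℕ → Θ) ⧸ H)} =
        (fun x : ℕ → Θ => x⁻¹ * g) ⁻¹' (H : Set (ℕ → Θ)) := by
      ext x
      exact QuotientGroup.eq
    rw [e]
    refine hHc.preimage ?_
    refine continuous_pi fun i => ?_
    exact (continuous_of_discreteTopology (f := fun y : Θ => y⁻¹ * g i)).comp (continuous_apply i)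
  haveI : Nonempty (ℕ → Θ) := ⟨fun _ => 1⟩
  obtain ⟨q, x, hx⟩ := nonempty_interior_of_iUnion_of_closed hcl (by
    ext x
    simp)
  obtain ⟨I, u, hu, hsub⟩ := isOpen_pi_iff.1 isOpen_interior x hx
  refine ⟨I.sup id + 1, fun d hd => ?_⟩
  have hmem : x * d ∈ (↑I : Set ℕ).pi u := by
    intro i hi
    have h1 : d i = 1 := hd i (Nat.lt_succ_of_le (Finset.le_sup (f := id) hi))
    rw [Pi.mul_apply, h1, mul_one]
    exact (hu i hi).2
  have h2' : (x * d) ∈ {y : ℕ → Θ | (y : (ℕ → Θ) ⧸ H) = q} := interior_subset (hsub hmem)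
  have h3' : x ∈ {y : ℕ → Θ | (y : (ℕ → Θ) ⧸ H) = q} := interior_subset hx
  have h2 : ((x * d : ℕ → Θ) : (ℕ → Θ) ⧸ H) = q := h2'
  have h3 : (x : (ℕ → Θ) ⧸ H) = q := h3'
  have h4 := QuotientGroup.eq.1 (h3.trans h2.symm)
  simpa using h4

end Pool.Agent.H332R3
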