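import Pool.Agent.H332R3.Defs2

set_option autoImplicit false

namespace Pool.Agent.H332R3

open scoped ComplexConjugate

lemma T08_delta_fin_mem {G Θ : Type} [Group G] [CommGroup Θ] (S : Setup G Θ) :
    ∀ (j : ℕ) (d : ℕ → Θ), (∀ i, j ≤ i → d i = 1) → S.δ d ∈ S.K := by
  intro j
  induction j with
  | zero =>
    intro d hd
    have : d = 1 := by funext i; exact hd i (Nat.zero_le _)
    rw [this, map_one]; exact S.K.one_mem
  | succ j ih =>
    intro d hd
    have h1 : d = (d * (Pi.mulSingle j (d j))⁻¹) * Pi.mulSingle j (d j) := by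
      rw [inv_mul_cancel_right]
    rw [h1, map_mul]
    refine S.K.mul_mem (ih _ ?_) (S.hsingle _ _)
    intro i hi
    rcases eq_or_lt_of_le hi with rfl | hlt
    · simp
    · have h2 : (Pi.mulSingle j (d j) : ℕ → Θ) i = 1 := Pi.mulSingle_eq_of_ne (by omega) _
      simp [h2, hd i hlt]

theorem setup_caseA {G Θ : Type} [Group G] [CommGroup Θ] [Countable Θ] (S : Setup G Θ)
    {M : Subgroup G} (hM : IsCoatom M) (hKM : ¬ S.K ≤ M) {n0 : ℕ}
    (htail : ∀ d : ℕ → Θ, (∀ i < n0, d i = 1) → S.δ d ∈ M) : False := by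
  classical
  have := S.normal
  obtain ⟨k, hkK, hkM⟩ := SetLike.not_le_iff_exists.1 hKM
  obtain ⟨n, hn⟩ := S.hcomm k hkK
  set j := max n n0 with hj
  set L : Subgroup G := M ⊓ S.K with hL
  set J : Subgroup G := Subgroup.closure ((L : Set G) ∪ {k}) with hJ
  have hLJ : L ≤ J := fun x hx => Subgroup.subset_closure (Or.inl hx)
  have hkJ : k ∈ J := Subgroup.subset_closure (Or.inr rfl)
  have hJK : J ≤ S.K := by
    rw [hJ, Subgroup.closure_le]
    rintro x (hx | hx)
    · exact hx.2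
    · rw [Set.mem_singleton_iff.1 hx]; exact hkK
  have htM : ∀ d : ℕ → Θ, (∀ i < j, d i = 1) → S.δ d ∈ M := fun d hd =>
    htail d fun i hi => hd i (lt_of_lt_of_le hi (le_max_right _ _))
  have hnorm : ∀ d : ℕ → Θ, (∀ i < j, d i = 1) → ∀ y ∈ J, S.δ d * y * (S.δ d)⁻¹ ∈ J := by
    intro d hd y hy
    induction hy using Subgroup.closure_induction with
    | mem x hx =>
      rcases hx with hx | hx
      · refine hLJ ⟨?_, ?_⟩
        · exact M.mul_mem (M.mul_mem (htM d hd) hx.1) (M.inv_mem (htM d hd))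
        · exact S.normal.conj_mem _ hx.2 _
      · rw [Set.mem_singleton_iff.1 hx]
        have h1 := hn d fun i hi => hd i (lt_of_lt_of_le hi (le_max_left _ _))
        rw [h1, mul_inv_cancel_right]
        exact hkJ
    | one => simp
    | mul a b _ _ ha hb =>
      have : S.δ d * (a * b) * (S.δ d)⁻¹ = (S.δ d * a * (S.δ d)⁻¹) * (S.δ d * b * (S.δ d)⁻¹) := by
        group
      rw [this]; exact J.mul_mem ha hb
    | inv a _ ha =>
      have : S.δ d * a⁻¹ * (S.δ d)⁻¹ = (S.δ d * a * (S.δ d)⁻¹)⁻¹ := by group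
      rw [this]; exact J.inv_mem ha
  let P : Subgroup G :=
    { carrier := {x | ∃ y ∈ J, ∃ d : ℕ → Θ, (∀ i < j, d i = 1) ∧ x = y * S.δ d}
      one_mem' := ⟨1, J.one_mem, 1, fun _ _ => rfl, by simp⟩
      mul_mem' := by
        rintro a b ⟨y, hy, d, hd, rfl⟩ ⟨y', hy', d', hd', rfl⟩
        refine ⟨y * (S.δ d * y' * (S.δ d)⁻¹), J.mul_mem hy (hnorm d hd y' hy'), d * d', ?_, ?_⟩
        · intro i hi
          simp [hd i hi, hd' i hi]
        · rw [map_mul]; group
      inv_mem' := by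
        rintro a ⟨y, hy, d, hd, rfl⟩
        have hd' : ∀ i < j, d⁻¹ i = 1 := by
          intro i hi
          simp [hd i hi]
        refine ⟨S.δ d⁻¹ * y⁻¹ * (S.δ d⁻¹)⁻¹, hnorm _ hd' _ (J.inv_mem hy), d⁻¹, hd', ?_⟩
        rw [map_inv]; group }
  have hMP : M ≤ P := by
    intro m hm
    obtain ⟨k', hk', d, rfl⟩ := S.hG m
    set d'' : ℕ → Θ := fun i => if i < j then 1 else d i with hd''
    have hd2 : ∀ i < j, d'' i = 1 := fun i hi => by simp [hd'', hi]
    have h1 : S.δ (d * d''⁻¹) ∈ S.K := by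
      apply T08_delta_fin_mem S j
      intro i hi
      simp [hd'', not_lt.2 hi]
    refine ⟨k' * S.δ (d * d''⁻¹), hLJ ⟨?_, S.K.mul_mem hk' h1⟩, d'', hd2, ?_⟩
    · have : k' * S.δ (d * d''⁻¹) = k' * S.δ d * (S.δ d'')⁻¹ := by
        rw [map_mul, map_inv, mul_assoc]
      rw [this]
      exact M.mul_mem hm (M.inv_mem (htM _ hd2))
    · rw [map_mul, map_inv]; group
  have hkP : k ∈ P := ⟨k, hkJ, 1, fun _ _ => rfl, by simp⟩
  have hPtop : P = ⊤ := by
    apply hM.2
    refine lt_of_le_of_ne hMP ?_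
    intro h
    exact hkM (h ▸ hkP)
  have hKJ : S.K ≤ J := by
    intro x hx
    have hxP : x ∈ P := hPtop ▸ Subgroup.mem_top x
    obtain ⟨y, hy, d, hd, rfl⟩ := hxP
    have h1 : S.δ d ∈ S.K := by
      have := S.K.mul_mem (S.K.inv_mem (hJK hy)) hx
      simpa using this
    exact J.mul_mem hy (hLJ ⟨htM d hd, h1⟩)
  have hLK : L = S.K := by
    apply S.hC L inf_le_right
    · refine ⟨n0, fun m hm t => ⟨htail _ fun i hi => ?_, S.hsingle _ _⟩⟩
      exact Pi.mulSingle_eq_of_ne (by omega) _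
    · exact ⟨k, hkK, hKJ⟩
  exact hkM (by
    have : k ∈ L := hLK ▸ hkK
    exact this.1)

end Pool.Agent.H332R3
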