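import Pool.Agent.H332R3.Defs2

set_option autoImplicit false

namespace Pool.Agent.H332R3

open scoped ComplexConjugate

theorem T09_comm {G Θ : Type} [Group G] [CommGroup Θ] (S : Setup G Θ) (a b : G) :
    a⁻¹ * b⁻¹ * a * b ∈ S.K := by
  have := S.normal
  rw [← QuotientGroup.eq_one_iff]
  have h : ∀ g : G, ∃ d, (g : G ⧸ S.K) = (S.δ d : G) := by
    intro g
    obtain ⟨k, hk, d, rfl⟩ := S.hG g
    refine ⟨d, ?_⟩
    rw [QuotientGroup.mk_mul, (QuotientGroup.eq_one_iff k).2 hk, one_mul]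
  obtain ⟨d, hd⟩ := h a
  obtain ⟨d', hd'⟩ := h b
  have hc : (a : G ⧸ S.K) * b = b * a := by
    rw [hd, hd', ← QuotientGroup.mk_mul, ← QuotientGroup.mk_mul, ← map_mul, ← map_mul, mul_comm]
  rw [QuotientGroup.mk_mul, QuotientGroup.mk_mul, QuotientGroup.mk_mul, QuotientGroup.mk_inv,
    QuotientGroup.mk_inv, mul_assoc, hc]
  group

theorem T09_part1 {G Θ : Type} [Group G] [CommGroup Θ] (S : Setup G Θ)
    {M : Subgroup G} (hM : IsCoatom M) :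
    ∀ J : Subgroup G, M ⊓ S.K ≤ J → J ≤ S.K → (∀ m ∈ M, ∀ x ∈ J, m * x * m⁻¹ ∈ J) →
      J = M ⊓ S.K ∨ J = S.K := by
  intro J hLJ hJK hMJ
  let P : Subgroup G :=
    { carrier := {x | ∃ y ∈ J, ∃ m ∈ M, x = y * m}
      one_mem' := ⟨1, J.one_mem, 1, M.one_mem, by simp⟩
      mul_mem' := by
        rintro _ _ ⟨y, hy, m, hm, rfl⟩ ⟨y', hy', m', hm', rfl⟩
        exact ⟨y * (m * y' * m⁻¹), J.mul_mem hy (hMJ m hm y' hy'), m * m', M.mul_mem hm hm',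
          by group⟩
      inv_mem' := by
        rintro _ ⟨y, hy, m, hm, rfl⟩
        refine ⟨m⁻¹ * y⁻¹ * m⁻¹⁻¹, hMJ m⁻¹ (M.inv_mem hm) y⁻¹ (J.inv_mem hy), m⁻¹, M.inv_mem hm, ?_⟩
        group }
  have hMP : M ≤ P := fun m hm => ⟨1, J.one_mem, m, hm, by simp⟩
  rcases hMP.eq_or_lt with h | h
  · left
    refine le_antisymm (fun x hx => ⟨?_, hJK hx⟩) hLJ
    rw [h]
    exact ⟨x, hx, 1, M.one_mem, by simp⟩
  · right
    have hP := hM.2 P h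
    refine le_antisymm hJK fun x hx => ?_
    have hxP : x ∈ P := by rw [hP]; trivial
    obtain ⟨y, hy, m, hm, rfl⟩ := hxP
    refine J.mul_mem hy (hLJ ⟨hm, ?_⟩)
    have := S.K.mul_mem (S.K.inv_mem (hJK hy)) hx
    rwa [inv_mul_cancel_left] at this

theorem setup_caseB1 {G Θ : Type} [Group G] [CommGroup Θ] [Countable Θ] (S : Setup G Θ)
    {M : Subgroup G} (hM : IsCoatom M) (hKM : ¬ S.K ≤ M) (hL : (M ⊓ S.K).Normal) :
    (∀ J : Subgroup G, M ⊓ S.K ≤ J → J ≤ S.K → (∀ m ∈ M, ∀ x ∈ J, m * x * m⁻¹ ∈ J) →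
      J = M ⊓ S.K ∨ J = S.K) ∧
    (∃ n, ∀ d : ℕ → Θ, (∀ i < n, d i = 1) → S.δ d ∈ M →
      ∀ x ∈ S.K, S.δ d * x * (S.δ d)⁻¹ * x⁻¹ ∈ M ⊓ S.K) := by
  have h1 := T09_part1 S hM
  refine ⟨h1, ?_⟩
  obtain ⟨k, hkK, hkM⟩ := SetLike.not_le_iff_exists.1 hKM
  obtain ⟨n, hn⟩ := S.hcomm k hkK
  refine ⟨n, ?_⟩
  set L := M ⊓ S.K with hLdef
  have hconj : ∀ g x : G, x ∈ L → g * x * g⁻¹ ∈ L := fun g x hx => hL.conj_mem x hx g
  let J : Subgroup G :=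
    { carrier := {x | x ∈ S.K ∧ ∀ d : ℕ → Θ, (∀ i < n, d i = 1) → S.δ d ∈ M →
        S.δ d * x * (S.δ d)⁻¹ * x⁻¹ ∈ L}
      one_mem' := ⟨S.K.one_mem, fun d _ _ => by simp⟩
      mul_mem' := by
        rintro x y ⟨hx, hx'⟩ ⟨hy, hy'⟩
        refine ⟨S.K.mul_mem hx hy, fun d hd hdM => ?_⟩
        have h2 := L.mul_mem (hx' d hd hdM) (hconj x _ (hy' d hd hdM))
        have h3 : S.δ d * x * (S.δ d)⁻¹ * x⁻¹ * (x * (S.δ d * y * (S.δ d)⁻¹ * y⁻¹) * x⁻¹) =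
            S.δ d * (x * y) * (S.δ d)⁻¹ * (x * y)⁻¹ := by group
        rwa [h3] at h2
      inv_mem' := by
        rintro x ⟨hx, hx'⟩
        refine ⟨S.K.inv_mem hx, fun d hd hdM => ?_⟩
        have h2 := hconj x⁻¹ _ (L.inv_mem (hx' d hd hdM))
        have h3 : x⁻¹ * (S.δ d * x * (S.δ d)⁻¹ * x⁻¹)⁻¹ * x⁻¹⁻¹ =
            S.δ d * x⁻¹ * (S.δ d)⁻¹ * x⁻¹⁻¹ := by group
        rwa [h3] at h2 }
  have hmem : ∀ x, x ∈ J ↔ x ∈ S.K ∧ ∀ d : ℕ → Θ, (∀ i < n, d i = 1) → S.δ d ∈ M →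
        S.δ d * x * (S.δ d)⁻¹ * x⁻¹ ∈ L := fun x => Iff.rfl
  have hJ1 : L ≤ J := by
    intro x hx
    refine ⟨hx.2, fun d _ _ => ?_⟩
    exact L.mul_mem (hconj _ x hx) (L.inv_mem hx)
  have hJ2 : J ≤ S.K := by
    intro x hx
    exact hx.1
  have hJ3 : ∀ m ∈ M, ∀ x ∈ J, m * x * m⁻¹ ∈ J := by
    rintro m hm x ⟨hx, hx'⟩
    refine ⟨S.normal.conj_mem x hx m, fun d hd hdM => ?_⟩
    set b := S.δ d with hb
    have hc : b⁻¹ * m⁻¹ * b * m ∈ L :=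
      ⟨M.mul_mem (M.mul_mem (M.mul_mem (M.inv_mem hdM) (M.inv_mem hm)) hdM) hm,
        T09_comm S b m⟩
    set c := b⁻¹ * m⁻¹ * b * m with hcdef
    have h2 : c * (x * c⁻¹ * x⁻¹) ∈ L := L.mul_mem hc (hconj x _ (L.inv_mem hc))
    have h3 := hconj m _ (L.mul_mem (hconj b _ h2) (hx' d hd hdM))
    have h4 : m * (b * (c * (x * c⁻¹ * x⁻¹)) * b⁻¹ * (b * x * b⁻¹ * x⁻¹)) * m⁻¹ =
        b * (m * x * m⁻¹) * b⁻¹ * (m * x * m⁻¹)⁻¹ := by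
      rw [hcdef]
      group
    rwa [← hb, h4] at h3
  have hJ : J = S.K := by
    rcases h1 J hJ1 hJ2 hJ3 with h | h
    · exfalso
      have hk : k ∈ J := by
        refine ⟨hkK, fun d hd _ => ?_⟩
        rw [hn d hd]
        have : k * S.δ d * (S.δ d)⁻¹ * k⁻¹ = 1 := by group
        rw [this]
        exact L.one_mem
      rw [h] at hk
      exact hkM hk.1
    · exact h
  intro d hd hdM x hx
  rw [← hJ] at hx
  exact hx.2 d hd hdM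

end Pool.Agent.H332R3
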