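import Pool.Agent.H332R3.Defs2

set_option autoImplicit false

namespace Pool.Agent.H332R3

open scoped ComplexConjugate

lemma T10_trunc {G Θ : Type} [Group G] [CommGroup Θ] (S : Setup G Θ) (d : ℕ → Θ) (n : ℕ) :
    S.δ (fun i => if i < n then d i else 1) ∈ S.K := by
  induction n with
  | zero =>
    have : (fun i => if i < 0 then d i else 1) = (1 : ℕ → Θ) := by
      funext i
      simp
    rw [this, map_one]
    exact S.K.one_mem
  | succ n ih =>
    have : (fun i => if i < n + 1 then d i else 1) =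
        (fun i => if i < n then d i else 1) * Pi.mulSingle n (d n) := by
      funext i
      rw [Pi.mul_apply]
      rcases lt_trichotomy i n with h | h | h
      · rw [if_pos (by omega), if_pos h, Pi.mulSingle_eq_of_ne (by omega), mul_one]
      · subst h
        rw [if_pos (by omega), if_neg (by omega), Pi.mulSingle_eq_same, one_mul]
      · rw [if_neg (by omega), if_neg (by omega), Pi.mulSingle_eq_of_ne (by omega), mul_one]
    rw [this, map_mul]
    exact S.K.mul_mem ih (S.hsingle n (d n))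

theorem setup_caseB2 {G Θ : Type} [Group G] [CommGroup Θ] [Countable Θ] (S : Setup G Θ)
    {M : Subgroup G} (hM : IsCoatom M) (hKM : ¬ S.K ≤ M) (hL : (M ⊓ S.K).Normal)
    (hJ : ∀ J : Subgroup G, M ⊓ S.K ≤ J → J ≤ S.K → (∀ m ∈ M, ∀ x ∈ J, m * x * m⁻¹ ∈ J) →
      J = M ⊓ S.K ∨ J = S.K)
    {n1 : ℕ} (htriv : ∀ d : ℕ → Θ, (∀ i < n1, d i = 1) →
      ∀ x ∈ S.K, S.δ d * x * (S.δ d)⁻¹ * x⁻¹ ∈ M ⊓ S.K) : False := by
  set L : Subgroup G := M ⊓ S.K with hLdef
  have hLK : L ≤ S.K := inf_le_right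
  have hLM : L ≤ M := inf_le_left
  let π : G →* G ⧸ L := QuotientGroup.mk' L
  have hπ : ∀ x, π x = 1 ↔ x ∈ L := fun x => QuotientGroup.eq_one_iff x
  let C : Subgroup G := (Subgroup.centralizer (π '' (S.K : Set G))).comap π
  have hCmem : ∀ g, g ∈ C ↔ ∀ y ∈ S.K, π y * π g = π g * π y := by
    intro g
    constructor
    · intro hg y hy
      have h1 : π g ∈ Subgroup.centralizer (π '' (S.K : Set G)) := hg
      rw [Subgroup.mem_centralizer_iff] at h1
      exact h1 _ ⟨y, hy, rfl⟩
    · intro hg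
      change π g ∈ Subgroup.centralizer (π '' (S.K : Set G))
      rw [Subgroup.mem_centralizer_iff]
      rintro _ ⟨y, hy, rfl⟩
      exact hg y hy
  have hCof : ∀ g, (∀ y ∈ S.K, g * y * g⁻¹ * y⁻¹ ∈ L) → g ∈ C := by
    intro g hg
    rw [hCmem]
    intro y hy
    have h1 := (hπ _).2 (hg y hy)
    rw [map_mul, map_mul, map_mul, map_inv, map_inv] at h1
    have h2 : π g * π y * (π g)⁻¹ = π y := mul_inv_eq_one.1 h1
    rw [mul_inv_eq_iff_eq_mul] at h2
    exact h2.symm
  -- `K ≤ C`
  have hKC : S.K ≤ C := by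
    have hZ : S.K ⊓ C = S.K := by
      apply S.hnorm (S.K ⊓ C) inf_le_left
      · intro k hk x hx
        refine ⟨S.K.mul_mem (S.K.mul_mem hk hx.1) (S.K.inv_mem hk), ?_⟩
        have h1 := (hCmem x).1 hx.2 k hk
        have h2 : π (k * x * k⁻¹) = π x := by
          rw [map_mul, map_mul, map_inv, h1, mul_inv_cancel_right]
        change k * x * k⁻¹ ∈ C
        rw [hCmem]
        intro y hy
        rw [h2]
        exact (hCmem x).1 hx.2 y hy
      · refine ⟨n1, fun n hn t => ⟨S.hsingle n t, ?_⟩⟩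
        apply hCof
        apply htriv
        intro i hi
        have hne : i ≠ n := ne_of_lt (lt_of_lt_of_le hi hn)
        simp [Pi.mulSingle_apply, hne]
    rw [← hZ]
    exact inf_le_right
  -- `C = ⊤`
  have hC : ∀ g : G, g ∈ C := by
    intro g
    obtain ⟨k, hk, d, rfl⟩ := S.hG g
    have h1 : d = (fun i => if i < n1 then d i else 1) * (fun i => if i < n1 then 1 else d i) := by
      funext i
      rw [Pi.mul_apply]
      split_ifs <;> simp
    rw [h1, map_mul]
    refine C.mul_mem (hKC hk) (C.mul_mem (hKC (T10_trunc S d n1)) ?_)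
    apply hCof
    apply htriv
    intro i hi
    simp [hi]
  -- the subgroups between `L` and `K`
  have hgen : ∀ x ∈ S.K, π x ≠ 1 → ∀ y ∈ S.K, ∃ i : ℤ, π y = π x ^ i := by
    intro x hx hx1 y hy
    have h1 : L ⊔ Subgroup.zpowers x = L ∨ L ⊔ Subgroup.zpowers x = S.K := by
      apply hJ _ le_sup_left
      · refine sup_le hLK ?_
        rw [Subgroup.zpowers_le]
        exact hx
      · intro m _ z hz
        have hzK : z ∈ S.K := by
          have h2 : L ⊔ Subgroup.zpowers x ≤ S.K := by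
            refine sup_le hLK ?_
            rw [Subgroup.zpowers_le]
            exact hx
          exact h2 hz
        have h3 : m * z * m⁻¹ * z⁻¹ ∈ L := by
          rw [← hπ, map_mul, map_mul, map_mul, map_inv, map_inv]
          have h4 := (hCmem m).1 (hC m) z hzK
          rw [← h4, mul_inv_cancel_right, mul_inv_cancel]
        have h5 : m * z * m⁻¹ = (m * z * m⁻¹ * z⁻¹) * z := by group
        rw [h5]
        exact Subgroup.mul_mem _ ((le_sup_left : L ≤ L ⊔ Subgroup.zpowers x) h3) hz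
    rcases h1 with h1 | h1
    · exfalso
      apply hx1
      rw [hπ, ← h1]
      exact (le_sup_right : Subgroup.zpowers x ≤ L ⊔ Subgroup.zpowers x)
        (Subgroup.mem_zpowers x)
    · rw [← h1] at hy
      have h2 : π y ∈ (L ⊔ Subgroup.zpowers x).map π := Subgroup.mem_map_of_mem π hy
      rw [Subgroup.map_sup] at h2
      have h3 : L.map π = ⊥ := by
        rw [Subgroup.map_eq_bot_iff]
        intro z hz
        rw [MonoidHom.mem_ker]
        exact (hπ z).2 hz
      rw [h3, bot_sup_eq, MonoidHom.map_zpowers, Subgroup.mem_zpowers_iff] at h2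
      obtain ⟨i, hi⟩ := h2
      exact ⟨i, hi.symm⟩
  -- a generator outside of `L`
  obtain ⟨T, hT, hroot⟩ := S.hgen
  obtain ⟨s, hsT, hsL⟩ : ∃ s ∈ T, s ∉ L := by
    by_contra hcon
    push Not at hcon
    apply hKM
    rw [← hT, Subgroup.closure_le]
    intro s hs
    exact hLM (hcon s hs)
  have hsK : s ∈ S.K := by
    rw [← hT]
    exact Subgroup.subset_closure hsT
  have hs1 : π s ≠ 1 := fun h => hsL ((hπ s).1 h)
  obtain ⟨n, hn, hsn⟩ : ∃ n : ℕ, 1 ≤ n ∧ π s ^ n = 1 := by
    by_cases h2 : π (s ^ 2) = 1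
    · exact ⟨2, by norm_num, by rw [← map_pow]; exact h2⟩
    · obtain ⟨i, hi⟩ := hgen (s ^ 2) (S.K.pow_mem hsK 2) h2 s hsK
      have h3 : π s ^ (2 * i - 1) = 1 := by
        rw [zpow_sub, zpow_mul, zpow_one, mul_inv_eq_one]
        rw [map_pow] at hi
        have h4 : (π s ^ (2 : ℤ)) = π s ^ (2 : ℕ) := by norm_cast
        rw [h4]
        exact hi.symm
      refine ⟨(2 * i - 1).natAbs, by omega, ?_⟩
      rcases Int.natAbs_eq (2 * i - 1) with h5 | h5
      · rw [h5, zpow_natCast] at h3
        exact h3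
      · rw [h5, zpow_neg, zpow_natCast, inv_eq_one] at h3
        exact h3
  obtain ⟨r, hr, hrs⟩ := hroot s hsT n hn
  obtain ⟨j, hj⟩ := hgen s hsK hs1 r hr
  apply hs1
  rw [← hrs, map_pow, hj, ← zpow_natCast, ← zpow_mul, mul_comm, zpow_mul, zpow_natCast, hsn,
    one_zpow]

end Pool.Agent.H332R3
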