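import Pool.Agent.H332R3.Defs2

set_option autoImplicit false

namespace Pool.Agent.H332R3

open scoped ComplexConjugate

theorem HH_of (A : Arith) {L : Subgroup (E ≃ₗ[ℂ] E)} {n0 k0 : ℕ} (hn0 : 1 ≤ n0)
    (hx : ∀ x ∈ KK A, ∀ j, n0 ≤ j → ∃ z : E, InR A L z ∧ ∀ m, A.lev k0 (z m - x (e j) m)) :
    HH A L n0 k0 := by
  intro j hj i hij q
  -- constants
  have hW1 : 1 < A.w (q + 1) := A.w_gt _
  have hWsq : A.w (q + 1) ^ 2 = A.w q := A.w_sq q
  have hw3 : A.w q ≤ 3 := A.w_le q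
  have hW3 : A.w (q + 1) ≤ 3 := A.w_le _
  set W : ℝ := A.w (q + 1) with hWdef
  have hWO : (W : ℂ) ∈ A.O := A.w_mem (q + 1)
  have hWlev : A.lev (q + 1) (W : ℂ) := A.lev_w (q + 1)
  have hWI : A.I (W : ℂ) := ⟨_, hWlev⟩
  have h8 : (1 / 8 : ℂ) ∈ A.O := by
    have := A.O.mul_mem A.half_mem (A.O.mul_mem A.half_mem A.half_mem)
    have h2 : (1 / 2 : ℂ) * (1 / 2 * (1 / 2)) = 1 / 8 := by norm_num
    rwa [h2] at this
  have h4 : (1 / 4 : ℂ) ∈ A.O := by
    have := A.O.mul_mem A.half_mem A.half_mem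
    have h2 : (1 / 2 : ℂ) * (1 / 2) = 1 / 4 := by norm_num
    rwa [h2] at this
  have h32 : (1 / 32 : ℂ) ∈ A.O := by
    have := A.O.mul_mem h4 h8
    have h2 : (1 / 4 : ℂ) * (1 / 8) = 1 / 32 := by norm_num
    rwa [h2] at this
  have h64 : (1 / 64 : ℂ) ∈ A.O := by
    have := A.O.mul_mem h8 h8
    have h2 : (1 / 8 : ℂ) * (1 / 8) = 1 / 64 := by norm_num
    rwa [h2] at this
  have h32' : (32 : ℂ) ∈ A.O := by
    have := natCast_mem A.O 32
    simpa using this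
  -- t
  have hx0 : 0 ≤ 1 - W ^ 2 / 64 := by rw [hWsq]; linarith
  set t : ℝ := Real.sqrt (1 - W ^ 2 / 64) with htdef
  have ht2 : t ^ 2 = 1 - W ^ 2 / 64 := Real.sq_sqrt hx0
  have ht2c : (t : ℂ) ^ 2 = 1 - (W : ℂ) ^ 2 / 64 := by
    rw [← Complex.ofReal_pow, ht2]; push_cast; ring
  have htO : (t : ℂ) ∈ A.O := by
    apply A.sqrt_mem _ hx0
    have : ((1 - W ^ 2 / 64 : ℝ) : ℂ) = 1 - (W : ℂ) * W * (1 / 64) := by push_cast; ring
    rw [this]
    exact A.O.sub_mem A.O.one_mem (A.O.mul_mem (A.O.mul_mem hWO hWO) h64)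
  -- ε
  have hε : ∃ ε : ℂ, ε ∈ A.O ∧ ε * ε = 1 ∧ A.I (ε * t - 1) := by
    have hsq : ∃ y ∈ A.O, (t : ℂ) ^ 2 - 1 = (A.w (q + 1) : ℂ) * y := by
      refine ⟨-(W * (1 / 64)), A.O.neg_mem (A.O.mul_mem hWO h64), ?_⟩
      rw [ht2c]; ring
    rcases A.sq_one (q + 1) (t : ℂ) htO (Or.inl (Complex.conj_ofReal t)) hsq with hh | hh
    · refine ⟨1, A.O.one_mem, by ring, ⟨q + 1, ?_⟩⟩
      rw [one_mul]; exact hh
    · refine ⟨-1, A.O.neg_mem A.O.one_mem, by ring, ⟨q + 1, ?_⟩⟩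
      have : (-1 : ℂ) * t - 1 = -(t + 1) := by ring
      rw [this]
      exact Arith.lev_neg hh
  obtain ⟨ε, hεO, hεε, hεI⟩ := hε
  -- the unit b = t + i W / 8
  set b : ℂ := t + Complex.I * W * (1 / 8) with hbdef
  have hbO : b ∈ A.O := A.O.add_mem htO (A.O.mul_mem (A.O.mul_mem A.I_mem hWO) h8)
  have hεb : A.I (ε * b - 1) := by
    have : ε * b - 1 = (ε * t - 1) + (ε * Complex.I * (1 / 8)) * W := by rw [hbdef]; ring
    rw [this]
    exact Arith.I_add hεI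
      (Arith.I_mul_left (A.O.mul_mem (A.O.mul_mem hεO A.I_mem) h8) hWI)
  have hb0 : b ≠ 0 := by
    have := (Arith.unit_of_I' hεb).1
    exact right_ne_zero_of_mul this
  have hε0 : ε ≠ 0 := left_ne_zero_of_mul (Arith.unit_of_I' hεb).1
  have hbinv : b⁻¹ ∈ A.O := by
    have h1 := A.O.mul_mem hεO (Arith.unit_of_I' hεb).2
    have h2 : ε * (ε * b)⁻¹ = b⁻¹ := by field_simp
    rwa [h2] at h1
  -- lam
  set lam : ℂ := 1 + W * (1 / 4) * Complex.I * b with hlamdef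
  have hlamI : A.I (lam - 1) := by
    have : lam - 1 = ((1 / 4) * Complex.I * b) * W := by rw [hlamdef]; ring
    rw [this]
    exact Arith.I_mul_left (A.O.mul_mem (A.O.mul_mem h4 A.I_mem) hbO) hWI
  have hlamn : ‖lam‖ = 1 := by
    have hl : lam = ((1 - W ^ 2 / 32 : ℝ) : ℂ) + ((W * t / 4 : ℝ) : ℂ) * Complex.I := by
      rw [hlamdef, hbdef]; push_cast
      linear_combination ((W : ℂ) ^ 2 / 32) * Complex.I_sq
    have h1 : ‖lam‖ ^ 2 = 1 := by
      rw [← Complex.normSq_eq_norm_sq, hl, Complex.normSq_add_mul_I]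
      have : (1 - W ^ 2 / 32) ^ 2 + (W * t / 4) ^ 2
          = (1 - W ^ 2 / 32) ^ 2 + W ^ 2 * t ^ 2 / 16 := by ring
      rw [this, ht2]; ring
    have h2 : (‖lam‖ - 1) * (‖lam‖ + 1) = 0 := by linear_combination h1
    rcases mul_eq_zero.mp h2 with h3 | h3
    · linarith
    · have := norm_nonneg lam; linarith
  have hTh : A.Th lam := ⟨hlamn, hlamI⟩
  -- tau
  set τ : ℂ := (W : ℂ) * (1 / 8) with hτdef
  have hτI : A.I τ := Arith.I_mul_right hWI h8
  have hτn : ‖τ‖ ≤ 1 / 2 := by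
    rw [hτdef, norm_mul, Complex.norm_real, Real.norm_of_nonneg (by linarith)]
    have : ‖(1 / 8 : ℂ)‖ = 1 / 8 := by norm_num
    rw [this]; linarith
  have hτconj : conj τ = τ := by
    have : τ = ((W * (1 / 8) : ℝ) : ℂ) := by rw [hτdef]; push_cast; ring
    rw [this, Complex.conj_ofReal]
  -- the vector v
  have hj1 : 1 ≤ j := le_trans hn0 hj
  have hsgj : sg j = 1 := by unfold sg; rw [if_neg (by omega)]
  set v : E := e j + τ • e i with hvdef
  have hvj : v j = 1 := by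
    rw [hvdef, Finsupp.add_apply, Finsupp.smul_apply, e_self, e_ne hij]; simp
  set Y : ℂ := τ * τ * sg i with hYdef
  have hsgO : ((sg i : ℝ) : ℂ) ∈ A.O := by
    unfold sg; split_ifs
    · push_cast; exact A.O.neg_mem A.O.one_mem
    · push_cast; exact A.O.one_mem
  have hYI : A.I Y := by
    rw [hYdef]
    exact Arith.I_mul_right (Arith.I_mul_right hτI (Arith.I_mem' hτI)) hsgO
  have hhv : h v v = 1 + Y := by
    rw [hvdef, h_add_left, h_add_right, h_add_right, h_smul_left, h_smul_left, h_smul_right,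
      h_smul_right, h_e_self, h_e_self, h_e_e hij, h_e_e (Ne.symm hij), hτconj, hsgj, hYdef]
    push_cast; ring
  have hY1 := Arith.unit_of_I hYI
  have hhv0 : h v v ≠ 0 := by rw [hhv]; exact hY1.1
  have hhjv : h (e j) v = 1 := by
    rw [h_e_left, hvj, hsgj]; simp
  have hlam0 : lam ≠ 0 := Arith.Th_ne_zero hTh
  have hxK : R v lam ∈ KK A := by
    apply Subgroup.subset_closure
    exact ⟨j, i, τ, lam, hj1, hij, hτI, hτn, hTh, fun x => R_apply hhv0 hlam0 x⟩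
  obtain ⟨z, hz, hzm⟩ := hx (R v lam) hxK j hj
  have hxe : ∀ m, (R v lam) (e j) m = e j m + ((lam - 1) * (1 + Y)⁻¹) * v m := by
    intro m
    rw [R_apply hhv0 hlam0, Rf_apply, hhjv, hhv, Finsupp.add_apply, Finsupp.smul_apply,
      smul_eq_mul, mul_one, div_eq_mul_inv]
  have hz' : ∀ m, A.lev k0 (z m - (e j m + ((lam - 1) * (1 + Y)⁻¹) * v m)) := by
    intro m; rw [← hxe]; exact hzm m
  -- z j
  have hzj : A.I (z j - 1) := by
    have h1 := hz' j
    rw [hvj, e_self, mul_one] at h1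
    have h2 : z j - 1 = (z j - (1 + (lam - 1) * (1 + Y)⁻¹)) + (lam - 1) * (1 + Y)⁻¹ := by ring
    rw [h2]
    exact Arith.I_add ⟨k0, h1⟩ (Arith.I_mul_right hlamI hY1.2)
  have hzj' := Arith.unit_of_I' hzj
  have hzjO := Arith.mem_of_I' hzj
  set u : ℂ := (z j)⁻¹ * (1 + Y)⁻¹ * ((1 / 32) * Complex.I) * b with hudef
  have huO : u ∈ A.O :=
    A.O.mul_mem (A.O.mul_mem (A.O.mul_mem hzj'.2 hY1.2) (A.O.mul_mem h32 A.I_mem)) hbO
  have hI0 : Complex.I ≠ 0 := Complex.I_ne_zero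
  have hu0 : u ≠ 0 := by
    rw [hudef]
    refine mul_ne_zero (mul_ne_zero (mul_ne_zero (inv_ne_zero hzj'.1) (inv_ne_zero hY1.1)) ?_) hb0
    exact mul_ne_zero (by norm_num) hI0
  have huinv : u⁻¹ ∈ A.O := by
    have h1 : u⁻¹ = (z j) * (1 + Y) * (32 * (-Complex.I)) * b⁻¹ := by
      rw [hudef]
      rw [mul_inv, mul_inv, mul_inv, inv_inv, inv_inv, mul_inv, Complex.inv_I]
      norm_num
    rw [h1]
    refine A.O.mul_mem (A.O.mul_mem (A.O.mul_mem hzjO ?_) ?_) hbinv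
    · exact A.O.add_mem A.O.one_mem (Arith.I_mem' hYI)
    · exact A.O.mul_mem h32' (A.O.neg_mem A.I_mem)
  -- y
  have hyn : ∀ n, ((z j)⁻¹ • z - e j : E) n = (z j)⁻¹ * z n - e j n := by
    intro n; rw [Finsupp.sub_apply, Finsupp.smul_apply, smul_eq_mul]
  have hvn : ∀ n, n ≠ i → n ≠ j → v n = 0 := by
    intro n hni hnj
    rw [hvdef, Finsupp.add_apply, Finsupp.smul_apply, e_ne (Ne.symm hnj), e_ne (Ne.symm hni)]
    simp
  have hvi : v i = τ := by
    rw [hvdef, Finsupp.add_apply, Finsupp.smul_apply, e_self, e_ne (Ne.symm hij)]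
    simp
  have hlevne : ∀ n, n ≠ i → A.lev k0 (((z j)⁻¹ • z - e j : E) n) := by
    intro n hni
    rw [hyn]
    by_cases hnj : n = j
    · subst hnj
      rw [e_self, inv_mul_cancel₀ hzj'.1, sub_self]
      exact Arith.lev_zero k0
    · have h1 := hz' n
      rw [hvn n hni hnj, e_ne (Ne.symm hnj), mul_zero, add_zero, sub_zero] at h1
      rw [e_ne (Ne.symm hnj), sub_zero]
      exact Arith.lev_mul_left hzj'.2 h1
  have hlevi : A.lev k0 (((z j)⁻¹ • z - e j : E) i - u * A.w q) := by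
    rw [hyn]
    have h1 := hz' i
    rw [hvi, e_ne (Ne.symm hij), zero_add] at h1
    rw [e_ne (Ne.symm hij), sub_zero]
    have h2 : (z j)⁻¹ * z i - u * A.w q
        = (z j)⁻¹ * (z i - (lam - 1) * (1 + Y)⁻¹ * τ) := by
      rw [hudef, hlamdef, hτdef, ← hWsq]; push_cast; ring
    rw [h2]
    exact Arith.lev_mul_left hzj'.2 h1
  refine ⟨(z j)⁻¹ • z - e j, u, ?_, ?_, huO, huinv, hu0, hlevi, hlevne, ?_⟩
  · rw [hyn, e_self, inv_mul_cancel₀ hzj'.1, sub_self]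
  · intro n
    by_cases hni : n = i
    · subst hni
      have h1 : ((z j)⁻¹ • z - e j : E) n
          = (((z j)⁻¹ • z - e j : E) n - u * A.w q) + u * A.w q := by ring
      rw [h1]
      exact Arith.I_add ⟨k0, hlevi⟩ ⟨q, Arith.lev_mul_left huO (Arith.lev_w q)⟩
    · exact ⟨k0, hlevne n hni⟩
  · have : e j + ((z j)⁻¹ • z - e j : E) = (z j)⁻¹ • z := by abel
    rw [this]
    exact hz.smul (inv_ne_zero hzj'.1)

end Pool.Agent.H332R3
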