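import Pool.Agent.H332R3.Defs2

set_option autoImplicit false

namespace Pool.Agent.H332R3

open scoped ComplexConjugate

/-- vectors with entries in `𝒪` -/
def T26_Ov (A : Arith) (x : E) : Prop := ∀ n, x n ∈ A.O

/-- `g ≡ 1 mod ϖ_{k0}` on vectors with entries in `𝒪` -/
def T26_B (A : Arith) (k0 : ℕ) (g : E ≃ₗ[ℂ] E) : Prop :=
  ∀ x, T26_Ov A x → ∀ m, A.lev k0 ((g x) m - x m)

lemma T26_apply_inv (g : E ≃ₗ[ℂ] E) (x : E) : g (g⁻¹ x) = x := by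
  rw [← LinearEquiv.mul_apply]; simp

lemma T26_inv_apply (g : E ≃ₗ[ℂ] E) (x : E) : g⁻¹ (g x) = x := by
  rw [← LinearEquiv.mul_apply]; simp

lemma T26_sg_mem (A : Arith) (n : ℕ) : ((sg n : ℝ) : ℂ) ∈ A.O := by
  unfold sg
  split_ifs
  · push_cast
    exact A.O.neg_mem A.O.one_mem
  · push_cast
    exact A.O.one_mem

lemma T26_e (A : Arith) (j : ℕ) : T26_Ov A (e j) := by
  intro n
  rw [e_apply]
  split_ifs
  · exact A.O.one_mem
  · exact A.O.zero_mem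

lemma T26_hv {j l : ℕ} (hj : 1 ≤ j) (hlj : l ≠ j) (τ : ℂ) :
    h (e j + τ • e l) (e j + τ • e l) = 1 + (sg l : ℂ) * (τ * conj τ) := by
  have hsj : sg j = 1 := by
    unfold sg
    rw [if_neg (by omega)]
  rw [h_add_left, h_add_right, h_add_right, h_smul_left, h_smul_left, h_smul_right, h_smul_right,
    h_e_self, h_e_self, h_e_e hlj, h_e_e hlj.symm, hsj]
  push_cast
  ring

lemma T26_gen (A : Arith) {g : E ≃ₗ[ℂ] E} (hg : g ∈ KS A) : ∃ k0, T26_B A k0 g := by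
  obtain ⟨j, l, τ, c, hj, hlj, hτ, -, hc, hgx⟩ := hg
  obtain ⟨k0, hk0⟩ := hc.2
  refine ⟨k0, ?_⟩
  intro x hx m
  have hI : A.I ((sg l : ℂ) * (τ * conj τ)) :=
    Arith.I_mul_left (T26_sg_mem A l) (Arith.I_mul_left (Arith.I_mem' hτ) (Arith.I_conj hτ))
  have hu := (Arith.unit_of_I hI).2
  have hxv : h x (e j + τ • e l) ∈ A.O := by
    rw [h_add_right, h_smul_right, h_e_right, h_e_right]
    exact A.O.add_mem (A.O.mul_mem (T26_sg_mem A j) (hx j))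
      (A.O.mul_mem (Arith.I_mem' (Arith.I_conj hτ)) (A.O.mul_mem (T26_sg_mem A l) (hx l)))
  have hvm : (e j + τ • e l) m ∈ A.O := by
    rw [Finsupp.add_apply, Finsupp.smul_apply, smul_eq_mul]
    exact A.O.add_mem (T26_e A j m) (A.O.mul_mem (Arith.I_mem' hτ) (T26_e A l m))
  have h1 : (g x) m - x m = (c - 1) * (h x (e j + τ • e l) *
      (1 + (sg l : ℂ) * (τ * conj τ))⁻¹ * (e j + τ • e l) m) := by
    rw [hgx, Rf_apply, T26_hv hj hlj, Finsupp.add_apply x, Finsupp.smul_apply _ (e j + τ • e l),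
      smul_eq_mul]
    ring
  rw [h1]
  exact Arith.lev_mul_right hk0 (A.O.mul_mem (A.O.mul_mem hxv hu) hvm)

lemma T26_gen_inv (A : Arith) {g : E ≃ₗ[ℂ] E} (hg : g ∈ KS A) : g⁻¹ ∈ KS A := by
  obtain ⟨j, l, τ, c, hj, hlj, hτ, hτ2, hc, hgx⟩ := hg
  refine ⟨j, l, τ, c⁻¹, hj, hlj, hτ, hτ2, Arith.Th_inv hc, ?_⟩
  intro x
  have hI : A.I ((sg l : ℂ) * (τ * conj τ)) :=
    Arith.I_mul_left (T26_sg_mem A l) (Arith.I_mul_left (Arith.I_mem' hτ) (Arith.I_conj hτ))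
  have hv : h (e j + τ • e l) (e j + τ • e l) ≠ 0 := by
    rw [T26_hv hj hlj]
    exact (Arith.unit_of_I hI).1
  have h1 : g (Rf (e j + τ • e l) c⁻¹ x) = x := by
    rw [hgx, Rf_mul hv, mul_inv_cancel₀ (Arith.Th_ne_zero hc), Rf_one]
  have h2 := congrArg (fun z => g⁻¹ z) h1
  simp only [T26_inv_apply] at h2
  exact h2.symm

lemma T26_B_Ov {A : Arith} {k0 : ℕ} {g : E ≃ₗ[ℂ] E} (hg : T26_B A k0 g) {x : E}
    (hx : T26_Ov A x) : T26_Ov A (g x) := by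
  intro n
  have h1 := A.O.add_mem (Arith.lev_mem (hg x hx n)) (hx n)
  rwa [sub_add_cancel] at h1

lemma T26_B_mono {A : Arith} {k0 k1 : ℕ} (hk : k0 ≤ k1) {g : E ≃ₗ[ℂ] E} (hg : T26_B A k0 g) :
    T26_B A k1 g := fun x hx m => Arith.lev_mono hk (hg x hx m)

lemma T26_B_mul {A : Arith} {k0 : ℕ} {g g' : E ≃ₗ[ℂ] E} (hg : T26_B A k0 g)
    (hg' : T26_B A k0 g') : T26_B A k0 (g * g') := by
  intro x hx m
  have h1 := Arith.lev_add (hg (g' x) (T26_B_Ov hg' hx) m) (hg' x hx m)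
  have h2 : ((g * g') x) m - x m = (g (g' x)) m - (g' x) m + ((g' x) m - x m) := by
    rw [LinearEquiv.mul_apply]
    ring
  rw [h2]
  exact h1

lemma T26_KK_B (A : Arith) {g : E ≃ₗ[ℂ] E} (hg : g ∈ KK A) :
    (∃ k0, T26_B A k0 g) ∧ ∃ k0, T26_B A k0 g⁻¹ := by
  unfold KK at hg
  induction hg using Subgroup.closure_induction with
  | mem x hx => exact ⟨T26_gen A hx, T26_gen A (T26_gen_inv A hx)⟩
  | one =>
    refine ⟨⟨0, ?_⟩, ⟨0, ?_⟩⟩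
    · intro x _ m
      have : ((1 : E ≃ₗ[ℂ] E) x) m - x m = 0 := sub_self _
      rw [this]
      exact Arith.lev_zero 0
    · intro x _ m
      rw [inv_one]
      have : ((1 : E ≃ₗ[ℂ] E) x) m - x m = 0 := sub_self _
      rw [this]
      exact Arith.lev_zero 0
  | mul x y _ _ hx hy =>
    obtain ⟨⟨a, ha⟩, ⟨b, hb⟩⟩ := hx
    obtain ⟨⟨c, hc⟩, ⟨d, hd⟩⟩ := hy
    refine ⟨⟨max a c, T26_B_mul (T26_B_mono (le_max_left _ _) ha)
      (T26_B_mono (le_max_right _ _) hc)⟩, ⟨max b d, ?_⟩⟩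
    rw [mul_inv_rev]
    exact T26_B_mul (T26_B_mono (le_max_right _ _) hd) (T26_B_mono (le_max_left _ _) hb)
  | inv x _ hx => exact ⟨hx.2, by rw [inv_inv]; exact hx.1⟩

lemma T26_KK_Ov (A : Arith) {g : E ≃ₗ[ℂ] E} (hg : g ∈ KK A) {x : E} (hx : T26_Ov A x) :
    T26_Ov A (g x) := by
  obtain ⟨⟨k0, hk0⟩, -⟩ := T26_KK_B A hg
  exact T26_B_Ov hk0 hx

lemma T26_lev_vec (A : Arith) {g : E ≃ₗ[ℂ] E} (hg : g ∈ KK A) {k0 : ℕ} {z : E}
    (hz : ∀ m, A.lev k0 (z m)) (m : ℕ) : A.lev k0 ((g z) m) := by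
  have hw : (A.w k0 : ℂ) ≠ 0 := by
    have := A.w_gt k0
    have h0 : A.w k0 ≠ 0 := by linarith
    exact_mod_cast h0
  have h1 : z = (A.w k0 : ℂ) • ((A.w k0 : ℂ)⁻¹ • z) := by
    rw [smul_smul, mul_inv_cancel₀ hw, one_smul]
  have h2 : T26_Ov A ((A.w k0 : ℂ)⁻¹ • z) := by
    intro n
    obtain ⟨y, hy, hzy⟩ := hz n
    rw [Finsupp.smul_apply, smul_eq_mul, hzy, ← mul_assoc, inv_mul_cancel₀ hw, one_mul]
    exact hy
  rw [h1, map_smul, Finsupp.smul_apply, smul_eq_mul]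
  exact ⟨_, T26_KK_Ov A hg h2 m, rfl⟩

lemma T26_B_inv (A : Arith) {k0 : ℕ} {g : E ≃ₗ[ℂ] E} (hgK : g ∈ KK A) (hg : T26_B A k0 g) :
    T26_B A k0 g⁻¹ := by
  intro x hx m
  have hy : T26_Ov A (g⁻¹ x) := T26_KK_Ov A ((KK A).inv_mem hgK) hx
  have h1 := Arith.lev_neg (hg _ hy m)
  rw [T26_apply_inv] at h1
  have h2 : (g⁻¹ x) m - x m = -(x m - (g⁻¹ x) m) := by ring
  rw [h2]
  exact h1

lemma T26_B_conj (A : Arith) {k0 : ℕ} {l g : E ≃ₗ[ℂ] E} (hl : l ∈ KK A) (hg : T26_B A k0 g) :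
    T26_B A k0 (l * g * l⁻¹) := by
  intro x hx m
  have hy : T26_Ov A (l⁻¹ x) := T26_KK_Ov A ((KK A).inv_mem hl) hx
  have h1 : ∀ n, A.lev k0 ((g (l⁻¹ x) - l⁻¹ x) n) := by
    intro n
    rw [Finsupp.sub_apply]
    exact hg _ hy n
  have h2 := T26_lev_vec A hl h1 m
  rw [map_sub, T26_apply_inv, Finsupp.sub_apply] at h2
  exact h2

/-- the congruence subgroups of `K`: `K = L K(k0)` when `K = ⟨L,k⟩` -/
theorem KK_approx (A : Arith) {L : Subgroup (E ≃ₗ[ℂ] E)} (hL : L ≤ KK A) {k : E ≃ₗ[ℂ] E}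
    (hk : k ∈ KK A) (hgen : KK A ≤ Subgroup.closure ((L : Set (E ≃ₗ[ℂ] E)) ∪ {k})) :
    ∃ k0 : ℕ, ∀ x ∈ KK A, ∃ l ∈ L, ∀ j m, A.lev k0 (l (e j) m - x (e j) m) := by
  obtain ⟨⟨k0, hk0⟩, -⟩ := T26_KK_B A hk
  have hone : T26_B A k0 1 := by
    intro x _ m
    have : ((1 : E ≃ₗ[ℂ] E) x) m - x m = 0 := sub_self _
    rw [this]
    exact Arith.lev_zero k0
  refine ⟨k0, ?_⟩
  have key : ∀ x ∈ Subgroup.closure ((L : Set (E ≃ₗ[ℂ] E)) ∪ {k}),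
      ∃ l ∈ L, ∃ z ∈ KK A, T26_B A k0 z ∧ x = l * z := by
    intro x hx
    induction hx using Subgroup.closure_induction with
    | mem x hx =>
      rcases hx with hx | hx
      · exact ⟨x, hx, 1, (KK A).one_mem, hone, (mul_one x).symm⟩
      · rw [Set.mem_singleton_iff] at hx
        subst hx
        exact ⟨1, L.one_mem, x, hk, hk0, (one_mul x).symm⟩
    | one => exact ⟨1, L.one_mem, 1, (KK A).one_mem, hone, (one_mul 1).symm⟩
    | mul x y _ _ hx hy =>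
      obtain ⟨l, hl, z, hz, hzB, rfl⟩ := hx
      obtain ⟨l', hl', z', hz', hzB', rfl⟩ := hy
      refine ⟨l * l', L.mul_mem hl hl', (l'⁻¹ * z * l'⁻¹⁻¹) * z', ?_, ?_, ?_⟩
      · exact (KK A).mul_mem ((KK A).mul_mem ((KK A).mul_mem ((KK A).inv_mem (hL hl')) hz)
          ((KK A).inv_mem ((KK A).inv_mem (hL hl')))) hz'
      · exact T26_B_mul (T26_B_conj A ((KK A).inv_mem (hL hl')) hzB) hzB'
      · group
    | inv x _ hx =>
      obtain ⟨l, hl, z, hz, hzB, rfl⟩ := hx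
      refine ⟨l⁻¹, L.inv_mem hl, l * z⁻¹ * l⁻¹, ?_, ?_, ?_⟩
      · exact (KK A).mul_mem ((KK A).mul_mem (hL hl) ((KK A).inv_mem hz)) ((KK A).inv_mem (hL hl))
      · exact T26_B_conj A (hL hl) (T26_B_inv A hz hzB)
      · group
  intro x hx
  obtain ⟨l, hl, z, hz, hzB, hxlz⟩ := key x (hgen hx)
  refine ⟨l, hl, ?_⟩
  intro j m
  have h1 : ∀ n, A.lev k0 ((z⁻¹ (e j) - e j) n) := by
    intro n
    rw [Finsupp.sub_apply]
    exact T26_B_inv A hz hzB _ (T26_e A j) n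
  have h2 := T26_lev_vec A hx h1 m
  have h3 : x (z⁻¹ (e j) - e j) = l (e j) - x (e j) := by
    rw [map_sub, hxlz]
    congr 1
    rw [LinearEquiv.mul_apply, T26_apply_inv]
  rw [h3, Finsupp.sub_apply] at h2
  exact h2

end Pool.Agent.H332R3
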