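import Pool.Agent.H332R3.Defs2

set_option autoImplicit false

namespace Pool.Agent.H332R3

open scoped ComplexConjugate

lemma T25_hvv {j l : ℕ} (hj : 1 ≤ j) (hl : l ≠ j) (τ : ℂ) :
    h (e j + τ • e l) (e j + τ • e l) = ((1 + sg l * ‖τ‖ ^ 2 : ℝ) : ℂ) := by
  rw [h_add_left, h_add_right, h_add_right, h_smul_left, h_smul_left, h_smul_right,
    h_smul_right, h_e_self, h_e_e hl.symm, h_e_e hl, h_e_self]
  have h1 : sg j = 1 := by unfold sg; rw [if_neg (by omega)]
  rw [h1]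
  have h2 : τ * conj τ = ((‖τ‖ ^ 2 : ℝ) : ℂ) := by
    rw [Complex.mul_conj, Complex.normSq_eq_norm_sq]
  push_cast
  push_cast at h2
  linear_combination (sg l : ℂ) * h2

lemma T25_hvv_ne {j l : ℕ} (hj : 1 ≤ j) (hl : l ≠ j) {τ : ℂ} (hτ : ‖τ‖ ≤ 1 / 2) :
    h (e j + τ • e l) (e j + τ • e l) ≠ 0 := by
  rw [T25_hvv hj hl]
  have h1 : -1 ≤ sg l := by unfold sg; split_ifs <;> norm_num
  have h2 : 0 ≤ ‖τ‖ := norm_nonneg _
  have h3 : ‖τ‖ ^ 2 ≤ 1 / 4 := by nlinarith
  have h4 : 0 ≤ ‖τ‖ ^ 2 := by positivity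
  have h5 : (0 : ℝ) < 1 + sg l * ‖τ‖ ^ 2 := by nlinarith
  exact_mod_cast h5.ne'

lemma T25_R_mem {A : Arith} {j l : ℕ} {τ c : ℂ} (hj : 1 ≤ j) (hl : l ≠ j) (hI : A.I τ)
    (hτ : ‖τ‖ ≤ 1 / 2) (hc : A.Th c) : R (e j + τ • e l) c ∈ KS A :=
  ⟨j, l, τ, c, hj, hl, hI, hτ, hc, fun x =>
    R_apply (T25_hvv_ne hj hl hτ) (Arith.Th_ne_zero hc) x⟩

lemma T25_pow {v : E} {d : ℂ} (hv : h v v ≠ 0) (hd : d ≠ 0) (m : ℕ) (x : E) :
    ((R v d) ^ m) x = Rf v (d ^ m) x := by
  induction m generalizing x with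
  | zero => simp
  | succ m ih =>
    rw [pow_succ', LinearEquiv.mul_apply, ih, R_apply hv hd, Rf_mul hv, pow_succ']

lemma T25_apply_inv (g : E ≃ₗ[ℂ] E) (z : E) : g (g⁻¹ z) = z := by
  rw [← LinearEquiv.mul_apply]; simp

lemma T25_conj {g : E ≃ₗ[ℂ] E} (hg : g ∈ U) (v : E) (c : ℂ) (x : E) :
    g (Rf v c (g⁻¹ x)) = Rf (g v) c x := by
  rw [Rf_apply, Rf_apply, map_add, map_smul, T25_apply_inv]
  have h2 : h x (g v) = h (g⁻¹ x) v := by
    rw [← hg (g⁻¹ x) v, T25_apply_inv]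
  rw [h2, hg]

theorem KK_le_U (A : Arith) : KK A ≤ U := by
  unfold KK
  rw [Subgroup.closure_le]
  rintro g ⟨j, l, τ, c, hj, hl, hI, hτ, hc, hg⟩
  intro x y
  rw [hg, hg, Rf_isom (T25_hvv_ne hj hl hτ) hc.1]

lemma T25_countable_closure {G : Type} [Group G] {S : Set G} (hS : S.Countable) :
    Countable (Subgroup.closure S) := by
  have : Countable S := hS.to_subtype
  have h1 : Countable (FreeGroup S) := by
    unfold FreeGroup
    infer_instance
  have h2 : (FreeGroup.lift (Subtype.val : S → G)).range = Subgroup.closure S := by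
    rw [FreeGroup.range_lift_eq_closure]
    simp
  rw [← h2]
  have : Function.Surjective (FreeGroup.lift (Subtype.val : S → G)).rangeRestrict :=
    MonoidHom.rangeRestrict_surjective _
  exact this.countable

theorem KK_countable (A : Arith) : Countable (KK A) := by
  apply T25_countable_closure
  have hO : Countable A.O := A.countable.to_subtype
  have hC : (Set.range (fun p : ℕ × ℕ × A.O × A.O =>
      R (e p.1 + (p.2.2.1 : ℂ) • e p.2.1) (p.2.2.2 : ℂ))).Countable := Set.countable_range _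
  refine hC.mono ?_
  rintro g ⟨j, l, τ, c, hj, hl, hI, hτ, hc, hg⟩
  refine ⟨(j, l, ⟨τ, Arith.I_mem' hI⟩, ⟨c, Arith.mem_of_I' hc.2⟩), ?_⟩
  ext1 x
  show R (e j + τ • e l) c x = g x
  rw [hg, R_apply (T25_hvv_ne hj hl hτ) (Arith.Th_ne_zero hc)]

theorem KS_root (A : Arith) : ∀ s ∈ KS A, ∀ n : ℕ, 1 ≤ n → ∃ r ∈ KK A, r ^ n = s := by
  rintro s ⟨j, l, τ, c, hj, hl, hI, hτ, hc, hg⟩ n hn
  obtain ⟨d, hd1, hd2, hd3⟩ := A.root n hn c hc.1 hc.2
  have hd : A.Th d := ⟨hd2, hd3⟩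
  refine ⟨R (e j + τ • e l) d, Subgroup.subset_closure (T25_R_mem hj hl hI hτ hd), ?_⟩
  ext1 x
  rw [T25_pow (T25_hvv_ne hj hl hτ) (Arith.Th_ne_zero hd), hd1, hg]

lemma T25_dl_e {A : Arith} (d : ℕ → ThG A) (n : ℕ) : dl A d (e n) = cf d n • e n := by
  ext m
  rw [dl_apply, Finsupp.smul_apply, smul_eq_mul]
  by_cases hm : n = m
  · subst hm; rfl
  · rw [e_ne hm]; simp

theorem dl_mem_U (A : Arith) (d : ℕ → ThG A) : dl A d ∈ U := by
  intro x y
  induction x using Finsupp.induction_linear with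
  | zero => simp
  | add f g hf hg => rw [map_add, h_add_left, h_add_left, hf, hg]
  | single a b =>
    have h1 : (Finsupp.single a b : E) = b • e a := by simp [e]
    have h2 : cf d a * conj (cf d a) = 1 := by
      rw [Complex.mul_conj, Complex.normSq_eq_norm_sq, (cf_Th d a).1]; simp
    rw [h1, map_smul, T25_dl_e, h_smul_left, h_smul_left, h_smul_left, h_e_left, h_e_left,
      dl_apply, map_mul]
    linear_combination (b * (sg a : ℂ) * conj (y a)) * h2

theorem KK_comm (A : Arith) : ∀ x ∈ KK A, ∃ n, ∀ d : ℕ → ThG A, (∀ i < n, d i = 1) →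
    dl A d * x = x * dl A d := by
  intro x hx
  induction hx using Subgroup.closure_induction with
  | mem s hs =>
    obtain ⟨j, l, τ, c, hj, hl, hI, hτ, hc, hg⟩ := hs
    refine ⟨max j l, fun d hd => ?_⟩
    have hcf : ∀ m, m ≤ max j l → cf d m = 1 := by
      intro m hm
      cases m with
      | zero => rfl
      | succ m =>
        show ((d m : Circle) : ℂ) = 1
        rw [hd m (by omega)]; simp
    have hv : dl A d (e j + τ • e l) = e j + τ • e l := by
      rw [map_add, map_smul, T25_dl_e, T25_dl_e, hcf j (le_max_left _ _),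
        hcf l (le_max_right _ _), one_smul, one_smul]
    ext1 z
    rw [LinearEquiv.mul_apply, LinearEquiv.mul_apply, hg, hg, Rf_apply, Rf_apply, map_add,
      map_smul, hv]
    have h2 : h (dl A d z) (e j + τ • e l) = h z (e j + τ • e l) := by
      conv_lhs => rw [← hv]
      exact dl_mem_U A d z _
    rw [h2]
  | one => exact ⟨0, fun d _ => by rw [mul_one, one_mul]⟩
  | mul a b _ _ ha hb =>
    obtain ⟨n, hn⟩ := ha
    obtain ⟨m, hm⟩ := hb
    refine ⟨max n m, fun d hd => ?_⟩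
    have h1 := hn d (fun i hi => hd i (lt_of_lt_of_le hi (le_max_left _ _)))
    have h2 := hm d (fun i hi => hd i (lt_of_lt_of_le hi (le_max_right _ _)))
    rw [← mul_assoc, h1, mul_assoc, h2, mul_assoc]
  | inv a _ ha =>
    obtain ⟨n, hn⟩ := ha
    refine ⟨n, fun d hd => ?_⟩
    have h1 : Commute (dl A d) a := hn d hd
    exact h1.inv_right

theorem KK_normalized (A : Arith) : ∀ x ∈ KK A, ∀ d : ℕ → ThG A,
    dl A d * x * (dl A d)⁻¹ ∈ KK A := by
  intro x hx d
  induction hx using Subgroup.closure_induction with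
  | mem s hs =>
    obtain ⟨j, l, τ, c, hj, hl, hI, hτ, hc, hg⟩ := hs
    apply Subgroup.subset_closure
    have hcj : cf d j ≠ 0 := Arith.Th_ne_zero (cf_Th d j)
    have hnj : ‖cf d j‖ = 1 := (cf_Th d j).1
    have hnl : ‖cf d l‖ = 1 := (cf_Th d l).1
    refine ⟨j, l, τ * (cf d l * (cf d j)⁻¹), c, hj, hl, ?_, ?_, hc, ?_⟩
    · refine Arith.I_mul_right hI ?_
      exact Arith.mem_of_I' (Arith.Th_mul (cf_Th d l) (Arith.Th_inv (cf_Th d j))).2
    · rw [norm_mul, norm_mul, norm_inv, hnj, hnl]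
      simpa using hτ
    · intro z
      rw [LinearEquiv.mul_apply, LinearEquiv.mul_apply, hg, T25_conj (dl_mem_U A d)]
      have hv : dl A d (e j + τ • e l) = cf d j • (e j + (τ * (cf d l * (cf d j)⁻¹)) • e l) := by
        rw [map_add, map_smul, T25_dl_e, T25_dl_e, smul_add, smul_smul, smul_smul]
        congr 2
        field_simp
      rw [hv, Rf_smul hcj]
  | one => simp
  | mul a b _ _ ha hb =>
    have h1 : dl A d * (a * b) * (dl A d)⁻¹ =
        (dl A d * a * (dl A d)⁻¹) * (dl A d * b * (dl A d)⁻¹) := by group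
    rw [h1]
    exact (KK A).mul_mem ha hb
  | inv a _ ha =>
    have h1 : dl A d * a⁻¹ * (dl A d)⁻¹ = (dl A d * a * (dl A d)⁻¹)⁻¹ := by group
    rw [h1]
    exact (KK A).inv_mem ha

theorem dl_single_mem (A : Arith) (n : ℕ) (t : ThG A) : dl A (Pi.mulSingle n t) ∈ KK A := by
  apply Subgroup.subset_closure
  refine ⟨n + 1, 0, 0, ((t : Circle) : ℂ), by omega, by omega, Arith.I_zero, by simp, t.2, ?_⟩
  intro x
  rw [zero_smul, add_zero, Rf_apply, h_e_right, h_e_self]
  have h1 : sg (n + 1) = 1 := by unfold sg; rw [if_neg (by omega)]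
  rw [h1]
  ext m
  rw [dl_apply, Finsupp.add_apply, Finsupp.smul_apply, smul_eq_mul]
  by_cases hm : n + 1 = m
  · subst hm
    rw [e_self]
    have h2 : cf (Pi.mulSingle n t : ℕ → ThG A) (n + 1) = ((t : Circle) : ℂ) := by
      show (((Pi.mulSingle n t : ℕ → ThG A) n : Circle) : ℂ) = _
      rw [Pi.mulSingle_eq_same]
    rw [h2]
    push_cast
    ring
  · rw [e_ne hm]
    have h2 : cf (Pi.mulSingle n t : ℕ → ThG A) m = 1 := by
      cases m with
      | zero => rfl
      | succ m =>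
        show (((Pi.mulSingle n t : ℕ → ThG A) m : Circle) : ℂ) = _
        rw [Pi.mulSingle_eq_of_ne (by omega)]
        simp
    rw [h2]
    ring

end Pool.Agent.H332R3
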