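import Pool.Agent.H332R3.Defs2

set_option autoImplicit false

namespace Pool.Agent.H332R3

open scoped ComplexConjugate

lemma T06_root {G Θ : Type} [Group G] [CommGroup Θ] (S : Setup G Θ) (n : ℕ) (hn : 1 ≤ n) (x : G) :
    ∃ k ∈ S.K, ∃ y : G, x = k * y ^ n := by
  obtain ⟨k, hk, d, rfl⟩ := S.hG x
  choose s hs using fun i => S.hdiv n hn (d i)
  refine ⟨k, hk, S.δ s, ?_⟩
  rw [← map_pow]
  congr 2
  funext i
  exact (hs i).symm

lemma T06_normal {G Θ : Type} [Group G] [CommGroup Θ] (S : Setup G Θ) {M : Subgroup G}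
    (hK : S.K ≤ M) : M.Normal := by
  have := S.normal
  refine ⟨fun m hm g => ?_⟩
  have hπ : ∀ x : G, ∃ d, (QuotientGroup.mk' S.K) x = (QuotientGroup.mk' S.K) (S.δ d) := by
    intro x
    obtain ⟨k, hk, d, rfl⟩ := S.hG x
    refine ⟨d, ?_⟩
    rw [map_mul]
    have : (QuotientGroup.mk' S.K) k = 1 := (QuotientGroup.eq_one_iff k).2 hk
    rw [this, one_mul]
  have h1 : (QuotientGroup.mk' S.K) (m⁻¹ * (g * m * g⁻¹)) = 1 := by
    obtain ⟨d, hd⟩ := hπ g
    obtain ⟨d', hd'⟩ := hπ m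
    simp only [map_mul, map_inv, hd, hd']
    rw [← map_mul, ← map_mul, mul_comm d d']
    simp only [map_mul]
    group
  have h2 : m⁻¹ * (g * m * g⁻¹) ∈ M := hK ((QuotientGroup.eq_one_iff _).1 h1)
  have h3 := M.mul_mem hm h2
  rwa [mul_inv_cancel_left] at h3

theorem setup_step1 {G Θ : Type} [Group G] [CommGroup Θ] (S : Setup G Θ) {M : Subgroup G}
    (hM : IsCoatom M) : ¬ S.K ≤ M := by
  intro hK
  have := T06_normal S hK
  have hg : ∃ g, g ∉ M := by
    by_contra hc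
    push Not at hc
    exact hM.1 (eq_top_iff.2 fun x _ => hc x)
  obtain ⟨g, hg⟩ := hg
  have htop : ∀ y : G, y ∉ M → ∀ x : G, ∃ m ∈ M, ∃ k : ℤ, x = m * y ^ k := by
    intro y hy x
    have h1 : M ⊔ Subgroup.zpowers y = ⊤ := by
      apply hM.2
      refine lt_of_le_of_ne le_sup_left ?_
      intro he
      apply hy
      rw [he]
      exact Subgroup.mem_sup_right (Subgroup.mem_zpowers y)
    have h2 : x ∈ M ⊔ Subgroup.zpowers y := by rw [h1]; trivial
    rw [Subgroup.mem_sup_of_normal_left] at h2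
    obtain ⟨m, hm, z, hz, rfl⟩ := h2
    obtain ⟨k, rfl⟩ := Subgroup.mem_zpowers_iff.1 hz
    exact ⟨m, hm, k, rfl⟩
  have hn : ∃ n : ℕ, 1 ≤ n ∧ g ^ n ∈ M := by
    by_cases h2 : g ^ 2 ∈ M
    · exact ⟨2, by norm_num, h2⟩
    · obtain ⟨m, hm, k, hk⟩ := htop (g ^ 2) h2 g
      have h3 : g ^ (1 - 2 * k) ∈ M := by
        have h4 : g ^ (1 - 2 * k) = m := by
          rw [zpow_sub, zpow_one, zpow_mul]
          have h5 : (g ^ (2 : ℤ)) = g ^ 2 := by norm_cast
          rw [h5]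
          nth_rewrite 1 [hk]
          rw [mul_inv_cancel_right]
        rw [h4]
        exact hm
      refine ⟨(1 - 2 * k).natAbs, by omega, ?_⟩
      rcases Int.natAbs_eq (1 - 2 * k) with h6 | h6
      · rw [h6, zpow_natCast] at h3
        exact h3
      · rw [h6, zpow_neg, zpow_natCast] at h3
        exact (Subgroup.inv_mem_iff M).1 h3
  obtain ⟨n, hn1, hn2⟩ := hn
  have hpow : ∀ x : G, x ^ n ∈ M := by
    intro x
    obtain ⟨m, hm, k, rfl⟩ := htop g hg x
    apply (QuotientGroup.eq_one_iff _).1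
    have h1 : ((m : G) : G ⧸ M) = 1 := (QuotientGroup.eq_one_iff m).2 hm
    have h2 : ((g ^ n : G) : G ⧸ M) = 1 := (QuotientGroup.eq_one_iff _).2 hn2
    rw [QuotientGroup.mk_pow, QuotientGroup.mk_mul, h1, one_mul, QuotientGroup.mk_zpow,
      ← zpow_natCast, ← zpow_mul, mul_comm, zpow_mul, zpow_natCast, ← QuotientGroup.mk_pow, h2,
      one_zpow]
  apply hM.1
  rw [eq_top_iff]
  intro x _
  obtain ⟨k, hk, y, rfl⟩ := T06_root S n hn1 x
  exact M.mul_mem (hK hk) (hpow y)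

end Pool.Agent.H332R3
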