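import Pool.Agent.H332R3.Defs2

set_option autoImplicit false

namespace Pool.Agent.H332R3

open scoped ComplexConjugate

theorem T07_conj {G : Type} [Group G] {a b t x : G} (h1 : a = b * t) (hx : t * x = x * t) :
    a * x * a⁻¹ = b * x * b⁻¹ := by
  subst h1
  have h2 : t * x * t⁻¹ = x := by rw [hx]; group
  calc b * t * x * (b * t)⁻¹ = b * (t * x * t⁻¹) * b⁻¹ := by group
    _ = b * x * b⁻¹ := by rw [h2]

theorem T07_conj' {G : Type} [Group G] {a b t x : G} (h1 : a = t * b) (hx : t * x = x * t) :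
    a⁻¹ * x * a = b⁻¹ * x * b := by
  subst h1
  have h2 : t⁻¹ * x * t = x := by rw [mul_assoc, ← hx]; group
  calc (t * b)⁻¹ * x * (t * b) = b⁻¹ * (t⁻¹ * x * t) * b := by group
    _ = b⁻¹ * x * b := by rw [h2]

theorem setup_tail {G Θ : Type} [Group G] [CommGroup Θ] [Countable Θ] (S : Setup G Θ)
    (hbaire : ∀ H : Subgroup (ℕ → Θ),
      (∀ d : ℕ → Θ, (∀ n, ∃ d' ∈ H, ∀ i < n, d' i = d i) → d ∈ H) →
      Countable ((ℕ → Θ) ⧸ H) → ∃ n, ∀ d : ℕ → Θ, (∀ i < n, d i = 1) → d ∈ H)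
    {M : Subgroup G} (hM : IsCoatom M) (hKM : ¬ S.K ≤ M) (L : Subgroup G) (hLK : L ≤ S.K)
    (Q : Set G) (hQ : Q ⊆ S.K)
    (P : Subgroup (ℕ → Θ))
    (hP : ∀ d, d ∈ P ↔ (∀ x ∈ Q, S.δ d * x * (S.δ d)⁻¹ * x⁻¹ ∈ L) ∧ (∀ x ∈ L, S.δ d * x * (S.δ d)⁻¹ ∈ L)
      ∧ (∀ x ∈ L, (S.δ d)⁻¹ * x * (S.δ d) ∈ L))
    (n : ℕ) (hPM : ∀ d, S.δ d ∈ M → (∀ i < n, d i = 1) → d ∈ P) :
    ∃ n0, ∀ d : ℕ → Θ, (∀ i < n0, d i = 1) → d ∈ P := by
  have hKn := S.normal
  have hKc := S.countK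
  apply hbaire P
  · intro d hd
    have key : ∀ x ∈ S.K, ∃ d' ∈ P, S.δ d * x * (S.δ d)⁻¹ = S.δ d' * x * (S.δ d')⁻¹ ∧
        (S.δ d)⁻¹ * x * S.δ d = (S.δ d')⁻¹ * x * S.δ d' := by
      intro x hx
      obtain ⟨m, hm⟩ := S.hcomm x hx
      obtain ⟨d', hd', hdd⟩ := hd m
      have hc := hm (d * d'⁻¹) (by
        intro i hi
        rw [Pi.mul_apply, Pi.inv_apply, hdd i hi, mul_inv_cancel])
      have e1 : S.δ d = S.δ d' * S.δ (d * d'⁻¹) := by
        rw [← map_mul]
        congr 1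
        rw [mul_comm d d'⁻¹, mul_inv_cancel_left]
      have e2 : S.δ d = S.δ (d * d'⁻¹) * S.δ d' := by
        rw [← map_mul]
        congr 1
        rw [inv_mul_cancel_right]
      exact ⟨d', hd', T07_conj e1 hc, T07_conj' e2 hc⟩
    rw [hP]
    refine ⟨?_, ?_, ?_⟩
    · intro x hx
      obtain ⟨d', hd', h1, -⟩ := key x (hQ hx)
      rw [h1]
      exact ((hP d').1 hd').1 x hx
    · intro x hx
      obtain ⟨d', hd', h1, -⟩ := key x (hLK hx)
      rw [h1]
      exact ((hP d').1 hd').2.1 x hx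
    · intro x hx
      obtain ⟨d', hd', -, h2⟩ := key x (hLK hx)
      rw [h2]
      exact ((hP d').1 hd').2.2 x hx
  · have htop : S.K ⊔ M = ⊤ := by
      apply hM.2
      exact right_lt_sup.2 hKM
    have hGM : Countable (G ⧸ M) := by
      have hsurj : Function.Surjective (fun k : S.K => (QuotientGroup.mk (k : G) : G ⧸ M)) := by
        intro q
        induction q using QuotientGroup.induction_on with
        | H g =>
          have hg : g ∈ ((S.K ⊔ M : Subgroup G) : Set G) := by rw [htop]; trivial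
          rw [Subgroup.normal_mul] at hg
          obtain ⟨k, hk, m, hm, hkm⟩ := hg
          refine ⟨⟨k, hk⟩, ?_⟩
          show (QuotientGroup.mk k : G ⧸ M) = QuotientGroup.mk g
          rw [QuotientGroup.eq, ← hkm]
          simpa using hm
      exact hsurj.countable
    let f : (ℕ → Θ) → (G ⧸ M) × (Fin n → Θ) :=
      fun d => (QuotientGroup.mk (S.δ d), fun i => d i)
    have hf : ∀ d d' : ℕ → Θ, f d = f d' → d⁻¹ * d' ∈ P := by
      intro d d' h
      have h1 : (QuotientGroup.mk (S.δ d) : G ⧸ M) = QuotientGroup.mk (S.δ d') :=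
        congrArg Prod.fst h
      have h2 : (fun i : Fin n => d i) = fun i : Fin n => d' i := congrArg Prod.snd h
      rw [QuotientGroup.eq, ← map_inv, ← map_mul] at h1
      apply hPM _ h1
      intro i hi
      have h3 : d i = d' i := congrFun h2 ⟨i, hi⟩
      rw [Pi.mul_apply, Pi.inv_apply, h3, inv_mul_cancel]
    have hinj : Function.Injective (fun q : (ℕ → Θ) ⧸ P => f q.out) := by
      intro a b hab
      have h1 := hf _ _ hab
      rw [← QuotientGroup.eq] at h1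
      simpa using h1
    exact hinj.countable

end Pool.Agent.H332R3
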