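import Pool.Agent.H332R3.Core
import Pool.Agent.H332R3.HHof
import Pool.Agent.H332R3.Kfacts
import Pool.Agent.H332R3.Kapprox
import Pool.Agent.H332R3.Baire
import Pool.Agent.H332R3.Step1
import Pool.Agent.H332R3.Step3
import Pool.Agent.H332R3.CaseA
import Pool.Agent.H332R3.CaseB1
import Pool.Agent.H332R3.CaseB2

/-!
# Assembly for S03346: the group `G = K · D` has no maximal subgroup
-/

set_option autoImplicit false

namespace Pool.Agent.H332R3

open scoped ComplexConjugate

/-- abstract theorem -/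
theorem no_max {G Θ : Type} [Group G] [CommGroup Θ] [Countable Θ] (S : Setup G Θ)
    (M : Subgroup G) : ¬ IsCoatom M := by
  intro hM
  have hKM : ¬ S.K ≤ M := setup_step1 S hM
  have hKn := S.normal
  set L : Subgroup G := M ⊓ S.K with hLdef
  have hLK : L ≤ S.K := inf_le_right
  -- M normalises L
  have hML : ∀ m ∈ M, ∀ x ∈ L, m * x * m⁻¹ ∈ L := by
    intro m hm x hx
    exact ⟨M.mul_mem (M.mul_mem hm hx.1) (M.inv_mem hm), hKn.conj_mem x hx.2 m⟩
  by_cases hN : L.Normal
  · -- Case B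
    obtain ⟨hJ, n, hn⟩ := setup_caseB1 S hM hKM hN
    -- P = {d : δ d acts trivially on K/L}
    let P : Subgroup (ℕ → Θ) :=
      { carrier := {d | ∀ x ∈ S.K, S.δ d * x * (S.δ d)⁻¹ * x⁻¹ ∈ L}
        one_mem' := by
          intro x _; simp [L.one_mem]
        mul_mem' := by
          intro a b ha hb x hx
          have h1 := ha x hx
          have h2 := hN.conj_mem _ (hb x hx) (S.δ a)
          have h3 := L.mul_mem h2 h1
          rw [map_mul]
          have : S.δ a * S.δ b * x * (S.δ a * S.δ b)⁻¹ * x⁻¹ =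
            S.δ a * (S.δ b * x * (S.δ b)⁻¹ * x⁻¹) * (S.δ a)⁻¹ *
              (S.δ a * x * (S.δ a)⁻¹ * x⁻¹) := by group
          rw [this]; exact h3
        inv_mem' := by
          intro a ha x hx
          have h1 := L.inv_mem (ha x hx)
          have h2 := hN.conj_mem _ h1 (S.δ a)⁻¹
          rw [map_inv]
          have h4 : (S.δ a)⁻¹ * (S.δ a * x * (S.δ a)⁻¹ * x⁻¹)⁻¹ * (S.δ a)⁻¹⁻¹ =
            (S.δ a)⁻¹ * x * (S.δ a)⁻¹⁻¹ * x⁻¹ := by group
          rw [← h4]; exact h2 }
    have hPmem : ∀ d, d ∈ P ↔ ∀ x ∈ S.K, S.δ d * x * (S.δ d)⁻¹ * x⁻¹ ∈ L := fun d => Iff.rfl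
    obtain ⟨n1, hn1⟩ := setup_tail S (fun H h1 h2 => baire_tail H h1 h2) hM hKM L hLK
      (S.K : Set G) (le_refl _) P (by
        intro d
        rw [hPmem]
        constructor
        · intro h1
          refine ⟨h1, fun x hx => hN.conj_mem x hx _, fun x hx => ?_⟩
          have := hN.conj_mem x hx (S.δ d)⁻¹
          rwa [inv_inv] at this
        · intro h1; exact h1.1) n (fun d hd hdn => hn d hdn hd)
    exact setup_caseB2 S hM hKM hN hJ (n1 := n1) (fun d hd => (hPmem d).1 (hn1 d hd))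
  · -- Case A
    have hnorm : Subgroup.normalizer (L : Set G) = M := by
      have h1 : M ≤ Subgroup.normalizer (L : Set G) := by
        intro m hm
        rw [Subgroup.mem_normalizer_iff]
        intro x
        constructor
        · intro hx; exact hML m hm x hx
        · intro hx
          have := hML m⁻¹ (M.inv_mem hm) _ hx
          have h2 : m⁻¹ * (m * x * m⁻¹) * m⁻¹⁻¹ = x := by group
          rwa [h2] at this
      rcases eq_or_lt_of_le h1 with h2 | h2
      · exact h2.symm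
      · exfalso; apply hN
        have := hM.2 _ h2
        exact Subgroup.normalizer_eq_top_iff.mp this
    let P : Subgroup (ℕ → Θ) := (Subgroup.normalizer (L : Set G)).comap S.δ
    have hPmem : ∀ d, d ∈ P ↔ S.δ d ∈ Subgroup.normalizer (L : Set G) := fun d => Iff.rfl
    obtain ⟨n0, hn0⟩ := setup_tail S (fun H h1 h2 => baire_tail H h1 h2) hM hKM L hLK
      (∅ : Set G) (Set.empty_subset _) P (by
        intro d
        rw [hPmem, Subgroup.mem_normalizer_iff]
        constructor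
        · intro h1
          refine ⟨by simp, fun x hx => (h1 x).1 hx, fun x hx => ?_⟩
          rw [h1]
          have : S.δ d * ((S.δ d)⁻¹ * x * S.δ d) * (S.δ d)⁻¹ = x := by group
          rwa [this]
        · rintro ⟨-, h1, h2⟩ x
          refine ⟨fun hx => h1 x hx, fun hx => ?_⟩
          have := h2 _ hx
          have h3 : (S.δ d)⁻¹ * (S.δ d * x * (S.δ d)⁻¹) * S.δ d = x := by group
          rwa [h3] at this) 0 (fun d hd _ => by
            rw [hPmem, hnorm]; exact hd)
    refine setup_caseA S hM hKM (n0 := n0) (fun d hd => ?_)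
    have := hn0 d hd
    rwa [hPmem, hnorm] at this

/-- The group `G = K · D`. -/
noncomputable def G1 (A : Arith) : Subgroup (E ≃ₗ[ℂ] E) where
  carrier := {g | ∃ k ∈ KK A, ∃ d, g = k * dl A d}
  one_mem' := ⟨1, (KK A).one_mem, 1, by simp⟩
  mul_mem' := by
    rintro _ _ ⟨k, hk, d, rfl⟩ ⟨k', hk', d', rfl⟩
    refine ⟨k * (dl A d * k' * (dl A d)⁻¹), (KK A).mul_mem hk (KK_normalized A k' hk' d),
      d * d', ?_⟩
    rw [map_mul]; group
  inv_mem' := by
    rintro _ ⟨k, hk, d, rfl⟩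
    refine ⟨dl A d⁻¹ * k⁻¹ * (dl A d⁻¹)⁻¹, KK_normalized A _ ((KK A).inv_mem hk) d⁻¹, d⁻¹, ?_⟩
    rw [map_inv]; group

lemma G1_le_U (A : Arith) : G1 A ≤ U := by
  rintro _ ⟨k, hk, d, rfl⟩
  exact U.mul_mem (KK_le_U A hk) (dl_mem_U A d)

lemma KK_le_G1 (A : Arith) : KK A ≤ G1 A := fun k hk => ⟨k, hk, 1, by simp⟩

lemma dl_mem_G1 (A : Arith) (d : ℕ → ThG A) : dl A d ∈ G1 A := ⟨1, (KK A).one_mem, d, by simp⟩

instance ThG_countable (A : Arith) : Countable (ThG A) := by
  have : Set.Countable {z : ℂ | z ∈ A.O} := A.countable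
  have hc : Countable {z : ℂ // z ∈ A.O} := this
  let f : ThG A → {z : ℂ // z ∈ A.O} := fun t => ⟨((t : Circle) : ℂ), Arith.mem_of_I' t.2.2⟩
  have hf : Function.Injective f := by
    intro s t hst
    have : (((s : Circle) : ℂ)) = ((t : Circle) : ℂ) :=
      congrArg (fun z : {z : ℂ // z ∈ A.O} => (z : ℂ)) hst
    exact Subtype.ext (Circle.ext this)
  exact hf.countable

lemma dl_single_apply (A : Arith) (n : ℕ) (t : ThG A) (x : E) :
    dl A (Pi.mulSingle n t) x = Rf (e (n + 1)) ((t : Circle) : ℂ) x := by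
  ext m
  rw [dl_apply, Rf_apply, h_e_right, h_e_self]
  have hsg : (sg (n + 1) : ℂ) = 1 := by simp [sg]
  rw [hsg]
  simp only [Finsupp.add_apply, Finsupp.smul_apply, smul_eq_mul, one_mul, div_one]
  rcases m with _ | m
  · simp [cf, e_ne]
  · simp only [cf]
    by_cases hm : m = n
    · subst hm; simp; ring
    · rw [Pi.mulSingle_eq_of_ne hm, e_ne (by omega)]; simp

/-- from `δ(single n t) ∈ L` for all `t` to `InR`. -/
lemma InR_of_single (A : Arith) {L : Subgroup (E ≃ₗ[ℂ] E)} {n : ℕ}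
    (hL : ∀ t : ThG A, dl A (Pi.mulSingle n t) ∈ L) : InR A L (e (n + 1)) := by
  refine ⟨by rw [h_e_self]; simp [sg], ?_⟩
  intro c hc
  have h1 : ‖c‖ = 1 := hc.1
  let z : Circle := ⟨c, by simp [Submonoid.unitSphere, h1]⟩
  have hz : (z : ℂ) = c := rfl
  have hzT : z ∈ ThG A := hc
  refine ⟨_, hL ⟨z, hzT⟩, fun x => ?_⟩
  rw [dl_single_apply]

/-- core consequence: a subgroup of `K` with `HH` is `K`. -/
lemma eq_KK_of_HH (A : Arith) {L : Subgroup (E ≃ₗ[ℂ] E)} (hLK : L ≤ KK A) {n0 k0 : ℕ}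
    (hn0 : 1 ≤ n0) (hE : ∀ n, n0 ≤ n → InR A L (e n)) (hH : HH A L n0 k0) : L = KK A := by
  refine le_antisymm hLK ?_
  rw [KK, Subgroup.closure_le]
  rintro g ⟨j, l, τ, c, hj, hlj, hτ, hτ2, hc, hg⟩
  have := core A (hLK.trans (KK_le_U A)) hn0 hE hH j l τ hj hlj hτ hτ2
  obtain ⟨g', hg', hgx⟩ := this.2 c hc
  have : g = g' := by
    apply LinearEquiv.ext; intro x; rw [hg, hgx]
  rw [this]; exact hg'

/-- the setup -/
noncomputable def theSetup (A : Arith) : Setup (G1 A) (ThG A) where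
  K := (KK A).subgroupOf (G1 A)
  normal := by
    constructor
    rintro ⟨k, hk⟩ hkK ⟨g, hg⟩
    rw [Subgroup.mem_subgroupOf] at hkK ⊢
    obtain ⟨k', hk', d, rfl⟩ := hg
    show k' * dl A d * k * (k' * dl A d)⁻¹ ∈ KK A
    have : k' * dl A d * k * (k' * dl A d)⁻¹ = k' * (dl A d * k * (dl A d)⁻¹) * k'⁻¹ := by group
    rw [this]
    exact (KK A).mul_mem ((KK A).mul_mem hk' (KK_normalized A k hkK d)) ((KK A).inv_mem hk')
  countK := by
    have := KK_countable A
    let f : (KK A).subgroupOf (G1 A) → KK A := fun x => ⟨x.1.1, x.2⟩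
    have hf : Function.Injective f := by
      intro x y hxy
      have : x.1.1 = y.1.1 := congrArg (fun z : KK A => (z : E ≃ₗ[ℂ] E)) hxy
      exact Subtype.ext (Subtype.ext this)
    exact hf.countable
  δ := (dl A).codRestrict (G1 A) (dl_mem_G1 A)
  hdiv := by
    intro n hn t
    obtain ⟨d, hd1, hd2, hd3⟩ := A.root n hn _ t.2.1 t.2.2
    let z : Circle := ⟨d, by simp [Submonoid.unitSphere, hd2]⟩
    have hzT : z ∈ ThG A := ⟨hd2, hd3⟩
    refine ⟨⟨z, hzT⟩, ?_⟩
    apply Subtype.ext; apply Circle.ext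
    simp only [SubmonoidClass.coe_pow, Circle.coe_pow]
    exact hd1
  hG := by
    rintro ⟨g, k, hk, d, rfl⟩
    refine ⟨⟨k, KK_le_G1 A hk⟩, hk, d, ?_⟩
    apply Subtype.ext; rfl
  hsingle := by
    intro n t
    exact dl_single_mem A n t
  hcomm := by
    rintro ⟨x, hx⟩ hxK
    obtain ⟨n, hn⟩ := KK_comm A x hxK
    exact ⟨n, fun d hd => Subtype.ext (hn d hd)⟩
  hgen := by
    refine ⟨((↑) : G1 A → (E ≃ₗ[ℂ] E)) ⁻¹' KS A, ?_, ?_⟩
    · have hinj : Function.Injective (G1 A).subtype := Subtype.coe_injective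
      apply Subgroup.map_injective hinj
      rw [MonoidHom.map_closure, Subgroup.subgroupOf_map_subtype,
        inf_of_le_left (KK_le_G1 A)]
      rw [KK]
      congr 1
      ext g
      simp only [Set.mem_image, Set.mem_preimage, Subgroup.coe_subtype]
      constructor
      · rintro ⟨x, hx, rfl⟩; exact hx
      · intro hg
        exact ⟨⟨g, KK_le_G1 A (Subgroup.subset_closure hg)⟩, hg, rfl⟩
    · rintro ⟨s, hs⟩ hsK n hn
      obtain ⟨r, hr, hrn⟩ := KS_root A s hsK n hn
      exact ⟨⟨r, KK_le_G1 A hr⟩, hr, Subtype.ext hrn⟩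
  hnorm := by
    intro N hN hNn hNs
    obtain ⟨n1, hn1⟩ := hNs
    have hinj : Function.Injective (G1 A).subtype := Subtype.coe_injective
    apply Subgroup.map_injective hinj
    rw [Subgroup.subgroupOf_map_subtype, inf_of_le_left (KK_le_G1 A)]
    set N' := N.map (G1 A).subtype with hN'
    have hN'K : N' ≤ KK A := by
      rintro _ ⟨x, hx, rfl⟩
      exact hN hx
    have hE : ∀ n, n1 + 1 ≤ n → InR A N' (e n) := by
      intro n hn
      obtain ⟨m, rfl⟩ : ∃ m, n = m + 1 := ⟨n - 1, by omega⟩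
      apply InR_of_single
      intro t
      exact ⟨_, hn1 m (by omega) t, rfl⟩
    refine eq_KK_of_HH A hN'K (n0 := n1 + 1) (k0 := 0) (by omega) hE ?_
    apply HH_of A (by omega)
    intro x hx j hj
    refine ⟨x (e j), ?_, fun m => by rw [sub_self]; exact Arith.lev_zero 0⟩
    have hEj := hE j hj
    have hxU := KK_le_U A hx
    refine ⟨by rw [hxU]; exact hEj.1, ?_⟩
    intro c hc
    obtain ⟨g, ⟨g0, hg0, rfl⟩, hgx⟩ := hEj.2 c hc
    refine ⟨x * (G1 A).subtype g0 * x⁻¹, ?_, ?_⟩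
    · have h5 := hNn ⟨x, KK_le_G1 A hx⟩ hx g0 hg0
      have h6 : (G1 A).subtype (⟨x, KK_le_G1 A hx⟩ * g0 * ⟨x, KK_le_G1 A hx⟩⁻¹) =
          x * (G1 A).subtype g0 * x⁻¹ := by
        rw [map_mul, map_mul, map_inv]; rfl
      rw [← h6]
      exact Subgroup.mem_map_of_mem _ h5
    · intro z
      have h1 : ∀ z, x (x⁻¹ z) = z := fun z => by
        rw [← LinearEquiv.mul_apply]; simp
      rw [LinearEquiv.mul_apply, LinearEquiv.mul_apply, hgx, Rf_apply, Rf_apply, map_add,
        map_smul, h1]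
      have h2 : h z (x (e j)) = h (x⁻¹ z) (e j) := by
        rw [← hxU (x⁻¹ z) (e j), h1]
      rw [h2, hxU]
  hC := by
    rintro L hL ⟨n0, hn0⟩ ⟨k, hk, hgen⟩
    have hinj : Function.Injective (G1 A).subtype := Subtype.coe_injective
    apply Subgroup.map_injective hinj
    rw [Subgroup.subgroupOf_map_subtype, inf_of_le_left (KK_le_G1 A)]
    set L' := L.map (G1 A).subtype with hL'
    have hL'K : L' ≤ KK A := by
      rintro _ ⟨x, hx, rfl⟩
      exact hL hx
    have hgen' : KK A ≤ Subgroup.closure ((L' : Set (E ≃ₗ[ℂ] E)) ∪ {(G1 A).subtype k}) := by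
      have h1 : ((KK A).subgroupOf (G1 A)).map (G1 A).subtype ≤
          (Subgroup.closure ((L : Set (G1 A)) ∪ {k})).map (G1 A).subtype := Subgroup.map_mono hgen
      rw [Subgroup.subgroupOf_map_subtype, inf_of_le_left (KK_le_G1 A), MonoidHom.map_closure,
        Set.image_union, Set.image_singleton] at h1
      exact h1
    obtain ⟨k0, hk0⟩ := KK_approx A hL'K hk hgen'
    have hE : ∀ n, n0 + 1 ≤ n → InR A L' (e n) := by
      intro n hn
      obtain ⟨m, rfl⟩ : ∃ m, n = m + 1 := ⟨n - 1, by omega⟩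
      apply InR_of_single
      intro t
      exact ⟨_, hn0 m (by omega) t, rfl⟩
    refine eq_KK_of_HH A hL'K (n0 := n0 + 1) (k0 := k0) (by omega) hE ?_
    apply HH_of A (by omega)
    intro x hx j hj
    obtain ⟨l, hl, hlx⟩ := hk0 x hx
    exact ⟨l (e j), (hE j hj).map (hL'K.trans (KK_le_U A)) hl, fun m => hlx j m⟩

theorem G1_no_coatom (A : Arith) (M : Subgroup (G1 A)) : ¬ IsCoatom M :=
  no_max (theSetup A) M

end Pool.Agent.H332R3
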