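import Pool.Agent.H332R3.Defs3

set_option autoImplicit false

namespace Pool.Agent.H332R3

open scoped ComplexConjugate

theorem baire_union {Θ : Type} [CommGroup Θ] [Countable Θ] {ι : Type} [Countable ι]
    (P : ι → Subgroup (ℕ → Θ))
    (hclosed : ∀ i, ∀ d : ℕ → Θ, (∀ n, ∃ d' ∈ P i, ∀ j < n, d' j = d j) → d ∈ P i)
    (hcover : ∀ d : ℕ → Θ, ∃ i, d ∈ P i) :
    ∃ i, ∃ n, ∀ d : ℕ → Θ, (∀ j < n, d j = 1) → d ∈ P i := by
  letI : TopologicalSpace Θ := ⊥
  haveI : DiscreteTopology Θ := ⟨rfl⟩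
  have hcl : ∀ i, IsClosed (P i : Set (ℕ → Θ)) := by
    intro i
    refine isClosed_of_closure_subset ?_
    intro d hd
    refine hclosed i d fun n => ?_
    have hopen : IsOpen {x : ℕ → Θ | ∀ i < n, x i = d i} := by
      have e : {x : ℕ → Θ | ∀ i < n, x i = d i} =
          (↑(Finset.range n) : Set ℕ).pi (fun i => ({d i} : Set Θ)) := by
        ext x
        simp [Set.mem_pi]
      rw [e]
      exact isOpen_set_pi (Finset.finite_toSet _) (fun i _ => isOpen_discrete _)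
    obtain ⟨x, hx, hxH⟩ := mem_closure_iff.1 hd _ hopen (fun i _ => rfl)
    exact ⟨x, hxH, hx⟩
  haveI : Nonempty (ℕ → Θ) := ⟨fun _ => 1⟩
  obtain ⟨i, x, hx⟩ := nonempty_interior_of_iUnion_of_closed hcl (by
    ext x
    simpa using hcover x)
  obtain ⟨I, u, hu, hsub⟩ := isOpen_pi_iff.1 isOpen_interior x hx
  refine ⟨i, I.sup id + 1, fun d hd => ?_⟩
  have hmem : x * d ∈ (↑I : Set ℕ).pi u := by
    intro j hj
    have h1 : d j = 1 := hd j (Nat.lt_succ_of_le (Finset.le_sup (f := id) hj))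
    rw [Pi.mul_apply, h1, mul_one]
    exact (hu j hj).2
  have h2 : x * d ∈ P i := interior_subset (hsub hmem)
  have h3 : x ∈ P i := interior_subset hx
  exact ((P i).mul_mem_cancel_left h3).1 h2

end Pool.Agent.H332R3
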