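import Pool.Agent.H332R3.Defs2

set_option autoImplicit false

namespace Pool.Agent.H332R3

open scoped ComplexConjugate

theorem T22_w_factor (A : Arith) {k q : ℕ} (hkq : k + 1 ≤ q) :
    ∃ z : ℂ, A.I z ∧ (A.w k : ℂ) = (A.w q : ℂ) * z := by
  induction q, hkq using Nat.le_induction with
  | base =>
    refine ⟨(A.w (k + 1) : ℂ), ⟨k + 1, Arith.lev_w (k + 1)⟩, ?_⟩
    rw [← A.w_sq k]; push_cast; ring
  | succ n _ ih =>
    obtain ⟨z, hz, hz'⟩ := ih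
    refine ⟨(A.w (n + 1) : ℂ) * z, Arith.I_mul_left (A.w_mem (n + 1)) hz, ?_⟩
    rw [hz', ← A.w_sq n]; push_cast; ring

theorem T22_mu (A : Arith) (q : ℕ) :
    ∃ μ ν : ℂ, A.Th μ ∧ ν ∈ A.O ∧ ν ≠ 0 ∧ ν⁻¹ ∈ A.O ∧ μ - 1 = (A.w q : ℂ) * ν := by
  have hw1 : 1 < A.w q := A.w_gt q
  have hw3 : A.w q ≤ 3 := A.w_le q
  have hO2 : (1 / 2 : ℂ) ∈ A.O := A.half_mem
  have hO4 : (1 / 4 : ℂ) ∈ A.O := by
    have := A.O.mul_mem hO2 hO2
    norm_num at this ⊢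
    exact this
  have hO8 : (1 / 8 : ℂ) ∈ A.O := by
    have := A.O.mul_mem hO2 hO4
    norm_num at this ⊢
    exact this
  have hO64 : (1 / 64 : ℂ) ∈ A.O := by
    have := A.O.mul_mem hO8 hO8
    norm_num at this ⊢
    exact this
  have hwO : (A.w q : ℂ) ∈ A.O := A.w_mem q
  have hr0 : (0 : ℝ) ≤ 1 - A.w q ^ 2 / 64 := by nlinarith
  set s : ℝ := Real.sqrt (1 - A.w q ^ 2 / 64) with hs
  have hs2 : s ^ 2 = 1 - A.w q ^ 2 / 64 := Real.sq_sqrt hr0
  have hs2c : (s : ℂ) ^ 2 = 1 - (A.w q : ℂ) ^ 2 / 64 := by exact_mod_cast congrArg (fun r : ℝ => (r : ℂ)) hs2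
  have hsO : (s : ℂ) ∈ A.O := by
    apply A.sqrt_mem _ hr0
    have h1 : ((1 - A.w q ^ 2 / 64 : ℝ) : ℂ) = 1 - (A.w q : ℂ) * (A.w q : ℂ) * (1 / 64) := by
      push_cast; ring
    rw [h1]
    exact A.O.sub_mem A.O.one_mem (A.O.mul_mem (A.O.mul_mem hwO hwO) hO64)
  -- the unit `s + i w / 8`
  have hunit : ((s : ℂ) + Complex.I * (A.w q : ℂ) / 8) ≠ 0 ∧
      ((s : ℂ) + Complex.I * (A.w q : ℂ) / 8)⁻¹ ∈ A.O := by
    have hsq := A.sq_one q (s : ℂ) hsO (Or.inl (Complex.conj_ofReal s))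
      ⟨-(A.w q : ℂ) * (1 / 64), A.O.mul_mem (A.O.neg_mem hwO) hO64, by rw [hs2c]; ring⟩
    have hI8 : A.I (Complex.I * (A.w q : ℂ) / 8) := by
      refine ⟨q, Complex.I * (1 / 8), A.O.mul_mem A.I_mem hO8, by ring⟩
    rcases hsq with ⟨y, hy, hy'⟩ | ⟨y, hy, hy'⟩
    · have hz : A.I ((A.w q : ℂ) * y + Complex.I * (A.w q : ℂ) / 8) :=
        Arith.I_add ⟨q, y, hy, rfl⟩ hI8
      have := Arith.unit_of_I hz
      have e1 : (s : ℂ) + Complex.I * (A.w q : ℂ) / 8 =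
          1 + ((A.w q : ℂ) * y + Complex.I * (A.w q : ℂ) / 8) := by
        rw [← hy']; ring
      rw [e1]
      exact this
    · have hz : A.I (-((A.w q : ℂ) * y + Complex.I * (A.w q : ℂ) / 8)) :=
        Arith.I_neg (Arith.I_add ⟨q, y, hy, rfl⟩ hI8)
      have := Arith.unit_of_I hz
      have e1 : (s : ℂ) + Complex.I * (A.w q : ℂ) / 8 =
          -(1 + -((A.w q : ℂ) * y + Complex.I * (A.w q : ℂ) / 8)) := by
        rw [← hy']; ring
      rw [e1]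
      refine ⟨neg_ne_zero.mpr this.1, ?_⟩
      rw [inv_neg]
      exact A.O.neg_mem this.2
  set t : ℂ := (s : ℂ) + Complex.I * (A.w q : ℂ) / 8 with ht
  have htO : t ∈ A.O := by
    have : t = (s : ℂ) + Complex.I * (A.w q : ℂ) * (1 / 8) := by rw [ht]; ring
    rw [this]
    exact A.O.add_mem hsO (A.O.mul_mem (A.O.mul_mem A.I_mem hwO) hO8)
  have hνO : Complex.I * (1 / 4) * t ∈ A.O := A.O.mul_mem (A.O.mul_mem A.I_mem hO4) htO
  refine ⟨1 + (A.w q : ℂ) * (Complex.I * (1 / 4) * t), Complex.I * (1 / 4) * t, ⟨?_, ?_⟩, hνO,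
    ?_, ?_, by ring⟩
  · have h1 : (1 + (A.w q : ℂ) * (Complex.I * (1 / 4) * t)) *
        conj (1 + (A.w q : ℂ) * (Complex.I * (1 / 4) * t)) = 1 := by
      have hre : conj t = (s : ℂ) - Complex.I * (A.w q : ℂ) / 8 := by
        rw [ht]
        simp only [map_add, map_div₀, map_mul, Complex.conj_ofReal, Complex.conj_I]
        rw [show conj (8 : ℂ) = 8 from Complex.conj_ofNat 8]
        ring
      simp only [map_add, map_one, map_mul, Complex.conj_ofReal, Complex.conj_I, hre, map_div₀]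
      rw [show conj (4 : ℂ) = 4 from Complex.conj_ofNat 4, ht]
      have hI := Complex.I_sq
      ring_nf
      have hI3 : Complex.I ^ 3 = -Complex.I := by rw [pow_succ, hI]; ring
      have hI4 : Complex.I ^ 4 = 1 := Complex.I_pow_four
      simp only [hI, hI3, hI4]
      ring_nf
      rw [hs2c]
      ring
    have h2 : Complex.normSq (1 + (A.w q : ℂ) * (Complex.I * (1 / 4) * t)) = 1 := by
      rw [Complex.mul_conj] at h1
      exact_mod_cast h1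
    rw [Complex.normSq_eq_norm_sq] at h2
    have h3 := norm_nonneg (1 + (A.w q : ℂ) * (Complex.I * (1 / 4) * t))
    nlinarith
  · refine ⟨q, Complex.I * (1 / 4) * t, hνO, by ring⟩
  · exact mul_ne_zero (mul_ne_zero Complex.I_ne_zero (by norm_num)) hunit.1
  · have e2 : (Complex.I * (1 / 4) * t)⁻¹ = -(Complex.I * 4) * t⁻¹ := by
      rw [mul_inv, mul_inv, Complex.inv_I]
      norm_num
    rw [e2]
    refine A.O.mul_mem (A.O.neg_mem (A.O.mul_mem A.I_mem ?_)) hunit.2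
    have : (4 : ℂ) = 1 + 1 + 1 + 1 := by norm_num
    rw [this]
    exact A.O.add_mem (A.O.add_mem (A.O.add_mem A.O.one_mem A.O.one_mem) A.O.one_mem) A.O.one_mem

theorem T22_core (A : Arith) {L : Subgroup (E ≃ₗ[ℂ] E)} (hL : L ≤ U)
    (hadd : ∀ {j : ℕ} {y z : E}, 1 ≤ j → Ys A L j y → Ys A L j z → Ys A L j (y + z))
    (hsmul : ∀ {j : ℕ} {y : E} {c : ℂ}, c ∈ A.O → Ys A L j y → Ys A L j (c • y))
    (hofR : ∀ {j : ℕ} {y : E}, 1 ≤ j → y j = 0 → (∀ n, A.I (y n)) → InR A L (e j) →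
      InR A L (e j + y) → Ys A L j y)
    {n0 k0 : ℕ} (hn0 : 1 ≤ n0)
    (hE : ∀ n, n0 ≤ n → InR A L (e n)) (hH : HH A L n0 k0) {j l : ℕ} (hj : n0 ≤ j) (hl : n0 ≤ l)
    (hlj : l ≠ j) {q : ℕ} (hq : k0 + 1 ≤ q) : Ys A L j (((A.w q : ℂ) * (A.w q : ℂ)) • e l) := by
  obtain ⟨y, u, hyj, hyI, huO, huO', hu0, hyl, -, hR⟩ := hH j hj l hlj q
  obtain ⟨z, hz, hwz⟩ := T22_w_factor A hq
  obtain ⟨b, hb, hyb⟩ := hyl
  obtain ⟨μ, ν, hμ, hνO, hν0, hνO', hμν⟩ := T22_mu A q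
  have hj1 : 1 ≤ j := hn0.trans hj
  -- the unit `u'`
  have hI1 : A.I (u⁻¹ * (z * b)) := Arith.I_mul_left huO' (Arith.I_mul_right hz hb)
  have hunit := Arith.unit_of_I hI1
  have hyl' : y l = (A.w q : ℂ) * (u * (1 + u⁻¹ * (z * b))) := by
    have : y l = u * (A.w q : ℂ) + (A.w k0 : ℂ) * b := by rw [← hyb]; ring
    rw [this, hwz]
    field_simp
  set u' : ℂ := u * (1 + u⁻¹ * (z * b)) with hu'
  have hu'0 : u' ≠ 0 := mul_ne_zero hu0 hunit.1
  have hu'O : u'⁻¹ ∈ A.O := by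
    rw [hu', mul_inv]
    exact A.O.mul_mem huO' hunit.2
  -- the reflection
  obtain ⟨g, hg, hgx⟩ := (hE l hl).2 μ hμ
  have hgj : g (e j) = e j := by
    rw [hgx]
    exact Rf_orth μ (h_e_e (Ne.symm hlj))
  have hsg : (sg l : ℂ) ≠ 0 := by
    unfold sg
    split_ifs <;> simp
  have hgy : g y = y + ((μ - 1) * y l) • e l := by
    rw [hgx, Rf_apply, h_e_right, h_e_self]
    congr 2
    field_simp
  have hR' : InR A L (e j + (y + ((μ - 1) * y l) • e l)) := by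
    have := hR.map hL hg
    rw [map_add, hgj, hgy] at this
    exact this
  have hY1 : Ys A L j y := hofR hj1 hyj hyI (hE j hj) hR
  have hY2 : Ys A L j (y + ((μ - 1) * y l) • e l) := by
    refine hofR hj1 ?_ ?_ (hE j hj) hR'
    · rw [Finsupp.add_apply, Finsupp.smul_apply, hyj, e_ne hlj]
      simp
    · intro n
      rw [Finsupp.add_apply, Finsupp.smul_apply, smul_eq_mul]
      refine Arith.I_add (hyI n) ?_
      rw [e_apply]
      split_ifs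
      · rw [mul_one]
        exact Arith.I_mul_right hμ.2 (Arith.I_mem' (hyI l))
      · rw [mul_zero]
        exact Arith.I_zero
  have hY3 : Ys A L j (((μ - 1) * y l) • e l) := by
    have h1 := hadd hj1 hY2 (hsmul (A.O.neg_mem A.O.one_mem) hY1)
    have h2 : y + ((μ - 1) * y l) • e l + (-1 : ℂ) • y = ((μ - 1) * y l) • e l := by
      rw [neg_smul, one_smul]
      abel
    rwa [h2] at h1
  have hY4 := hsmul (A.O.mul_mem hνO' hu'O) hY3
  rw [smul_smul] at hY4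
  have h5 : ν⁻¹ * u'⁻¹ * ((μ - 1) * y l) = (A.w q : ℂ) * (A.w q : ℂ) := by
    rw [hμν, hyl']
    field_simp
  rwa [h5] at hY4

theorem Ys_e_large (A : Arith) {L : Subgroup (E ≃ₗ[ℂ] E)} (hL : L ≤ U)
    (hadd : ∀ {j : ℕ} {y z : E}, 1 ≤ j → Ys A L j y → Ys A L j z → Ys A L j (y + z))
    (hsmul : ∀ {j : ℕ} {y : E} {c : ℂ}, c ∈ A.O → Ys A L j y → Ys A L j (c • y))
    (hsat : ∀ {j : ℕ} {y : E}, (∀ n, y n ∈ A.O) →
      (∀ m0 : ℕ, ∃ m, m0 ≤ m ∧ Ys A L j ((A.w m : ℂ) • y)) → Ys A L j y)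
    (hofR : ∀ {j : ℕ} {y : E}, 1 ≤ j → y j = 0 → (∀ n, A.I (y n)) → InR A L (e j) →
      InR A L (e j + y) → Ys A L j y)
    {n0 k0 : ℕ} (hn0 : 1 ≤ n0)
    (hE : ∀ n, n0 ≤ n → InR A L (e n)) (hH : HH A L n0 k0) {j l : ℕ} (hj : n0 ≤ j) (hl : n0 ≤ l)
    (hlj : l ≠ j) : Ys A L j (e l) := by
  apply hsat
  · intro n
    rw [e_apply]
    split_ifs
    · exact A.O.one_mem
    · exact A.O.zero_mem
  · intro m0
    refine ⟨max m0 k0, le_max_left _ _, ?_⟩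
    have h1 := T22_core A hL hadd hsmul hofR hn0 hE hH hj hl hlj
      (q := max m0 k0 + 1) (Nat.succ_le_succ (le_max_right m0 k0))
    have h2 : (A.w (max m0 k0 + 1) : ℂ) * (A.w (max m0 k0 + 1) : ℂ) = (A.w (max m0 k0) : ℂ) := by
      rw [← A.w_sq (max m0 k0)]
      push_cast
      ring
    rwa [h2] at h1

end Pool.Agent.H332R3
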