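import Pool.Agent.H332R3.Defs3
import Pool.Agent.H332R3.YsLarge

set_option autoImplicit false

namespace Pool.Agent.H332R3

open scoped ComplexConjugate

theorem V1_core (A : Arith) {L : Subgroup (E ≃ₗ[ℂ] E)} (hL : L ≤ U)
    (hadd : ∀ {j : ℕ} {y z : E}, 1 ≤ j → Ys A L j y → Ys A L j z → Ys A L j (y + z))
    (hsmul : ∀ {j : ℕ} {y : E} {c : ℂ}, c ∈ A.O → Ys A L j y → Ys A L j (c • y))
    (hofR : ∀ {j : ℕ} {y : E}, 1 ≤ j → y j = 0 → (∀ n, A.I (y n)) → InR A L (e j) →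
      InR A L (e j + y) → Ys A L j y)
    {n0 : ℕ} (hn0 : 1 ≤ n0)
    (hE : ∀ n, n0 ≤ n → InR A L (e n)) (hH : HP A L n0) {j l : ℕ} (hj : n0 ≤ j) (hl : n0 ≤ l)
    (hlj : l ≠ j) (q : ℕ) : Ys A L j (((A.w q : ℂ) * (A.w q : ℂ)) • e l) := by
  obtain ⟨y, u, hyj, huO, huO', hu0, hyl, hyn, hR⟩ := hH j hj l hlj q
  obtain ⟨μ, ν, hμ, hνO, hν0, hνO', hμν⟩ := T22_mu A q
  have hj1 : 1 ≤ j := hn0.trans hj
  have hyI : ∀ n, A.I (y n) := by
    intro n
    by_cases hn : n = l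
    · rw [hn, hyl]
      exact ⟨q, Arith.lev_mul_left huO (Arith.lev_w q)⟩
    · obtain ⟨z, hz, hyz⟩ := hyn n hn
      rw [hyz]
      exact Arith.I_mul_right hz (A.w_mem q)
  -- the reflection
  obtain ⟨g, hg, hgx⟩ := (hE l hl).2 μ hμ
  have hgj : g (e j) = e j := by
    rw [hgx]
    exact Rf_orth μ (h_e_e (Ne.symm hlj))
  have hsg : (sg l : ℂ) ≠ 0 := by
    unfold sg
    split_ifs <;> simp
  have hgy : g y = y + ((μ - 1) * y l) • e l := by
    rw [hgx, Rf_apply, h_e_right, h_e_self]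
    congr 2
    field_simp
  have hR' : InR A L (e j + (y + ((μ - 1) * y l) • e l)) := by
    have := hR.map hL hg
    rw [map_add, hgj, hgy] at this
    exact this
  have hY1 : Ys A L j y := hofR hj1 hyj hyI (hE j hj) hR
  have hY2 : Ys A L j (y + ((μ - 1) * y l) • e l) := by
    refine hofR hj1 ?_ ?_ (hE j hj) hR'
    · rw [Finsupp.add_apply, Finsupp.smul_apply, hyj, e_ne hlj]
      simp
    · intro n
      rw [Finsupp.add_apply, Finsupp.smul_apply, smul_eq_mul]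
      refine Arith.I_add (hyI n) ?_
      rw [e_apply]
      split_ifs
      · rw [mul_one]
        exact Arith.I_mul_right hμ.2 (Arith.I_mem' (hyI l))
      · rw [mul_zero]
        exact Arith.I_zero
  have hY3 : Ys A L j (((μ - 1) * y l) • e l) := by
    have h1 := hadd hj1 hY2 (hsmul (A.O.neg_mem A.O.one_mem) hY1)
    have h2 : y + ((μ - 1) * y l) • e l + (-1 : ℂ) • y = ((μ - 1) * y l) • e l := by
      rw [neg_smul, one_smul]
      abel
    rwa [h2] at h1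
  have hY4 := hsmul (A.O.mul_mem hνO' huO') hY3
  rw [smul_smul] at hY4
  have h5 : ν⁻¹ * u⁻¹ * ((μ - 1) * y l) = (A.w q : ℂ) * (A.w q : ℂ) := by
    rw [hμν, hyl]
    field_simp
  rwa [h5] at hY4

theorem Ys_e_large2 (A : Arith) {L : Subgroup (E ≃ₗ[ℂ] E)} (hL : L ≤ U)
    (hadd : ∀ {j : ℕ} {y z : E}, 1 ≤ j → Ys A L j y → Ys A L j z → Ys A L j (y + z))
    (hsmul : ∀ {j : ℕ} {y : E} {c : ℂ}, c ∈ A.O → Ys A L j y → Ys A L j (c • y))
    (hsat : ∀ {j : ℕ} {y : E}, (∀ n, y n ∈ A.O) →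
      (∀ m0 : ℕ, ∃ m, m0 ≤ m ∧ Ys A L j ((A.w m : ℂ) • y)) → Ys A L j y)
    (hofR : ∀ {j : ℕ} {y : E}, 1 ≤ j → y j = 0 → (∀ n, A.I (y n)) → InR A L (e j) →
      InR A L (e j + y) → Ys A L j y)
    {n0 : ℕ} (hn0 : 1 ≤ n0)
    (hE : ∀ n, n0 ≤ n → InR A L (e n)) (hH : HP A L n0) {j l : ℕ} (hj : n0 ≤ j) (hl : n0 ≤ l)
    (hlj : l ≠ j) : Ys A L j (e l) := by
  apply hsat
  · intro n
    rw [e_apply]
    split_ifs
    · exact A.O.one_mem
    · exact A.O.zero_mem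
  · intro m0
    refine ⟨m0, le_rfl, ?_⟩
    have h1 := V1_core A hL hadd hsmul hofR hn0 hE hH hj hl hlj (m0 + 1)
    have h2 : (A.w (m0 + 1) : ℂ) * (A.w (m0 + 1) : ℂ) = (A.w m0 : ℂ) := by
      rw [← A.w_sq m0]
      push_cast
      ring
    rwa [h2] at h1

end Pool.Agent.H332R3
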