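import Pool.Agent.H332R3.Defs2

/-!
# Task `T23_small`: the small basis vectors lie in `Y*`
-/

set_option autoImplicit false

namespace Pool.Agent.H332R3

open scoped ComplexConjugate

/-- `lev k0` elements are `ϖ_q` times elements of `I` if `q > k0`. -/
lemma T23_lev {A : Arith} {k0 q : ℕ} (hq : k0 + 1 ≤ q) {z : ℂ} (hz : A.lev k0 z) :
    ∃ s, A.I s ∧ z = A.w q * s := by
  obtain ⟨y, hy, rfl⟩ := hz
  obtain ⟨t, ht, h1⟩ := Arith.lev_mono hq (Arith.lev_w (A := A) (k0 + 1))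
  refine ⟨t * (A.w (k0 + 1) * y), ⟨k0 + 1, Arith.lev_mul_left ht ⟨y, hy, rfl⟩⟩, ?_⟩
  have h2 : (A.w k0 : ℂ) = A.w (k0 + 1) * A.w (k0 + 1) := by
    rw [← A.w_sq k0]; push_cast; ring
  rw [h2]
  nth_rewrite 1 [h1]
  ring

/-- The ideal `I` of `𝒪`. -/
def T23_J (A : Arith) : Ideal A.O where
  carrier := {x | A.I (x : ℂ)}
  add_mem' := by
    intro a b ha hb
    exact Arith.I_add ha hb
  zero_mem' := Arith.I_zero
  smul_mem' := by
    intro c x hx
    exact Arith.I_mul_left c.2 hx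

lemma T23_mem_J {A : Arith} {x : A.O} : x ∈ T23_J A ↔ A.I (x : ℂ) := Iff.rfl

lemma T23_det {A : Arith} {n : ℕ} (M : Matrix (Fin n) (Fin n) A.O)
    (hM : ∀ i l, A.I (((M i l : A.O) : ℂ) - (if i = l then 1 else 0))) :
    A.I ((M.det : ℂ) - 1) := by
  have h1 : (Ideal.Quotient.mk (T23_J A)).mapMatrix M = 1 := by
    ext i l
    rw [RingHom.mapMatrix_apply, Matrix.map_apply, Matrix.one_apply]
    have h2 : M i l - (if i = l then 1 else 0) ∈ T23_J A := by
      rw [T23_mem_J]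
      have := hM i l
      split_ifs at this ⊢ with hil
      · simpa using this
      · simpa using this
    have h3 := Ideal.Quotient.eq.mpr h2
    rw [h3]
    split_ifs <;> simp
  have h4 : (Ideal.Quotient.mk (T23_J A)) M.det = 1 := by
    rw [RingHom.map_det, h1, Matrix.det_one]
  have h5 : M.det - 1 ∈ T23_J A := by
    rw [← Ideal.Quotient.eq, h4, map_one]
  have h6 := T23_mem_J.mp h5
  simpa using h6

/-- The module `Y*` as an `𝒪`-submodule -/
def T23_S (A : Arith) {L : Subgroup (E ≃ₗ[ℂ] E)} {j : ℕ}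
    (hadd : ∀ y z, Ys A L j y → Ys A L j z → Ys A L j (y + z))
    (hsmul : ∀ (c : ℂ) (y : E), c ∈ A.O → Ys A L j y → Ys A L j (c • y))
    (h0 : Ys A L j 0) : Submodule A.O E where
  carrier := {y | Ys A L j y}
  add_mem' := by
    intro a b ha hb
    exact hadd a b ha hb
  zero_mem' := h0
  smul_mem' := by
    intro c x hx
    exact hsmul c x c.2 hx

lemma T23_filter (A : Arith) {L : Subgroup (E ≃ₗ[ℂ] E)} {n0 : ℕ} {j : ℕ}
    (hadd : ∀ y z, Ys A L j y → Ys A L j z → Ys A L j (y + z))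
    (hsmul : ∀ (c : ℂ) (y : E), c ∈ A.O → Ys A L j y → Ys A L j (c • y))
    (hlarge : ∀ l, n0 ≤ l → l ≠ j → Ys A L j (e l)) {y : E} (hy : Ys A L j y) :
    Ys A L j (y.filter (fun l => l < n0)) := by
  have h0 : Ys A L j 0 := by
    have := hsmul 0 y A.O.zero_mem hy
    simpa using this
  set S := T23_S A hadd hsmul h0 with hS
  have h1 : y.filter (fun l => ¬ l < n0) ∈ S := by
    have h2 : y.filter (fun l => ¬ l < n0)
        = ∑ l ∈ (y.filter (fun l => ¬ l < n0)).support,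
          ((y.filter (fun l => ¬ l < n0)) l) • e l := by
      conv_lhs => rw [← Finsupp.sum_single (y.filter (fun l => ¬ l < n0))]
      rw [Finsupp.sum]
      apply Finset.sum_congr rfl
      intro l _
      simp [e]
    rw [h2]
    apply Submodule.sum_mem
    intro l hl
    rw [Finsupp.support_filter, Finset.mem_filter] at hl
    have h3 : (y.filter (fun l => ¬ l < n0)) l = y l := Finsupp.filter_apply_pos _ _ hl.2
    rw [h3]
    have hlj : l ≠ j := by
      rintro rfl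
      have := hy.1
      rw [Finsupp.mem_support_iff] at hl
      exact hl.1 this
    exact hsmul (y l) (e l) (hy.2.1 l) (hlarge l (not_lt.mp hl.2) hlj)
  have h4 : y.filter (fun l => l < n0) = y - y.filter (fun l => ¬ l < n0) := by
    rw [eq_sub_iff_add_eq]
    exact Finsupp.filter_pos_add_filter_neg y _
  have h5 : y ∈ S := hy
  have h6 := Submodule.sub_mem S h5 h1
  rw [← h4] at h6
  exact h6

theorem Ys_e_small (A : Arith) {L : Subgroup (E ≃ₗ[ℂ] E)} {n0 k0 : ℕ} {j : ℕ}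
    (hadd : ∀ y z, Ys A L j y → Ys A L j z → Ys A L j (y + z))
    (hsmul : ∀ (c : ℂ) (y : E), c ∈ A.O → Ys A L j y → Ys A L j (c • y))
    (hsat : ∀ y : E, (∀ n, y n ∈ A.O) →
      (∀ m0 : ℕ, ∃ m, m0 ≤ m ∧ Ys A L j ((A.w m : ℂ) • y)) → Ys A L j y)
    (hlarge : ∀ l, n0 ≤ l → l ≠ j → Ys A L j (e l)) (hj : n0 ≤ j)
    (hex : ∀ i, i ≠ j → ∀ q : ℕ, ∃ (y : E) (u : ℂ), y j = 0 ∧ (∀ n, A.I (y n)) ∧
      u ∈ A.O ∧ u⁻¹ ∈ A.O ∧ u ≠ 0 ∧ A.lev k0 (y i - u * A.w q) ∧
      (∀ n, n ≠ i → A.lev k0 (y n)) ∧ Ys A L j y) {i : ℕ} (hi : i < n0) : Ys A L j (e i) := by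
  classical
  apply hsat
  · intro n
    rw [e_apply]
    split_ifs
    · exact A.O.one_mem
    · exact A.O.zero_mem
  intro m0
  set q := max m0 (k0 + 1) with hq
  refine ⟨q, le_max_left _ _, ?_⟩
  have hqk : k0 + 1 ≤ q := le_max_right _ _
  -- the vectors `z^{(i')}`
  have hz : ∀ a : Fin n0, ∃ (z : E) (r : Fin n0 → A.O), Ys A L j z ∧
      (∀ l : Fin n0, A.I ((r l : ℂ) - (if a = l then 1 else 0))) ∧
      z = ∑ l : Fin n0, ((A.w q : ℂ) * (r l : ℂ)) • e l := by
    intro a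
    have haj : (a : ℕ) ≠ j := by have := a.2; omega
    obtain ⟨y, u, hyj, hyI, hu, hui, hu0, hya, hyn, hYs⟩ := hex a haj q
    have hY' : Ys A L j (u⁻¹ • y) := hsmul _ _ hui hYs
    have hF := T23_filter A hadd hsmul hlarge hY'
    have hr : ∀ l : Fin n0, ∃ r : A.O, A.I ((r : ℂ) - (if a = l then 1 else 0)) ∧
        (u⁻¹ • y) l = (A.w q : ℂ) * (r : ℂ) := by
      intro l
      by_cases hal : a = l
      · subst hal
        obtain ⟨s, hs, hs1⟩ := T23_lev hqk hya
        have hI : A.I (u⁻¹ * s) := Arith.I_mul_left hui hs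
        refine ⟨⟨1 + u⁻¹ * s, A.O.add_mem A.O.one_mem (Arith.I_mem' hI)⟩, ?_, ?_⟩
        · simpa using hI
        · have h1 : y a = u * A.w q + A.w q * s := by linear_combination hs1
          rw [Finsupp.smul_apply, smul_eq_mul, h1]
          field_simp
      · obtain ⟨s, hs, hs1⟩ := T23_lev hqk (hyn l (fun h => hal (Fin.ext h.symm)))
        have hI : A.I (u⁻¹ * s) := Arith.I_mul_left hui hs
        refine ⟨⟨u⁻¹ * s, Arith.I_mem' hI⟩, ?_, ?_⟩
        · simpa [hal] using hI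
        · rw [Finsupp.smul_apply, smul_eq_mul, hs1]
          ring
    choose r hr1 hr2 using hr
    refine ⟨_, r, hF, hr1, ?_⟩
    ext n
    rw [Finsupp.finset_sum_apply]
    by_cases hn : n < n0
    · rw [Finsupp.filter_apply_pos (fun l => l < n0) _ hn]
      rw [Finset.sum_eq_single (⟨n, hn⟩ : Fin n0)]
      · have h1 : (((A.w q : ℂ) * (r ⟨n, hn⟩ : ℂ)) • e ((⟨n, hn⟩ : Fin n0) : ℕ)) n
            = (A.w q : ℂ) * (r ⟨n, hn⟩ : ℂ) := by
          show ((A.w q : ℂ) * (r ⟨n, hn⟩ : ℂ)) * (e n n) = _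
          rw [e_self, mul_one]
        rw [h1, ← hr2]
      · intro b _ hb
        have hb' : (b : ℕ) ≠ n := fun h => hb (Fin.ext h)
        rw [Finsupp.smul_apply, e_ne hb', smul_zero]
      · intro h; exact absurd (Finset.mem_univ _) h
    · rw [Finsupp.filter_apply_neg (fun l => l < n0) _ hn]
      symm
      apply Finset.sum_eq_zero
      intro b _
      have hb' : (b : ℕ) ≠ n := fun h => hn (by have := b.2; omega)
      rw [Finsupp.smul_apply, e_ne hb', smul_zero]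
  choose z M hzY hMI hzM using hz
  set MM : Matrix (Fin n0) (Fin n0) A.O := Matrix.of M with hMM
  have hdet : A.I ((MM.det : ℂ) - 1) := T23_det MM (fun a l => hMI a l)
  obtain ⟨hd0, hdO⟩ := Arith.unit_of_I' hdet
  have h0 : Ys A L j 0 := by
    have := hsmul 0 (z ⟨i, hi⟩) A.O.zero_mem (hzY _)
    simpa using this
  set S := T23_S A hadd hsmul h0 with hS
  have h1 : ∑ a : Fin n0, (MM.adjugate ⟨i, hi⟩ a) • z a ∈ S := by
    apply Submodule.sum_mem
    intro a _
    exact Submodule.smul_mem S _ (hzY a)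
  have h2 : ∑ a : Fin n0, (MM.adjugate ⟨i, hi⟩ a) • z a
      = ((MM.det : ℂ) * A.w q) • e i := by
    have h3 : ∀ l : Fin n0, ∑ a : Fin n0, ((MM.adjugate ⟨i, hi⟩ a : A.O) : ℂ) * ((M a l : A.O) : ℂ)
        = if (⟨i, hi⟩ : Fin n0) = l then (MM.det : ℂ) else 0 := by
      intro l
      have h4 := congrFun (congrFun (Matrix.adjugate_mul MM) ⟨i, hi⟩) l
      rw [Matrix.mul_apply, Matrix.smul_apply, Matrix.one_apply] at h4
      have h5 := congrArg (fun x : A.O => (x : ℂ)) h4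
      simp only [hMM, Matrix.of_apply] at h5
      push_cast at h5
      rw [h5]
      split_ifs <;> simp [hMM]
    have h6 : ∀ a : Fin n0, (MM.adjugate ⟨i, hi⟩ a) • z a
        = ∑ l : Fin n0, ((A.w q : ℂ) * (((MM.adjugate ⟨i, hi⟩ a : A.O) : ℂ) * (M a l : ℂ))) • e l := by
      intro a
      have h7 : (MM.adjugate ⟨i, hi⟩ a) • z a = ((MM.adjugate ⟨i, hi⟩ a : A.O) : ℂ) • z a := rfl
      rw [h7, hzM a, Finset.smul_sum]
      apply Finset.sum_congr rfl
      intro l _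
      rw [smul_smul]
      congr 1
      ring
    rw [Finset.sum_congr rfl (fun a _ => h6 a), Finset.sum_comm]
    have h8 : ∀ l : Fin n0, ∑ a : Fin n0,
        ((A.w q : ℂ) * (((MM.adjugate ⟨i, hi⟩ a : A.O) : ℂ) * (M a l : ℂ))) • e l
        = ((A.w q : ℂ) * (if (⟨i, hi⟩ : Fin n0) = l then (MM.det : ℂ) else 0)) • e l := by
      intro l
      rw [← Finset.sum_smul, ← Finset.mul_sum, h3 l]
    rw [Finset.sum_congr rfl (fun l _ => h8 l), Finset.sum_eq_single (⟨i, hi⟩ : Fin n0)]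
    · rw [if_pos rfl, mul_comm]
    · intro b _ hb
      rw [if_neg (Ne.symm hb), mul_zero, zero_smul]
    · intro h; exact absurd (Finset.mem_univ _) h
  rw [h2] at h1
  have h9 : Ys A L j (((MM.det : ℂ) * A.w q) • e i) := h1
  have h10 := hsmul _ _ hdO h9
  rw [smul_smul, ← mul_assoc, inv_mul_cancel₀ hd0, one_mul] at h10
  exact h10

end Pool.Agent.H332R3
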