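import Pool.Agent.H332R3.Defs3
import Pool.Agent.H332R3.YsSmall

/-!
# Task `V2_small2`: the small basis vectors lie in `Y*` (weaker hypothesis)
-/

set_option autoImplicit false

namespace Pool.Agent.H332R3

open scoped ComplexConjugate

theorem Ys_e_small2 (A : Arith) {L : Subgroup (E ≃ₗ[ℂ] E)} {n0 : ℕ} {j : ℕ}
    (hadd : ∀ y z, Ys A L j y → Ys A L j z → Ys A L j (y + z))
    (hsmul : ∀ (c : ℂ) (y : E), c ∈ A.O → Ys A L j y → Ys A L j (c • y))
    (hsat : ∀ y : E, (∀ n, y n ∈ A.O) →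
      (∀ m0 : ℕ, ∃ m, m0 ≤ m ∧ Ys A L j ((A.w m : ℂ) • y)) → Ys A L j y)
    (hlarge : ∀ l, n0 ≤ l → l ≠ j → Ys A L j (e l)) (hj : n0 ≤ j)
    (hex : ∀ i, i ≠ j → ∀ q : ℕ, ∃ (y : E) (u : ℂ), y j = 0 ∧
      u ∈ A.O ∧ u⁻¹ ∈ A.O ∧ u ≠ 0 ∧ y i = u * A.w q ∧
      (∀ n, n ≠ i → ∃ z, A.I z ∧ y n = z * A.w q) ∧ Ys A L j y) {i : ℕ} (hi : i < n0) :
    Ys A L j (e i) := by
  classical
  apply hsat
  · intro n
    rw [e_apply]
    split_ifs
    · exact A.O.one_mem
    · exact A.O.zero_mem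
  intro m0
  set q := m0 with hq
  refine ⟨q, le_refl _, ?_⟩
  -- the vectors `z^{(i')}`
  have hz : ∀ a : Fin n0, ∃ (z : E) (r : Fin n0 → A.O), Ys A L j z ∧
      (∀ l : Fin n0, A.I ((r l : ℂ) - (if a = l then 1 else 0))) ∧
      z = ∑ l : Fin n0, ((A.w q : ℂ) * (r l : ℂ)) • e l := by
    intro a
    have haj : (a : ℕ) ≠ j := by have := a.2; omega
    obtain ⟨y, u, hyj, hu, hui, hu0, hya, hyn, hYs⟩ := hex a haj q
    have hY' : Ys A L j (u⁻¹ • y) := hsmul _ _ hui hYs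
    have hF := T23_filter A hadd hsmul hlarge hY'
    have hr : ∀ l : Fin n0, ∃ r : A.O, A.I ((r : ℂ) - (if a = l then 1 else 0)) ∧
        (u⁻¹ • y) l = (A.w q : ℂ) * (r : ℂ) := by
      intro l
      by_cases hal : a = l
      · subst hal
        refine ⟨1, ?_, ?_⟩
        · simpa using Arith.I_zero
        · rw [Finsupp.smul_apply, smul_eq_mul, hya, ← mul_assoc, inv_mul_cancel₀ hu0]
          simp
      · obtain ⟨s, hs, hs1⟩ := hyn l (fun h => hal (Fin.ext h.symm))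
        have hI : A.I (u⁻¹ * s) := Arith.I_mul_left hui hs
        refine ⟨⟨u⁻¹ * s, Arith.I_mem' hI⟩, ?_, ?_⟩
        · simpa [hal] using hI
        · rw [Finsupp.smul_apply, smul_eq_mul, hs1]
          ring
    choose r hr1 hr2 using hr
    refine ⟨_, r, hF, hr1, ?_⟩
    ext n
    rw [Finsupp.finset_sum_apply]
    by_cases hn : n < n0
    · rw [Finsupp.filter_apply_pos (fun l => l < n0) _ hn]
      rw [Finset.sum_eq_single (⟨n, hn⟩ : Fin n0)]
      · have h1 : (((A.w q : ℂ) * (r ⟨n, hn⟩ : ℂ)) • e ((⟨n, hn⟩ : Fin n0) : ℕ)) n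
            = (A.w q : ℂ) * (r ⟨n, hn⟩ : ℂ) := by
          show ((A.w q : ℂ) * (r ⟨n, hn⟩ : ℂ)) * (e n n) = _
          rw [e_self, mul_one]
        rw [h1, ← hr2]
      · intro b _ hb
        have hb' : (b : ℕ) ≠ n := fun h => hb (Fin.ext h)
        rw [Finsupp.smul_apply, e_ne hb', smul_zero]
      · intro h; exact absurd (Finset.mem_univ _) h
    · rw [Finsupp.filter_apply_neg (fun l => l < n0) _ hn]
      symm
      apply Finset.sum_eq_zero
      intro b _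
      have hb' : (b : ℕ) ≠ n := fun h => hn (by have := b.2; omega)
      rw [Finsupp.smul_apply, e_ne hb', smul_zero]
  choose z M hzY hMI hzM using hz
  set MM : Matrix (Fin n0) (Fin n0) A.O := Matrix.of M with hMM
  have hdet : A.I ((MM.det : ℂ) - 1) := T23_det MM (fun a l => hMI a l)
  obtain ⟨hd0, hdO⟩ := Arith.unit_of_I' hdet
  have h0 : Ys A L j 0 := by
    have := hsmul 0 (z ⟨i, hi⟩) A.O.zero_mem (hzY _)
    simpa using this
  set S := T23_S A hadd hsmul h0 with hS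
  have h1 : ∑ a : Fin n0, (MM.adjugate ⟨i, hi⟩ a) • z a ∈ S := by
    apply Submodule.sum_mem
    intro a _
    exact Submodule.smul_mem S _ (hzY a)
  have h2 : ∑ a : Fin n0, (MM.adjugate ⟨i, hi⟩ a) • z a
      = ((MM.det : ℂ) * A.w q) • e i := by
    have h3 : ∀ l : Fin n0, ∑ a : Fin n0, ((MM.adjugate ⟨i, hi⟩ a : A.O) : ℂ) * ((M a l : A.O) : ℂ)
        = if (⟨i, hi⟩ : Fin n0) = l then (MM.det : ℂ) else 0 := by
      intro l
      have h4 := congrFun (congrFun (Matrix.adjugate_mul MM) ⟨i, hi⟩) l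
      rw [Matrix.mul_apply, Matrix.smul_apply, Matrix.one_apply] at h4
      have h5 := congrArg (fun x : A.O => (x : ℂ)) h4
      simp only [hMM, Matrix.of_apply] at h5
      push_cast at h5
      rw [h5]
      split_ifs <;> simp [hMM]
    have h6 : ∀ a : Fin n0, (MM.adjugate ⟨i, hi⟩ a) • z a
        = ∑ l : Fin n0, ((A.w q : ℂ) * (((MM.adjugate ⟨i, hi⟩ a : A.O) : ℂ) * (M a l : ℂ))) • e l := by
      intro a
      have h7 : (MM.adjugate ⟨i, hi⟩ a) • z a = ((MM.adjugate ⟨i, hi⟩ a : A.O) : ℂ) • z a := rfl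
      rw [h7, hzM a, Finset.smul_sum]
      apply Finset.sum_congr rfl
      intro l _
      rw [smul_smul]
      congr 1
      ring
    rw [Finset.sum_congr rfl (fun a _ => h6 a), Finset.sum_comm]
    have h8 : ∀ l : Fin n0, ∑ a : Fin n0,
        ((A.w q : ℂ) * (((MM.adjugate ⟨i, hi⟩ a : A.O) : ℂ) * (M a l : ℂ))) • e l
        = ((A.w q : ℂ) * (if (⟨i, hi⟩ : Fin n0) = l then (MM.det : ℂ) else 0)) • e l := by
      intro l
      rw [← Finset.sum_smul, ← Finset.mul_sum, h3 l]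
    rw [Finset.sum_congr rfl (fun l _ => h8 l), Finset.sum_eq_single (⟨i, hi⟩ : Fin n0)]
    · rw [if_pos rfl, mul_comm]
    · intro b _ hb
      rw [if_neg (Ne.symm hb), mul_zero, zero_smul]
    · intro h; exact absurd (Finset.mem_univ _) h
  rw [h2] at h1
  have h9 : Ys A L j (((MM.det : ℂ) * A.w q) • e i) := h1
  have h10 := hsmul _ _ hdO h9
  rw [smul_smul, ← mul_assoc, inv_mul_cancel₀ hd0, one_mul] at h10
  exact h10

end Pool.Agent.H332R3
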