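import Pool.Agent.H332R3.Core
import Pool.Agent.H332R3.YsLarge2
import Pool.Agent.H332R3.YsSmall2

/-!
# Core theorem under hypothesis (H')
-/

set_option autoImplicit false

namespace Pool.Agent.H332R3

open scoped ComplexConjugate

section

variable (A : Arith) {L : Subgroup (E ≃ₗ[ℂ] E)} (hL : L ≤ U)
include hL

lemma Core2_large {n0 : ℕ} (hn0 : 1 ≤ n0)
    (hE : ∀ n, n0 ≤ n → InR A L (e n)) (hH : HP A L n0) {j l : ℕ} (hj : n0 ≤ j) (hl : n0 ≤ l)
    (hlj : l ≠ j) : Ys A L j (e l) :=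
  Ys_e_large2 A hL (Core_add A hL) (Ys_smul A) (Ys_sat A) (Core_ofR A hL) hn0 hE hH hj hl hlj

lemma Core2_e {n0 : ℕ} (hn0 : 1 ≤ n0)
    (hE : ∀ n, n0 ≤ n → InR A L (e n)) (hH : HP A L n0) {j l : ℕ} (hj : n0 ≤ j)
    (hlj : l ≠ j) : Ys A L j (e l) := by
  by_cases hl : n0 ≤ l
  · exact Core2_large A hL hn0 hE hH hj hl hlj
  · push Not at hl
    refine Ys_e_small2 A (n0 := n0) (fun y z => Core_add A hL (hn0.trans hj))
      (fun c y hc hy => Ys_smul A hc hy) (fun y h1 h2 => Ys_sat A h1 h2)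
      (fun l hl hlj => Core2_large A hL hn0 hE hH hj hl hlj) hj ?_ hl
    intro i hi q
    obtain ⟨y, u, h1, h3, h4, h5, h6, h7, h8⟩ := hH j hj i hi q
    refine ⟨y, u, h1, h3, h4, h5, h6, h7, Core_ofR A hL (hn0.trans hj) h1 ?_ (hE j hj) h8⟩
    intro n
    by_cases hn : n = i
    · subst hn
      rw [h6]
      exact ⟨q, u, h3, by ring⟩
    · obtain ⟨z, hz, hyz⟩ := h7 n hn
      rw [hyz]
      exact Arith.I_mul_right hz (A.w_mem q)

end

theorem core2 (A : Arith) {L : Subgroup (E ≃ₗ[ℂ] E)} (hL : L ≤ U) {n0 : ℕ} (hn0 : 1 ≤ n0)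
    (hE : ∀ n, n0 ≤ n → InR A L (e n)) (hH : HP A L n0) :
    ∀ (j l : ℕ) (τ : ℂ), 1 ≤ j → l ≠ j → A.I τ → ‖τ‖ ≤ 1 / 2 → InR A L (e j + τ • e l) := by
  intro j l τ hj hlj hτ hτ2
  have hn2 : ‖τ‖ ^ 2 ≤ 1 / 4 := by
    have := norm_nonneg τ
    nlinarith
  by_cases hjn : n0 ≤ j
  · have hy := Core2_e A hL hn0 hE hH hjn hlj
    refine Core_mem A hL hj hy (s := sg l) (h_e_self l) ?_ hτ ?_
    · unfold sg; split_ifs
      · simpa using A.O.neg_mem A.O.one_mem
      · simpa using A.O.one_mem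
    · have : |sg l| = 1 := by unfold sg; split_ifs <;> simp
      rw [this]; linarith
  · push Not at hjn
    -- choose j' ≥ n0, j' ≠ l
    obtain ⟨j', hj', hj'l⟩ : ∃ j', n0 ≤ j' ∧ l ≠ j' := by
      by_cases hl : l = n0
      · exact ⟨n0 + 1, by omega, by omega⟩
      · exact ⟨n0, le_rfl, hl⟩
    have hjj' : j ≠ j' := by omega
    have h1 := Core2_e A hL hn0 hE hH hj' hjj'
    have h2 := Core2_e A hL hn0 hE hH hj' hj'l
    have hj'1 : 1 ≤ j' := hn0.trans hj'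
    have hw : Ys A L j' (e j + τ • e l) :=
      Core_add A hL hj'1 h1 (Ys_smul A (Arith.I_mem' hτ) h2)
    -- W
    have hW : h (e j + τ • e l) (e j + τ • e l) = ((1 + sg l * ‖τ‖ ^ 2 : ℝ) : ℂ) := by
      simp only [h_add_left, h_add_right, h_smul_left, h_smul_right, h_e_self, h_e_e hlj,
        h_e_e hlj.symm, mul_zero, zero_add, add_zero]
      have : (sg j : ℂ) = 1 := by unfold sg; rw [if_neg (by omega)]; simp
      rw [this]
      push_cast
      have h3 := Complex.mul_conj' τ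
      linear_combination (sg l : ℂ) * h3
    have hsg : |sg l| = 1 := by unfold sg; split_ifs <;> simp
    have hsgb : -1 ≤ sg l ∧ sg l ≤ 1 := abs_le.mp hsg.le
    have hsq0 : 0 ≤ ‖τ‖ ^ 2 := by positivity
    have hW1 : 3 / 4 ≤ 1 + sg l * ‖τ‖ ^ 2 := by nlinarith
    have hsgO : (sg l : ℂ) ∈ A.O := by
      unfold sg; split_ifs
      · simpa using A.O.neg_mem A.O.one_mem
      · simpa using A.O.one_mem
    have hWI : A.I (((1 + sg l * ‖τ‖ ^ 2 : ℝ) : ℂ) - 1) := by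
      have : (((1 + sg l * ‖τ‖ ^ 2 : ℝ) : ℂ) - 1) = (sg l * conj τ) * τ := by
        push_cast
        have h3 := Complex.mul_conj' τ
        linear_combination -(sg l : ℂ) * h3
      rw [this]
      exact Arith.I_mul_left (A.O.mul_mem hsgO (Arith.I_mem' (Arith.I_conj hτ))) hτ
    refine Plane A hL (a := e j') (W := 1 + sg l * ‖τ‖ ^ 2) ?_ (hE j' hj') ?_ hW hW1 hWI ?_
    · rw [h_e_self]; simp [sg]; omega
    · rw [h_e_left, hw.1]; simp
    · intro ρ hρ hρW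
      refine Core_mem A hL hj'1 hw (s := 1 + sg l * ‖τ‖ ^ 2) hW ?_ hρ ?_
      · have := A.O.add_mem (Arith.I_mem' hWI) A.O.one_mem
        rwa [sub_add_cancel] at this
      · rw [abs_of_pos (by linarith)]; exact hρW

end Pool.Agent.H332R3
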