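import Pool.Agent.H332R3.Defs3
import Pool.Agent.H332R3.Kapprox
import Pool.Agent.H332R3.Kfacts

set_option autoImplicit false

namespace Pool.Agent.H332R3

open scoped ComplexConjugate

lemma V3a_G (A : Arith) {k : E ≃ₗ[ℂ] E} (hk : k ∈ KK A) (d : ℕ → ThG A) {x : E}
    (hx : T26_Ov A x) :
    (∀ m, A.I (((k * dl A d) x) m - x m)) ∧ (∀ m, A.I (((k * dl A d)⁻¹ x) m - x m)) := by
  have hdl : ∀ (d : ℕ → ThG A) {y : E}, T26_Ov A y → ∀ m, A.I ((dl A d y) m - y m) := by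
    intro d y hy m
    have h1 : (dl A d y) m - y m = (cf d m - 1) * y m := by rw [dl_apply]; ring
    rw [h1]
    exact Arith.I_mul_right (cf_Th d m).2 (hy m)
  have hdlO : ∀ (d : ℕ → ThG A) {y : E}, T26_Ov A y → T26_Ov A (dl A d y) := by
    intro d y hy m
    have h1 := A.O.add_mem (Arith.I_mem' (hdl d hy m)) (hy m)
    rwa [sub_add_cancel] at h1
  obtain ⟨⟨a, ha⟩, ⟨b, hb⟩⟩ := T26_KK_B A hk
  constructor
  · intro m
    have h1 := ha _ (hdlO d hx) m
    have h2 := hdl d hx m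
    have h3 : ((k * dl A d) x) m - x m
        = ((k (dl A d x)) m - (dl A d x) m) + ((dl A d x) m - x m) := by
      rw [LinearEquiv.mul_apply]; ring
    rw [h3]
    exact Arith.I_add ⟨a, h1⟩ h2
  · intro m
    have hkx := T26_B_Ov hb hx
    have h1 := hb x hx m
    have h2 := hdl d⁻¹ hkx m
    have h3 : ((k * dl A d)⁻¹ x) m - x m
        = ((dl A d⁻¹ (k⁻¹ x)) m - (k⁻¹ x) m) + ((k⁻¹ x) m - x m) := by
      rw [mul_inv_rev, ← map_inv, LinearEquiv.mul_apply]; ring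
    rw [h3]
    exact Arith.I_add h2 ⟨b, h1⟩

lemma V3a_x (A : Arith) {i j : ℕ} (hj1 : 1 ≤ j) (hij : i ≠ j) (q : ℕ) :
    ∃ x ∈ KK A, ∃ α β γ α' : ℂ, A.I α ∧ A.I α' ∧ β ∈ A.O ∧ β⁻¹ ∈ A.O ∧ β ≠ 0 ∧ γ ∈ A.O ∧
      ∀ z : E, x z = z + (A.w q : ℂ) • ((z j * α + z i * γ) • e j + (z j * β + z i * α') • e i) := by
  -- constants
  have hW1 : 1 < A.w (q + 1) := A.w_gt _
  have hWsq : A.w (q + 1) ^ 2 = A.w q := A.w_sq q
  have hw3 : A.w q ≤ 3 := A.w_le q
  have hW3 : A.w (q + 1) ≤ 3 := A.w_le _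
  set W : ℝ := A.w (q + 1) with hWdef
  have hWO : (W : ℂ) ∈ A.O := A.w_mem (q + 1)
  have hWlev : A.lev (q + 1) (W : ℂ) := A.lev_w (q + 1)
  have hWI : A.I (W : ℂ) := ⟨_, hWlev⟩
  have h8 : (1 / 8 : ℂ) ∈ A.O := by
    have := A.O.mul_mem A.half_mem (A.O.mul_mem A.half_mem A.half_mem)
    have h2 : (1 / 2 : ℂ) * (1 / 2 * (1 / 2)) = 1 / 8 := by norm_num
    rwa [h2] at this
  have h4 : (1 / 4 : ℂ) ∈ A.O := by
    have := A.O.mul_mem A.half_mem A.half_mem
    have h2 : (1 / 2 : ℂ) * (1 / 2) = 1 / 4 := by norm_num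
    rwa [h2] at this
  have h32 : (1 / 32 : ℂ) ∈ A.O := by
    have := A.O.mul_mem h4 h8
    have h2 : (1 / 4 : ℂ) * (1 / 8) = 1 / 32 := by norm_num
    rwa [h2] at this
  have h64 : (1 / 64 : ℂ) ∈ A.O := by
    have := A.O.mul_mem h8 h8
    have h2 : (1 / 8 : ℂ) * (1 / 8) = 1 / 64 := by norm_num
    rwa [h2] at this
  have h32' : (32 : ℂ) ∈ A.O := by
    have := natCast_mem A.O 32
    simpa using this
  -- t
  have hx0 : 0 ≤ 1 - W ^ 2 / 64 := by rw [hWsq]; linarith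
  set t : ℝ := Real.sqrt (1 - W ^ 2 / 64) with htdef
  have ht2 : t ^ 2 = 1 - W ^ 2 / 64 := Real.sq_sqrt hx0
  have ht2c : (t : ℂ) ^ 2 = 1 - (W : ℂ) ^ 2 / 64 := by
    rw [← Complex.ofReal_pow, ht2]; push_cast; ring
  have htO : (t : ℂ) ∈ A.O := by
    apply A.sqrt_mem _ hx0
    have : ((1 - W ^ 2 / 64 : ℝ) : ℂ) = 1 - (W : ℂ) * W * (1 / 64) := by push_cast; ring
    rw [this]
    exact A.O.sub_mem A.O.one_mem (A.O.mul_mem (A.O.mul_mem hWO hWO) h64)
  -- ε
  have hε : ∃ ε : ℂ, ε ∈ A.O ∧ ε * ε = 1 ∧ A.I (ε * t - 1) := by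
    have hsq : ∃ y ∈ A.O, (t : ℂ) ^ 2 - 1 = (A.w (q + 1) : ℂ) * y := by
      refine ⟨-(W * (1 / 64)), A.O.neg_mem (A.O.mul_mem hWO h64), ?_⟩
      rw [ht2c]; ring
    rcases A.sq_one (q + 1) (t : ℂ) htO (Or.inl (Complex.conj_ofReal t)) hsq with hh | hh
    · refine ⟨1, A.O.one_mem, by ring, ⟨q + 1, ?_⟩⟩
      rw [one_mul]; exact hh
    · refine ⟨-1, A.O.neg_mem A.O.one_mem, by ring, ⟨q + 1, ?_⟩⟩
      have : (-1 : ℂ) * t - 1 = -(t + 1) := by ring
      rw [this]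
      exact Arith.lev_neg hh
  obtain ⟨ε, hεO, hεε, hεI⟩ := hε
  -- the unit b = t + i W / 8
  set b : ℂ := t + Complex.I * W * (1 / 8) with hbdef
  have hbO : b ∈ A.O := A.O.add_mem htO (A.O.mul_mem (A.O.mul_mem A.I_mem hWO) h8)
  have hεb : A.I (ε * b - 1) := by
    have : ε * b - 1 = (ε * t - 1) + (ε * Complex.I * (1 / 8)) * W := by rw [hbdef]; ring
    rw [this]
    exact Arith.I_add hεI
      (Arith.I_mul_left (A.O.mul_mem (A.O.mul_mem hεO A.I_mem) h8) hWI)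
  have hb0 : b ≠ 0 := by
    have := (Arith.unit_of_I' hεb).1
    exact right_ne_zero_of_mul this
  have hε0 : ε ≠ 0 := left_ne_zero_of_mul (Arith.unit_of_I' hεb).1
  have hbinv : b⁻¹ ∈ A.O := by
    have h1 := A.O.mul_mem hεO (Arith.unit_of_I' hεb).2
    have h2 : ε * (ε * b)⁻¹ = b⁻¹ := by field_simp
    rwa [h2] at h1
  -- lam
  set lam : ℂ := 1 + W * (1 / 4) * Complex.I * b with hlamdef
  have hlamI : A.I (lam - 1) := by
    have : lam - 1 = ((1 / 4) * Complex.I * b) * W := by rw [hlamdef]; ring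
    rw [this]
    exact Arith.I_mul_left (A.O.mul_mem (A.O.mul_mem h4 A.I_mem) hbO) hWI
  have hlamn : ‖lam‖ = 1 := by
    have hl : lam = ((1 - W ^ 2 / 32 : ℝ) : ℂ) + ((W * t / 4 : ℝ) : ℂ) * Complex.I := by
      rw [hlamdef, hbdef]; push_cast
      linear_combination ((W : ℂ) ^ 2 / 32) * Complex.I_sq
    have h1 : ‖lam‖ ^ 2 = 1 := by
      rw [← Complex.normSq_eq_norm_sq, hl, Complex.normSq_add_mul_I]
      have : (1 - W ^ 2 / 32) ^ 2 + (W * t / 4) ^ 2
          = (1 - W ^ 2 / 32) ^ 2 + W ^ 2 * t ^ 2 / 16 := by ring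
      rw [this, ht2]; ring
    have h2 : (‖lam‖ - 1) * (‖lam‖ + 1) = 0 := by linear_combination h1
    rcases mul_eq_zero.mp h2 with h3 | h3
    · linarith
    · have := norm_nonneg lam; linarith
  have hTh : A.Th lam := ⟨hlamn, hlamI⟩
  -- tau
  set τ : ℂ := (W : ℂ) * (1 / 8) with hτdef
  have hτI : A.I τ := Arith.I_mul_right hWI h8
  have hτn : ‖τ‖ ≤ 1 / 2 := by
    rw [hτdef, norm_mul, Complex.norm_real, Real.norm_of_nonneg (by linarith)]
    have : ‖(1 / 8 : ℂ)‖ = 1 / 8 := by norm_num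
    rw [this]; linarith
  have hτconj : conj τ = τ := by
    have : τ = ((W * (1 / 8) : ℝ) : ℂ) := by rw [hτdef]; push_cast; ring
    rw [this, Complex.conj_ofReal]
  -- the vector v
  have hsgj : sg j = 1 := by unfold sg; rw [if_neg (by omega)]
  set v : E := e j + τ • e i with hvdef
  have hvj : v j = 1 := by
    rw [hvdef, Finsupp.add_apply, Finsupp.smul_apply, e_self, e_ne hij]; simp
  set Y : ℂ := τ * τ * sg i with hYdef
  have hsgO : ((sg i : ℝ) : ℂ) ∈ A.O := by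
    unfold sg; split_ifs
    · push_cast; exact A.O.neg_mem A.O.one_mem
    · push_cast; exact A.O.one_mem
  have hYI : A.I Y := by
    rw [hYdef]
    exact Arith.I_mul_right (Arith.I_mul_right hτI (Arith.I_mem' hτI)) hsgO
  have hhv : h v v = 1 + Y := by
    rw [hvdef, h_add_left, h_add_right, h_add_right, h_smul_left, h_smul_left, h_smul_right,
      h_smul_right, h_e_self, h_e_self, h_e_e hij, h_e_e (Ne.symm hij), hτconj, hsgj, hYdef]
    push_cast; ring
  have hY1 := Arith.unit_of_I hYI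
  have hhv0 : h v v ≠ 0 := by rw [hhv]; exact hY1.1
  have hhjv : h (e j) v = 1 := by
    rw [h_e_left, hvj, hsgj]; simp
  have hlam0 : lam ≠ 0 := Arith.Th_ne_zero hTh
  have hxK : R v lam ∈ KK A := by
    apply Subgroup.subset_closure
    exact ⟨j, i, τ, lam, hj1, hij, hτI, hτn, hTh, fun x => R_apply hhv0 hlam0 x⟩
  -- second reflection
  have hhj : h (e j) (e j) = 1 := by rw [h_e_self, hsgj]; simp
  have hhj0 : h (e j) (e j) ≠ 0 := by rw [hhj]; exact one_ne_zero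
  have hTh' : A.Th (conj lam) := Arith.Th_conj hTh
  have hclam0 : conj lam ≠ 0 := Arith.Th_ne_zero hTh'
  have hxK2 : R (e j) (conj lam) ∈ KK A := by
    apply Subgroup.subset_closure
    refine ⟨j, i, 0, conj lam, hj1, hij, Arith.I_zero, by simp, hTh', fun x => ?_⟩
    rw [zero_smul, add_zero]
    exact R_apply hhj0 hclam0 x
  have hll : lam * conj lam = 1 := by
    rw [Complex.mul_conj', hlamn]; simp
  have hclam : conj lam - 1 = -((W : ℂ) * (1 / 4) * Complex.I * conj b) := by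
    rw [hlamdef]
    simp only [map_add, map_one, map_mul, Complex.conj_ofReal, Complex.conj_I, map_div₀, map_ofNat]
    ring
  have hlam1 : lam - 1 = (W : ℂ) * (1 / 4) * Complex.I * b := by rw [hlamdef]; ring
  have hbc : conj b ∈ A.O := A.conj_mem b hbO
  have hbcinv : (conj b)⁻¹ ∈ A.O := by
    have := A.conj_mem _ hbinv
    rwa [map_inv₀] at this
  have hbc0 : conj b ≠ 0 := by simpa using hb0
  have hIinv : (Complex.I)⁻¹ ∈ A.O := by
    rw [Complex.inv_I]; exact A.O.neg_mem A.I_mem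
  have hwq : (A.w q : ℂ) = (W : ℂ) ^ 2 := by
    rw [← hWsq]; push_cast; ring
  have h256 : (1 / 256 : ℂ) ∈ A.O := by
    have := A.O.mul_mem h8 h32
    have h2 : (1 / 8 : ℂ) * (1 / 32) = 1 / 256 := by norm_num
    rwa [h2] at this
  set V : ℂ := (1 + Y)⁻¹ with hVdef
  have hVO : V ∈ A.O := hY1.2
  have hV0 : V ≠ 0 := inv_ne_zero hY1.1
  have hV1 : (1 + Y) * V = 1 := mul_inv_cancel₀ hY1.1
  refine ⟨R v lam * R (e j) (conj lam), (KK A).mul_mem hxK hxK2,
    -(Complex.I * conj b * (sg i : ℂ) * (1 / 256) * V) * W,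
    Complex.I * conj b * (1 / 32) * V, Complex.I * b * (1 / 32) * (sg i : ℂ) * V,
    (Complex.I * b * (sg i : ℂ) * (1 / 256) * V) * W, ?_, ?_, ?_, ?_, ?_, ?_, ?_⟩
  · exact Arith.I_mul_left (A.O.neg_mem (A.O.mul_mem (A.O.mul_mem (A.O.mul_mem (A.O.mul_mem A.I_mem
      hbc) hsgO) h256) hVO)) hWI
  · exact Arith.I_mul_left (A.O.mul_mem (A.O.mul_mem (A.O.mul_mem (A.O.mul_mem A.I_mem
      hbO) hsgO) h256) hVO) hWI
  · exact A.O.mul_mem (A.O.mul_mem (A.O.mul_mem A.I_mem hbc) h32) hVO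
  · have h1 : (Complex.I * conj b * (1 / 32) * V)⁻¹
        = (Complex.I)⁻¹ * (conj b)⁻¹ * 32 * (1 + Y) := by
      rw [hVdef]
      rw [mul_inv, mul_inv, mul_inv, inv_inv]
      norm_num
    rw [h1]
    exact A.O.mul_mem (A.O.mul_mem (A.O.mul_mem hIinv hbcinv) h32')
      (A.O.add_mem A.O.one_mem (Arith.I_mem' hYI))
  · refine mul_ne_zero (mul_ne_zero (mul_ne_zero Complex.I_ne_zero hbc0) (by norm_num)) hV0
  · exact A.O.mul_mem (A.O.mul_mem (A.O.mul_mem (A.O.mul_mem A.I_mem hbO) h32) hsgO) hVO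
  · intro z
    have hy : R (e j) (conj lam) z = z + ((conj lam - 1) * z j) • e j := by
      rw [R_apply hhj0 hclam0, Rf_apply, hhj, h_e_right, hsgj]
      simp
    have hyj : (z + ((conj lam - 1) * z j) • e j) j = conj lam * z j := by
      rw [Finsupp.add_apply, Finsupp.smul_apply, e_self, smul_eq_mul]; ring
    have hyi : (z + ((conj lam - 1) * z j) • e j) i = z i := by
      rw [Finsupp.add_apply, Finsupp.smul_apply, e_ne (Ne.symm hij), smul_eq_mul]; ring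
    have hhy : h (z + ((conj lam - 1) * z j) • e j) v = conj lam * z j + τ * (sg i * z i) := by
      rw [hvdef, h_add_right, h_smul_right, h_e_right, h_e_right, hyj, hyi, hτconj, hsgj]
      push_cast; ring
    rw [LinearEquiv.mul_apply, hy, R_apply hhv0 hlam0, Rf_apply, hhy, hhv, div_eq_mul_inv,
      ← hVdef]
    have e1 : (lam - 1) * (conj lam * z j + τ * (sg i * z i)) * V
        = -((conj lam - 1) * z j) * V + (lam - 1) * τ * sg i * V * z i := by
      linear_combination (z j * V) * hll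
    have hV1' : (1 + (W : ℂ) ^ 2 * (1 / 64) * sg i) * V = 1 := by
      have hYe : Y = (W : ℂ) ^ 2 * (1 / 64) * sg i := by rw [hYdef, hτdef]; ring
      rw [← hYe]; exact hV1
    have c1 : (conj lam - 1) * z j + (-((conj lam - 1) * z j) * V + (lam - 1) * τ * sg i * V * z i)
        = (A.w q : ℂ) * (z j * (-(Complex.I * conj b * (sg i : ℂ) * (1 / 256) * V) * W)
          + z i * (Complex.I * b * (1 / 32) * (sg i : ℂ) * V)) := by
      rw [hclam, hlam1, hwq, hτdef]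
      linear_combination ((W : ℂ) * (1 / 4) * Complex.I * conj b * z j) * hV1'
    have c2 : (-((conj lam - 1) * z j) * V + (lam - 1) * τ * sg i * V * z i) * τ
        = (A.w q : ℂ) * (z j * (Complex.I * conj b * (1 / 32) * V)
          + z i * ((Complex.I * b * (sg i : ℂ) * (1 / 256) * V) * W)) := by
      rw [hclam, hlam1, hwq, hτdef]
      ring
    rw [e1, hvdef, smul_add, smul_smul, smul_add, smul_smul, smul_smul, ← c1, ← c2]
    simp only [add_smul]
    abel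

theorem HP_of (A : Arith) {N : Subgroup (E ≃ₗ[ℂ] E)} {n0 : ℕ} (hn0 : 1 ≤ n0) (hNU : N ≤ U)
    (hE : ∀ n, n0 ≤ n → InR A N (e n))
    (hmeet : ∀ x ∈ KK A, ∃ k ∈ KK A, ∃ d : ℕ → ThG A,
      (k * dl A d) * x * (k * dl A d)⁻¹ ∈ N) : HP A N n0 := by
  intro j hj i hij q
  obtain ⟨x, hxK, α, β, γ, α', hα, hα', hβ, hβi, hβ0, hγ, hx⟩ := V3a_x A (hn0.trans hj) hij q
  obtain ⟨k, hk, d, hl⟩ := hmeet x hxK
  set g := k * dl A d with hg
  obtain ⟨-, hginv⟩ := V3a_G A hk d (T26_e A j)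
  rw [← hg] at hginv
  have hgj := (V3a_G A hk d (T26_e A j)).1
  have hgi := (V3a_G A hk d (T26_e A i)).1
  rw [← hg] at hgj hgi
  set z : E := g⁻¹ (e j) with hzdef
  have hzj : A.I (z j - 1) := by have := hginv j; rwa [e_self] at this
  have hzi : A.I (z i) := by
    have := hginv i
    rwa [e_ne (Ne.symm hij), sub_zero] at this
  have hzjO : z j ∈ A.O := Arith.mem_of_I' hzj
  set a : ℂ := z j * α + z i * γ with hadef
  set c : ℂ := z j * β + z i * α' with hcdef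
  have haI : A.I a := Arith.I_add (Arith.I_mul_left hzjO hα) (Arith.I_mul_right hzi hγ)
  have hcO : c ∈ A.O := A.O.add_mem (A.O.mul_mem hzjO hβ) (A.O.mul_mem (Arith.I_mem' hzi)
    (Arith.I_mem' hα'))
  have hcβ : A.I (c * β⁻¹ - 1) := by
    have : c * β⁻¹ - 1 = (z j - 1) + z i * (α' * β⁻¹) := by
      rw [hcdef]; field_simp; ring
    rw [this]
    exact Arith.I_add hzj (Arith.I_mul_right hzi (A.O.mul_mem (Arith.I_mem' hα') hβi))
  have hlE : (g * x * g⁻¹) (e j) = e j + (A.w q : ℂ) • (a • g (e j) + c • g (e i)) := by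
    rw [LinearEquiv.mul_apply, LinearEquiv.mul_apply, ← hzdef, hx z, map_add, map_smul, map_add,
      map_smul, map_smul, hzdef, T26_apply_inv]
  set Z : E := a • g (e j) + c • g (e i) with hZdef
  have hgjO : ∀ n, (g (e j)) n ∈ A.O := fun n => by
    have := A.O.add_mem (Arith.I_mem' (hgj n)) (T26_e A j n)
    rwa [sub_add_cancel] at this
  have hZn : ∀ n, Z n = a * (g (e j)) n + c * (g (e i)) n := fun n => by
    rw [hZdef]; simp
  have hZI : ∀ n, n ≠ i → A.I (Z n) := by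
    intro n hn
    rw [hZn]
    have h1 := hgi n
    rw [e_ne (Ne.symm hn), sub_zero] at h1
    exact Arith.I_add (Arith.I_mul_right haI (hgjO n)) (Arith.I_mul_left hcO h1)
  have hZi : A.I (Z i * β⁻¹ - 1) := by
    have h1 := hgi i
    rw [e_self] at h1
    have : Z i * β⁻¹ - 1 = (c * β⁻¹ - 1) + c * β⁻¹ * ((g (e i)) i - 1)
        + a * ((g (e j)) i * β⁻¹) := by rw [hZn]; ring
    rw [this]
    exact Arith.I_add (Arith.I_add hcβ (Arith.I_mul_left (A.O.mul_mem hcO hβi) h1))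
      (Arith.I_mul_right haI (A.O.mul_mem (hgjO i) hβi))
  have hwI : A.w q ∈ Set.univ := trivial
  have hwqO : (A.w q : ℂ) ∈ A.O := A.w_mem q
  set cc : ℂ := 1 + (A.w q : ℂ) * Z j with hccdef
  have hccI : A.I (cc - 1) := by
    have : cc - 1 = (A.w q : ℂ) * Z j := by rw [hccdef]; ring
    rw [this]
    exact Arith.I_mul_left hwqO (hZI j (Ne.symm hij))
  obtain ⟨hcc0, hccO⟩ := Arith.unit_of_I' hccI
  have hccmem : cc ∈ A.O := Arith.mem_of_I' hccI
  obtain ⟨hZi0, hZiO⟩ := Arith.unit_of_I' hZi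
  have hZi0' : Z i ≠ 0 := left_ne_zero_of_mul hZi0
  have hZiinv : (Z i)⁻¹ ∈ A.O := by
    have h1 := A.O.mul_mem hβi hZiO
    have h2 : β⁻¹ * (Z i * β⁻¹)⁻¹ = (Z i)⁻¹ := by field_simp
    rwa [h2] at h1
  have hZimem : Z i ∈ A.O := by
    have h1 := A.O.mul_mem (Arith.mem_of_I' hZi) hβ
    have h2 : Z i * β⁻¹ * β = Z i := by field_simp
    rwa [h2] at h1
  have hlInR : InR A N (e j + (A.w q : ℂ) • Z) := by
    rw [← hlE]
    exact (hE j hj).map hNU hl
  refine ⟨cc⁻¹ • (e j + (A.w q : ℂ) • Z) - e j, cc⁻¹ * Z i, ?_, ?_, ?_, ?_, ?_, ?_, ?_⟩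
  · rw [Finsupp.sub_apply, Finsupp.smul_apply, Finsupp.add_apply, Finsupp.smul_apply, e_self,
      smul_eq_mul, smul_eq_mul, ← hccdef, inv_mul_cancel₀ hcc0, sub_self]
  · exact A.O.mul_mem hccO hZimem
  · rw [mul_inv, inv_inv]; exact A.O.mul_mem hccmem hZiinv
  · exact mul_ne_zero (inv_ne_zero hcc0) hZi0'
  · rw [Finsupp.sub_apply, Finsupp.smul_apply, Finsupp.add_apply, Finsupp.smul_apply,
      e_ne (Ne.symm hij), smul_eq_mul, smul_eq_mul]; ring
  · intro n hn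
    by_cases hnj : n = j
    · subst hnj
      refine ⟨0, Arith.I_zero, ?_⟩
      rw [Finsupp.sub_apply, Finsupp.smul_apply, Finsupp.add_apply, Finsupp.smul_apply, e_self,
        smul_eq_mul, smul_eq_mul, ← hccdef, inv_mul_cancel₀ hcc0, sub_self, zero_mul]
    · refine ⟨cc⁻¹ * Z n, Arith.I_mul_left hccO (hZI n hn), ?_⟩
      rw [Finsupp.sub_apply, Finsupp.smul_apply, Finsupp.add_apply, Finsupp.smul_apply,
        e_ne (Ne.symm hnj), smul_eq_mul, smul_eq_mul]; ring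
  · rw [add_sub_cancel]
    exact hlInR.smul (inv_ne_zero hcc0)

end Pool.Agent.H332R3
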