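import Mathlib

set_option autoImplicit false

namespace Pool.Agent.H332R3

open scoped ComplexConjugate

theorem ig_abs {G Θ : Type} [Group G] [CommGroup Θ] [Countable Θ] (K : Subgroup G)
    (hKn : K.Normal) (hKc : Countable K) (δ : (ℕ → Θ) →* G)
    (hG : ∀ g : G, ∃ k ∈ K, ∃ d, g = k * δ d)
    (hsingle : ∀ n t, δ (Pi.mulSingle n t) ∈ K)
    (hcomm : ∀ x ∈ K, ∃ n, ∀ d : ℕ → Θ, (∀ i < n, d i = 1) → δ d * x = x * δ d)
    (hstar : ∀ N : Subgroup G, N ≤ K → (∃ n0, ∀ n, n0 ≤ n → ∀ t, δ (Pi.mulSingle n t) ∈ N) →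
      (∀ x ∈ K, ∃ g : G, g * x * g⁻¹ ∈ N) → N = K)
    (hbaire : ∀ (P : K → Subgroup (ℕ → Θ)),
      (∀ i, ∀ d : ℕ → Θ, (∀ n, ∃ d' ∈ P i, ∀ j < n, d' j = d j) → d ∈ P i) →
      (∀ d : ℕ → Θ, ∃ i, d ∈ P i) →
      ∃ i, ∃ n, ∀ d : ℕ → Θ, (∀ j < n, d j = 1) → d ∈ P i)
    (M : Subgroup G) (hM : ∀ x : G, ∃ g : G, g * x * g⁻¹ ∈ M) : M = ⊤ := by
  have hK1 : ∀ g x : G, x ∈ K → g * x * g⁻¹ ∈ K := fun g x hx => hKn.conj_mem x hx g
  have hK2 : ∀ g x : G, g * x * g⁻¹ ∈ K → x ∈ K := fun g x hx => by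
    have h := hKn.conj_mem _ hx g⁻¹
    have e : g⁻¹ * (g * x * g⁻¹) * g⁻¹⁻¹ = x := by group
    rwa [e] at h
  -- the quotient by `K` is abelian
  have hab : ∀ a b : G, a * b * a⁻¹ * b⁻¹ ∈ K := by
    intro a b
    obtain ⟨k1, hk1, d1, rfl⟩ := hG a
    obtain ⟨k2, hk2, d2, rfl⟩ := hG b
    have e1 : ((k1 : G) : G ⧸ K) = 1 := (QuotientGroup.eq_one_iff k1).2 hk1
    have e2 : ((k2 : G) : G ⧸ K) = 1 := (QuotientGroup.eq_one_iff k2).2 hk2
    rw [← QuotientGroup.eq_one_iff]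
    simp only [QuotientGroup.mk_mul, QuotientGroup.mk_inv, e1, e2, one_mul]
    have e3 : δ d1 * δ d2 * (δ d1)⁻¹ * (δ d2)⁻¹ = 1 := by
      have e4 : δ d1 * δ d2 = δ d2 * δ d1 := by rw [← map_mul, mul_comm, map_mul]
      rw [e4]
      group
    have e5 := congrArg (fun x : G => (x : G ⧸ K)) e3
    simpa only [QuotientGroup.mk_mul, QuotientGroup.mk_inv, QuotientGroup.mk_one] using e5
  have hMK : ∀ g : G, ∃ m ∈ M, ∃ k ∈ K, g = m * k := by
    intro g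
    obtain ⟨h, hh⟩ := hM g
    refine ⟨_, hh, (h * g * h⁻¹)⁻¹ * g, ?_, by group⟩
    have h1 := hab h g⁻¹
    have e : (h * g * h⁻¹)⁻¹ * g = h * g⁻¹ * h⁻¹ * g⁻¹⁻¹ := by group
    rw [e]
    exact h1
  have hdk : ∀ d : ℕ → Θ, ∃ k ∈ K, k * δ d * k⁻¹ ∈ M := by
    intro d
    obtain ⟨g, hg⟩ := hM (δ d)
    obtain ⟨m, hm, k, hk, rfl⟩ := hMK g
    refine ⟨k, hk, ?_⟩
    have h1 := M.mul_mem (M.mul_mem (M.inv_mem hm) hg) hm
    have e : m⁻¹ * (m * k * δ d * (m * k)⁻¹) * m = k * δ d * k⁻¹ := by group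
    rwa [e] at h1
  -- the conjugates
  set L : G → Subgroup G := fun k => (M ⊓ K).comap (MulAut.conj k).toMonoidHom with hL
  have hLm : ∀ k x, x ∈ L k ↔ k * x * k⁻¹ ∈ M ∧ x ∈ K := by
    intro k x
    simp only [hL, Subgroup.mem_comap, Subgroup.mem_inf, MulEquiv.coe_toMonoidHom,
      MulAut.conj_apply]
    constructor
    · rintro ⟨h1, h2⟩
      exact ⟨h1, hK2 _ _ h2⟩
    · rintro ⟨h1, h2⟩
      exact ⟨h1, hK1 _ _ h2⟩
  -- elements of the conjugate of `M` normalise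
  have hnorm : ∀ k y : G, k * y * k⁻¹ ∈ M → y ∈ Subgroup.normalizer (L k : Set G) := by
    intro k y hy
    rw [Subgroup.mem_normalizer_iff]
    intro x
    rw [hLm, hLm]
    have e : k * (y * x * y⁻¹) * k⁻¹ = (k * y * k⁻¹) * (k * x * k⁻¹) * (k * y * k⁻¹)⁻¹ := by group
    constructor
    · rintro ⟨h1, h2⟩
      refine ⟨?_, hK1 _ _ h2⟩
      rw [e]
      exact M.mul_mem (M.mul_mem hy h1) (M.inv_mem hy)
    · rintro ⟨h1, h2⟩
      refine ⟨?_, hK2 _ _ h2⟩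
      rw [e] at h1
      have h3 := M.mul_mem (M.mul_mem (M.inv_mem hy) h1) hy
      have e2 : (k * y * k⁻¹)⁻¹ * ((k * y * k⁻¹) * (k * x * k⁻¹) * (k * y * k⁻¹)⁻¹) *
        (k * y * k⁻¹) = k * x * k⁻¹ := by group
      rwa [e2] at h3
  have hclosed : ∀ (i : K) (d : ℕ → Θ), (∀ n, ∃ d' ∈ (Subgroup.normalizer (L i : Set G)).comap δ,
      ∀ j < n, d' j = d j) → d ∈ (Subgroup.normalizer (L i : Set G)).comap δ := by
    rintro ⟨k, hk⟩ d hd
    change δ d ∈ Subgroup.normalizer (L k : Set G)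
    rw [Subgroup.mem_normalizer_iff]
    intro x
    by_cases hx : x ∈ K
    · obtain ⟨n, hn⟩ := hcomm x hx
      obtain ⟨d', hd', hdd⟩ := hd n
      have hd'' : δ d' ∈ Subgroup.normalizer (L k : Set G) := hd'
      have h1 := (Subgroup.mem_normalizer_iff.1 hd'') x
      have h2 := hn (d'⁻¹ * d) fun i hi => by
        rw [Pi.mul_apply, Pi.inv_apply, hdd i hi, inv_mul_cancel]
      have e : δ d * x * (δ d)⁻¹ = δ d' * x * (δ d')⁻¹ := by
        have e1 : δ d = δ d' * δ (d'⁻¹ * d) := by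
          rw [← map_mul, mul_inv_cancel_left]
        rw [e1, mul_assoc (δ d'), h2]
        group
      rw [e]
      exact h1
    · constructor
      · intro h
        exact absurd ((hLm _ _).1 h).2 hx
      · intro h
        exact absurd (hK2 _ _ ((hLm _ _).1 h).2) hx
  have hcover : ∀ d : ℕ → Θ, ∃ i : K, d ∈ (Subgroup.normalizer (L i : Set G)).comap δ := by
    intro d
    obtain ⟨k, hk, h⟩ := hdk d
    exact ⟨⟨k, hk⟩, hnorm k _ h⟩
  obtain ⟨⟨k, hk⟩, n0, hn0⟩ := hbaire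
    (fun k => (Subgroup.normalizer (L k : Set G)).comap δ) hclosed hcover
  have hn0' : ∀ d : ℕ → Θ, (∀ j < n0, d j = 1) → δ d ∈ Subgroup.normalizer (L k : Set G) :=
    fun d hd => hn0 d hd
  have hLn : L k ≤ Subgroup.normalizer (L k : Set G) := Subgroup.le_normalizer
  have hconj : ∀ x ∈ K, ∃ g : G, g * x * g⁻¹ ∈ L k := by
    intro x hx
    obtain ⟨g, hg⟩ := hM x
    refine ⟨k⁻¹ * g, ?_⟩
    rw [hLm]
    refine ⟨?_, hK1 _ _ hx⟩
    have e : k * (k⁻¹ * g * x * (k⁻¹ * g)⁻¹) * k⁻¹ = g * x * g⁻¹ := by group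
    rwa [e]
  have hN := hstar (K ⊓ Subgroup.normalizer (L k : Set G)) inf_le_left
    ⟨n0, fun n hn t => ⟨hsingle n t, hn0' _ fun j hj => by
      rw [Pi.mulSingle_eq_of_ne]
      omega⟩⟩
    (fun x hx => by
      obtain ⟨g, hg⟩ := hconj x hx
      exact ⟨g, ((hLm _ _).1 hg).2, hLn hg⟩)
  have hKN : K ≤ Subgroup.normalizer (L k : Set G) := by
    conv_lhs => rw [← hN]
    exact inf_le_right
  -- every element normalises
  have hdec : ∀ g : G, ∃ y, k * y * k⁻¹ ∈ M ∧ ∃ z ∈ K, g = y * z := by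
    intro g
    obtain ⟨m, hm, z, hz, h⟩ := hMK (k * g * k⁻¹)
    refine ⟨k⁻¹ * m * k, ?_, k⁻¹ * z * k, ?_, ?_⟩
    · have e : k * (k⁻¹ * m * k) * k⁻¹ = m := by group
      rwa [e]
    · have h1 := hK1 k⁻¹ z hz
      rwa [inv_inv] at h1
    · have h1 : g = k⁻¹ * (k * g * k⁻¹) * k := by group
      rw [h1, h]
      group
  have hall : ∀ g : G, g ∈ Subgroup.normalizer (L k : Set G) := by
    intro g
    obtain ⟨y, hy, z, hz, rfl⟩ := hdec g
    exact Subgroup.mul_mem _ (hnorm k y hy) (hKN hz)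
  have hKL : ∀ x ∈ K, x ∈ L k := by
    intro x hx
    obtain ⟨g, hg⟩ := hconj x hx
    exact ((Subgroup.mem_normalizer_iff.1 (hall g)) x).2 hg
  rw [eq_top_iff]
  intro g _
  obtain ⟨y, hy, z, hz, h⟩ := hdec (k⁻¹ * g * k)
  have hz' := ((hLm k z).1 (hKL z hz)).1
  have h1 := M.mul_mem hy hz'
  have e : k * y * k⁻¹ * (k * z * k⁻¹) = g := by
    have e1 : k * y * k⁻¹ * (k * z * k⁻¹) = k * (y * z) * k⁻¹ := by group
    rw [e1, ← h]
    group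
  rwa [e] at h1

end Pool.Agent.H332R3
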