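import Pool.Agent.H332R3.Assem
import Pool.Agent.H332R3.Core2
import Pool.Agent.H332R3.HPofB
import Pool.Agent.H332R3.Baire2
import Pool.Agent.H332R3.IGabs

/-!
# Assembly: the group `G = K · D` is invariably generated
-/

set_option autoImplicit false

namespace Pool.Agent.H332R3

open scoped ComplexConjugate

/-- core consequence: a subgroup of `K` with `HP` is `K`. -/
lemma eq_KK_of_HP (A : Arith) {L : Subgroup (E ≃ₗ[ℂ] E)} (hLK : L ≤ KK A) {n0 : ℕ}
    (hn0 : 1 ≤ n0) (hE : ∀ n, n0 ≤ n → InR A L (e n)) (hH : HP A L n0) : L = KK A := by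
  refine le_antisymm hLK ?_
  rw [KK, Subgroup.closure_le]
  rintro g ⟨j, l, τ, c, hj, hlj, hτ, hτ2, hc, hg⟩
  have := core2 A (hLK.trans (KK_le_U A)) hn0 hE hH j l τ hj hlj hτ hτ2
  obtain ⟨g', hg', hgx⟩ := this.2 c hc
  have : g = g' := by
    apply LinearEquiv.ext; intro x; rw [hg, hgx]
  rw [this]; exact hg'

/-- every subgroup of `G` that meets every conjugacy class is `G`. -/
theorem G1_IG (A : Arith) (M : Subgroup (G1 A)) (hM : ∀ x : G1 A, ∃ g : G1 A, g * x * g⁻¹ ∈ M) :
    M = ⊤ := by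
  refine ig_abs (theSetup A).K (theSetup A).normal (theSetup A).countK (theSetup A).δ
    (theSetup A).hG (theSetup A).hsingle (theSetup A).hcomm ?_ ?_ M hM
  · rintro N hN ⟨n0, hn0⟩ hmeet
    have hN : N ≤ (KK A).subgroupOf (G1 A) := hN
    show N = (KK A).subgroupOf (G1 A)
    have hinj : Function.Injective (G1 A).subtype := Subtype.coe_injective
    apply Subgroup.map_injective hinj
    rw [Subgroup.subgroupOf_map_subtype, inf_of_le_left (KK_le_G1 A)]
    set N' := N.map (G1 A).subtype with hN'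
    have hN'K : N' ≤ KK A := by
      rintro _ ⟨x, hx, rfl⟩
      exact hN hx
    have hE : ∀ n, n0 + 1 ≤ n → InR A N' (e n) := by
      intro n hn
      obtain ⟨m, rfl⟩ : ∃ m, n = m + 1 := ⟨n - 1, by omega⟩
      apply InR_of_single
      intro t
      exact ⟨_, hn0 m (by omega) t, rfl⟩
    refine eq_KK_of_HP A hN'K (n0 := n0 + 1) (by omega) hE ?_
    apply HP_of A (by omega) (hN'K.trans (KK_le_U A)) hE
    intro x hx
    obtain ⟨⟨g, k, hk, d, rfl⟩, hg⟩ := hmeet ⟨x, KK_le_G1 A hx⟩ hx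
    exact ⟨k, hk, d, ⟨_, hg, rfl⟩⟩
  · intro P h1 h2
    have := (theSetup A).countK
    exact baire_union P h1 h2

end Pool.Agent.H332R3
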