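import Pool.Agent.H332R3.Defs2

set_option autoImplicit false

namespace Pool.Agent.H332R3

open scoped ComplexConjugate

/-- the scalar part of the quasi-metric inequality -/
theorem ball_scalar (r : ℝ) (hr0 : 0 ≤ r) (hr1 : r ≤ 1) (α γ s : ℂ) (hα : ‖α‖ ≤ 1) (hγ : ‖γ‖ ≤ 1)
    (hs : ‖s - α * γ‖ ≤ Real.sqrt (1 - ‖α‖ ^ 2) * Real.sqrt (1 - ‖γ‖ ^ 2)) :
    Real.sqrt ‖1 - s‖ ≤ Real.sqrt ‖1 - (r : ℂ) * α‖ + Real.sqrt ‖1 - (r : ℂ) * γ‖ := by
  have key : ∀ z : ℂ, ‖z‖ ≤ 1 → 1 - ‖z‖ ^ 2 ≤ 2 * ‖1 - (r : ℂ) * z‖ := by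
    intro z hz
    have h1 : ‖(r : ℂ) * z‖ = r * ‖z‖ := by
      rw [norm_mul, Complex.norm_real, Real.norm_eq_abs, abs_of_nonneg hr0]
    have h2 : 1 - ‖(r : ℂ) * z‖ ≤ ‖1 - (r : ℂ) * z‖ := by
      have := norm_sub_norm_le (1 : ℂ) ((r : ℂ) * z)
      rwa [norm_one] at this
    have h0 : 0 ≤ ‖z‖ := norm_nonneg z
    rw [h1] at h2
    nlinarith
  have hγ2 : ‖(r : ℂ) - γ‖ ≤ ‖1 - (r : ℂ) * γ‖ := by
    apply le_of_sq_le_sq _ (norm_nonneg _)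
    have e1 : ‖(r : ℂ) - γ‖ ^ 2 = (r - γ.re) ^ 2 + γ.im ^ 2 := by
      rw [← Complex.normSq_eq_norm_sq, Complex.normSq_apply]
      simp; ring
    have e2 : ‖1 - (r : ℂ) * γ‖ ^ 2 = (1 - r * γ.re) ^ 2 + (r * γ.im) ^ 2 := by
      rw [← Complex.normSq_eq_norm_sq, Complex.normSq_apply]
      simp; ring
    have e3 : ‖γ‖ ^ 2 = γ.re ^ 2 + γ.im ^ 2 := by
      rw [← Complex.normSq_eq_norm_sq, Complex.normSq_apply]; ring
    have h3 : ‖γ‖ ^ 2 ≤ 1 := by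
      have := norm_nonneg γ; nlinarith
    rw [e1, e2]
    have h4 : 0 ≤ (1 - r ^ 2) * (1 - (γ.re ^ 2 + γ.im ^ 2)) := by
      apply mul_nonneg
      · nlinarith
      · rw [← e3]; linarith
    nlinarith
  have h1 : ‖1 - α * γ‖ ≤ ‖1 - (r : ℂ) * α‖ + ‖1 - (r : ℂ) * γ‖ := by
    calc ‖1 - α * γ‖ = ‖(1 - (r : ℂ) * α) + α * ((r : ℂ) - γ)‖ := by ring_nf
      _ ≤ ‖1 - (r : ℂ) * α‖ + ‖α * ((r : ℂ) - γ)‖ := norm_add_le _ _
      _ = ‖1 - (r : ℂ) * α‖ + ‖α‖ * ‖(r : ℂ) - γ‖ := by rw [norm_mul]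
      _ ≤ ‖1 - (r : ℂ) * α‖ + 1 * ‖1 - (r : ℂ) * γ‖ := by
          gcongr
      _ = _ := by ring
  set a := ‖1 - (r : ℂ) * α‖ with ha
  set b := ‖1 - (r : ℂ) * γ‖ with hb
  have ha0 : 0 ≤ a := norm_nonneg _
  have hb0 : 0 ≤ b := norm_nonneg _
  have h2 : Real.sqrt (1 - ‖α‖ ^ 2) * Real.sqrt (1 - ‖γ‖ ^ 2) ≤ 2 * (Real.sqrt a * Real.sqrt b) := by
    calc Real.sqrt (1 - ‖α‖ ^ 2) * Real.sqrt (1 - ‖γ‖ ^ 2)
        ≤ Real.sqrt (2 * a) * Real.sqrt (2 * b) := by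
          gcongr
          · exact key α hα
          · exact key γ hγ
      _ = 2 * (Real.sqrt a * Real.sqrt b) := by
          rw [Real.sqrt_mul (by norm_num), Real.sqrt_mul (by norm_num)]
          have := Real.mul_self_sqrt (show (0 : ℝ) ≤ 2 by norm_num)
          linear_combination (Real.sqrt a * Real.sqrt b) * this
  have h3 : ‖1 - s‖ ≤ (Real.sqrt a + Real.sqrt b) ^ 2 := by
    calc ‖1 - s‖ = ‖(1 - α * γ) - (s - α * γ)‖ := by ring_nf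
      _ ≤ ‖1 - α * γ‖ + ‖s - α * γ‖ := norm_sub_le _ _
      _ ≤ (a + b) + 2 * (Real.sqrt a * Real.sqrt b) := by linarith
      _ = (Real.sqrt a + Real.sqrt b) ^ 2 := by
          have e1 := Real.mul_self_sqrt ha0
          have e2 := Real.mul_self_sqrt hb0
          linear_combination -e1 - e2
  exact Real.sqrt_le_iff.mpr ⟨by positivity, h3⟩

/-- Rudin's quasi-metric inequality on the unit ball -/
theorem ball_ineq {V : Type} [NormedAddCommGroup V] [InnerProductSpace ℂ V] (u v w : V)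
    (hu : ‖u‖ ≤ 1) (hv : ‖v‖ ≤ 1) (hw : ‖w‖ ≤ 1) :
    Real.sqrt ‖1 - inner ℂ u w‖ ≤ Real.sqrt ‖1 - inner ℂ u v‖ + Real.sqrt ‖1 - inner ℂ v w‖ := by
  by_cases hv0 : v = 0
  · subst hv0
    have h1 : ‖1 - inner ℂ u w‖ ≤ 4 := by
      have h2 : ‖inner ℂ u w‖ ≤ ‖u‖ * ‖w‖ := norm_inner_le_norm u w
      have h3 : ‖1 - inner ℂ u w‖ ≤ ‖(1 : ℂ)‖ + ‖inner ℂ u w‖ := norm_sub_le _ _
      rw [norm_one] at h3
      have := norm_nonneg u
      have := norm_nonneg w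
      nlinarith
    simp only [inner_zero_left, inner_zero_right, sub_zero, norm_one, Real.sqrt_one]
    rw [Real.sqrt_le_iff]
    constructor <;> norm_num
    exact h1
  have hr : 0 < ‖v‖ := norm_pos_iff.mpr hv0
  set r := ‖v‖ with hrdef
  have hrc : (r : ℂ) ≠ 0 := by exact_mod_cast hr.ne'
  have hvv : inner ℂ v v = (r : ℂ) ^ 2 := by
    rw [inner_self_eq_norm_sq_to_K]; rfl
  set α : ℂ := inner ℂ u v / r with hα
  set γ : ℂ := inner ℂ v w / r with hγ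
  have hα1 : ‖α‖ ≤ 1 := by
    rw [hα, norm_div, Complex.norm_real, Real.norm_eq_abs, abs_of_pos hr, div_le_one hr]
    calc ‖inner ℂ u v‖ ≤ ‖u‖ * ‖v‖ := norm_inner_le_norm u v
      _ ≤ 1 * ‖v‖ := by gcongr
      _ = r := one_mul _
  have hγ1 : ‖γ‖ ≤ 1 := by
    rw [hγ, norm_div, Complex.norm_real, Real.norm_eq_abs, abs_of_pos hr, div_le_one hr]
    calc ‖inner ℂ v w‖ ≤ ‖v‖ * ‖w‖ := norm_inner_le_norm v w
      _ ≤ ‖v‖ * 1 := by gcongr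
      _ = r := mul_one _
  set u' : V := u - (inner ℂ v u / (r : ℂ) ^ 2) • v with hu'
  set w' : V := w - (inner ℂ v w / (r : ℂ) ^ 2) • v with hw'
  have hcross : inner ℂ u' w' = inner ℂ u w - α * γ := by
    rw [hu', hw', inner_sub_left, inner_sub_right, inner_sub_right, inner_smul_left, inner_smul_left,
      inner_smul_right, inner_smul_right, hvv, hα, hγ]
    have : (starRingEnd ℂ) (inner ℂ v u) = inner ℂ u v := inner_conj_symm u v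
    rw [map_div₀, this, map_pow, Complex.conj_ofReal]
    field_simp
    ring
  have hnorm : ∀ z : V, ‖z - (inner ℂ v z / (r : ℂ) ^ 2) • v‖ ^ 2 = ‖z‖ ^ 2 - ‖inner ℂ v z / (r : ℂ)‖ ^ 2 := by
    intro z
    have e : ((‖z - (inner ℂ v z / (r : ℂ) ^ 2) • v‖ ^ 2 : ℝ) : ℂ) = ((‖z‖ ^ 2 - ‖inner ℂ v z / (r : ℂ)‖ ^ 2 : ℝ) : ℂ) := by
      have h1 : ((‖z - (inner ℂ v z / (r : ℂ) ^ 2) • v‖ ^ 2 : ℝ) : ℂ) = inner ℂ (z - (inner ℂ v z / (r : ℂ) ^ 2) • v) (z - (inner ℂ v z / (r : ℂ) ^ 2) • v) := by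
        rw [inner_self_eq_norm_sq_to_K]; push_cast; rfl
      have h2 : inner ℂ z z = ((‖z‖ ^ 2 : ℝ) : ℂ) := by
        rw [inner_self_eq_norm_sq_to_K]; push_cast; rfl
      have h3 : ((‖inner ℂ v z / (r : ℂ)‖ ^ 2 : ℝ) : ℂ) = inner ℂ v z * inner ℂ z v / (r : ℂ) ^ 2 := by
        rw [norm_div, div_pow, Complex.norm_real, Real.norm_eq_abs, abs_of_pos hr]
        push_cast
        rw [← Complex.mul_conj', inner_conj_symm]
      rw [h1, inner_sub_left, inner_sub_right, inner_sub_right, inner_smul_left, inner_smul_left,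
        inner_smul_right, inner_smul_right, hvv, Complex.ofReal_sub, h3, h2]
      have : (starRingEnd ℂ) (inner ℂ v z) = inner ℂ z v := inner_conj_symm z v
      rw [map_div₀, this, map_pow, Complex.conj_ofReal]
      field_simp
      ring
    exact_mod_cast e
  have hu2 : ‖u'‖ ≤ Real.sqrt (1 - ‖α‖ ^ 2) := by
    apply Real.le_sqrt_of_sq_le
    have h1 := hnorm u
    have h2 : ‖inner ℂ v u / (r : ℂ)‖ = ‖α‖ := by
      rw [hα, norm_div, norm_div, norm_inner_symm]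
    rw [h2] at h1
    rw [hu', h1]
    have := norm_nonneg u
    nlinarith
  have hw2 : ‖w'‖ ≤ Real.sqrt (1 - ‖γ‖ ^ 2) := by
    apply Real.le_sqrt_of_sq_le
    have h1 := hnorm w
    rw [hw', h1, ← hγ]
    have := norm_nonneg w
    nlinarith
  have hs : ‖inner ℂ u w - α * γ‖ ≤ Real.sqrt (1 - ‖α‖ ^ 2) * Real.sqrt (1 - ‖γ‖ ^ 2) := by
    rw [← hcross]
    exact (norm_inner_le_norm u' w').trans (mul_le_mul hu2 hw2 (norm_nonneg _) (Real.sqrt_nonneg _))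
  have := ball_scalar r hr.le hv α γ (inner ℂ u w) hα1 hγ1 hs
  have e1 : (r : ℂ) * α = inner ℂ u v := by rw [hα]; field_simp
  have e2 : (r : ℂ) * γ = inner ℂ v w := by rw [hγ]; field_simp
  rwa [e1, e2] at this

end Pool.Agent.H332R3
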