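import Pool.Agent.H332R3.Defs2

set_option autoImplicit false

namespace Pool.Agent.H332R3

open scoped ComplexConjugate

lemma T18_exists_m (Y : ℝ) : ∃ m : ℕ, (3 / 2 ^ m : ℝ) ^ 2 * |Y| ≤ 1 / 8 ∧
    (3 / 2 ^ m : ℝ) * (1 + |Y|) ≤ 3 / 2 := by
  obtain ⟨m, hm⟩ := pow_unbounded_of_one_lt (72 * (1 + |Y|)) (show (1 : ℝ) < 2 by norm_num)
  have hp : (0 : ℝ) < 2 ^ m := by positivity
  have hY : 0 ≤ |Y| := abs_nonneg Y
  have h1 : (1 : ℝ) ≤ 2 ^ m := one_le_pow₀ (by norm_num)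
  refine ⟨m, ?_, ?_⟩
  · rw [div_pow, div_mul_eq_mul_div, div_le_iff₀ (by positivity)]
    nlinarith
  · rw [div_mul_eq_mul_div, div_le_iff₀ hp]
    nlinarith

lemma T18_natpow_mem (A : Arith) (m : ℕ) : ((2 : ℂ) ^ m) ∈ A.O := by
  have h2 : (2 : ℂ) ∈ A.O := by
    have := A.O.add_mem A.O.one_mem A.O.one_mem
    rwa [one_add_one_eq_two] at this
  exact pow_mem h2 m

theorem P1 (A : Arith) {L : Subgroup (E ≃ₗ[ℂ] E)} (hL : L ≤ U)
    (hOS : ∀ {a y : E} {Y r : ℝ}, InR A L a → InR A L (a + y) → h a y = 0 → h y y = Y * h a a →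
      A.I Y → A.I r → |r| * (1 + |Y|) ≤ 3 / 2 → InR A L (a + (Complex.I * r) • y))
    (hCS : ∀ {a y : E} {Y : ℝ} {τ : ℂ}, InR A L a → InR A L (a + y) → h a y = 0 →
      h y y = Y * h a a → A.I Y → |Y| ≤ 1 / 8 → A.I τ → ‖τ‖ ≤ 1 / 4 → InR A L (a + τ • y))
    {a y : E} {Y : ℝ}
    (ha : InR A L a) (hay : InR A L (a + y)) (hort : h a y = 0) (hY : h y y = Y * h a a)
    (hYI : A.I Y) :
    ∃ T : ℝ, 0 < T ∧ ∀ τ : ℂ, A.I τ → ‖τ‖ ≤ T → InR A L (a + τ • y) := by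
  obtain ⟨m, hm1, hm2⟩ := T18_exists_m Y
  have hp : (0 : ℝ) < 2 ^ m := by positivity
  refine ⟨1 / 2 ^ m / 4, by positivity, ?_⟩
  rintro τ ⟨k, z, hz, rfl⟩ hτ
  have hw1 : 1 < A.w (k + 1) := A.w_gt _
  have hw3 : A.w (k + 1) ≤ 3 := A.w_le _
  have hw0 : 0 < A.w (k + 1) := lt_trans one_pos hw1
  set r : ℝ := A.w (k + 1) / 2 ^ m with hr
  have hr0 : 0 < r := by positivity
  have hrle : r ≤ 3 / 2 ^ m := by
    rw [hr]; gcongr
  have hrI : A.I (r : ℂ) := by
    have h1 : (r : ℂ) = ((1 / 2 : ℂ) ^ m) * (A.w (k + 1) : ℂ) := by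
      rw [hr]; push_cast; rw [one_div, inv_pow]; ring
    rw [h1]
    exact Arith.I_mul_left (pow_mem A.half_mem m) ⟨k + 1, Arith.lev_w _⟩
  have habs : |r| = r := abs_of_pos hr0
  have h1 : |r| * (1 + |Y|) ≤ 3 / 2 := by
    rw [habs]
    refine le_trans ?_ hm2
    gcongr
  have hI := hOS ha hay hort hY hYI hrI h1
  have hort1 : h a ((Complex.I * r) • y) = 0 := by rw [h_smul_right, hort, mul_zero]
  have hY1 : h ((Complex.I * r) • y) ((Complex.I * r) • y) = ((r ^ 2 * Y : ℝ) : ℂ) * h a a := by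
    rw [h_smul_left, h_smul_right, hY, map_mul, Complex.conj_I, Complex.conj_ofReal]
    push_cast
    linear_combination (-(r : ℂ) ^ 2 * Y * h a a) * Complex.I_sq
  have hY1I : A.I ((r ^ 2 * Y : ℝ) : ℂ) := by
    push_cast
    exact Arith.I_mul_left (pow_mem (Arith.I_mem' hrI) 2) hYI
  have hY1le : |r ^ 2 * Y| ≤ 1 / 8 := by
    rw [abs_mul, abs_of_nonneg (sq_nonneg r)]
    refine le_trans ?_ hm1
    gcongr
  have hrC : (r : ℂ) ≠ 0 := by exact_mod_cast hr0.ne'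
  have hτ' : (A.w k : ℂ) * z / (Complex.I * r) = (-Complex.I * 2 ^ m * z) * (A.w (k + 1) : ℂ) := by
    rw [div_eq_iff (mul_ne_zero Complex.I_ne_zero hrC), hr, ← A.w_sq k]
    have h2 : ((2 : ℂ) ^ m) ≠ 0 := pow_ne_zero _ (by norm_num)
    push_cast
    field_simp
    linear_combination ((A.w (k + 1) : ℂ) ^ 2 * z) * Complex.I_sq
  have hτ'I : A.I ((A.w k : ℂ) * z / (Complex.I * r)) := by
    rw [hτ']
    refine Arith.I_mul_left ?_ ⟨k + 1, Arith.lev_w _⟩
    exact A.O.mul_mem (A.O.mul_mem (A.O.neg_mem A.I_mem) (T18_natpow_mem A m)) hz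
  have hτ'n : ‖(A.w k : ℂ) * z / (Complex.I * r)‖ ≤ 1 / 4 := by
    rw [norm_div, norm_mul Complex.I, Complex.norm_I, one_mul, Complex.norm_real,
      Real.norm_of_nonneg hr0.le, div_le_iff₀ hr0]
    refine hτ.trans ?_
    rw [hr, div_div, mul_div_assoc', div_le_div_iff₀ (by positivity) hp]
    nlinarith
  have hfin := hCS ha hI hort1 hY1 hY1I hY1le hτ'I hτ'n
  rw [smul_smul, div_mul_cancel₀ _ (mul_ne_zero Complex.I_ne_zero hrC)] at hfin
  exact hfin

theorem P2 (A : Arith) {L : Subgroup (E ≃ₗ[ℂ] E)} (hL : L ≤ U)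
    (hCS : ∀ {a y : E} {Y : ℝ} {τ : ℂ}, InR A L a → InR A L (a + y) → h a y = 0 →
      h y y = Y * h a a → A.I Y → |Y| ≤ 1 / 8 → A.I τ → ‖τ‖ ≤ 1 / 4 → InR A L (a + τ • y))
    {a y1 y2 : E} {σ : ℂ}
    (ha : h a a = 1) (hay1 : InR A L (a + y1)) (hay2 : InR A L (a + y2))
    (hort1 : h a y1 = 0) (hort2 : h a y2 = 0)
    (h11 : A.I (h y1 y1)) (h22 : A.I (h y2 y2)) (h21 : A.I (h y2 y1))
    (b11 : ‖h y1 y1‖ ≤ 1 / 64) (b22 : ‖h y2 y2‖ ≤ 1 / 64) (b21 : ‖h y2 y1‖ ≤ 1 / 64)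
    (hσI : A.I σ) (hσ : ‖σ‖ ≤ 1 / 8) :
    InR A L (a + ((1 - σ) • y1 + σ • y2)) := by
  have hort1' : h y1 a = 0 := by rw [h_symm, hort1, map_zero]
  have hort2' : h y2 a = 0 := by rw [h_symm, hort2, map_zero]
  set p : ℂ := h y1 y1 with hp
  set q : ℂ := h y2 y2 with hq
  set s : ℂ := h y2 y1 with hs
  have hpr : ((p.re : ℝ) : ℂ) = p := h_self_real y1
  have hqr : ((q.re : ℝ) : ℂ) = q := h_self_real y2
  have hs' : h y1 y2 = conj s := by rw [h_symm]
  set v : E := a + y1 with hv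
  have hN1 : h v v = 1 + p := by
    rw [hv, h_add_left, h_add_right, h_add_right, ha, hort1, hort1', ← hp]; ring
  obtain ⟨hN0, hNi⟩ := Arith.unit_of_I h11
  obtain ⟨hs0, hsi⟩ := Arith.unit_of_I h21
  have hpc : conj p = p := by rw [← hpr]; exact Complex.conj_ofReal _
  have hqc : conj q = q := by rw [← hqr]; exact Complex.conj_ofReal _
  set x : ℂ := (1 + s) / (1 + p) with hx
  have hx1 : x - 1 = (s - p) * (1 + p)⁻¹ := by
    rw [hx]; field_simp; ring
  have hxI : A.I (x - 1) := by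
    rw [hx1]; exact Arith.I_mul_right (Arith.I_sub h21 h11) hNi
  obtain ⟨hx0, hxi⟩ := Arith.unit_of_I' hxI
  have hxO : x ∈ A.O := Arith.mem_of_I' hxI
  set z : E := a + y2 - x • v with hz
  have hwv : h (a + y2) v = 1 + s := by
    rw [hv, h_add_left, h_add_right, h_add_right, ha, hort1, hort2', ← hs]; ring
  have hzv : h z v = 0 := by
    rw [hz, h_sub_left, h_smul_left, hwv, hN1, hx]
    field_simp
    ring
  have hvz : h v z = 0 := by rw [h_symm, hzv, map_zero]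
  have hww : h (a + y2) (a + y2) = 1 + q := by
    rw [h_add_left, h_add_right, h_add_right, ha, hort2, hort2', ← hq]; ring
  have hzz : h z z = (1 + q) - x * conj x * (1 + p) := by
    have h1 : h z z = h z (a + y2) := by
      have h3 : h z (a + y2 - x • v) = h z (a + y2) := by
        rw [h_sub_right, h_smul_right, hzv, mul_zero, sub_zero]
      rwa [← hz] at h3
    rw [h1, hz, h_sub_left, h_smul_left, hww, h_symm (a + y2) v, hwv]
    have h5 : conj (1 + s) = conj x * (1 + p) := by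
      rw [hx, map_div₀, map_add, map_add, map_one, hpc]
      field_simp
    rw [h5]
    ring
  have hsc0 : 1 + conj s ≠ 0 := by
    intro h0
    apply hs0
    have := congrArg conj h0
    simpa using this
  have hsci : (1 + conj s)⁻¹ ∈ A.O := by
    have := A.conj_mem _ hsi
    rwa [map_inv₀, map_add, map_one] at this
  -- the real number `Y`
  set Y : ℝ := (1 + p.re) * (1 + q.re) / ‖1 + s‖ ^ 2 - 1 with hYdef
  have hns : ((‖1 + s‖ ^ 2 : ℝ) : ℂ) = (1 + s) * (1 + conj s) := by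
    have := Complex.mul_conj (1 + s)
    rw [Complex.normSq_eq_norm_sq, map_add, map_one] at this
    rw [this]
  have hYC : (Y : ℂ) = (1 + p) * (1 + q) / ((1 + s) * (1 + conj s)) - 1 := by
    rw [hYdef]
    rw [← hns]
    push_cast
    rw [hpr, hqr]
  have hYI : A.I (Y : ℂ) := by
    have h1 : (Y : ℂ) = (p + q + p * q - s - conj s - s * conj s) *
        ((1 + s)⁻¹ * (1 + conj s)⁻¹) := by
      rw [hYC]
      field_simp
      ring
    rw [h1]
    refine Arith.I_mul_right ?_ (A.O.mul_mem hsi hsci)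
    refine Arith.I_sub (Arith.I_sub (Arith.I_sub (Arith.I_add (Arith.I_add h11 h22) ?_) h21)
      (Arith.I_conj h21)) ?_
    · exact Arith.I_mul_left (Arith.I_mem' h11) h22
    · exact Arith.I_mul_left (Arith.I_mem' h21) (Arith.I_conj h21)
  have hYle : |Y| ≤ 1 / 8 := by
    have hp' : |p.re| ≤ 1 / 64 := (Complex.abs_re_le_norm p).trans b11
    have hq' : |q.re| ≤ 1 / 64 := (Complex.abs_re_le_norm q).trans b22
    have hlo : 63 / 64 ≤ ‖1 + s‖ := by
      have h1 : ‖(1 : ℂ)‖ ≤ ‖1 + s‖ + ‖s‖ := by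
        have := norm_sub_le (1 + s) s
        simpa using this
      rw [norm_one] at h1
      linarith
    have hhi : ‖1 + s‖ ≤ 65 / 64 := by
      have h1 := norm_add_le (1 : ℂ) s
      rw [norm_one] at h1
      linarith
    have hpos : 0 < ‖1 + s‖ ^ 2 := by positivity
    obtain ⟨hp1, hp2⟩ := abs_le.1 hp'
    obtain ⟨hq1, hq2⟩ := abs_le.1 hq'
    have hsq1 : (63 / 64) ^ 2 ≤ ‖1 + s‖ ^ 2 := by gcongr
    have hsq2 : ‖1 + s‖ ^ 2 ≤ (65 / 64) ^ 2 := by gcongr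
    rw [hYdef, abs_le]
    constructor
    · rw [neg_le_sub_iff_le_add, ← sub_le_iff_le_add, le_div_iff₀ hpos]
      nlinarith
    · rw [sub_le_iff_le_add, div_le_iff₀ hpos]
      nlinarith
  have hcx0 : conj x ≠ 0 := by simpa using hx0
  have hort' : h v (x⁻¹ • z) = 0 := by rw [h_smul_right, hvz, mul_zero]
  have hYY : h (x⁻¹ • z) (x⁻¹ • z) = (Y : ℂ) * h v v := by
    rw [h_smul_left, h_smul_right, hzz, hYC, hN1, map_inv₀]
    have hcx : conj x = (1 + conj s) / (1 + p) := by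
      rw [hx, map_div₀, map_add, map_add, map_one, hpc]
    rw [hcx, hx]
    field_simp
  have hvw : v + x⁻¹ • z = x⁻¹ • (a + y2) := by
    rw [hz, smul_sub, smul_smul, inv_mul_cancel₀ hx0, one_smul]
    abel
  have hInR : InR A L (v + x⁻¹ • z) := by
    rw [hvw]; exact hay2.smul (inv_ne_zero hx0)
  -- the parameter
  have hDI : A.I (σ * (x - 1)) := Arith.I_mul_left (Arith.I_mem' hσI) hxI
  obtain ⟨hD0, hDi⟩ := Arith.unit_of_I hDI
  set D : ℂ := 1 + σ * (x - 1) with hD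
  have hτI : A.I (σ * x / D) := by
    rw [div_eq_mul_inv]
    exact Arith.I_mul_right (Arith.I_mul_right hσI hxO) hDi
  have hτn : ‖σ * x / D‖ ≤ 1 / 4 := by
    have hNlo : 63 / 64 ≤ ‖1 + p‖ := by
      have h1 : ‖(1 : ℂ)‖ ≤ ‖1 + p‖ + ‖p‖ := by
        have := norm_sub_le (1 + p) p
        simpa using this
      rw [norm_one] at h1
      linarith
    have hxn : ‖x - 1‖ ≤ 1 / 16 := by
      rw [hx1, norm_mul, norm_inv, ← div_eq_mul_inv, div_le_iff₀ (by linarith)]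
      have h1 := norm_sub_le s p
      linarith
    have hxn' : ‖x‖ ≤ 17 / 16 := by
      have h1 := norm_add_le (x - 1) 1
      rw [sub_add_cancel, norm_one] at h1
      linarith
    have hDn : 1 / 2 ≤ ‖D‖ := by
      have h1 : ‖(1 : ℂ)‖ ≤ ‖D‖ + ‖σ * (x - 1)‖ := by
        have := norm_sub_le D (σ * (x - 1))
        have h2 : D - σ * (x - 1) = 1 := by rw [hD]; ring
        rwa [h2] at this
      rw [norm_one, norm_mul] at h1
      have h3 : ‖σ‖ * ‖x - 1‖ ≤ 1 / 8 * (1 / 16) := by gcongr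
      linarith
    have hDn' : 7 / 8 ≤ ‖D‖ := by
      have h1 : ‖(1 : ℂ)‖ ≤ ‖D‖ + ‖σ * (x - 1)‖ := by
        have := norm_sub_le D (σ * (x - 1))
        have h2 : D - σ * (x - 1) = 1 := by rw [hD]; ring
        rwa [h2] at this
      rw [norm_one, norm_mul] at h1
      have h3 : ‖σ‖ * ‖x - 1‖ ≤ 1 / 8 * (1 / 16) := by gcongr
      linarith
    rw [norm_div, norm_mul, div_le_iff₀ (by linarith)]
    have h4 : ‖σ‖ * ‖x‖ ≤ 1 / 8 * (17 / 16) := by gcongr
    linarith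
  have hfin := hCS hay1 hInR hort' hYY hYI hYle hτI hτn
  have heq : v + (σ * x / D) • (x⁻¹ • z) = D⁻¹ • (a + ((1 - σ) • y1 + σ • y2)) := by
    rw [smul_smul]
    have h1 : σ * x / D * x⁻¹ = D⁻¹ * σ := by field_simp
    have h2 : v = D⁻¹ • (D • v) := by rw [smul_smul, inv_mul_cancel₀ hD0, one_smul]
    rw [h1, mul_smul]
    conv_lhs => rw [h2]
    rw [← smul_add, hz, hD, hv]
    congr 1
    module
  rw [heq] at hfin
  exact InR.of_smul (inv_ne_zero hD0) hfin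

end Pool.Agent.H332R3
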