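import Pool.Agent.H332R3.Defs2

set_option autoImplicit false

namespace Pool.Agent.H332R3

open scoped ComplexConjugate

/-- the unimodular number `(-2047 - 3 √455 i)/2048` -/
noncomputable def T19_c : ℂ := (-2047 - 3 * ((Real.sqrt 455 : ℝ) : ℂ) * Complex.I) * (1 / 2) ^ 11

theorem T19_sqrt : Real.sqrt 455 * Real.sqrt 455 = 455 := Real.mul_self_sqrt (by norm_num)

theorem T19_re : T19_c.re = -2047 / 2048 := by
  have : T19_c = ((-2047 / 2048 : ℝ) : ℂ) + ((-3 * Real.sqrt 455 / 2048 : ℝ) : ℂ) * Complex.I := by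
    unfold T19_c; push_cast; ring
  rw [this]; simp

theorem T19_im : T19_c.im = -3 * Real.sqrt 455 / 2048 := by
  have : T19_c = ((-2047 / 2048 : ℝ) : ℂ) + ((-3 * Real.sqrt 455 / 2048 : ℝ) : ℂ) * Complex.I := by
    unfold T19_c; push_cast; ring
  rw [this]; simp

theorem T19_norm : ‖T19_c‖ = 1 := by
  have h : ‖T19_c‖ ^ 2 = 1 := by
    rw [← Complex.normSq_eq_norm_sq, Complex.normSq_apply, T19_re, T19_im]
    have := T19_sqrt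
    nlinarith
  have h0 := norm_nonneg T19_c
  nlinarith

theorem T19_norm1 : ‖T19_c + 1‖ = 1 / 32 := by
  have h : ‖T19_c + 1‖ ^ 2 = (1 / 32) ^ 2 := by
    rw [← Complex.normSq_eq_norm_sq, Complex.normSq_apply, Complex.add_re, Complex.add_im, T19_re,
      T19_im, Complex.one_re, Complex.one_im]
    have := T19_sqrt
    nlinarith
  have h0 := norm_nonneg (T19_c + 1)
  nlinarith

theorem T19_Th (A : Arith) : A.Th T19_c := by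
  refine ⟨T19_norm, 0, -(1365 + ((Real.sqrt 455 : ℝ) : ℂ) * Complex.I) * (1 / 2) ^ 11, ?_, ?_⟩
  · have h1 : (1365 : ℂ) ∈ A.O := by
      have := natCast_mem A.O 1365
      exact_mod_cast this
    have h2 : ((Real.sqrt 455 : ℝ) : ℂ) ∈ A.O := by
      refine A.sqrt_mem 455 (by norm_num) ?_
      have := natCast_mem A.O 455
      exact_mod_cast this
    exact A.O.mul_mem (A.O.neg_mem (A.O.add_mem h1 (A.O.mul_mem h2 A.I_mem)))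
      (A.O.pow_mem A.half_mem 11)
  · rw [A.w_zero]
    unfold T19_c
    push_cast
    ring

theorem T19_step (A : Arith) {L : Subgroup (E ≃ₗ[ℂ] E)} (hL : L ≤ U) {a y : E} {s : ℝ} {k : ℕ}
    (ha : h a a = 1) (hort : h a y = 0) (hs : h y y = s) (hsO : (s : ℂ) ∈ A.O) {ρ : ℂ}
    (hρ : A.lev k ρ) (hY : ‖ρ‖ ^ 2 * |s| ≤ 1 / 16) (h1 : InR A L (a + ρ • y))
    (hrec : ∀ τ : ℂ, A.lev k τ → ‖τ‖ ≤ ‖ρ‖ → InR A L (a + τ • y)) :
    InR A L (a + (2 * ρ) • y) := by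
  have hort' : h y a = 0 := by rw [h_symm a y, hort, map_zero]
  obtain ⟨Y, hYd⟩ : ∃ Y : ℝ, Y = ‖ρ‖ ^ 2 * s := ⟨_, rfl⟩
  have hYa : |Y| ≤ 1 / 16 := by
    rw [hYd, abs_mul, abs_of_nonneg (sq_nonneg ‖ρ‖)]; exact hY
  have hYc : (Y : ℂ) = ρ * conj ρ * s := by
    rw [Complex.mul_conj, Complex.normSq_eq_norm_sq, hYd]; push_cast; ring
  have hYI : A.I (Y : ℂ) := by
    rw [hYc]
    exact ⟨k, Arith.lev_mul_right (Arith.lev_mul_right hρ (A.conj_mem _ (Arith.lev_mem hρ))) hsO⟩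
  obtain ⟨hY0, hYu⟩ := Arith.unit_of_I hYI
  obtain ⟨X, hX⟩ : ∃ X : ℂ, X = (1 + 2 * (Y : ℂ)) * (1 + (Y : ℂ))⁻¹ := ⟨_, rfl⟩
  have hYO : (Y : ℂ) ∈ A.O := Arith.I_mem' hYI
  have h2O : (2 : ℂ) ∈ A.O := by
    have := natCast_mem A.O 2
    exact_mod_cast this
  have hXO : X ∈ A.O := by
    rw [hX]
    exact A.O.mul_mem (A.O.add_mem A.O.one_mem (A.O.mul_mem h2O hYO)) hYu
  have hTh := T19_Th A
  have hc1 := Arith.I_mul_right hTh.2 hXO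
  obtain ⟨c1, hc1d⟩ : ∃ c1 : ℂ, c1 = 1 + (T19_c - 1) * X := ⟨_, rfl⟩
  obtain ⟨c2, hc2d⟩ : ∃ c2 : ℂ, c2 = 2 + (T19_c - 1) * X := ⟨_, rfl⟩
  obtain ⟨hc10, hc1u⟩ := Arith.unit_of_I hc1
  rw [← hc1d] at hc10 hc1u
  have hc2O : c2 ∈ A.O := by
    rw [hc2d]
    exact A.O.add_mem h2O (Arith.I_mem' hc1)
  -- estimates
  have hYb := abs_le.1 hYa
  have hn1 : 15 / 16 ≤ ‖(1 + (Y : ℂ))‖ := by
    have : (1 + (Y : ℂ)) = ((1 + Y : ℝ) : ℂ) := by push_cast; ring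
    rw [this, Complex.norm_real, Real.norm_eq_abs, abs_of_nonneg (by linarith)]
    linarith
  have hn1' : ‖(1 + (Y : ℂ))⁻¹‖ ≤ 16 / 15 := by
    rw [norm_inv, inv_le_comm₀ (by linarith) (by norm_num)]
    linarith
  have hnY : ‖(Y : ℂ)‖ ≤ 1 / 16 := by rw [Complex.norm_real]; exact hYa
  have hnZ : ‖(Y : ℂ) * (1 + (Y : ℂ))⁻¹‖ ≤ 1 / 15 := by
    rw [norm_mul]
    calc ‖(Y : ℂ)‖ * ‖(1 + (Y : ℂ))⁻¹‖ ≤ 1 / 16 * (16 / 15) :=
          mul_le_mul hnY hn1' (norm_nonneg _) (by norm_num)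
      _ = 1 / 15 := by norm_num
  have hXe : X = 1 + (Y : ℂ) * (1 + (Y : ℂ))⁻¹ := by
    rw [hX]; field_simp; ring
  have hc2e : c2 = -(2 * ((Y : ℂ) * (1 + (Y : ℂ))⁻¹)) +
      (T19_c + 1) * (1 + (Y : ℂ) * (1 + (Y : ℂ))⁻¹) := by
    rw [hc2d, hXe]; ring
  have hXn : ‖1 + (Y : ℂ) * (1 + (Y : ℂ))⁻¹‖ ≤ 16 / 15 := by
    calc ‖1 + (Y : ℂ) * (1 + (Y : ℂ))⁻¹‖ ≤ ‖(1 : ℂ)‖ + ‖(Y : ℂ) * (1 + (Y : ℂ))⁻¹‖ := norm_add_le _ _
      _ ≤ 1 + 1 / 15 := by rw [norm_one]; linarith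
      _ = 16 / 15 := by norm_num
  have hc2n : ‖c2‖ ≤ 1 / 6 := by
    rw [hc2e]
    calc ‖-(2 * ((Y : ℂ) * (1 + (Y : ℂ))⁻¹)) + (T19_c + 1) * (1 + (Y : ℂ) * (1 + (Y : ℂ))⁻¹)‖
        ≤ ‖-(2 * ((Y : ℂ) * (1 + (Y : ℂ))⁻¹))‖ +
          ‖(T19_c + 1) * (1 + (Y : ℂ) * (1 + (Y : ℂ))⁻¹)‖ := norm_add_le _ _
      _ = 2 * ‖(Y : ℂ) * (1 + (Y : ℂ))⁻¹‖ + 1 / 32 * ‖1 + (Y : ℂ) * (1 + (Y : ℂ))⁻¹‖ := by
          rw [norm_neg, norm_mul 2, norm_mul (T19_c + 1), T19_norm1]; simp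
      _ ≤ 2 * (1 / 15) + 1 / 32 * (16 / 15) := by linarith
      _ = 1 / 6 := by norm_num
  have hc1n : 5 / 6 ≤ ‖c1‖ := by
    have e : c2 = c1 + 1 := by rw [hc2d, hc1d]; ring
    have : (1 : ℂ) = c2 - c1 := by rw [e]; ring
    have h3 : ‖(1 : ℂ)‖ ≤ ‖c2‖ + ‖c1‖ := by
      rw [this]; exact norm_sub_le _ _
    rw [norm_one] at h3
    linarith
  -- the reflection
  obtain ⟨g, hg, hgx⟩ := h1.2 T19_c hTh
  have hh1 : h (a + ρ • y) (a + ρ • y) = 1 + Y := by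
    rw [h_add_left, h_add_right, h_add_right, h_smul_left, h_smul_right, h_smul_right, ha, hort,
      h_smul_left, hort', hs, hYc]
    ring
  have hh2 : h (a + (2 * ρ) • y) (a + ρ • y) = 1 + 2 * Y := by
    rw [h_add_left, h_add_right, h_add_right, h_smul_left, h_smul_right, h_smul_right, ha, hort,
      h_smul_left, hort', hs, hYc]
    ring
  have hgv : g (a + (2 * ρ) • y) = c1 • (a + (ρ * c2 * c1⁻¹) • y) := by
    rw [hgx, Rf_apply, hh1, hh2]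
    have e1 : (T19_c - 1) * (1 + 2 * (Y : ℂ)) / (1 + (Y : ℂ)) = c1 - 1 := by
      rw [hc1d, hX]; field_simp; ring
    rw [e1, smul_add, smul_smul, smul_add, smul_smul]
    have e2 : c1 * (ρ * c2 * c1⁻¹) = ρ * c2 := by field_simp
    have e3 : c2 = c1 + 1 := by rw [hc2d, hc1d]; ring
    rw [e2, e3]
    module
  have hτ : InR A L (a + (ρ * c2 * c1⁻¹) • y) := by
    refine hrec _ (Arith.lev_mul_right (Arith.lev_mul_right hρ hc2O) hc1u) ?_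
    rw [norm_mul, norm_mul, norm_inv, mul_assoc]
    have : ‖c2‖ * ‖c1‖⁻¹ ≤ 1 := by
      rw [← div_eq_mul_inv, div_le_one (by linarith)]
      linarith
    calc ‖ρ‖ * (‖c2‖ * ‖c1‖⁻¹) ≤ ‖ρ‖ * 1 := mul_le_mul_of_nonneg_left this (norm_nonneg _)
      _ = ‖ρ‖ := mul_one _
  have h3 := (hτ.smul hc10).map hL (L.inv_mem hg)
  rw [← hgv, ← LinearEquiv.mul_apply, inv_mul_cancel] at h3
  exact h3

theorem P3 (A : Arith) {L : Subgroup (E ≃ₗ[ℂ] E)} (hL : L ≤ U) {a y : E} {s T : ℝ} {k : ℕ}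
    (ha : h a a = 1) (hort : h a y = 0) (hs : h y y = s) (hsO : (s : ℂ) ∈ A.O) (hT : 0 < T)
    (hP : ∀ τ : ℂ, A.lev k τ → ‖τ‖ ≤ T → InR A L (a + τ • y)) :
    ∀ τ : ℂ, A.lev k τ → ‖τ‖ ^ 2 * |s| ≤ 1 / 4 → InR A L (a + τ • y) := by
  have key : ∀ n : ℕ, ∀ τ : ℂ, A.lev k τ → ‖τ‖ ≤ 2 ^ n * T → ‖τ‖ ^ 2 * |s| ≤ 1 / 4 →
      InR A L (a + τ • y) := by
    intro n
    induction n with
    | zero =>
      intro τ hτ hn _
      exact hP τ hτ (by simpa using hn)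
    | succ n ih =>
      intro τ hτ hn hsm
      have hρ : A.lev k (τ * (1 / 2)) := Arith.lev_mul_right hτ A.half_mem
      have hnρ : ‖τ * (1 / 2)‖ = ‖τ‖ / 2 := by
        rw [norm_mul]; norm_num; ring
      have hρs : ‖τ * (1 / 2)‖ ^ 2 * |s| ≤ 1 / 16 := by
        rw [hnρ]; linarith [show (‖τ‖ / 2) ^ 2 * |s| = (‖τ‖ ^ 2 * |s|) / 4 by ring]
      have hρT : ‖τ * (1 / 2)‖ ≤ 2 ^ n * T := by
        rw [hnρ]; rw [pow_succ] at hn; linarith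
      have hrec : ∀ τ' : ℂ, A.lev k τ' → ‖τ'‖ ≤ ‖τ * (1 / 2)‖ → InR A L (a + τ' • y) := by
        intro τ' h1 h2
        refine ih τ' h1 (h2.trans hρT) ?_
        have : ‖τ'‖ ^ 2 * |s| ≤ ‖τ * (1 / 2)‖ ^ 2 * |s| :=
          mul_le_mul_of_nonneg_right (pow_le_pow_left₀ (norm_nonneg _) h2 2) (abs_nonneg _)
        linarith
      have := T19_step A hL ha hort hs hsO hρ hρs (hrec _ hρ le_rfl) hrec
      rwa [show 2 * (τ * (1 / 2)) = τ by ring] at this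
  intro τ hτ hsm
  obtain ⟨n, hn⟩ := pow_unbounded_of_one_lt (‖τ‖ / T) (one_lt_two)
  refine key n τ hτ ?_ hsm
  rw [div_lt_iff₀ hT] at hn
  exact hn.le

end Pool.Agent.H332R3
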