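import Pool.Agent.H332R3.Defs2

set_option autoImplicit false

namespace Pool.Agent.H332R3

open scoped ComplexConjugate

/-- the scalar identities -/
theorem T20_scalar {lam Y c c' ξ η κ : ℂ} (h1Y : 1 + Y ≠ 0) (hlY : 1 + lam * Y ≠ 0)
    (hlY' : lam + Y ≠ 0) (hκ : κ * (1 + Y) = lam - 1)
    (hc : c * (1 + lam * Y) = -(lam + Y)) (hc' : c' * (lam + Y) = -(1 + lam * Y))
    (hξ : ξ * (1 + lam * Y) = lam * (lam + Y)) (hη : η * (lam + Y) = lam * (1 + lam * Y)) :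
    (1 + κ) ^ 2 + κ ^ 2 * c * Y = ξ ∧ c' * (1 + κ) + 1 + κ * Y = 0 ∧
      (1 + κ) + c * (1 + κ * Y) = 0 ∧ (1 + κ * Y) ^ 2 + κ ^ 2 * Y * c' = η := by
  have K1 : (1 + κ) * (1 + Y) = lam + Y := by linear_combination hκ
  have K2 : (1 + κ * Y) * (1 + Y) = 1 + lam * Y := by linear_combination Y * hκ
  refine ⟨?_, ?_, ?_, ?_⟩
  · have h0 : (1 + Y) ^ 2 * (1 + lam * Y) ≠ 0 := mul_ne_zero (pow_ne_zero _ h1Y) hlY
    apply mul_left_cancel₀ h0
    calc (1 + Y) ^ 2 * (1 + lam * Y) * ((1 + κ) ^ 2 + κ ^ 2 * c * Y)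
        = (1 + lam * Y) * ((1 + κ) * (1 + Y)) ^ 2 + (κ * (1 + Y)) ^ 2 * Y * (c * (1 + lam * Y)) := by
          ring
      _ = (1 + lam * Y) * (lam + Y) ^ 2 + (lam - 1) ^ 2 * Y * (-(lam + Y)) := by
          rw [K1, hκ, hc]
      _ = (1 + Y) ^ 2 * (lam * (lam + Y)) := by ring
      _ = (1 + Y) ^ 2 * (1 + lam * Y) * ξ := by rw [← hξ]; ring
  · apply mul_left_cancel₀ h1Y
    calc (1 + Y) * (c' * (1 + κ) + 1 + κ * Y)
        = c' * ((1 + κ) * (1 + Y)) + (1 + κ * Y) * (1 + Y) := by ring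
      _ = 0 := by rw [K1, K2, hc']; ring
      _ = (1 + Y) * 0 := by ring
  · apply mul_left_cancel₀ h1Y
    calc (1 + Y) * ((1 + κ) + c * (1 + κ * Y))
        = (1 + κ) * (1 + Y) + c * ((1 + κ * Y) * (1 + Y)) := by ring
      _ = 0 := by rw [K1, K2, hc]; ring
      _ = (1 + Y) * 0 := by ring
  · have h0 : (1 + Y) ^ 2 * (lam + Y) ≠ 0 := mul_ne_zero (pow_ne_zero _ h1Y) hlY'
    apply mul_left_cancel₀ h0
    calc (1 + Y) ^ 2 * (lam + Y) * ((1 + κ * Y) ^ 2 + κ ^ 2 * Y * c')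
        = (lam + Y) * ((1 + κ * Y) * (1 + Y)) ^ 2 + (κ * (1 + Y)) ^ 2 * Y * (c' * (lam + Y)) := by
          ring
      _ = (lam + Y) * (1 + lam * Y) ^ 2 + (lam - 1) ^ 2 * Y * (-(1 + lam * Y)) := by
          rw [K2, hκ, hc']
      _ = (1 + Y) ^ 2 * (lam * (1 + lam * Y)) := by ring
      _ = (1 + Y) ^ 2 * (lam + Y) * η := by rw [← hη]; ring

theorem T20_self {a w : E} {W ρ Y : ℂ}
    (ha : h a a = 1) (haw : h a w = 0) (hwa : h w a = 0) (hW : h w w = W)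
    (hY : ρ * conj ρ * W = Y) : h (a + ρ • w) (a + ρ • w) = 1 + Y := by
  rw [h_add_left, h_add_right, h_add_right, h_smul_left, h_smul_left, h_smul_right, h_smul_right,
    ha, haw, hwa, hW, ← hY]
  ring

/-- the identity between reflections -/
theorem T20_ident {a w : E} {W lam ρ c ξ η Y : ℂ}
    (ha : h a a = 1) (haw : h a w = 0) (hwa : h w a = 0) (hW : h w w = W) (hW0 : W ≠ 0)
    (hY : ρ * conj ρ * W = Y) (hcc : c * conj c = 1)
    (h1Y : 1 + Y ≠ 0) (hlY : 1 + lam * Y ≠ 0) (hlY' : lam + Y ≠ 0)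
    (hc : c * (1 + lam * Y) = -(lam + Y)) (hc' : conj c * (lam + Y) = -(1 + lam * Y))
    (hξ : ξ * (1 + lam * Y) = lam * (lam + Y)) (hη : η * (lam + Y) = lam * (1 + lam * Y))
    (hξ0 : ξ ≠ 0) (x : E) :
    Rf a ξ⁻¹ (Rf (a + ρ • w) lam (Rf (a + (c * ρ) • w) lam x)) = Rf w η x := by
  have hv1 : h (a + ρ • w) (a + ρ • w) = 1 + Y := T20_self ha haw hwa hW hY
  have hv2 : h (a + (c * ρ) • w) (a + (c * ρ) • w) = 1 + Y := by
    refine T20_self ha haw hwa hW ?_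
    rw [← hY, map_mul]
    linear_combination (ρ * conj ρ * W) * hcc
  obtain ⟨κ, hκ⟩ : ∃ κ : ℂ, κ = (lam - 1) / (1 + Y) := ⟨_, rfl⟩
  have hκ' : κ * (1 + Y) = lam - 1 := by rw [hκ]; field_simp
  obtain ⟨S1, S2, S3, S4⟩ := T20_scalar h1Y hlY hlY' hκ' hc hc' hξ hη
  have hR : ∀ (σ : ℂ) (y : E), h (a + σ • w) (a + σ • w) = 1 + Y →
      Rf (a + σ • w) lam y = y + (κ * (h y a + conj σ * h y w)) • (a + σ • w) := by
    intro σ y hσ
    rw [Rf_apply, hσ, h_add_right, h_smul_right, hκ]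
    congr 2
    ring
  obtain ⟨p, hp⟩ : ∃ p, p = h x a := ⟨_, rfl⟩
  obtain ⟨q, hq⟩ : ∃ q, q = h x w := ⟨_, rfl⟩
  obtain ⟨P2, hP2⟩ : ∃ P2, P2 = p + conj (c * ρ) * q := ⟨_, rfl⟩
  have e2 : Rf (a + (c * ρ) • w) lam x = x + (κ * P2) • (a + (c * ρ) • w) := by
    rw [hR _ _ hv2, hP2, hp, hq]
  obtain ⟨x', hx'⟩ : ∃ x', x' = x + (κ * P2) • (a + (c * ρ) • w) := ⟨_, rfl⟩
  have hxa : h x' a = p + κ * P2 := by
    rw [hx', h_add_left, h_smul_left, h_add_left, h_smul_left, ha, hwa, ← hp]; ring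
  have hxw : h x' w = q + κ * P2 * (c * ρ) * W := by
    rw [hx', h_add_left, h_smul_left, h_add_left, h_smul_left, haw, hW, ← hq]; ring
  obtain ⟨P1, hP1⟩ : ∃ P1, P1 = h x' a + conj ρ * h x' w := ⟨_, rfl⟩
  have e1 : Rf (a + ρ • w) lam x' = x' + (κ * P1) • (a + ρ • w) := by
    rw [hR _ _ hv1, hP1]
  obtain ⟨x'', hx''⟩ : ∃ x'', x'' = x' + (κ * P1) • (a + ρ • w) := ⟨_, rfl⟩
  have hxa' : h x'' a = p + κ * P2 + κ * P1 := by
    rw [hx'', h_add_left, h_smul_left, h_add_left, h_smul_left, ha, hwa, hxa]; ring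
  have hP1' : P1 = p + κ * P2 * (1 + c * Y) + conj ρ * q := by
    rw [hP1, hxa, hxw, ← hY]; ring
  have C1 : κ * P2 + κ * P1 = (ξ - 1) * p := by
    rw [hP1', hP2, map_mul]
    linear_combination p * S1 + κ * conj ρ * q * S2 + κ ^ 2 * conj ρ * q * Y * hcc
  have C2 : (κ * P2 * c * ρ + κ * P1 * ρ) * W = (η - 1) * q := by
    rw [hP1', hP2, map_mul]
    linear_combination ρ * κ * p * W * S3 + q * S4 + (κ * q * conj c * (c + κ + κ * c * Y) + κ * q) * hY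
      + (κ * q * Y + κ ^ 2 * q * Y * Y) * hcc
  have C2' : κ * P2 * c * ρ + κ * P1 * ρ = (η - 1) * q / W := by
    rw [eq_div_iff hW0, C2]
  rw [e2, ← hx', e1, ← hx'', Rf_apply, Rf_apply, ha, hxa', hW, ← hq, ← C2', hx'', hx']
  have C3 : κ * P2 + κ * P1 + (ξ⁻¹ - 1) * (p + κ * P2 + κ * P1) / 1 = 0 := by
    have : p + κ * P2 + κ * P1 = ξ * p := by linear_combination C1
    rw [this, C1]
    field_simp
    ring
  have C4 : (ξ⁻¹ - 1) * (p + κ * P2 + κ * P1) / 1 = -(κ * P2 + κ * P1) := by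
    linear_combination C3
  rw [C4]
  module

theorem Plane (A : Arith) {L : Subgroup (E ≃ₗ[ℂ] E)} (hL : L ≤ U) {a w : E} {W : ℝ}
    (ha : h a a = 1) (haR : InR A L a) (hort : h a w = 0) (hW : h w w = W) (hW1 : 3 / 4 ≤ W)
    (hWI : A.I (W - 1))
    (hP : ∀ ρ : ℂ, A.I ρ → ‖ρ‖ ^ 2 * W ≤ 1 / 4 → InR A L (a + ρ • w)) :
    InR A L w := by
  have hW0 : (0:ℝ) < W := by linarith
  have hWc : (W : ℂ) ≠ 0 := by exact_mod_cast hW0.ne'
  have hwa : h w a = 0 := by rw [h_symm a w, hort, map_zero]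
  refine ⟨by rw [hW]; exact hWc, ?_⟩
  intro μ hμ
  obtain ⟨m, d, hdm, hd1, hdε, hdI⟩ := A.small_root (1/32) (by norm_num) μ hμ.1 hμ.2
  obtain ⟨ν, hν2, hν1, hνI⟩ := A.root 2 (by norm_num) d hd1 hdI
  have hνT : A.Th ν := ⟨hν1, hνI⟩
  have hνO : ν ∈ A.O := A.mem_of_I' hνI
  have hνν : ν * conj ν = 1 := by
    rw [Complex.mul_conj, Complex.normSq_eq_norm_sq, hν1]; simp
  have hnsq : ν.re ^ 2 + ν.im ^ 2 = 1 := by
    have := Complex.normSq_eq_norm_sq ν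
    rw [hν1, Complex.normSq_apply] at this
    nlinarith [this]
  -- the imaginary part
  obtain ⟨s, hs⟩ : ∃ s : ℝ, s = ν.im := ⟨_, rfl⟩
  have hsI : A.I (s : ℂ) := by
    have h1 : (s : ℂ) = ((1 / 2) * (-Complex.I)) * ((ν - 1) - (conj ν - 1)) := by
      have h2 : (ν - 1) - (conj ν - 1) = ν - conj ν := by ring
      rw [h2, Complex.sub_conj, ← hs]
      push_cast
      linear_combination (s : ℂ) * Complex.I_mul_I
    rw [h1]
    refine Arith.I_mul_left (A.O.mul_mem A.half_mem (A.O.neg_mem A.I_mem)) ?_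
    refine Arith.I_sub hνI ?_
    have := Arith.I_conj (A := A) (x := ν - 1) hνI
    simpa using this
  have hs1 : |s| ≤ 1 / 64 := by
    have h1 : ‖d - 1‖ ^ 2 = 4 * s ^ 2 := by
      rw [← Complex.normSq_eq_norm_sq, ← hν2, Complex.normSq_apply]
      simp only [pow_two, Complex.sub_re, Complex.mul_re, Complex.one_re, Complex.sub_im,
        Complex.mul_im, Complex.one_im]
      rw [← hs] at hnsq ⊢
      have : ν.re ^ 2 = 1 - s ^ 2 := by linarith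
      nlinarith [this]
    have h2 : ‖d - 1‖ ^ 2 ≤ (1 / 32) ^ 2 := by
      have := norm_nonneg (d - 1)
      nlinarith
    rw [h1] at h2
    apply abs_le_of_sq_le_sq _ (by norm_num)
    nlinarith
  obtain ⟨k, hk⟩ := hsI
  have hw1 := A.w_gt (k + 1)
  have hw3 := A.w_le (k + 1)
  obtain ⟨Y, hYd⟩ : ∃ Y : ℝ, Y = A.w (k + 1) / 16 := ⟨_, rfl⟩
  have hY1 : 1 / 16 < Y := by rw [hYd]; linarith
  have hY2 : Y ≤ 3 / 16 := by rw [hYd]; linarith
  have hY0 : 0 < Y := by linarith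
  obtain ⟨t, ht⟩ : ∃ t : ℝ, t = s / Y := ⟨_, rfl⟩
  have htY : t * Y = s := by rw [ht]; field_simp
  have h16 : (16 : ℂ) ∈ A.O := by
    have : ((16 : ℕ) : ℂ) ∈ A.O := natCast_mem A.O 16
    simpa using this
  have htl : A.lev (k + 1) (t : ℂ) := by
    obtain ⟨y, hy, hsy⟩ := hk
    refine ⟨16 * y, A.O.mul_mem h16 hy, ?_⟩
    have hwc : (A.w (k + 1) : ℂ) ≠ 0 := by
      have : A.w (k + 1) ≠ 0 := by linarith
      exact_mod_cast this
    rw [ht, hYd]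
    push_cast
    rw [hsy, ← A.w_sq k]
    push_cast
    field_simp
  have ht4 : |t| ≤ 1 / 4 := by
    rw [ht, abs_div, abs_of_pos hY0, div_le_iff₀ hY0]
    linarith
  have ht2 : t ^ 2 ≤ 1 / 16 := by
    have := abs_nonneg t
    rw [← sq_abs]
    nlinarith
  have htO : (t : ℂ) ∈ A.O := Arith.lev_mem htl
  obtain ⟨r, hr2, hrI⟩ : ∃ r : ℝ, r ^ 2 = 1 - t ^ 2 ∧ A.I ((r : ℂ) - 1) := by
    have h1 : (0 : ℝ) ≤ 1 - t ^ 2 := by linarith
    have h2 : ((1 - t ^ 2 : ℝ) : ℂ) ∈ A.O := by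
      push_cast
      exact A.O.sub_mem A.O.one_mem (A.O.pow_mem htO 2)
    have h3 := A.sqrt_mem _ h1 h2
    have h4 : Real.sqrt (1 - t ^ 2) ^ 2 = 1 - t ^ 2 := Real.sq_sqrt h1
    have h5 : A.lev (k + 1) (((Real.sqrt (1 - t ^ 2) : ℝ) : ℂ) ^ 2 - 1) := by
      have h6 : (((Real.sqrt (1 - t ^ 2) : ℝ) : ℂ) ^ 2 - 1) = -((t : ℂ) * t) := by
        have : (((Real.sqrt (1 - t ^ 2) : ℝ) : ℂ) ^ 2) = ((1 - t ^ 2 : ℝ) : ℂ) := by
          have h40 := congrArg Complex.ofReal h4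
          rwa [Complex.ofReal_pow] at h40
        rw [this]
        push_cast
        ring
      rw [h6]
      exact Arith.lev_neg (Arith.lev_mul_left htO htl)
    rcases A.sq_one (k + 1) _ h3 (Or.inl (Complex.conj_ofReal _)) h5 with h7 | h7
    · exact ⟨Real.sqrt (1 - t ^ 2), h4, ⟨k + 1, h7⟩⟩
    · refine ⟨-Real.sqrt (1 - t ^ 2), by rw [neg_sq, h4], ?_⟩
      have h8 : A.I (((Real.sqrt (1 - t ^ 2) : ℝ) : ℂ) + 1) := ⟨k + 1, h7⟩
      have h9 := Arith.I_neg h8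
      have e : ((-Real.sqrt (1 - t ^ 2) : ℝ) : ℂ) - 1 = -(((Real.sqrt (1 - t ^ 2) : ℝ) : ℂ) + 1) := by
        push_cast; ring
      rw [e]
      exact h9
  obtain ⟨ζ, hζ⟩ : ∃ ζ : ℂ, ζ = (r : ℂ) + t * Complex.I := ⟨_, rfl⟩
  have hζre : ζ.re = r := by rw [hζ]; simp
  have hζim : ζ.im = t := by rw [hζ]; simp
  have hζn : Complex.normSq ζ = 1 := by
    rw [Complex.normSq_apply, hζre, hζim]
    linarith
  have hζ1 : ‖ζ‖ = 1 := by
    have := Complex.normSq_eq_norm_sq ζ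
    rw [hζn] at this
    have h0 := norm_nonneg ζ
    nlinarith
  have hζζ : ζ * conj ζ = 1 := by
    rw [Complex.mul_conj, hζn]; simp
  have hζI : A.I (ζ - 1) := by
    have : ζ - 1 = ((r : ℂ) - 1) + t * Complex.I := by rw [hζ]; ring
    rw [this]
    exact Arith.I_add hrI (Arith.I_mul_right ⟨k + 1, htl⟩ A.I_mem)
  have hζT : A.Th ζ := ⟨hζ1, hζI⟩
  have hζO : ζ ∈ A.O := A.mem_of_I' hζI
  have hlam : A.Th (ν * ζ) := Arith.Th_mul hνT hζT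
  obtain ⟨N, hN⟩ : ∃ N : ℝ, N = ν.re + r * Y := ⟨_, rfl⟩
  have E1 : (N : ℂ) = conj ν + ζ * Y := by
    apply Complex.ext
    · simp [hN, hζre]
    · simp [hζim, htY, hs]
  have E2 : (N : ℂ) = ν + conj ζ * Y := by
    have := congrArg conj E1
    simpa only [Complex.conj_ofReal, map_add, map_mul, Complex.conj_conj] using this
  have hN1 : 1 + ν * ζ * Y = ν * N := by
    rw [E1]; linear_combination -hνν
  have hN2 : ν * ζ + Y = ζ * N := by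
    rw [E2]; linear_combination (-(Y : ℂ)) * hζζ
  have hν0 : ν ≠ 0 := Arith.Th_ne_zero hνT
  have hζ0 : ζ ≠ 0 := Arith.Th_ne_zero hζT
  have hN0 : (N : ℂ) ≠ 0 := by
    intro h0
    rw [h0, mul_zero] at hN1
    have h1 : ν * ζ * Y = -1 := by linear_combination hN1
    have h2 : ‖ν * ζ * (Y : ℂ)‖ = Y := by
      rw [norm_mul, norm_mul, hν1, hζ1, Complex.norm_real, Real.norm_eq_abs, abs_of_pos hY0]
      ring
    rw [h1] at h2
    simp at h2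
    linarith
  -- the vector
  have hWs : 0 < Real.sqrt W := Real.sqrt_pos.2 hW0
  have hWs2 : Real.sqrt W ^ 2 = W := Real.sq_sqrt hW0.le
  obtain ⟨ρ', hρ'⟩ : ∃ ρ' : ℝ, ρ' = A.w (k + 2) / (4 * Real.sqrt W) := ⟨_, rfl⟩
  have hρY : ρ' ^ 2 * W = Y := by
    rw [hρ', hYd, ← A.w_sq (k + 1), div_pow, mul_pow, hWs2]
    field_simp
    ring
  have hρI : A.I (ρ' : ℂ) := by
    have hWO : (W : ℂ) ∈ A.O := A.mem_of_I' hWI
    have hWi : (W : ℂ)⁻¹ ∈ A.O := (A.unit_of_I' hWI).2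
    have hsO : ((Real.sqrt W : ℝ) : ℂ) ∈ A.O := A.sqrt_mem W hW0.le hWO
    refine ⟨k + 2, ((1 / 2) * (1 / 2)) * (((Real.sqrt W : ℝ) : ℂ) * (W : ℂ)⁻¹),
      A.O.mul_mem (A.O.mul_mem A.half_mem A.half_mem) (A.O.mul_mem hsO hWi), ?_⟩
    have e : ρ' = A.w (k + 2) * (((1 / 2) * (1 / 2)) * (Real.sqrt W * W⁻¹)) := by
      rw [hρ']
      nth_rewrite 3 [← hWs2]
      field_simp
      ring
    rw [e]
    push_cast
    ring
  have hcO : -(ζ * conj ν) ∈ A.O := A.O.neg_mem (A.O.mul_mem hζO (A.conj_mem _ hνO))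
  have hc1 : ‖-(ζ * conj ν)‖ = 1 := by
    rw [norm_neg, norm_mul, hζ1, RCLike.norm_conj, hν1, one_mul]
  have hρn : ‖(ρ' : ℂ)‖ ^ 2 * W ≤ 1 / 4 := by
    rw [Complex.norm_real, Real.norm_eq_abs, sq_abs, hρY]; linarith
  have hR1 := hP (ρ' : ℂ) hρI hρn
  have hR2 := hP (-(ζ * conj ν) * (ρ' : ℂ)) (Arith.I_mul_left hcO hρI) (by
    rw [norm_mul, hc1, one_mul]; exact hρn)
  obtain ⟨g1, hg1, hg1x⟩ := hR1.2 (ν * ζ) hlam
  obtain ⟨g2, hg2, hg2x⟩ := hR2.2 (ν * ζ) hlam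
  obtain ⟨g0, hg0, hg0x⟩ := haR.2 (ζ * ζ)⁻¹ (Arith.Th_inv (Arith.Th_mul hζT hζT))
  have hgx : ∀ x, (g0 * g1 * g2) x = Rf w d x := by
    intro x
    rw [LinearEquiv.mul_apply, LinearEquiv.mul_apply, hg0x, hg1x, hg2x]
    refine T20_ident (W := (W : ℂ)) (Y := (Y : ℂ)) ha hort hwa hW hWc ?_ ?_ ?_ ?_ ?_ ?_ ?_ ?_ ?_ ?_ x
    · rw [Complex.conj_ofReal, ← hρY]; push_cast; ring
    · rw [Complex.mul_conj, Complex.normSq_eq_norm_sq, hc1]; simp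
    · have : (1 + Y : ℝ) ≠ 0 := by linarith
      exact_mod_cast this
    · rw [hN1]; exact mul_ne_zero hν0 hN0
    · rw [hN2]; exact mul_ne_zero hζ0 hN0
    · rw [hN1, hN2]; linear_combination (-(ζ * N)) * hνν
    · rw [hN1, hN2, map_neg, map_mul, Complex.conj_conj]; linear_combination (-(ν * N)) * hζζ
    · rw [hN1, hN2]; ring
    · rw [hN1, hN2, ← hν2]; ring
    · exact mul_ne_zero hζ0 hζ0
  have hgL : g0 * g1 * g2 ∈ L := L.mul_mem (L.mul_mem hg0 hg1) hg2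
  have hww : h w w ≠ 0 := by rw [hW]; exact hWc
  have hpow : ∀ (n : ℕ) (x : E), ((g0 * g1 * g2) ^ n) x = Rf w (d ^ n) x := by
    intro n
    induction n with
    | zero => intro x; simp
    | succ n ih =>
      intro x
      rw [pow_succ, LinearEquiv.mul_apply, hgx, ih, Rf_mul hww, ← pow_succ]
  refine ⟨(g0 * g1 * g2) ^ (3 ^ m), L.pow_mem hgL _, ?_⟩
  intro x
  rw [hpow, hdm]

end Pool.Agent.H332R3
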