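import Pool.Agent.H332R3.Defs2

set_option autoImplicit false

namespace Pool.Agent.H332R3

open scoped ComplexConjugate

theorem RealStep (A : Arith) {L : Subgroup (E ≃ₗ[ℂ] E)} (hL : L ≤ U)
    (hOS : ∀ {a y : E} {Y r : ℝ}, InR A L a → InR A L (a + y) → h a y = 0 → h y y = Y * h a a →
      A.I Y → A.I r → |r| * (1 + |Y|) ≤ 3 / 2 → InR A L (a + (Complex.I * r) • y))
    {a y : E} {Y τ : ℝ}
    (ha : InR A L a) (hay : InR A L (a + y)) (hort : h a y = 0) (hY : h y y = Y * h a a)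
    (hYI : A.I Y) (hY2 : |Y| ≤ 1 / 2) (hτI : A.I τ) (hτ : |τ| ≤ 1) :
    InR A L (a + (τ : ℂ) • y) := by
  have hr0 : 0 ≤ |τ| := abs_nonneg τ
  obtain ⟨r, hr⟩ : ∃ r : ℝ, r = Real.sqrt |τ| := ⟨_, rfl⟩
  have hrr : r * r = |τ| := by rw [hr]; exact Real.mul_self_sqrt hr0
  have hrpos : 0 ≤ r := by rw [hr]; exact Real.sqrt_nonneg _
  have hr1 : r ≤ 1 := by nlinarith
  have habsI : A.I ((|τ| : ℝ) : ℂ) := by
    rcases abs_choice τ with h1 | h1
    · rw [h1]; exact hτI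
    · rw [h1, Complex.ofReal_neg]; exact Arith.I_neg hτI
  have hrI : A.I (r : ℂ) := by
    obtain ⟨k, hk⟩ := habsI
    rw [hr]
    exact ⟨k + 1, Arith.lev_sqrt hr0 hk⟩
  have hYpos := abs_nonneg Y
  have h1 := hOS ha hay hort hY hYI hrI (by rw [abs_of_nonneg hrpos]; nlinarith)
  have hort' : h a ((Complex.I * (r : ℂ)) • y) = 0 := by rw [h_smul_right, hort, mul_zero]
  have hYY : h ((Complex.I * (r : ℂ)) • y) ((Complex.I * (r : ℂ)) • y) =
      ((r * r * Y : ℝ) : ℂ) * h a a := by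
    rw [h_smul_left, h_smul_right, hY, map_mul, Complex.conj_I, Complex.conj_ofReal]
    push_cast
    linear_combination (-(r : ℂ) * r * Y * h a a) * Complex.I_mul_I
  have hYI' : A.I ((r * r * Y : ℝ) : ℂ) := by
    push_cast
    exact Arith.I_mul_left (A.O.mul_mem (Arith.I_mem' hrI) (Arith.I_mem' hrI)) hYI
  have hY' : |r * r * Y| ≤ 1 / 2 := by
    rw [hrr, abs_mul, abs_abs]
    nlinarith
  have hY'pos := abs_nonneg (r * r * Y)
  rcases le_total 0 τ with h0 | h0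
  · have h2 := hOS (r := -r) ha h1 hort' hYY hYI'
      (by rw [Complex.ofReal_neg]; exact Arith.I_neg hrI)
      (by rw [abs_neg, abs_of_nonneg hrpos]; nlinarith)
    have h3 : (Complex.I * ((-r : ℝ) : ℂ)) • (Complex.I * (r : ℂ)) • y = (τ : ℂ) • y := by
      have h4 : (τ : ℂ) = (r : ℂ) * r := by
        rw [← Complex.ofReal_mul, hrr, abs_of_nonneg h0]
      rw [smul_smul, h4]
      congr 1
      push_cast
      linear_combination (-(r : ℂ) * r) * Complex.I_mul_I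
    rwa [h3] at h2
  · have h2 := hOS (r := r) ha h1 hort' hYY hYI' hrI
      (by rw [abs_of_nonneg hrpos]; nlinarith)
    have h3 : (Complex.I * (r : ℂ)) • (Complex.I * (r : ℂ)) • y = (τ : ℂ) • y := by
      have h4 : (τ : ℂ) = -((r : ℂ) * r) := by
        rw [← Complex.ofReal_mul, hrr, abs_of_nonpos h0]
        push_cast
        ring
      rw [smul_smul, h4]
      congr 1
      linear_combination ((r : ℂ) * r) * Complex.I_mul_I
    rwa [h3] at h2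

theorem T17_polar (A : Arith) {c : ℂ} (hc : A.I (c - 1)) :
    ∃ (ρ : ℝ) (θ : ℂ), A.Th θ ∧ A.I ((ρ : ℂ) - 1) ∧ |ρ| = ‖c‖ ∧ c = ρ * θ := by
  obtain ⟨hc0, -⟩ := Arith.unit_of_I' hc
  have hcO := Arith.mem_of_I' hc
  have hccO := A.conj_mem c hcO
  have hn : ((‖c‖ ^ 2 : ℝ) : ℂ) = c * conj c := by
    rw [Complex.mul_conj, Complex.normSq_eq_norm_sq]
  have hI2 : A.I ((‖c‖ : ℂ) ^ 2 - 1) := by
    have h1 : (‖c‖ : ℂ) ^ 2 - 1 = (c - 1) * conj c + conj (c - 1) := by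
      rw [← Complex.ofReal_pow, hn, map_sub, map_one]
      ring
    rw [h1]
    exact Arith.I_add (Arith.I_mul_right hc hccO) (Arith.I_conj hc)
  have hnO : (‖c‖ : ℂ) ∈ A.O := by
    have h1 := A.sqrt_mem (‖c‖ ^ 2) (by positivity) (by rw [hn]; exact A.O.mul_mem hcO hccO)
    rwa [Real.sqrt_sq (norm_nonneg c)] at h1
  have hkey : ∃ ρ : ℝ, A.I ((ρ : ℂ) - 1) ∧ |ρ| = ‖c‖ := by
    obtain ⟨k, y, hy, hk⟩ := hI2
    rcases A.sq_one k (‖c‖ : ℂ) hnO (Or.inl (Complex.conj_ofReal _)) ⟨y, hy, hk⟩ with h1 | h1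
    · exact ⟨‖c‖, ⟨k, h1⟩, abs_of_nonneg (norm_nonneg c)⟩
    · refine ⟨-‖c‖, ?_, by rw [abs_neg, abs_of_nonneg (norm_nonneg c)]⟩
      have h2 : A.I ((‖c‖ : ℂ) + 1) := ⟨k, h1⟩
      have h3 := Arith.I_neg h2
      rw [show ((-‖c‖ : ℝ) : ℂ) - 1 = -((‖c‖ : ℂ) + 1) by push_cast; ring]
      exact h3
  obtain ⟨ρ, hρI, hρ⟩ := hkey
  obtain ⟨hρ0, hρinv⟩ := Arith.unit_of_I' hρI
  refine ⟨ρ, c * (ρ : ℂ)⁻¹, ⟨?_, ?_⟩, hρI, hρ, ?_⟩
  · rw [norm_mul, norm_inv, Complex.norm_real, Real.norm_eq_abs, hρ]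
    exact mul_inv_cancel₀ (norm_ne_zero_iff.2 hc0)
  · have h1 : c * (ρ : ℂ)⁻¹ - 1 = ((c - 1) - ((ρ : ℂ) - 1)) * (ρ : ℂ)⁻¹ := by
      field_simp
      ring
    rw [h1]
    exact Arith.I_mul_right (Arith.I_sub hc hρI) hρinv
  · field_simp

theorem CS (A : Arith) {L : Subgroup (E ≃ₗ[ℂ] E)} (hL : L ≤ U)
    (hOS : ∀ {a y : E} {Y r : ℝ}, InR A L a → InR A L (a + y) → h a y = 0 → h y y = Y * h a a →
      A.I Y → A.I r → |r| * (1 + |Y|) ≤ 3 / 2 → InR A L (a + (Complex.I * r) • y))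
    (hRot : ∀ {a y : E} {θ : ℂ}, InR A L a → InR A L (a + y) → h a y = 0 → A.Th θ →
      InR A L (a + θ • y))
    {a y : E} {Y : ℝ} {τ : ℂ}
    (ha : InR A L a) (hay : InR A L (a + y)) (hort : h a y = 0) (hY : h y y = Y * h a a)
    (hYI : A.I Y) (hY2 : |Y| ≤ 1 / 8) (hτI : A.I τ) (hτ : ‖τ‖ ≤ 1 / 4) :
    InR A L (a + τ • y) := by
  obtain ⟨α, hα⟩ : ∃ α : ℝ, α = τ.re := ⟨_, rfl⟩
  obtain ⟨β, hβ⟩ : ∃ β : ℝ, β = τ.im := ⟨_, rfl⟩
  have hτab : τ = (α : ℂ) + (β : ℂ) * Complex.I := by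
    rw [hα, hβ, Complex.re_add_im]
  have hα4 : |α| ≤ 1 / 4 := by rw [hα]; exact le_trans (Complex.abs_re_le_norm τ) hτ
  have hβ4 : |β| ≤ 1 / 4 := by rw [hβ]; exact le_trans (Complex.abs_im_le_norm τ) hτ
  have hαI : A.I (α : ℂ) := by
    have h1 : (α : ℂ) = (1 / 2) * (τ + conj τ) := by
      rw [hτab, map_add, map_mul, Complex.conj_ofReal, Complex.conj_ofReal, Complex.conj_I]
      ring
    rw [h1]
    exact Arith.I_mul_left A.half_mem (Arith.I_add hτI (Arith.I_conj hτI))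
  have hβI : A.I (β : ℂ) := by
    have h1 : (β : ℂ) = ((1 / 2) * (-Complex.I)) * (τ - conj τ) := by
      rw [hτab, map_add, map_mul, Complex.conj_ofReal, Complex.conj_ofReal, Complex.conj_I]
      linear_combination (β : ℂ) * Complex.I_mul_I
    rw [h1]
    exact Arith.I_mul_left (A.O.mul_mem A.half_mem (A.O.neg_mem A.I_mem))
      (Arith.I_sub hτI (Arith.I_conj hτI))
  obtain ⟨hα1, hα2⟩ := abs_le.mp hα4
  obtain ⟨hβ1, hβ2⟩ := abs_le.mp hβ4
  obtain ⟨hY3, hY4⟩ := abs_le.mp hY2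
  -- the new base vector
  have ha' : InR A L (a + (α : ℂ) • y) :=
    RealStep A hL hOS ha hay hort hY hYI (by linarith) hαI (by linarith)
  have hort2 : h y a = 0 := by rw [h_symm, hort, map_zero]
  obtain ⟨a', haeq⟩ : ∃ a', a' = a + (α : ℂ) • y := ⟨_, rfl⟩
  obtain ⟨b, hbeq⟩ : ∃ b, b = y - ((α : ℂ) * Y) • a := ⟨_, rfl⟩
  rw [← haeq] at ha'
  have hab : h a' b = 0 := by
    rw [haeq, hbeq, h_add_left, h_sub_right, h_sub_right, h_smul_right, h_smul_left, h_smul_left,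
      h_smul_right, hort, hort2, hY, map_mul, Complex.conj_ofReal, Complex.conj_ofReal]
    ring
  have haa : h a' a' = (1 + (α : ℂ) ^ 2 * Y) * h a a := by
    rw [haeq, h_add_left, h_add_right, h_add_right, h_smul_right, h_smul_left, h_smul_left,
      h_smul_right, hort, hort2, hY, Complex.conj_ofReal]
    ring
  have hbb : h b b = Y * h a' a' := by
    rw [haa, hbeq, h_sub_left, h_sub_right, h_sub_right, h_smul_right, h_smul_left, h_smul_left,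
      h_smul_right, hort, hort2, hY, map_mul, Complex.conj_ofReal, Complex.conj_ofReal]
    ring
  -- the basic identity
  have hαY : |α * Y| ≤ 1 / 32 := by
    rw [abs_mul]
    nlinarith [abs_nonneg α, abs_nonneg Y]
  obtain ⟨hαY1, hαY2⟩ := abs_le.mp hαY
  have hα2Y : |α ^ 2 * Y| ≤ 1 / 128 := by
    rw [show α ^ 2 * Y = α * (α * Y) by ring, abs_mul]
    nlinarith [abs_nonneg α, abs_nonneg (α * Y)]
  obtain ⟨hα2Y1, hα2Y2⟩ := abs_le.mp hα2Y
  have hd0 : (1 + (α : ℂ) ^ 2 * Y) ≠ 0 := by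
    have : (1 + α ^ 2 * Y) ≠ 0 := by linarith
    exact_mod_cast this
  have he0 : (1 + (α : ℂ) * Y) ≠ 0 := by
    have : (1 + α * Y) ≠ 0 := by linarith
    exact_mod_cast this
  have hident : ∀ ζ : ℂ, (1 + (α : ℂ) ^ 2 * Y) • (a + ζ • y) =
      (1 + ζ * α * Y) • a' + (ζ - α) • b := by
    intro ζ
    rw [haeq, hbeq]
    module
  -- η
  obtain ⟨η, hη⟩ : ∃ η : ℝ, η = (1 - α) / (1 + α * Y) := ⟨_, rfl⟩
  have hηC : (η : ℂ) = (1 - α) / (1 + α * Y) := by rw [hη]; push_cast; rfl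
  have h1α0 : (1 - (α : ℂ)) ≠ 0 := by
    have : (1 - α) ≠ 0 := by linarith
    exact_mod_cast this
  have hηO : (η : ℂ) ∈ A.O := by
    rw [hηC, div_eq_mul_inv]
    exact A.O.mul_mem (A.O.sub_mem A.O.one_mem (Arith.I_mem' hαI))
      (Arith.unit_of_I (Arith.I_mul_right hαI (Arith.I_mem' hYI))).2
  have hηiO : (η : ℂ)⁻¹ ∈ A.O := by
    rw [hηC, inv_div, div_eq_mul_inv, sub_eq_add_neg]
    exact A.O.mul_mem (A.O.add_mem A.O.one_mem (A.O.mul_mem (Arith.I_mem' hαI) (Arith.I_mem' hYI)))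
      (Arith.unit_of_I (Arith.I_neg hαI)).2
  have hη0 : (η : ℂ) ≠ 0 := by
    rw [hηC]
    exact div_ne_zero h1α0 he0
  have hη1 : 8 / 11 ≤ η := by
    rw [hη, le_div_iff₀ (by linarith)]
    linarith
  have hη2 : η ≤ 40 / 31 := by
    rw [hη, div_le_iff₀ (by linarith)]
    linarith
  have hab1 : InR A L (a' + (η : ℂ) • b) := by
    have h1 := hident 1
    rw [one_smul, one_mul] at h1
    have h2 : (1 + (α : ℂ) ^ 2 * Y) • (a + y) = (1 + (α : ℂ) * Y) • (a' + (η : ℂ) • b) := by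
      rw [h1, smul_add, smul_smul, hηC, mul_div_cancel₀ _ he0]
    have h3 := hay.smul hd0
    rw [h2] at h3
    exact InR.of_smul he0 h3
  have hab2 : h a' ((η : ℂ) • b) = 0 := by rw [h_smul_right, hab, mul_zero]
  have hY' : h ((η : ℂ) • b) ((η : ℂ) • b) = ((η * η * Y : ℝ) : ℂ) * h a' a' := by
    rw [h_smul_left, h_smul_right, hbb, Complex.conj_ofReal]
    push_cast
    ring
  have hYI' : A.I ((η * η * Y : ℝ) : ℂ) := by
    push_cast
    exact Arith.I_mul_left (A.O.mul_mem hηO hηO) hYI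
  -- c
  obtain ⟨c, hc⟩ : ∃ c : ℂ, c = 1 + τ * α * Y := ⟨_, rfl⟩
  have hcI : A.I (c - 1) := by
    rw [hc, add_sub_cancel_left]
    exact Arith.I_mul_left (A.O.mul_mem (Arith.I_mem' hτI) (Arith.I_mem' hαI)) hYI
  obtain ⟨hc0, -⟩ := Arith.unit_of_I' hcI
  obtain ⟨ρ, θ, hθ, hρI, hρc, hcρ⟩ := T17_polar A hcI
  obtain ⟨hρ0, hρinv⟩ := Arith.unit_of_I' hρI
  have hcnorm : 127 / 128 ≤ ‖c‖ := by
    refine le_trans ?_ (Complex.re_le_norm c)
    have : c.re = 1 + α ^ 2 * Y := by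
      have h9 : c = ((1 + α ^ 2 * Y : ℝ) : ℂ) + ((α * β * Y : ℝ) : ℂ) * Complex.I := by
        rw [hc, hτab]
        push_cast
        ring
      rw [h9, Complex.add_re, Complex.ofReal_re, Complex.re_ofReal_mul, Complex.I_re, mul_zero,
        add_zero]
    rw [this]
    linarith
  obtain ⟨r, hr⟩ : ∃ r : ℝ, r = β / (η * ρ) := ⟨_, rfl⟩
  have hrI : A.I (r : ℂ) := by
    rw [hr]
    push_cast
    rw [div_eq_mul_inv, mul_inv]
    exact Arith.I_mul_right hβI (A.O.mul_mem hηiO hρinv)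
  have hrb : |r| ≤ 1 / 2 := by
    rw [hr, abs_div, abs_mul, hρc, abs_of_nonneg (show (0 : ℝ) ≤ η by linarith),
      div_le_iff₀ (by nlinarith)]
    nlinarith
  have hYb : |η * η * Y| ≤ 1 := by
    rw [abs_mul, abs_of_nonneg (show (0 : ℝ) ≤ η * η by nlinarith)]
    nlinarith [abs_nonneg Y]
  have h5 := hOS ha' hab1 hab2 hY' hYI' hrI (by nlinarith [abs_nonneg r, abs_nonneg (η * η * Y)])
  have h6 : h a' ((Complex.I * (r : ℂ)) • (η : ℂ) • b) = 0 := by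
    rw [h_smul_right, hab2, mul_zero]
  have h7 := hRot ha' h5 h6 (Arith.Th_inv hθ)
  -- back to `a + τ y`
  have hθ0 := Arith.Th_ne_zero hθ
  have h8 : θ⁻¹ • (Complex.I * (r : ℂ)) • (η : ℂ) • b = ((τ - α) / c) • b := by
    rw [smul_smul, smul_smul]
    congr 1
    have h9 : τ - α = (β : ℂ) * Complex.I := by rw [hτab]; ring
    rw [h9, hcρ, hr]
    push_cast
    field_simp
  rw [h8] at h7
  have h10 := hident τ
  rw [← hc] at h10
  have h11 : (1 + (α : ℂ) ^ 2 * Y) • (a + τ • y) = c • (a' + ((τ - α) / c) • b) := by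
    rw [h10, smul_add, smul_smul, mul_div_cancel₀ _ hc0]
  have h12 := h7.smul hc0
  rw [← h11] at h12
  exact InR.of_smul hd0 h12

end Pool.Agent.H332R3
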