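import Pool.Agent.H332R3.Defs2

set_option autoImplicit false

namespace Pool.Agent.H332R3

open scoped ComplexConjugate

theorem T21_h_mem_O (A : Arith) {x y : E} (hx : ∀ n, x n ∈ A.O) (hy : ∀ n, y n ∈ A.O) :
    h x y ∈ A.O := by
  unfold h
  refine A.O.sub_mem ?_ ?_
  · rw [Finsupp.sum]
    exact A.O.sum_mem fun n _ => A.O.mul_mem (hx n) (A.conj_mem _ (hy n))
  · refine A.O.mul_mem ?_ (A.O.mul_mem (hx 0) (A.conj_mem _ (hy 0)))
    have h2 : (2 : ℂ) = 1 + 1 := by norm_num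
    rw [h2]
    exact A.O.add_mem A.O.one_mem A.O.one_mem

theorem T21_h_mem_I (A : Arith) {x y : E} (hx : ∀ n, A.I (x n)) (hy : ∀ n, y n ∈ A.O) :
    A.I (h x y) := by
  unfold h
  refine Arith.I_sub ?_ ?_
  · rw [Finsupp.sum]
    have : ∀ s : Finset ℕ, A.I (∑ n ∈ s, x n * conj (y n)) := by
      intro s
      classical
      induction s using Finset.induction_on with
      | empty => simpa using Arith.I_zero
      | insert a s ha ih =>
        rw [Finset.sum_insert ha]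
        exact Arith.I_add (Arith.I_mul_right (hx a) (A.conj_mem _ (hy a))) ih
    exact this _
  · refine Arith.I_mul_left ?_ (Arith.I_mul_right (hx 0) (A.conj_mem _ (hy 0)))
    have h2 : (2 : ℂ) = 1 + 1 := by norm_num
    rw [h2]
    exact A.O.add_mem A.O.one_mem A.O.one_mem

theorem T21_h_ej {j : ℕ} (hj : 1 ≤ j) : h (e j) (e j) = 1 := by
  rw [h_e_self]
  have : j ≠ 0 := by omega
  simp [sg, this]

theorem T21_h_ej_left {j : ℕ} {y : E} (hy : y j = 0) : h (e j) y = 0 := by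
  rw [h_e_left, hy]
  simp

theorem Ys_add (A : Arith) {L : Subgroup (E ≃ₗ[ℂ] E)}
    (hP2 : ∀ {a y1 y2 : E} {σ : ℂ}, h a a = 1 → InR A L (a + y1) → InR A L (a + y2) →
      h a y1 = 0 → h a y2 = 0 → A.I (h y1 y1) → A.I (h y2 y2) → A.I (h y2 y1) →
      ‖h y1 y1‖ ≤ 1 / 64 → ‖h y2 y2‖ ≤ 1 / 64 → ‖h y2 y1‖ ≤ 1 / 64 → A.I σ → ‖σ‖ ≤ 1 / 8 →
      InR A L (a + ((1 - σ) • y1 + σ • y2)))
    {j : ℕ} (hj : 1 ≤ j) {y z : E}
    (hy : Ys A L j y) (hz : Ys A L j z) : Ys A L j (y + z) := by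
  obtain ⟨hy1, hy2, hy3⟩ := hy
  obtain ⟨hz1, hz2, hz3⟩ := hz
  refine ⟨by simp [hy1, hz1], fun n => A.O.add_mem (hy2 n) (hz2 n), ?_⟩
  intro k
  obtain ⟨T1, hT1, hT1'⟩ := hy3 k
  obtain ⟨T2, hT2, hT2'⟩ := hz3 (k + 1)
  set M : ℝ := 1 + ‖h y y‖ + ‖h z z‖ + ‖h z y‖ with hM
  have hM1 : 1 ≤ M := by
    have := norm_nonneg (h y y)
    have := norm_nonneg (h z z)
    have := norm_nonneg (h z y)
    linarith
  have hw1 := A.w_gt (k + 1)
  have hw3 := A.w_le (k + 1)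
  have hw0 : (A.w (k + 1) : ℂ) ≠ 0 := by exact_mod_cast (by linarith : A.w (k + 1) ≠ 0)
  -- σ
  set σ : ℂ := (A.w (k + 1) : ℂ) * (1 / 32) with hσ
  have h32 : (1 / 32 : ℂ) ∈ A.O := by
    have := A.O.pow_mem A.half_mem 5
    norm_num at this
    norm_num
    exact this
  have h32' : (32 : ℂ) ∈ A.O := by
    have h2 : (32 : ℂ) = ((32 : ℕ) : ℂ) := by norm_num
    rw [h2]
    exact natCast_mem A.O 32
  have hσI : A.I σ := ⟨k + 1, 1 / 32, h32, rfl⟩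
  have hσn : ‖σ‖ ≤ 1 / 8 := by
    rw [hσ, norm_mul, Complex.norm_real, Real.norm_of_nonneg (by linarith)]
    have : ‖(1 / 32 : ℂ)‖ = 1 / 32 := by norm_num
    rw [this]
    linarith
  obtain ⟨hu0, huO⟩ := Arith.unit_of_I (Arith.I_neg hσI)
  rw [← sub_eq_add_neg] at hu0 huO
  have hun : ‖(1 - σ)⁻¹‖ ≤ 2 := by
    rw [norm_inv]
    have h1 : 1 - ‖σ‖ ≤ ‖1 - σ‖ := by
      have := norm_sub_norm_le (1 : ℂ) σ
      simpa using this
    have h2 : (1 / 2 : ℝ) ≤ ‖1 - σ‖ := by linarith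
    rw [inv_le_comm₀ (by linarith) (by norm_num)]
    linarith
  refine ⟨min (T1 / 32) (min (T2 / 32) (1 / (8 * M) / 32)), by positivity, ?_⟩
  intro τ hτ hτn
  have hτ1 : 32 * ‖τ‖ ≤ T1 := by
    have := hτn.trans (min_le_left _ _)
    linarith
  have hτ2 : 32 * ‖τ‖ ≤ T2 := by
    have := hτn.trans ((min_le_right _ _).trans (min_le_left _ _))
    linarith
  have hτ3 : 32 * ‖τ‖ ≤ 1 / (8 * M) := by
    have := hτn.trans ((min_le_right _ _).trans (min_le_right _ _))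
    linarith
  have hτ0 := norm_nonneg τ
  obtain ⟨ζ, hζ, hτζ⟩ := id hτ
  set t1 : ℂ := τ * (1 - σ)⁻¹ with ht1
  set t2 : ℂ := (A.w (k + 1) : ℂ) * (32 * ζ) with ht2
  have ht1l : A.lev k t1 := Arith.lev_mul_right hτ huO
  have ht2l : A.lev (k + 1) t2 := ⟨32 * ζ, A.O.mul_mem h32' hζ, rfl⟩
  have hτeq : τ = (A.w (k + 1) : ℂ) * ((A.w (k + 1) : ℂ) * ζ) := by
    rw [hτζ, ← A.w_sq k]
    push_cast
    ring
  have ht1n : ‖t1‖ ≤ 32 * ‖τ‖ := by
    rw [ht1, norm_mul]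
    nlinarith
  have ht2n : ‖t2‖ ≤ 32 * ‖τ‖ := by
    rw [ht2, hτeq, norm_mul, norm_mul, norm_mul, norm_mul, Complex.norm_real,
      Real.norm_of_nonneg (by linarith)]
    have h1 : ‖(32 : ℂ)‖ = 32 := by norm_num
    rw [h1]
    have h2 := norm_nonneg ζ
    have h3 : 0 ≤ A.w (k + 1) * ‖ζ‖ := by positivity
    nlinarith
  have hs1 : (1 - σ) * t1 = τ := by
    rw [ht1]
    field_simp
  have hs2 : σ * t2 = τ := by
    rw [hσ, ht2, hτeq]
    ring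
  have hbound : ∀ (a b c : ℂ), ‖a‖ ≤ 32 * ‖τ‖ → ‖b‖ ≤ 32 * ‖τ‖ → ‖c‖ ≤ M →
      ‖a * (b * c)‖ ≤ 1 / 64 := by
    intro a b c ha hb hc
    rw [norm_mul, norm_mul]
    have h1 : ‖a‖ ≤ 1 / (8 * M) := ha.trans hτ3
    have h2 : ‖b‖ ≤ 1 / (8 * M) := hb.trans hτ3
    have h3 : ‖a‖ * (‖b‖ * ‖c‖) ≤ 1 / (8 * M) * (1 / (8 * M) * M) := by
      gcongr
    refine h3.trans ?_
    have h4 : 1 / (8 * M) * (1 / (8 * M) * M) = 1 / 64 * (1 / M) := by
      field_simp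
      norm_num
    rw [h4]
    have h5 : 1 / M ≤ 1 := by
      rw [div_le_one (by linarith)]
      exact hM1
    linarith
  have hyM : ‖h y y‖ ≤ M := by
    have := norm_nonneg (h z z)
    have := norm_nonneg (h z y)
    linarith
  have hzM : ‖h z z‖ ≤ M := by
    have := norm_nonneg (h y y)
    have := norm_nonneg (h z y)
    linarith
  have hzyM : ‖h z y‖ ≤ M := by
    have := norm_nonneg (h y y)
    have := norm_nonneg (h z z)
    linarith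
  have hfin := hP2 (a := e j) (y1 := t1 • y) (y2 := t2 • z) (σ := σ) (T21_h_ej hj)
    (hT1' t1 ht1l (ht1n.trans hτ1)) (hT2' t2 ht2l (ht2n.trans hτ2))
    (by rw [h_smul_right, T21_h_ej_left hy1, mul_zero])
    (by rw [h_smul_right, T21_h_ej_left hz1, mul_zero])
    (by
      rw [h_smul_left, h_smul_right]
      exact Arith.I_mul_right ⟨k, ht1l⟩ (A.O.mul_mem (A.conj_mem _ (Arith.lev_mem ht1l))
        (T21_h_mem_O A hy2 hy2)))
    (by
      rw [h_smul_left, h_smul_right]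
      exact Arith.I_mul_right ⟨k + 1, ht2l⟩ (A.O.mul_mem (A.conj_mem _ (Arith.lev_mem ht2l))
        (T21_h_mem_O A hz2 hz2)))
    (by
      rw [h_smul_left, h_smul_right]
      exact Arith.I_mul_right ⟨k + 1, ht2l⟩ (A.O.mul_mem (A.conj_mem _ (Arith.lev_mem ht1l))
        (T21_h_mem_O A hz2 hy2)))
    (by
      rw [h_smul_left, h_smul_right]
      exact hbound _ _ _ ht1n (by rwa [Complex.norm_conj]) hyM)
    (by
      rw [h_smul_left, h_smul_right]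
      exact hbound _ _ _ ht2n (by rwa [Complex.norm_conj]) hzM)
    (by
      rw [h_smul_left, h_smul_right]
      exact hbound _ _ _ ht2n (by rwa [Complex.norm_conj]) hzyM)
    hσI hσn
  rw [smul_smul, smul_smul, hs1, hs2, ← smul_add] at hfin
  exact hfin

theorem Ys_smul (A : Arith) {L : Subgroup (E ≃ₗ[ℂ] E)} {j : ℕ} {y : E} {c : ℂ}
    (hc : c ∈ A.O) (hy : Ys A L j y) : Ys A L j (c • y) := by
  obtain ⟨hy1, hy2, hy3⟩ := hy
  refine ⟨by simp [hy1], fun n => A.O.mul_mem hc (hy2 n), ?_⟩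
  intro k
  obtain ⟨T, hT, hT'⟩ := hy3 k
  have hc0 := norm_nonneg c
  refine ⟨T / (‖c‖ + 1), by positivity, ?_⟩
  intro τ hτ hτn
  rw [smul_smul]
  refine hT' (τ * c) (Arith.lev_mul_right hτ hc) ?_
  rw [norm_mul]
  rw [le_div_iff₀ (by positivity)] at hτn
  have := norm_nonneg τ
  nlinarith

theorem Ys_sat (A : Arith) {L : Subgroup (E ≃ₗ[ℂ] E)} {j : ℕ} {y : E} (hyO : ∀ n, y n ∈ A.O)
    (hy : ∀ m0 : ℕ, ∃ m, m0 ≤ m ∧ Ys A L j ((A.w m : ℂ) • y)) : Ys A L j y := by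
  have hw0 : ∀ m, (A.w m : ℂ) ≠ 0 := by
    intro m
    have := A.w_gt m
    exact_mod_cast (by linarith : A.w m ≠ 0)
  refine ⟨?_, hyO, ?_⟩
  · obtain ⟨m, -, hm, -⟩ := hy 0
    rw [Finsupp.smul_apply, smul_eq_mul] at hm
    exact (mul_eq_zero.1 hm).resolve_left (hw0 m)
  · intro k
    obtain ⟨m, hkm, -, -, hm⟩ := hy (k + 1)
    obtain ⟨T, hT, hT'⟩ := hm (k + 1)
    refine ⟨T, hT, ?_⟩
    intro τ hτ hτn
    obtain ⟨ζ, hζ, hτζ⟩ := id hτ
    obtain ⟨u, hu, hwu⟩ := Arith.lev_mono hkm (Arith.lev_w (A := A) (k + 1))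
    have hτeq : τ = ((A.w (k + 1) : ℂ) * (u * ζ)) * (A.w m : ℂ) := by
      have h1 : τ = (A.w (k + 1) : ℂ) * ((A.w (k + 1) : ℂ) * ζ) := by
        rw [hτζ, ← A.w_sq k]
        push_cast
        ring
      rw [h1]
      conv_lhs => rw [hwu]
      conv_rhs => rw [hwu]
      ring
    have hlev : A.lev (k + 1) ((A.w (k + 1) : ℂ) * (u * ζ)) :=
      ⟨u * ζ, A.O.mul_mem hu hζ, rfl⟩
    have hle : ‖(A.w (k + 1) : ℂ) * (u * ζ)‖ ≤ T := by
      refine le_trans ?_ hτn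
      conv_rhs => rw [hτeq, norm_mul]
      have h1 : (1 : ℝ) ≤ ‖(A.w m : ℂ)‖ := by
        have := A.w_gt m
        rw [Complex.norm_real, Real.norm_of_nonneg (by linarith)]
        exact this.le
      exact le_mul_of_one_le_right (norm_nonneg _) h1
    have := hT' _ hlev hle
    rw [smul_smul, ← hτeq] at this
    exact this

theorem Ys_of_InR (A : Arith) {L : Subgroup (E ≃ₗ[ℂ] E)}
    (hP1 : ∀ {a y : E} {Y : ℝ}, InR A L a → InR A L (a + y) → h a y = 0 → h y y = Y * h a a →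
      A.I Y → ∃ T : ℝ, 0 < T ∧ ∀ τ : ℂ, A.I τ → ‖τ‖ ≤ T → InR A L (a + τ • y))
    {j : ℕ} (hj : 1 ≤ j) {y : E}
    (hyj : y j = 0) (hyI : ∀ n, A.I (y n)) (hj1 : InR A L (e j)) (hy : InR A L (e j + y)) :
    Ys A L j y := by
  have hyO : ∀ n, y n ∈ A.O := fun n => Arith.I_mem' (hyI n)
  obtain ⟨T, hT, hT'⟩ := hP1 (a := e j) (y := y) (Y := (h y y).re) hj1 hy (T21_h_ej_left hyj)
    (by rw [T21_h_ej hj, mul_one, h_self_real])
    (by rw [h_self_real]; exact T21_h_mem_I A hyI hyO)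
  exact ⟨hyj, hyO, fun k => ⟨T, hT, fun τ hτ hτn => hT' τ ⟨k, hτ⟩ hτn⟩⟩

end Pool.Agent.H332R3
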