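import Mathlib

/-!
# Definitions for the proof of S03346 (MP_e2b313_al)

`E = ℕ →₀ ℂ` with the Hermitian form `h` of signature `(1,∞)` (the vector `e 0` is negative),
complex reflections `Rf v c`, arithmetic data `Arith`, and the group `KK A` generated by reflections.
-/

set_option autoImplicit false

namespace Pool.Agent.H332R3

open scoped ComplexConjugate

/-- The underlying space. -/
abbrev E := ℕ →₀ ℂ

/-- Basis vectors. -/
noncomputable def e (n : ℕ) : E := Finsupp.single n 1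

/-- The Hermitian form: `e 0` is negative, all the other `e n` are positive. Linear in the first,
conjugate-linear in the second variable. -/
noncomputable def h (x y : E) : ℂ :=
  (x.sum fun n a => a * conj (y n)) - 2 * (x 0 * conj (y 0))

/-- The sign `h (e n) (e n)`. -/
noncomputable def sg (n : ℕ) : ℝ := if n = 0 then -1 else 1

lemma h_add_left (x y z : E) : h (x + y) z = h x z + h y z := by
  unfold h
  rw [Finsupp.sum_add_index' (by intro a; simp) (by intro a b c; ring)]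
  simp only [Finsupp.add_apply]
  ring

lemma h_smul_left (c : ℂ) (x z : E) : h (c • x) z = c * h x z := by
  unfold h
  rw [Finsupp.sum_smul_index (by intro a; simp), mul_sub, Finsupp.mul_sum]
  simp only [Finsupp.smul_apply, smul_eq_mul]
  congr 1
  · apply Finsupp.sum_congr; intro a _; ring
  · ring

lemma h_add_right (x y z : E) : h x (y + z) = h x y + h x z := by
  unfold h
  simp only [Finsupp.add_apply, map_add, mul_add, Finsupp.sum_add]
  ring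

lemma h_smul_right (c : ℂ) (x z : E) : h x (c • z) = conj c * h x z := by
  unfold h
  simp only [Finsupp.smul_apply, smul_eq_mul, map_mul]
  rw [mul_sub, Finsupp.mul_sum]
  congr 1
  · apply Finsupp.sum_congr; intro a _; ring
  · ring

@[simp] lemma h_zero_left (z : E) : h 0 z = 0 := by
  have := h_smul_left 0 0 z; simpa using this

@[simp] lemma h_zero_right (z : E) : h z 0 = 0 := by
  have := h_smul_right 0 z 0; simpa using this

lemma h_neg_left (x z : E) : h (-x) z = - h x z := by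
  have := h_smul_left (-1) x z; simpa using this

lemma h_neg_right (x z : E) : h x (-z) = - h x z := by
  have := h_smul_right (-1) x z; simpa using this

lemma h_sub_left (x y z : E) : h (x - y) z = h x z - h y z := by
  rw [sub_eq_add_neg, h_add_left, h_neg_left]; ring

lemma h_sub_right (x y z : E) : h x (y - z) = h x y - h x z := by
  rw [sub_eq_add_neg, h_add_right, h_neg_right]; ring

lemma h_e_right (x : E) (n : ℕ) : h x (e n) = sg n * x n := by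
  classical
  unfold h e sg
  by_cases hx : n ∈ x.support
  · have : (x.sum fun m a => a * conj ((Finsupp.single n (1:ℂ)) m)) = x n := by
      rw [Finsupp.sum, Finset.sum_eq_single n]
      · simp
      · intro b _ hb; simp [Finsupp.single_apply, Ne.symm hb]
      · intro hn; exact absurd hx hn
    rw [this]
    by_cases h0 : n = 0
    · subst h0; simp; ring
    · simp [h0]
  · have hxn : x n = 0 := by simpa using hx
    have : (x.sum fun m a => a * conj ((Finsupp.single n (1:ℂ)) m)) = 0 := by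
      rw [Finsupp.sum]; apply Finset.sum_eq_zero
      intro b hb
      have : b ≠ n := by rintro rfl; exact hx hb
      simp [Finsupp.single_apply, Ne.symm this]
    rw [this]
    by_cases h0 : n = 0
    · subst h0; simp [hxn]
    · simp [h0, hxn]

lemma h_e_left (y : E) (n : ℕ) : h (e n) y = sg n * conj (y n) := by
  classical
  unfold h e sg
  rw [Finsupp.sum_single_index (by simp)]
  by_cases h0 : n = 0
  · subst h0; simp; ring
  · simp [h0]

lemma e_apply (n m : ℕ) : e n m = if n = m then 1 else 0 := by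
  simp [e, Finsupp.single_apply]

@[simp] lemma e_self (n : ℕ) : e n n = 1 := by simp [e]

lemma e_ne {n m : ℕ} (hnm : n ≠ m) : e n m = 0 := by simp [e, Finsupp.single_apply, hnm]

@[simp] lemma h_e_self (n : ℕ) : h (e n) (e n) = sg n := by simp [h_e_left]

lemma h_e_e {n m : ℕ} (hnm : n ≠ m) : h (e n) (e m) = 0 := by simp [h_e_right, e_ne hnm]

lemma h_symm (x y : E) : h y x = conj (h x y) := by
  induction x using Finsupp.induction_linear with
  | zero => simp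
  | add f g hf hg => rw [h_add_left, h_add_right, hf, hg, map_add]
  | single a b =>
    have : (Finsupp.single a b : E) = b • e a := by simp [e]
    rw [this, h_smul_left, h_smul_right, h_e_left, h_e_right]
    simp

/-- `h x x` is real. -/
lemma h_self_real (x : E) : ((h x x).re : ℂ) = h x x := by
  have := h_symm x x
  exact Complex.conj_eq_iff_re.mp this.symm

/-- The complex reflection with vector `v` and multiplier `c`:
`Rf v c x = x + ((c-1) h(x,v)/h(v,v)) v`. -/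
noncomputable def Rf (v : E) (c : ℂ) : E →ₗ[ℂ] E where
  toFun x := x + ((c - 1) * h x v / h v v) • v
  map_add' x y := by
    rw [h_add_left]
    have : (c - 1) * (h x v + h y v) / h v v
        = (c - 1) * h x v / h v v + (c - 1) * h y v / h v v := by ring
    rw [this, add_smul]; abel
  map_smul' a x := by
    rw [h_smul_left]
    have : (c - 1) * (a * h x v) / h v v = a * ((c - 1) * h x v / h v v) := by ring
    rw [this, mul_smul]; simp [smul_add]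

lemma Rf_apply (v : E) (c : ℂ) (x : E) : Rf v c x = x + ((c - 1) * h x v / h v v) • v := rfl

@[simp] lemma Rf_one (v x : E) : Rf v 1 x = x := by simp [Rf_apply]

lemma Rf_mul {v : E} (hv : h v v ≠ 0) (c d : ℂ) (x : E) : Rf v c (Rf v d x) = Rf v (c * d) x := by
  rw [Rf_apply, Rf_apply, Rf_apply, h_add_left, h_smul_left, add_assoc, ← add_smul]
  congr 2
  field_simp
  ring

lemma Rf_smul {v : E} {s : ℂ} (hs : s ≠ 0) (c : ℂ) (x : E) : Rf (s • v) c x = Rf v c x := by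
  rw [Rf_apply, Rf_apply, h_smul_right, h_smul_left, h_smul_right, smul_smul]
  congr 2
  by_cases hv : h v v = 0
  · simp [hv]
  · have : conj s ≠ 0 := by simpa using hs
    field_simp

lemma Rf_orth {v x : E} (c : ℂ) (hx : h x v = 0) : Rf v c x = x := by simp [Rf_apply, hx]

lemma Rf_self {v : E} (hv : h v v ≠ 0) (c : ℂ) : Rf v c v = c • v := by
  rw [Rf_apply, mul_div_assoc, div_self hv, mul_one]
  rw [sub_smul, one_smul]; abel

/-- The group of linear isometries of `h`. -/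
def U : Subgroup (E ≃ₗ[ℂ] E) where
  carrier := {g | ∀ x y, h (g x) (g y) = h x y}
  one_mem' := by intro x y; rfl
  mul_mem' := by
    intro a b ha hb x y
    rw [LinearEquiv.mul_apply, LinearEquiv.mul_apply, ha, hb]
  inv_mem' := by
    intro a ha x y
    have := ha (a⁻¹ x) (a⁻¹ y)
    rw [← this]
    have h1 : ∀ z, a (a⁻¹ z) = z := fun z => by
      rw [← LinearEquiv.mul_apply]; simp
    rw [h1, h1]

lemma mem_U {g : E ≃ₗ[ℂ] E} : g ∈ U ↔ ∀ x y, h (g x) (g y) = h x y := Iff.rfl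

lemma Rf_isom {v : E} (hv : h v v ≠ 0) {c : ℂ} (hc : ‖c‖ = 1) (x y : E) :
    h (Rf v c x) (Rf v c y) = h x y := by
  have hcc : c * conj c = 1 := by
    rw [Complex.mul_conj, Complex.normSq_eq_norm_sq, hc]; simp
  have hvr : conj (h v v) = h v v := (h_symm v v).symm
  simp only [Rf_apply, h_add_left, h_add_right, h_smul_left, h_smul_right, map_mul, map_div₀,
    map_sub, map_one, hvr]
  rw [← h_symm y v, ]
  field_simp
  linear_combination (h x v * h v y) * hcc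

/-- The reflection as an element of `E ≃ₗ[ℂ] E` (junk value `1` if it does not make sense). -/
noncomputable def R (v : E) (c : ℂ) : E ≃ₗ[ℂ] E :=
  open Classical in
  if H : h v v ≠ 0 ∧ c ≠ 0 then
    { Rf v c with
      invFun := Rf v c⁻¹
      left_inv := fun x => by
        show Rf v c⁻¹ (Rf v c x) = x
        rw [Rf_mul H.1, inv_mul_cancel₀ H.2, Rf_one]
      right_inv := fun x => by
        show Rf v c (Rf v c⁻¹ x) = x
        rw [Rf_mul H.1, mul_inv_cancel₀ H.2, Rf_one] }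
  else 1

lemma R_apply {v : E} {c : ℂ} (hv : h v v ≠ 0) (hc : c ≠ 0) (x : E) : R v c x = Rf v c x := by
  unfold R
  rw [dif_pos ⟨hv, hc⟩]
  rfl

lemma R_mem_U {v : E} {c : ℂ} (hv : h v v ≠ 0) (hc : ‖c‖ = 1) : R v c ∈ U := by
  have hc0 : c ≠ 0 := by rintro rfl; simp at hc
  intro x y
  rw [R_apply hv hc0, R_apply hv hc0, Rf_isom hv hc]

/-- Arithmetic data. -/
structure Arith where
  /-- a subring of `ℂ` -/
  O : Subring ℂ
  /-- `ϖ k`, real numbers in `(1,3]` -/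
  w : ℕ → ℝ
  conj_mem : ∀ x ∈ O, conj x ∈ O
  I_mem : Complex.I ∈ O
  half_mem : (1 / 2 : ℂ) ∈ O
  countable : (O : Set ℂ).Countable
  w_zero : w 0 = 3
  w_gt : ∀ k, 1 < w k
  w_le : ∀ k, w k ≤ 3
  w_sq : ∀ k, w (k + 1) ^ 2 = w k
  w_mem : ∀ k, (w k : ℂ) ∈ O
  /-- `1 + ϖ_k 𝒪` consists of units -/
  unit_one_add : ∀ k, ∀ x ∈ O, ∃ y ∈ O, (1 + (w k : ℂ) * x) * y = 1
  sqrt_mem : ∀ x : ℝ, 0 ≤ x → (x : ℂ) ∈ O → ((Real.sqrt x : ℝ) : ℂ) ∈ O
  /-- for real or unimodular `x ∈ 𝒪`, if `x² ≡ 1 mod ϖ_k` then `x ≡ ±1 mod ϖ_k` -/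
  sq_one : ∀ k, ∀ x ∈ O, (conj x = x ∨ ‖x‖ = 1) → (∃ y ∈ O, x ^ 2 - 1 = (w k : ℂ) * y) →
    (∃ y ∈ O, x - 1 = (w k : ℂ) * y) ∨ (∃ y ∈ O, x + 1 = (w k : ℂ) * y)
  /-- divisibility of `Θ` -/
  root : ∀ n : ℕ, 1 ≤ n → ∀ c : ℂ, ‖c‖ = 1 → (∃ k, ∃ y ∈ O, c - 1 = (w k : ℂ) * y) →
    ∃ d : ℂ, d ^ n = c ∧ ‖d‖ = 1 ∧ (∃ k, ∃ y ∈ O, d - 1 = (w k : ℂ) * y)
  /-- archimedean-small `3^m`-th roots in `Θ` -/
  small_root : ∀ ε : ℝ, 0 < ε → ∀ c : ℂ, ‖c‖ = 1 → (∃ k, ∃ y ∈ O, c - 1 = (w k : ℂ) * y) →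
    ∃ m : ℕ, ∃ d : ℂ, d ^ (3 ^ m) = c ∧ ‖d‖ = 1 ∧ ‖d - 1‖ < ε ∧
      (∃ k, ∃ y ∈ O, d - 1 = (w k : ℂ) * y)

namespace Arith

variable (A : Arith)

/-- `z ∈ ϖ_k 𝒪` -/
def lev (k : ℕ) (z : ℂ) : Prop := ∃ y ∈ A.O, z = (A.w k : ℂ) * y

/-- `z ∈ I = ⋃ ϖ_k 𝒪` -/
def I (z : ℂ) : Prop := ∃ k, A.lev k z

/-- `c ∈ Θ`: unimodular and `≡ 1 mod I` -/
def Th (c : ℂ) : Prop := ‖c‖ = 1 ∧ A.I (c - 1)

variable {A}

lemma lev_mem {k : ℕ} {z : ℂ} (hz : A.lev k z) : z ∈ A.O := by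
  obtain ⟨y, hy, rfl⟩ := hz; exact A.O.mul_mem (A.w_mem k) hy

lemma I_mem' {z : ℂ} (hz : A.I z) : z ∈ A.O := by obtain ⟨k, hk⟩ := hz; exact lev_mem hk

lemma lev_zero (k : ℕ) : A.lev k 0 := ⟨0, A.O.zero_mem, by simp⟩

lemma I_zero : A.I 0 := ⟨0, lev_zero 0⟩

lemma lev_add {k : ℕ} {x y : ℂ} (hx : A.lev k x) (hy : A.lev k y) : A.lev k (x + y) := by
  obtain ⟨a, ha, rfl⟩ := hx; obtain ⟨b, hb, rfl⟩ := hy
  exact ⟨a + b, A.O.add_mem ha hb, by ring⟩

lemma lev_neg {k : ℕ} {x : ℂ} (hx : A.lev k x) : A.lev k (-x) := by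
  obtain ⟨a, ha, rfl⟩ := hx
  exact ⟨-a, A.O.neg_mem ha, by ring⟩

lemma lev_sub {k : ℕ} {x y : ℂ} (hx : A.lev k x) (hy : A.lev k y) : A.lev k (x - y) := by
  rw [sub_eq_add_neg]; exact lev_add hx (lev_neg hy)

lemma lev_mul_left {k : ℕ} {x y : ℂ} (hx : x ∈ A.O) (hy : A.lev k y) : A.lev k (x * y) := by
  obtain ⟨b, hb, rfl⟩ := hy
  exact ⟨x * b, A.O.mul_mem hx hb, by ring⟩

lemma lev_mul_right {k : ℕ} {x y : ℂ} (hx : A.lev k x) (hy : y ∈ A.O) : A.lev k (x * y) := by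
  rw [mul_comm]; exact lev_mul_left hy hx

lemma lev_w (k : ℕ) : A.lev k (A.w k) := ⟨1, A.O.one_mem, by simp⟩

lemma lev_succ {k : ℕ} {x : ℂ} (hx : A.lev k x) : A.lev (k + 1) x := by
  obtain ⟨a, ha, rfl⟩ := hx
  refine ⟨A.w (k + 1) * a, A.O.mul_mem (A.w_mem _) ha, ?_⟩
  rw [← A.w_sq k]; push_cast; ring

lemma lev_mono {k k' : ℕ} (hk : k ≤ k') {x : ℂ} (hx : A.lev k x) : A.lev k' x := by
  induction k', hk using Nat.le_induction with
  | base => exact hx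
  | succ n _ ih => exact lev_succ ih

lemma lev_conj {k : ℕ} {x : ℂ} (hx : A.lev k x) : A.lev k (conj x) := by
  obtain ⟨a, ha, rfl⟩ := hx
  exact ⟨conj a, A.conj_mem a ha, by simp⟩

lemma I_add {x y : ℂ} (hx : A.I x) (hy : A.I y) : A.I (x + y) := by
  obtain ⟨k, hk⟩ := hx; obtain ⟨l, hl⟩ := hy
  exact ⟨max k l, lev_add (lev_mono (le_max_left _ _) hk) (lev_mono (le_max_right _ _) hl)⟩

lemma I_neg {x : ℂ} (hx : A.I x) : A.I (-x) := by
  obtain ⟨k, hk⟩ := hx; exact ⟨k, lev_neg hk⟩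

lemma I_sub {x y : ℂ} (hx : A.I x) (hy : A.I y) : A.I (x - y) := by
  rw [sub_eq_add_neg]; exact I_add hx (I_neg hy)

lemma I_mul_left {x y : ℂ} (hx : x ∈ A.O) (hy : A.I y) : A.I (x * y) := by
  obtain ⟨k, hk⟩ := hy; exact ⟨k, lev_mul_left hx hk⟩

lemma I_mul_right {x y : ℂ} (hx : A.I x) (hy : y ∈ A.O) : A.I (x * y) := by
  rw [mul_comm]; exact I_mul_left hy hx

lemma I_conj {x : ℂ} (hx : A.I x) : A.I (conj x) := by
  obtain ⟨k, hk⟩ := hx; exact ⟨k, lev_conj hk⟩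

lemma unit_of_I {z : ℂ} (hz : A.I z) : 1 + z ≠ 0 ∧ (1 + z)⁻¹ ∈ A.O := by
  obtain ⟨k, y, hy, rfl⟩ := hz
  obtain ⟨u, hu, h1⟩ := A.unit_one_add k y hy
  have h0 : (1 + (A.w k : ℂ) * y) ≠ 0 := by
    intro h0; rw [h0] at h1; simp at h1
  refine ⟨h0, ?_⟩
  have : (1 + (A.w k : ℂ) * y)⁻¹ = u := (eq_inv_of_mul_eq_one_right h1).symm
  rw [this]; exact hu

/-- if `c ≡ 1 mod I` then `c ≠ 0` and `c⁻¹ ∈ 𝒪` -/
lemma unit_of_I' {c : ℂ} (hc : A.I (c - 1)) : c ≠ 0 ∧ c⁻¹ ∈ A.O := by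
  have := unit_of_I hc
  rwa [add_sub_cancel] at this

lemma mem_of_I' {c : ℂ} (hc : A.I (c - 1)) : c ∈ A.O := by
  have := A.O.add_mem (I_mem' hc) A.O.one_mem
  rwa [sub_add_cancel] at this

/-- `1 ∉ I` -/
lemma not_I_one : ¬ A.I 1 := by
  intro h1
  have := unit_of_I (I_neg h1)
  simp at this

lemma lev_sqrt {k : ℕ} {x : ℝ} (hx : 0 ≤ x) (hk : A.lev k x) :
    A.lev (k + 1) ((Real.sqrt x : ℝ) : ℂ) := by
  obtain ⟨y, hy, hxy⟩ := hk
  have hw : (0 : ℝ) < A.w k := lt_trans one_pos (A.w_gt k)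
  have hw1 : (0 : ℝ) < A.w (k + 1) := lt_trans one_pos (A.w_gt _)
  have hy' : y = ((x / A.w k : ℝ) : ℂ) := by
    have : (A.w k : ℂ) ≠ 0 := by exact_mod_cast hw.ne'
    push_cast; rw [hxy]; field_simp
  rw [hy'] at hy
  refine ⟨_, A.sqrt_mem _ (by positivity) hy, ?_⟩
  rw [Real.sqrt_div' _ hw.le, ← A.w_sq k, Real.sqrt_sq hw1.le]
  push_cast
  have : (A.w (k + 1) : ℂ) ≠ 0 := by exact_mod_cast hw1.ne'
  field_simp

lemma Th_one : A.Th 1 := ⟨by simp, by simpa using I_zero⟩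

lemma Th_mul {c d : ℂ} (hc : A.Th c) (hd : A.Th d) : A.Th (c * d) := by
  refine ⟨by rw [norm_mul, hc.1, hd.1, one_mul], ?_⟩
  have : c * d - 1 = (c - 1) * d + (d - 1) := by ring
  rw [this]
  exact I_add (I_mul_right hc.2 (mem_of_I' hd.2)) hd.2

lemma Th_conj {c : ℂ} (hc : A.Th c) : A.Th (conj c) := by
  refine ⟨by simpa using hc.1, ?_⟩
  have := I_conj hc.2
  simpa using this

lemma Th_inv {c : ℂ} (hc : A.Th c) : A.Th c⁻¹ := by
  have : c⁻¹ = conj c := by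
    rw [Complex.inv_def, Complex.normSq_eq_norm_sq, hc.1]; simp
  rw [this]; exact Th_conj hc

lemma Th_ne_zero {c : ℂ} (hc : A.Th c) : c ≠ 0 := by
  rintro rfl; have := hc.1; simp at this

end Arith

/-- all reflections `R(v,c)`, `c ∈ Θ`, belong to `L` -/
def InR (A : Arith) (L : Subgroup (E ≃ₗ[ℂ] E)) (v : E) : Prop :=
  h v v ≠ 0 ∧ ∀ c, A.Th c → ∃ g ∈ L, ∀ x, g x = Rf v c x

lemma InR.smul {A : Arith} {L : Subgroup (E ≃ₗ[ℂ] E)} {v : E} (hv : InR A L v) {s : ℂ}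
    (hs : s ≠ 0) : InR A L (s • v) := by
  refine ⟨?_, ?_⟩
  · rw [h_smul_left, h_smul_right]
    have : conj s ≠ 0 := by simpa using hs
    exact mul_ne_zero hs (mul_ne_zero this hv.1)
  · intro c hc
    obtain ⟨g, hg, hgx⟩ := hv.2 c hc
    exact ⟨g, hg, fun x => by rw [hgx, Rf_smul hs]⟩

lemma InR.of_smul {A : Arith} {L : Subgroup (E ≃ₗ[ℂ] E)} {v : E} {s : ℂ}
    (hs : s ≠ 0) (hv : InR A L (s • v)) : InR A L v := by
  have := hv.smul (inv_ne_zero hs)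
  rwa [smul_smul, inv_mul_cancel₀ hs, one_smul] at this

/-- `InR` is stable under the action of `L`. -/
lemma InR.map {A : Arith} {L : Subgroup (E ≃ₗ[ℂ] E)} (hL : L ≤ U) {v : E} (hv : InR A L v)
    {g : E ≃ₗ[ℂ] E} (hg : g ∈ L) : InR A L (g v) := by
  refine ⟨by rw [hL hg]; exact hv.1, ?_⟩
  intro c hc
  obtain ⟨r, hr, hrx⟩ := hv.2 c hc
  refine ⟨g * r * g⁻¹, L.mul_mem (L.mul_mem hg hr) (L.inv_mem hg), ?_⟩
  intro x
  have h1 : ∀ z, g (g⁻¹ z) = z := fun z => by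
    rw [← LinearEquiv.mul_apply]; simp
  rw [LinearEquiv.mul_apply, LinearEquiv.mul_apply, hrx, Rf_apply, Rf_apply, map_add, map_smul, h1]
  have h2 : h x (g v) = h (g⁻¹ x) v := by
    rw [← hL hg (g⁻¹ x) v, h1]
  rw [h2, hL hg]

/-- the generators of `K` -/
noncomputable def KS (A : Arith) : Set (E ≃ₗ[ℂ] E) :=
  {g | ∃ (j l : ℕ) (τ c : ℂ), 1 ≤ j ∧ l ≠ j ∧ A.I τ ∧ ‖τ‖ ≤ 1 / 2 ∧ A.Th c ∧
    ∀ x, g x = Rf (e j + τ • e l) c x}

/-- the group `K` -/
noncomputable def KK (A : Arith) : Subgroup (E ≃ₗ[ℂ] E) := Subgroup.closure (KS A)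

/-- `P(y,k)` : for small `τ ∈ ϖ_k 𝒪`, `e_j + τ y ∈ 𝓡`. -/
def Pk (A : Arith) (L : Subgroup (E ≃ₗ[ℂ] E)) (j : ℕ) (y : E) (k : ℕ) : Prop :=
  ∃ T : ℝ, 0 < T ∧ ∀ τ : ℂ, A.lev k τ → ‖τ‖ ≤ T → InR A L (e j + τ • y)

/-- the module `Y*` of directions at `e_j`. -/
def Ys (A : Arith) (L : Subgroup (E ≃ₗ[ℂ] E)) (j : ℕ) (y : E) : Prop :=
  y j = 0 ∧ (∀ n, y n ∈ A.O) ∧ ∀ k, Pk A L j y k

/-- Hypothesis (H): many approximate directions. -/
def HH (A : Arith) (L : Subgroup (E ≃ₗ[ℂ] E)) (n0 k0 : ℕ) : Prop :=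
  ∀ j, n0 ≤ j → ∀ i, i ≠ j → ∀ q : ℕ, ∃ (y : E) (u : ℂ), y j = 0 ∧ (∀ n, A.I (y n)) ∧
    u ∈ A.O ∧ u⁻¹ ∈ A.O ∧ u ≠ 0 ∧ A.lev k0 (y i - u * A.w q) ∧
    (∀ n, n ≠ i → A.lev k0 (y n)) ∧ InR A L (e j + y)

end Pool.Agent.H332R3
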