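import Pool.Agent.H332R3.Defs

/-!
# More definitions for the proof of S03346 (MP_e2b313_al): concrete arithmetic data, abstract group setup
-/

set_option autoImplicit false

namespace Pool.Agent.H332R3

open scoped ComplexConjugate

/-- `w3 k = 3^(1/2^k)`. -/
noncomputable def w3 : ℕ → ℝ
  | 0 => 3
  | k + 1 => Real.sqrt (w3 k)

/-- The ring of algebraic numbers `z` with `z, conj z ∈ B`. -/
def OB (B : ValuationSubring ℂ) : Subring ℂ where
  carrier := {z | IsAlgebraic ℚ z ∧ z ∈ B ∧ conj z ∈ B}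
  mul_mem' := by
    rintro a b ⟨ha, ha1, ha2⟩ ⟨hb, hb1, hb2⟩
    exact ⟨ha.mul hb, B.mul_mem _ _ ha1 hb1, by rw [map_mul]; exact B.mul_mem _ _ ha2 hb2⟩
  one_mem' := ⟨isAlgebraic_one, B.one_mem, by rw [map_one]; exact B.one_mem⟩
  add_mem' := by
    rintro a b ⟨ha, ha1, ha2⟩ ⟨hb, hb1, hb2⟩
    exact ⟨ha.add hb, B.add_mem _ _ ha1 hb1, by rw [map_add]; exact B.add_mem _ _ ha2 hb2⟩
  zero_mem' := ⟨isAlgebraic_zero, B.zero_mem, by rw [map_zero]; exact B.zero_mem⟩
  neg_mem' := by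
    rintro a ⟨ha, ha1, ha2⟩
    exact ⟨ha.neg, B.neg_mem _ ha1, by rw [map_neg]; exact B.neg_mem _ ha2⟩

/-- The abstract group-theoretic setup. -/
structure Setup (G Θ : Type) [Group G] [CommGroup Θ] where
  K : Subgroup G
  normal : K.Normal
  countK : Countable K
  δ : (ℕ → Θ) →* G
  hdiv : ∀ n : ℕ, 1 ≤ n → ∀ t : Θ, ∃ s : Θ, s ^ n = t
  hG : ∀ g : G, ∃ k ∈ K, ∃ d, g = k * δ d
  hsingle : ∀ n t, δ (Pi.mulSingle n t) ∈ K
  hcomm : ∀ x ∈ K, ∃ n, ∀ d : ℕ → Θ, (∀ i < n, d i = 1) → δ d * x = x * δ d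
  hgen : ∃ S : Set G, Subgroup.closure S = K ∧ ∀ s ∈ S, ∀ n : ℕ, 1 ≤ n → ∃ r ∈ K, r ^ n = s
  hnorm : ∀ N : Subgroup G, N ≤ K → (∀ k ∈ K, ∀ x ∈ N, k * x * k⁻¹ ∈ N) →
    (∃ n1, ∀ n, n1 ≤ n → ∀ t, δ (Pi.mulSingle n t) ∈ N) → N = K
  hC : ∀ L : Subgroup G, L ≤ K → (∃ n0, ∀ n, n0 ≤ n → ∀ t, δ (Pi.mulSingle n t) ∈ L) →
    (∃ k ∈ K, K ≤ Subgroup.closure ((L : Set G) ∪ {k})) → L = K

/-- The subgroup `Θ` of the circle. -/
def ThG (A : Arith) : Subgroup Circle where
  carrier := {z | A.Th (z : ℂ)}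
  mul_mem' := by
    intro a b ha hb
    have := A.Th_mul ha hb
    simpa using this
  one_mem' := by simpa using A.Th_one
  inv_mem' := by
    intro a ha
    have := A.Th_inv ha
    simpa using this

/-- coefficients of the diagonal operator -/
noncomputable def cf {A : Arith} (d : ℕ → ThG A) : ℕ → ℂ
  | 0 => 1
  | n + 1 => ((d n : Circle) : ℂ)

/-- diagonal operator as a function -/
noncomputable def dlf {A : Arith} (d : ℕ → ThG A) (x : E) : E :=
  Finsupp.onFinset x.support (fun n => cf d n * x n) (by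
    intro n hn
    rw [Finsupp.mem_support_iff]
    exact right_ne_zero_of_mul hn)

lemma dlf_apply {A : Arith} (d : ℕ → ThG A) (x : E) (n : ℕ) : dlf d x n = cf d n * x n := rfl

lemma cf_mul {A : Arith} (d d' : ℕ → ThG A) (n : ℕ) : cf (d * d') n = cf d n * cf d' n := by
  cases n <;> simp [cf]

lemma cf_one {A : Arith} (n : ℕ) : cf (1 : ℕ → ThG A) n = 1 := by
  cases n <;> simp [cf]

lemma cf_Th {A : Arith} (d : ℕ → ThG A) (n : ℕ) : A.Th (cf d n) := by
  cases n with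
  | zero => exact Arith.Th_one
  | succ n => exact (d n).2

/-- The diagonal operators: `e 0 ↦ e 0`, `e (n+1) ↦ d n • e (n+1)`. -/
noncomputable def dl (A : Arith) : (ℕ → ThG A) →* (E ≃ₗ[ℂ] E) where
  toFun d :=
    { toFun := dlf d
      map_add' := fun x y => by ext n; simp only [dlf_apply, Finsupp.add_apply]; ring
      map_smul' := fun c x => by
        ext n; simp only [dlf_apply, Finsupp.smul_apply, smul_eq_mul, RingHom.id_apply]; ring
      invFun := dlf d⁻¹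
      left_inv := fun x => by
        ext n; rw [dlf_apply, dlf_apply, ← mul_assoc, ← cf_mul, inv_mul_cancel, cf_one, one_mul]
      right_inv := fun x => by
        ext n; rw [dlf_apply, dlf_apply, ← mul_assoc, ← cf_mul, mul_inv_cancel, cf_one, one_mul] }
  map_one' := by
    ext x n
    show dlf 1 _ n = _
    rw [dlf_apply, cf_one, one_mul]; rfl
  map_mul' := by
    intro d d'
    ext x n
    show dlf (d * d') _ n = dlf d (dlf d' _) n
    rw [dlf_apply, dlf_apply, dlf_apply, cf_mul]; ring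

lemma dl_apply {A : Arith} (d : ℕ → ThG A) (x : E) (n : ℕ) : dl A d x n = cf d n * x n := rfl

/-- The group `G = K · D`. -/
noncomputable def GG (A : Arith) : Subgroup (E ≃ₗ[ℂ] E) := KK A ⊔ (dl A).range

end Pool.Agent.H332R3
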