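import Pool.Agent.H332R3.Defs2

/-!
# Definitions for the invariable generation theorem (MP_078bdc_al)
-/

set_option autoImplicit false

namespace Pool.Agent.H332R3

open scoped ComplexConjugate

/-- Hypothesis (H'): directions `e_j + y ∈ 𝓡` with `y ≡ unit * ϖ_q e_i` modulo `ϖ_q I`. -/
def HP (A : Arith) (L : Subgroup (E ≃ₗ[ℂ] E)) (n0 : ℕ) : Prop :=
  ∀ j, n0 ≤ j → ∀ i, i ≠ j → ∀ q : ℕ, ∃ (y : E) (u : ℂ), y j = 0 ∧
    u ∈ A.O ∧ u⁻¹ ∈ A.O ∧ u ≠ 0 ∧ y i = u * A.w q ∧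
    (∀ n, n ≠ i → ∃ z, A.I z ∧ y n = z * A.w q) ∧ InR A L (e j + y)

end Pool.Agent.H332R3
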