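import Pool.Agent.H332R3.Defs2

set_option autoImplicit false

namespace Pool.Agent.H332R3

open scoped ComplexConjugate

theorem T01_one_notMem (B : ValuationSubring ℂ) : (1 : ℂ) ∉ B.nonunits := by
  rw [ValuationSubring.mem_nonunits_iff_or]
  simp [B.one_mem]

theorem exists_B : ∃ B : ValuationSubring ℂ, (3 : ℂ) ∈ B.nonunits := by
  set A : Subring ℂ := (Int.castRingHom ℂ).range with hA
  have h3 : (3 : ℂ) ∈ A := ⟨3, by simp⟩
  have hI : Ideal.span {(⟨3, h3⟩ : A)} ≠ ⊤ := by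
    intro htop
    have h1 : (1 : A) ∈ Ideal.span {(⟨3, h3⟩ : A)} := by rw [htop]; trivial
    rw [Ideal.mem_span_singleton'] at h1
    obtain ⟨⟨a, n, hn⟩, ha⟩ := h1
    have h2 : a * 3 = 1 := congrArg Subtype.val ha
    rw [← hn] at h2
    have h4 : n * 3 = 1 := by
      have : ((n * 3 : ℤ) : ℂ) = ((1 : ℤ) : ℂ) := by
        push_cast
        simpa using h2
      exact_mod_cast this
    omega
  obtain ⟨B, _, hB⟩ := Ideal.image_subset_nonunits_valuationSubring _ hI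
  exact ⟨B, hB ⟨⟨3, h3⟩, Ideal.subset_span rfl, rfl⟩⟩

theorem two_unit {B : ValuationSubring ℂ} (h3 : (3 : ℂ) ∈ B.nonunits) :
    (1 / 2 : ℂ) ∈ B := by
  by_contra h
  have h2 : (2 : ℂ) ∈ B.nonunits := by
    rw [ValuationSubring.mem_nonunits_iff_or]
    right
    rwa [← one_div]
  have h1 : (3 - 2 : ℂ) ∈ B.nonunits := sub_mem h3 h2
  norm_num at h1
  exact T01_one_notMem B h1

theorem T01_conj_alg {x : ℂ} (hx : IsAlgebraic ℚ x) : IsAlgebraic ℚ (conj x) := by
  have := hx.algHom ((starRingEnd ℂ).toRatAlgHom)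
  simpa using this

theorem OB_conj (B : ValuationSubring ℂ) : ∀ x ∈ OB B, conj x ∈ OB B := by
  rintro x ⟨h1, h2, h3⟩
  exact ⟨T01_conj_alg h1, h3, by rw [Complex.conj_conj]; exact h2⟩

theorem T01_pow_mem (B : ValuationSubring ℂ) {x : ℂ} {n : ℕ} (hn : 1 ≤ n) (h : x ^ n ∈ B) :
    x ∈ B := by
  rcases B.mem_or_inv_mem x with h1 | h1
  · exact h1
  · by_cases hx : x = 0
    · rw [hx]; exact B.zero_mem
    · have : x = x ^ n * (x⁻¹) ^ (n - 1) := by
        obtain ⟨m, rfl⟩ := Nat.exists_eq_add_of_le hn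
        rw [add_comm, Nat.add_sub_cancel, pow_succ, inv_pow]
        field_simp
      rw [this]
      exact B.mul_mem _ _ h (pow_mem h1 _)

theorem OB_I (B : ValuationSubring ℂ) : Complex.I ∈ OB B := by
  have h1 : Complex.I ∈ B := by
    refine T01_pow_mem B (n := 2) (by norm_num) ?_
    rw [Complex.I_sq]
    exact B.neg_mem _ B.one_mem
  refine ⟨?_, h1, ?_⟩
  · refine IsAlgebraic.of_pow (n := 2) (by norm_num) ?_
    rw [Complex.I_sq]
    exact isAlgebraic_one.neg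
  · rw [Complex.conj_I]
    exact B.neg_mem _ h1

theorem OB_half {B : ValuationSubring ℂ} (h3 : (3 : ℂ) ∈ B.nonunits) : (1 / 2 : ℂ) ∈ OB B := by
  refine ⟨?_, two_unit h3, ?_⟩
  · have : (1 / 2 : ℂ) = algebraMap ℚ ℂ (1 / 2) := by simp
    rw [this]
    exact isAlgebraic_algebraMap _
  · have : conj (1 / 2 : ℂ) = 1 / 2 := by
      rw [map_div₀, map_one, map_ofNat]
    rw [this]
    exact two_unit h3

theorem OB_countable (B : ValuationSubring ℂ) : (OB B : Set ℂ).Countable := by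
  refine (Algebraic.countable ℚ ℂ).mono ?_
  rintro x ⟨h1, _⟩
  exact h1

theorem w3_gt (k : ℕ) : 1 < w3 k := by
  induction k with
  | zero => norm_num [w3]
  | succ k ih =>
    rw [w3, Real.lt_sqrt (by norm_num)]
    simpa using ih

theorem w3_le (k : ℕ) : w3 k ≤ 3 := by
  induction k with
  | zero => norm_num [w3]
  | succ k ih =>
    rw [w3, Real.sqrt_le_left (by norm_num)]
    linarith

theorem w3_sq (k : ℕ) : w3 (k + 1) ^ 2 = w3 k := by
  rw [w3, Real.sq_sqrt (by linarith [w3_gt k])]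

theorem T01_real_OB (B : ValuationSubring ℂ) {x : ℝ} (h1 : IsAlgebraic ℚ (x : ℂ))
    (h2 : (x : ℂ) ∈ B) : (x : ℂ) ∈ OB B :=
  ⟨h1, h2, by rw [Complex.conj_ofReal]; exact h2⟩

theorem OB_sqrt (B : ValuationSubring ℂ) : ∀ x : ℝ, 0 ≤ x → (x : ℂ) ∈ OB B →
    ((Real.sqrt x : ℝ) : ℂ) ∈ OB B := by
  intro x hx hxB
  have hsq : (((Real.sqrt x : ℝ) : ℂ)) ^ 2 = (x : ℂ) := by
    rw [← Complex.ofReal_pow, Real.sq_sqrt hx]
  refine T01_real_OB B ?_ ?_
  · refine IsAlgebraic.of_pow (n := 2) (by norm_num) ?_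
    rw [hsq]; exact hxB.1
  · refine T01_pow_mem B (n := 2) (by norm_num) ?_
    rw [hsq]; exact hxB.2.1

theorem OB_w3 (B : ValuationSubring ℂ) (k : ℕ) : (w3 k : ℂ) ∈ OB B := by
  induction k with
  | zero =>
    have : ((w3 0 : ℝ) : ℂ) = ((3 : ℕ) : ℂ) := by norm_num [w3]
    rw [this]
    exact natCast_mem (OB B) 3
  | succ k ih =>
    rw [w3]
    exact OB_sqrt B _ (by linarith [w3_gt k]) ih

theorem T01_w3_nonunit {B : ValuationSubring ℂ} (h3 : (3 : ℂ) ∈ B.nonunits) (k : ℕ) :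
    (w3 k : ℂ) ∈ B.nonunits := by
  induction k with
  | zero =>
    have : ((w3 0 : ℝ) : ℂ) = 3 := by norm_num [w3]
    rw [this]
    exact h3
  | succ k ih =>
    rw [ValuationSubring.mem_nonunits_iff_or] at ih ⊢
    right
    intro h
    have hpos := w3_gt k
    rcases ih with h0 | h0
    · have : w3 k = 0 := by exact_mod_cast h0
      linarith
    · apply h0
      rw [← w3_sq k, Complex.ofReal_pow, ← inv_pow]
      exact pow_mem h 2

theorem T01_mul_nonunit {B : ValuationSubring ℂ} {a b : ℂ} (ha : a ∈ B.nonunits) (hb : b ∈ B) :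
    a * b ∈ B.nonunits := by
  rw [ValuationSubring.mem_nonunits_iff] at ha ⊢
  rw [map_mul]
  have hb' : B.valuation b ≤ 1 := (B.valuation_le_one_iff _).mpr hb
  calc B.valuation a * B.valuation b ≤ B.valuation a * 1 := by gcongr
    _ < 1 := by rwa [mul_one]

theorem T01_unit {B : ValuationSubring ℂ} {z : ℂ} (hz : z ∈ B.nonunits) :
    1 + z ≠ 0 ∧ (1 + z)⁻¹ ∈ B := by
  have h1 : (1 + z) ∉ B.nonunits := by
    intro h
    have := sub_mem h hz
    rw [add_sub_cancel_right] at this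
    exact T01_one_notMem B this
  rw [ValuationSubring.mem_nonunits_iff_or] at h1
  push Not at h1
  exact h1

theorem OB_unit {B : ValuationSubring ℂ} (h3 : (3 : ℂ) ∈ B.nonunits) (k : ℕ) :
    ∀ x ∈ OB B, ∃ y ∈ OB B, (1 + (w3 k : ℂ) * x) * y = 1 := by
  rintro x hx
  obtain ⟨hx1, hx2, hx3⟩ := id hx
  obtain ⟨a1, a2⟩ := T01_unit (T01_mul_nonunit (T01_w3_nonunit h3 k) hx2)
  obtain ⟨b1, b2⟩ := T01_unit (T01_mul_nonunit (T01_w3_nonunit h3 k) hx3)
  refine ⟨(1 + (w3 k : ℂ) * x)⁻¹, ⟨?_, a2, ?_⟩, mul_inv_cancel₀ a1⟩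
  · exact (isAlgebraic_one.add ((OB_w3 B k).1.mul hx1)).inv
  · rw [map_inv₀, map_add, map_one, map_mul, Complex.conj_ofReal]
    exact b2

end Pool.Agent.H332R3
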