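import Pool.Agent.H332R3.Defs2

set_option autoImplicit false

namespace Pool.Agent.H332R3

open scoped ComplexConjugate

theorem ball_on_orth
    (hpos : ∀ {w x : E}, (h w w).re < 0 → h x w = 0 → 0 ≤ (h x x).re ∧ ((h x x).re = 0 → x = 0))
    (hball : ∀ {V : Type} [NormedAddCommGroup V] [InnerProductSpace ℂ V] (u v w : V),
      ‖u‖ ≤ 1 → ‖v‖ ≤ 1 → ‖w‖ ≤ 1 →
      Real.sqrt ‖1 - inner ℂ u w‖ ≤ Real.sqrt ‖1 - inner ℂ u v‖ + Real.sqrt ‖1 - inner ℂ v w‖)
    {w : E} (hw : (h w w).re < 0) (a b c : E) (ha : h a w = 0) (hb : h b w = 0) (hc : h c w = 0)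
    (na : (h a a).re ≤ 1) (nb : (h b b).re ≤ 1) (nc : (h c c).re ≤ 1) :
    Real.sqrt ‖1 - h c a‖ ≤ Real.sqrt ‖1 - h b a‖ + Real.sqrt ‖1 - h c b‖ := by
  let W : Submodule ℂ E :=
    { carrier := {v | h v w = 0}
      add_mem' := by
        intro x y hx hy
        simp only [Set.mem_ofPred_eq] at hx hy ⊢
        rw [h_add_left, hx, hy, add_zero]
      zero_mem' := by simp
      smul_mem' := by
        intro r x hx
        simp only [Set.mem_ofPred_eq] at hx ⊢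
        rw [h_smul_left, hx, mul_zero] }
  let core : InnerProductSpace.Core ℂ W :=
    { inner := fun x y => h (y : E) (x : E)
      conj_inner_symm := fun x y => (h_symm _ _).symm
      re_inner_nonneg := fun x => (hpos hw x.2).1
      add_left := fun x y z => h_add_right _ _ _
      smul_left := fun x y r => h_smul_right _ _ _
      definite := fun x hx => Subtype.ext ((hpos hw x.2).2 (by
        have : h (x : E) (x : E) = 0 := hx
        rw [this]; rfl)) }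
  letI : NormedAddCommGroup W := core.toNormedAddCommGroup
  letI : InnerProductSpace ℂ W := InnerProductSpace.ofCore core.toCore
  have hn : ∀ x : W, (h (x : E) (x : E)).re ≤ 1 → ‖x‖ ≤ 1 := by
    intro x hx
    have h1 : ‖x‖ ^ 2 = (h (x : E) (x : E)).re := by
      have := norm_sq_eq_re_inner (𝕜 := ℂ) x
      exact this
    have h2 : ‖x‖ ^ 2 ≤ 1 := by rw [h1]; exact hx
    have := norm_nonneg x
    nlinarith
  exact hball (V := W) ⟨a, ha⟩ ⟨b, hb⟩ ⟨c, hc⟩ (hn ⟨a, ha⟩ na) (hn ⟨b, hb⟩ nb) (hn ⟨c, hc⟩ nc) |>.trans (by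
    exact le_refl _)

theorem four_point_mul
    (hpos : ∀ {w x : E}, (h w w).re < 0 → h x w = 0 → 0 ≤ (h x x).re ∧ ((h x x).re = 0 → x = 0))
    (hball : ∀ {V : Type} [NormedAddCommGroup V] [InnerProductSpace ℂ V] (u v w : V),
      ‖u‖ ≤ 1 → ‖v‖ ≤ 1 → ‖w‖ ≤ 1 →
      Real.sqrt ‖1 - inner ℂ u w‖ ≤ Real.sqrt ‖1 - inner ℂ u v‖ + Real.sqrt ‖1 - inner ℂ v w‖)
    {w x y z : E} (hw : h w w = -1) (hx : h x x = -1) (hy : h y y = -1)
    (hz : h z z = -1) :
    Real.sqrt (‖h x z‖ * ‖h y w‖) ≤ Real.sqrt (‖h x y‖ * ‖h z w‖) + Real.sqrt (‖h y z‖ * ‖h x w‖) := by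
  have hw' : (h w w).re < 0 := by rw [hw]; norm_num
  have hne : ∀ v : E, h v v = -1 → h v w ≠ 0 := by
    intro v hv h0
    have := (hpos hw' h0).1
    rw [hv] at this
    norm_num at this
  -- normalised vectors
  have hdec : ∀ v : E, h v v = -1 → ∃ u : E, h u w = 0 ∧ (h u u).re ≤ 1 ∧
      v = (-(h v w)) • (w + u) := by
    intro v hv
    have h0 := hne v hv
    refine ⟨(-(h v w))⁻¹ • v - w, ?_, ?_, ?_⟩
    · rw [h_sub_left, h_smul_left, hw]
      field_simp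
      ring
    · have e1 : h ((-(h v w))⁻¹ • v - w) ((-(h v w))⁻¹ • v - w)
          = 1 - (((‖h v w‖ ^ 2)⁻¹ : ℝ) : ℂ) := by
        rw [h_sub_left, h_sub_right, h_sub_right, h_smul_left, h_smul_left, h_smul_right, h_smul_right,
          hv, hw]
        have e2 : h w v = conj (h v w) := h_symm v w
        have e3 : ((‖h v w‖ ^ 2 : ℝ) : ℂ) = h v w * conj (h v w) := by
          rw [Complex.mul_conj, Complex.normSq_eq_norm_sq]
        have h0' : conj (h v w) ≠ 0 := by simpa using h0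
        rw [Complex.ofReal_inv, e3, e2, map_inv₀, map_neg]
        field_simp
        ring
      rw [e1]
      simp only [Complex.sub_re, Complex.one_re, Complex.ofReal_re]
      have : 0 ≤ (‖h v w‖ ^ 2)⁻¹ := by positivity
      linarith
    · rw [add_sub_cancel, smul_smul, mul_inv_cancel₀ (neg_ne_zero.mpr h0), one_smul]
  obtain ⟨ux, hux, nux, ex⟩ := hdec x hx
  obtain ⟨uy, huy, nuy, ey⟩ := hdec y hy
  obtain ⟨uz, huz, nuz, ez⟩ := hdec z hz
  have hform : ∀ (v v' u u' : E), h u w = 0 → h u' w = 0 → v = (-(h v w)) • (w + u) →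
      v' = (-(h v' w)) • (w + u') → ‖h v v'‖ = ‖h v w‖ * ‖h v' w‖ * ‖1 - h u u'‖ := by
    intro v v' u u' hu hu' hv hv'
    have e0 : h w u' = 0 := by rw [h_symm u' w, hu', map_zero]
    have e1 : h v v' = (-(h v w)) * (conj (-(h v' w)) * (-1 + h u u')) := by
      conv_lhs => rw [hv, hv']
      rw [h_smul_left, h_smul_right, h_add_left, h_add_right, h_add_right, hw, hu, e0]
      ring
    have e2 : (-1 + h u u') = -(1 - h u u') := by ring
    rw [e1, norm_mul, norm_mul, norm_neg, Complex.norm_conj, norm_neg, e2, norm_neg]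
    ring
  have key := ball_on_orth hpos hball hw' uz uy ux huz huy hux nuz nuy nux
  rw [hform x z ux uz hux huz ex ez, hform x y ux uy hux huy ex ey, hform y z uy uz huy huz ey ez]
  have hP : 0 ≤ ‖h x w‖ * ‖h y w‖ * ‖h z w‖ := by positivity
  have e1 : ‖h x w‖ * ‖h z w‖ * ‖1 - h ux uz‖ * ‖h y w‖ = (‖h x w‖ * ‖h y w‖ * ‖h z w‖) * ‖1 - h ux uz‖ := by ring
  have e2 : ‖h x w‖ * ‖h y w‖ * ‖1 - h ux uy‖ * ‖h z w‖ = (‖h x w‖ * ‖h y w‖ * ‖h z w‖) * ‖1 - h ux uy‖ := by ring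
  have e3 : ‖h y w‖ * ‖h z w‖ * ‖1 - h uy uz‖ * ‖h x w‖ = (‖h x w‖ * ‖h y w‖ * ‖h z w‖) * ‖1 - h uy uz‖ := by ring
  rw [e1, e2, e3, Real.sqrt_mul hP, Real.sqrt_mul hP, Real.sqrt_mul hP, ← mul_add]
  apply mul_le_mul_of_nonneg_left _ (Real.sqrt_nonneg _)
  linarith

end Pool.Agent.H332R3
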