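import Pool.Agent.H332R3.Defs2

set_option autoImplicit false

namespace Pool.Agent.H332R3

open scoped ComplexConjugate

/-- the unimodular multiplier -/
noncomputable def T15_lam : ℂ := ⟨-2047 / 2048, 3 * Real.sqrt 455 / 2048⟩

lemma T15_sq : Real.sqrt 455 * Real.sqrt 455 = 455 := Real.mul_self_sqrt (by norm_num)

lemma T15_norm : ‖T15_lam‖ = 1 := by
  have h1 : Complex.normSq T15_lam = 1 := by
    rw [Complex.normSq_apply]
    show -2047 / 2048 * (-2047 / 2048) + 3 * Real.sqrt 455 / 2048 * (3 * Real.sqrt 455 / 2048) = (1 : ℝ)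
    have := T15_sq
    nlinarith
  rw [Complex.normSq_eq_norm_sq] at h1
  have h2 : 0 ≤ ‖T15_lam‖ := norm_nonneg _
  nlinarith

lemma T15_mul_conj : T15_lam * conj T15_lam = 1 := by
  rw [Complex.mul_conj, Complex.normSq_eq_norm_sq, T15_norm]; simp

lemma T15_add_conj : T15_lam + conj T15_lam = -2047 / 1024 := by
  apply Complex.ext
  · simp [T15_lam]; norm_num
  · simp [T15_lam]

lemma T15_Th (A : Arith) : A.Th T15_lam := by
  refine ⟨T15_norm, 0, (-1365 + Complex.I * ((Real.sqrt 455 : ℝ) : ℂ)) * (1 / 2) ^ 11, ?_, ?_⟩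
  · refine A.O.mul_mem (A.O.add_mem (A.O.neg_mem ?_) (A.O.mul_mem A.I_mem ?_)) (A.O.pow_mem A.half_mem _)
    · exact_mod_cast natCast_mem A.O 1365
    · apply A.sqrt_mem 455 (by norm_num)
      exact_mod_cast natCast_mem A.O 455
  · rw [A.w_zero]
    apply Complex.ext
    · simp [T15_lam, pow_succ]; norm_num
    · simp [T15_lam, pow_succ]; ring

/-- the matrix -/
noncomputable def T15_X : Matrix.SpecialLinearGroup (Fin 2) ℂ :=
  ⟨!![1 - (T15_lam - 1) * (9 / 55), conj T15_lam * (T15_lam - 1) * (24 / 55);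
      -((T15_lam - 1) * (24 / 55)), conj T15_lam * (1 + (T15_lam - 1) * (64 / 55))], by
    rw [Matrix.det_fin_two_of]
    linear_combination T15_mul_conj⟩

/-- `X` describes the action of `g` on the span of `e 0`, `e j` -/
def T15_Rep (j : ℕ) (g : E ≃ₗ[ℂ] E) (X : Matrix.SpecialLinearGroup (Fin 2) ℂ) : Prop :=
  g (e 0) = X.1 0 0 • e 0 + X.1 1 0 • e j ∧ g (e j) = X.1 0 1 • e 0 + X.1 1 1 • e j

lemma T15_mul {j : ℕ} {g g' : E ≃ₗ[ℂ] E} {X X' : Matrix.SpecialLinearGroup (Fin 2) ℂ}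
    (h1 : T15_Rep j g X) (h2 : T15_Rep j g' X') : T15_Rep j (g * g') (X * X') := by
  constructor
  · rw [LinearEquiv.mul_apply, h2.1, map_add, map_smul, map_smul, h1.1, h1.2]
    simp only [Matrix.SpecialLinearGroup.coe_mul, Matrix.mul_apply, Fin.sum_univ_two]
    module
  · rw [LinearEquiv.mul_apply, h2.2, map_add, map_smul, map_smul, h1.1, h1.2]
    simp only [Matrix.SpecialLinearGroup.coe_mul, Matrix.mul_apply, Fin.sum_univ_two]
    module

lemma T15_one (j : ℕ) : T15_Rep j 1 1 := by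
  constructor
  · simp
  · simp

lemma T15_inv {j : ℕ} {g : E ≃ₗ[ℂ] E} {X : Matrix.SpecialLinearGroup (Fin 2) ℂ}
    (h1 : T15_Rep j g X) : T15_Rep j g⁻¹ X⁻¹ := by
  have hdet : X.1 0 0 * X.1 1 1 - X.1 0 1 * X.1 1 0 = 1 := by
    have := X.2
    rwa [Matrix.det_fin_two] at this
  have hg : ∀ z, g⁻¹ (g z) = z := fun z => by
    rw [← LinearEquiv.mul_apply]; simp
  have e00 : (X⁻¹).1 0 0 = X.1 1 1 := by simp [Matrix.SpecialLinearGroup.coe_inv, Matrix.adjugate_fin_two]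
  have e10 : (X⁻¹).1 1 0 = - X.1 1 0 := by simp [Matrix.SpecialLinearGroup.coe_inv, Matrix.adjugate_fin_two]
  have e01 : (X⁻¹).1 0 1 = - X.1 0 1 := by simp [Matrix.SpecialLinearGroup.coe_inv, Matrix.adjugate_fin_two]
  have e11 : (X⁻¹).1 1 1 = X.1 0 0 := by simp [Matrix.SpecialLinearGroup.coe_inv, Matrix.adjugate_fin_two]
  constructor
  · rw [e00, e10]
    have : e 0 = g (X.1 1 1 • e 0 + (- X.1 1 0) • e j) := by
      rw [map_add, map_smul, map_smul, h1.1, h1.2]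
      have h2 : X.1 1 1 • (X.1 0 0 • e 0 + X.1 1 0 • e j) + (-X.1 1 0) • (X.1 0 1 • e 0 + X.1 1 1 • e j)
          = (X.1 0 0 * X.1 1 1 - X.1 0 1 * X.1 1 0) • e 0 := by module
      rw [h2, hdet, one_smul]
    conv_lhs => rw [this]
    rw [hg]
  · rw [e01, e11]
    have : e j = g ((- X.1 0 1) • e 0 + X.1 0 0 • e j) := by
      rw [map_add, map_smul, map_smul, h1.1, h1.2]
      have h2 : (-X.1 0 1) • (X.1 0 0 • e 0 + X.1 1 0 • e j) + X.1 0 0 • (X.1 0 1 • e 0 + X.1 1 1 • e j)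
          = (X.1 0 0 * X.1 1 1 - X.1 0 1 * X.1 1 0) • e j := by module
      rw [h2, hdet, one_smul]
    conv_lhs => rw [this]
    rw [hg]

lemma T15_pow {j : ℕ} {g : E ≃ₗ[ℂ] E} {X : Matrix.SpecialLinearGroup (Fin 2) ℂ}
    (h1 : T15_Rep j g X) (n : ℕ) : T15_Rep j (g ^ n) (X ^ n) := by
  induction n with
  | zero => rw [pow_zero, pow_zero]; exact T15_one j
  | succ n ih => rw [pow_succ, pow_succ]; exact T15_mul ih h1

lemma T15_zpow {j : ℕ} {g : E ≃ₗ[ℂ] E} {X : Matrix.SpecialLinearGroup (Fin 2) ℂ}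
    (h1 : T15_Rep j g X) (n : ℤ) : T15_Rep j (g ^ n) (X ^ n) := by
  cases n with
  | ofNat n => simpa using T15_pow h1 n
  | negSucc n =>
    rw [zpow_negSucc, zpow_negSucc]
    exact T15_inv (T15_pow h1 _)

lemma T15_conj38 : (starRingEnd ℂ) (3 / 8 : ℂ) = 3 / 8 := by
  rw [map_div₀]
  congr 1
  · exact map_ofNat _ 3
  · exact map_ofNat _ 8

lemma T15_hv (j : ℕ) (hj : 1 ≤ j) : h (e j + (3 / 8 : ℂ) • e 0) (e j + (3 / 8 : ℂ) • e 0) = 55 / 64 := by
  have hj0 : j ≠ 0 := by omega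
  rw [h_add_left, h_add_right, h_add_right, h_smul_left, h_smul_left, h_smul_right, h_smul_right,
    h_e_self, h_e_self, h_e_e hj0, h_e_e (Ne.symm hj0)]
  have hc : (starRingEnd ℂ) (3 / 8 : ℂ) = 3 / 8 := T15_conj38
  rw [hc]
  simp only [sg, hj0, if_true, if_false]
  push_cast
  norm_num

/-- the element `g` -/
noncomputable def T15_g (j : ℕ) : E ≃ₗ[ℂ] E :=
  R (e j + (3 / 8 : ℂ) • e 0) T15_lam * R (e j) (conj T15_lam)

lemma T15_hj (j : ℕ) (hj : 1 ≤ j) : h (e j) (e j) = 1 := by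
  have hj0 : j ≠ 0 := by omega
  simp [sg, hj0]

lemma T15_lam0 : T15_lam ≠ 0 := by
  intro h0
  have := T15_norm
  rw [h0, norm_zero] at this
  exact zero_ne_one this

lemma T15_lam0' : conj T15_lam ≠ 0 := by simpa using T15_lam0

lemma T15_mem (A : Arith) (j : ℕ) (hj : 1 ≤ j) : T15_g j ∈ KK A := by
  apply (KK A).mul_mem
  · apply Subgroup.subset_closure
    refine ⟨j, 0, 3 / 8, T15_lam, hj, by omega, ?_, ?_, T15_Th A, fun x => ?_⟩
    · refine ⟨0, (1 / 2) ^ 3, A.O.pow_mem A.half_mem _, ?_⟩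
      rw [A.w_zero]; push_cast; norm_num
    · norm_num
    · rw [R_apply _ T15_lam0]
      rw [T15_hv j hj]; norm_num
  · apply Subgroup.subset_closure
    refine ⟨j, 0, 0, conj T15_lam, hj, by omega, A.I_zero, by norm_num, A.Th_conj (T15_Th A), fun x => ?_⟩
    rw [zero_smul, add_zero, R_apply _ T15_lam0']
    rw [T15_hj j hj]; norm_num

lemma T15_rep (j : ℕ) (hj : 1 ≤ j) : T15_Rep j (T15_g j) T15_X := by
  have hj0 : j ≠ 0 := by omega
  have hv := T15_hv j hj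
  have hv0 : h (e j + (3 / 8 : ℂ) • e 0) (e j + (3 / 8 : ℂ) • e 0) ≠ 0 := by rw [hv]; norm_num
  have hw0 : h (e j) (e j) ≠ 0 := by rw [T15_hj j hj]; norm_num
  have h1 : h (e 0) (e j + (3 / 8 : ℂ) • e 0) = -(3 / 8) := by
    rw [h_add_right, h_smul_right, h_e_self, h_e_e (Ne.symm hj0), T15_conj38]
    simp [sg]
  have h2 : h (e j) (e j + (3 / 8 : ℂ) • e 0) = 1 := by
    rw [h_add_right, h_smul_right, T15_hj j hj, h_e_e hj0]
    simp
  constructor
  · show (R _ _ * R _ _) (e 0) = _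
    rw [LinearEquiv.mul_apply, R_apply hw0 T15_lam0', Rf_orth _ (h_e_e (Ne.symm hj0)),
      R_apply hv0 T15_lam0, Rf_apply, hv, h1]
    simp only [T15_X, Matrix.of_apply, Matrix.cons_val', Matrix.cons_val_zero, Matrix.cons_val_one,
      Matrix.cons_val_fin_one]
    module
  · show (R _ _ * R _ _) (e j) = _
    rw [LinearEquiv.mul_apply, R_apply hw0 T15_lam0', Rf_self hw0, map_smul,
      R_apply hv0 T15_lam0, Rf_apply, hv, h2]
    simp only [T15_X, Matrix.of_apply, Matrix.cons_val', Matrix.cons_val_zero, Matrix.cons_val_one,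
      Matrix.cons_val_fin_one]
    module

/-- `T / 2` -/
noncomputable def T15_c : ℝ := 29899 / 22528

lemma T15_tr : T15_X.1 + (T15_X⁻¹).1 = ((2 * T15_c : ℝ) : ℂ) • (1 : Matrix (Fin 2) (Fin 2) ℂ) := by
  have key : 1 - (T15_lam - 1) * (9 / 55) + conj T15_lam * (1 + (T15_lam - 1) * (64 / 55)) =
      ((2 * T15_c : ℝ) : ℂ) := by
    have h1 := T15_mul_conj
    have h2 := T15_add_conj
    unfold T15_c
    push_cast
    linear_combination (64 / 55) * h1 - (9 / 55) * h2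
  rw [Matrix.SpecialLinearGroup.coe_inv, Matrix.adjugate_fin_two]
  ext i k
  fin_cases i <;> fin_cases k
  · simpa [T15_X] using key
  · simp [T15_X]
  · simp [T15_X]
  · have key' := key
    rw [add_comm] at key'
    simpa [T15_X] using key'

lemma T15_rec (n : ℤ) : ((T15_X ^ (n + 1)).1 0 0).re + ((T15_X ^ (n - 1)).1 0 0).re =
    2 * T15_c * ((T15_X ^ n).1 0 0).re := by
  have h1 : (T15_X ^ (n + 1)).1 + (T15_X ^ (n - 1)).1 = ((2 * T15_c : ℝ) : ℂ) • (T15_X ^ n).1 := by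
    rw [zpow_add_one, zpow_sub_one, Matrix.SpecialLinearGroup.coe_mul,
      Matrix.SpecialLinearGroup.coe_mul, ← mul_add, T15_tr, mul_smul_comm, mul_one]
  have h2 := congrFun (congrFun h1 0) 0
  have h3 := congrArg Complex.re h2
  simpa using h3

lemma T15_r1 : ((T15_X ^ (1 : ℤ)).1 0 0).re = T15_c := by
  rw [zpow_one]
  simp only [T15_X, Matrix.of_apply, Matrix.cons_val', Matrix.cons_val_zero,
      Matrix.cons_val_fin_one]
  simp [T15_lam, T15_c]
  norm_num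

lemma T15_cosh (η : ℝ) (hη : Real.cosh η = T15_c) (n : ℤ) :
    ((T15_X ^ n).1 0 0).re = Real.cosh (n * η) ∧
    ((T15_X ^ (n + 1)).1 0 0).re = Real.cosh ((n + 1 : ℤ) * η) := by
  have hc : ∀ m : ℝ, Real.cosh ((m + 1) * η) + Real.cosh ((m - 1) * η) = 2 * T15_c * Real.cosh (m * η) := by
    intro m
    have e1 : (m + 1) * η = m * η + η := by ring
    have e2 : (m - 1) * η = m * η - η := by ring
    rw [e1, e2, Real.cosh_add, Real.cosh_sub, hη]
    ring
  induction n using Int.induction_on with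
  | zero =>
    constructor
    · simp
    · rw [zero_add, T15_r1]; simp [hη]
  | succ n ih =>
    refine ⟨ih.2, ?_⟩
    have h1 := T15_rec (n + 1)
    have h2 := hc ((n : ℤ) + 1 : ℤ)
    rw [show ((n : ℤ) + 1 - 1) = (n : ℤ) by ring, ih.1, ih.2] at h1
    rw [← h2] at h1
    push_cast at h1 h2 ⊢
    have e1 : ((n : ℝ) + 1 - 1) * η = n * η := by ring
    rw [e1] at h1
    linarith
  | pred n ih =>
    have h1 := T15_rec (-(n : ℤ))
    have h2 := hc (-(n : ℤ) : ℤ)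
    rw [ih.1, ih.2, ← h2] at h1
    constructor
    · push_cast at h1 h2 ⊢
      linarith
    · rw [show (-(n : ℤ) - 1 + 1) = -(n : ℤ) by ring]
      exact ih.1

lemma T15_eta : ∃ η : ℝ, 0 < η ∧ Real.cosh η = T15_c := by
  have hc1 : (1 : ℝ) < T15_c := by unfold T15_c; norm_num
  set s := Real.sqrt (T15_c ^ 2 - 1) with hs
  have hs2 : s ^ 2 = T15_c ^ 2 - 1 := Real.sq_sqrt (by nlinarith)
  have hs0 : 0 ≤ s := Real.sqrt_nonneg _
  refine ⟨Real.log (T15_c + s), Real.log_pos (by linarith), ?_⟩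
  rw [Real.cosh_log (by linarith)]
  have h1 : (T15_c + s)⁻¹ = T15_c - s := by
    apply inv_eq_of_mul_eq_one_right
    nlinarith
  rw [h1]; ring

theorem gen_type (A : Arith) : ∃ g ∈ KK A, ∃ g' ∈ KK A, ∃ η : ℝ, 0 < η ∧
    ∃ a b a' b' : ℤ → ℂ, ∀ n : ℤ,
      (g ^ n : E ≃ₗ[ℂ] E) (e 0) = a n • e 0 + b n • e 1 ∧
      (g' ^ n : E ≃ₗ[ℂ] E) (e 0) = a' n • e 0 + b' n • e 2 ∧
      Real.cosh (n * η) ≤ ‖a n‖ ∧ Real.cosh (n * η) ≤ ‖a' n‖ := by
  obtain ⟨η, hη, hηc⟩ := T15_eta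
  refine ⟨T15_g 1, T15_mem A 1 le_rfl, T15_g 2, T15_mem A 2 (by norm_num), η, hη,
    fun n => (T15_X ^ n).1 0 0, fun n => (T15_X ^ n).1 1 0, fun n => (T15_X ^ n).1 0 0,
    fun n => (T15_X ^ n).1 1 0, fun n => ⟨?_, ?_, ?_, ?_⟩⟩
  · exact (T15_zpow (T15_rep 1 le_rfl) n).1
  · exact (T15_zpow (T15_rep 2 (by norm_num)) n).1
  · rw [← (T15_cosh η hηc n).1]; exact Complex.re_le_norm _
  · rw [← (T15_cosh η hηc n).1]; exact Complex.re_le_norm _

end Pool.Agent.H332R3
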