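import Pool.Agent.H332R3.Defs2

set_option autoImplicit false

namespace Pool.Agent.H332R3

open scoped ComplexConjugate

/-- Negative unit vectors. -/
abbrev T14_X : Type := {x : E // h x x = -1}

lemma T14_norm_symm (x y : E) : ‖h y x‖ = ‖h x y‖ := by
  rw [h_symm x y, RCLike.norm_conj]

/-- The vector `γ t` on the geodesic. -/
noncomputable def T14_vec (D : ℝ) (x y : E) (t : ℝ) : E :=
  ((Real.sinh (D - t) / Real.sinh D : ℝ) : ℂ) • x + ((Real.sinh t / Real.sinh D : ℝ) : ℂ) • y

lemma T14_vec_h {D : ℝ} (hD : 0 < D) {x y : E} (hx : h x x = -1) (hy : h y y = -1)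
    (hxy : h x y = -((Real.cosh D : ℝ) : ℂ)) (s t : ℝ) :
    h (T14_vec D x y s) (T14_vec D x y t) = -((Real.cosh (s - t) : ℝ) : ℂ) := by
  have hyx : h y x = -((Real.cosh D : ℝ) : ℂ) := by
    rw [h_symm x y, hxy, map_neg, Complex.conj_ofReal]
  unfold T14_vec
  simp only [h_add_left, h_add_right, h_smul_left, h_smul_right, Complex.conj_ofReal, hx, hy, hxy,
    hyx]
  have hs : Real.sinh D ≠ 0 := (Real.sinh_pos_iff.2 hD).ne'
  have key : (Real.sinh (D - s) / Real.sinh D) * ((Real.sinh (D - t) / Real.sinh D) * (-1)) +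
      (Real.sinh s / Real.sinh D) * ((Real.sinh (D - t) / Real.sinh D) * (-Real.cosh D)) +
      ((Real.sinh (D - s) / Real.sinh D) * ((Real.sinh t / Real.sinh D) * (-Real.cosh D)) +
      (Real.sinh s / Real.sinh D) * ((Real.sinh t / Real.sinh D) * (-1))) =
      - Real.cosh (s - t) := by
    field_simp
    rw [Real.sinh_sub, Real.sinh_sub, Real.cosh_sub]
    have h1 := Real.cosh_sq D
    have h2 := Real.cosh_sq s
    have h3 := Real.cosh_sq t
    have h4 : Real.sinh D ^ 2 = Real.cosh D ^ 2 - 1 := by rw [h1]; ring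
    ring_nf
    rw [h4]
    ring_nf
  have key' := congrArg (fun r : ℝ => (r : ℂ)) key
  push_cast at key' ⊢
  linear_combination key'

theorem hyp_space
    (hneg : ∀ {x y : E}, h x x = -1 → h y y = -1 →
      1 ≤ ‖h x y‖ ∧ (‖h x y‖ = 1 → ∃ c : ℂ, ‖c‖ = 1 ∧ x = c • y))
    (htri : ∀ {x y z : E}, h x x = -1 → h y y = -1 → h z z = -1 →
      Real.arcosh ‖h x z‖ ≤ Real.arcosh ‖h x y‖ + Real.arcosh ‖h y z‖)
    (hfour : ∀ {w x y z : E}, h w w = -1 → h x x = -1 → h y y = -1 → h z z = -1 →
      Real.sqrt (‖h x z‖ * ‖h y w‖) ≤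
        Real.sqrt (‖h x y‖ * ‖h z w‖) + Real.sqrt (‖h y z‖ * ‖h x w‖)) :
    ∃ (S : Type) (_ : MetricSpace S),
      (∀ x y : S, ∃ γ : ℝ → S, γ 0 = x ∧ γ (dist x y) = y ∧
          ∀ s ∈ Set.Icc (0:ℝ) (dist x y), ∀ t ∈ Set.Icc (0:ℝ) (dist x y),
            dist (γ s) (γ t) = |s - t|) ∧
      (∃ δ : ℝ, ∀ x y z w : S,
          min ((dist w x + dist w y - dist x y) / 2) ((dist w y + dist w z - dist y z) / 2) - δ
            ≤ (dist w x + dist w z - dist x z) / 2) ∧
      ∃ (φ : U →* (S ≃ᵢ S)) (o : S), ∀ g g' : U,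
        dist (φ g o) (φ g' o) = Real.arcosh ‖h ((g : E ≃ₗ[ℂ] E) (e 0)) ((g' : E ≃ₗ[ℂ] E) (e 0))‖ := by
  classical
  let inst : PseudoMetricSpace T14_X :=
    { dist := fun x y => Real.arcosh ‖h x.1 y.1‖
      dist_self := fun x => by
        change Real.arcosh ‖h x.1 x.1‖ = 0
        rw [x.2]
        simp
      dist_comm := fun x y => by
        change Real.arcosh ‖h x.1 y.1‖ = Real.arcosh ‖h y.1 x.1‖
        rw [T14_norm_symm]
      dist_triangle := fun x y z => htri x.2 y.2 z.2 }
  have dX : ∀ x y : T14_X, dist x y = Real.arcosh ‖h x.1 y.1‖ := fun x y => rfl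
  have dS : ∀ x y : T14_X, dist (SeparationQuotient.mk x) (SeparationQuotient.mk y) =
      Real.arcosh ‖h x.1 y.1‖ := fun x y => by rw [SeparationQuotient.dist_mk, dX]
  have dcosh : ∀ x y : T14_X, Real.cosh (dist x y) = ‖h x.1 y.1‖ := fun x y => by
    rw [dX, Real.cosh_arcosh (hneg x.2 y.2).1]
  refine ⟨SeparationQuotient T14_X, inferInstance, ?_, ?_, ?_⟩
  · -- geodesics
    intro X Y
    obtain ⟨x, rfl⟩ := SeparationQuotient.surjective_mk X
    obtain ⟨y, rfl⟩ := SeparationQuotient.surjective_mk Y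
    set D : ℝ := dist (SeparationQuotient.mk x) (SeparationQuotient.mk y) with hDdef
    have hD0 : 0 ≤ D := dist_nonneg
    rcases hD0.eq_or_lt with hD | hD
    · refine ⟨fun _ => SeparationQuotient.mk x, rfl, dist_eq_zero.1 (by rw [← hDdef, ← hD]), ?_⟩
      intro s hs t ht
      rw [← hD] at hs ht
      have hs0 : s = 0 := le_antisymm hs.2 hs.1
      have ht0 : t = 0 := le_antisymm ht.2 ht.1
      rw [hs0, ht0]
      simp
    · have hcosh : Real.cosh D = ‖h x.1 y.1‖ := by
        rw [hDdef, dS, Real.cosh_arcosh (hneg x.2 y.2).1]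
      have hpos : 0 < ‖h x.1 y.1‖ := by rw [← hcosh]; exact Real.cosh_pos D
      have hne : h x.1 y.1 ≠ 0 := norm_pos_iff.1 hpos
      set c : ℂ := -(h x.1 y.1) / (‖h x.1 y.1‖ : ℂ) with hc
      have hnc : (‖h x.1 y.1‖ : ℂ) ≠ 0 := by exact_mod_cast hpos.ne'
      have hc1 : ‖c‖ = 1 := by
        rw [hc, norm_div, norm_neg, Complex.norm_real, norm_norm, div_self hpos.ne']
      have hcc : c * conj c = 1 := by
        rw [Complex.mul_conj, Complex.normSq_eq_norm_sq, hc1]; simp
      have hxy' : h x.1 (c • y.1) = -((Real.cosh D : ℝ) : ℂ) := by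
        rw [h_smul_right, hcosh, hc, map_div₀, map_neg, Complex.conj_ofReal, div_mul_eq_mul_div,
          div_eq_iff hnc]
        have h1 : conj (h x.1 y.1) * h x.1 y.1 = (‖h x.1 y.1‖ : ℂ) * ‖h x.1 y.1‖ := by
          rw [mul_comm, Complex.mul_conj, Complex.normSq_eq_norm_sq]
          push_cast
          ring
        linear_combination -h1
      have hy' : h (c • y.1) (c • y.1) = -1 := by
        rw [h_smul_left, h_smul_right, y.2]
        linear_combination -hcc
      have hvec := T14_vec_h hD x.2 hy' hxy'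
      have hv : ∀ t, h (T14_vec D x.1 (c • y.1) t) (T14_vec D x.1 (c • y.1) t) = -1 := by
        intro t
        rw [hvec, sub_self, Real.cosh_zero]
        simp
      refine ⟨fun t => SeparationQuotient.mk ⟨T14_vec D x.1 (c • y.1) t, hv t⟩, ?_, ?_, ?_⟩
      · have hs : Real.sinh D ≠ 0 := (Real.sinh_pos_iff.2 hD).ne'
        have : (⟨T14_vec D x.1 (c • y.1) 0, hv 0⟩ : T14_X) = x := by
          apply Subtype.ext
          change T14_vec D x.1 (c • y.1) 0 = x.1
          unfold T14_vec
          rw [sub_zero, div_self hs, Real.sinh_zero, zero_div]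
          simp
        exact congrArg SeparationQuotient.mk this
      · have hs : Real.sinh D ≠ 0 := (Real.sinh_pos_iff.2 hD).ne'
        change SeparationQuotient.mk (⟨T14_vec D x.1 (c • y.1) D, hv D⟩ : T14_X) =
          SeparationQuotient.mk y
        apply dist_eq_zero.1
        rw [dS]
        change Real.arcosh ‖h (T14_vec D x.1 (c • y.1) D) y.1‖ = 0
        have : T14_vec D x.1 (c • y.1) D = c • y.1 := by
          unfold T14_vec
          rw [sub_self, div_self hs, Real.sinh_zero, zero_div]
          simp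
        rw [this, h_smul_left, y.2, norm_mul, hc1]
        simp
      · intro s _ t _
        change dist (SeparationQuotient.mk (⟨T14_vec D x.1 (c • y.1) s, hv s⟩ : T14_X))
          (SeparationQuotient.mk (⟨T14_vec D x.1 (c • y.1) t, hv t⟩ : T14_X)) = |s - t|
        rw [dS]
        change Real.arcosh ‖h (T14_vec D x.1 (c • y.1) s) (T14_vec D x.1 (c • y.1) t)‖ = |s - t|
        rw [hvec, norm_neg, Complex.norm_real, Real.norm_of_nonneg (Real.cosh_pos _).le,
          ← Real.cosh_abs, Real.arcosh_cosh (abs_nonneg _)]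
  · -- four point condition
    refine ⟨Real.log 16 / 2, ?_⟩
    intro X Y Z W
    obtain ⟨x, rfl⟩ := SeparationQuotient.surjective_mk X
    obtain ⟨y, rfl⟩ := SeparationQuotient.surjective_mk Y
    obtain ⟨z, rfl⟩ := SeparationQuotient.surjective_mk Z
    obtain ⟨w, rfl⟩ := SeparationQuotient.surjective_mk W
    simp only [SeparationQuotient.dist_mk]
    have hc1 : ∀ a b : T14_X, Real.exp (dist a b) ≤ 2 * ‖h a.1 b.1‖ := by
      intro a b
      rw [← dcosh, Real.cosh_eq]
      have := Real.exp_pos (-dist a b)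
      linarith
    have hc2 : ∀ a b : T14_X, ‖h a.1 b.1‖ ≤ Real.exp (dist a b) := by
      intro a b
      rw [← dcosh, Real.cosh_eq]
      have : Real.exp (-dist a b) ≤ Real.exp (dist a b) := by
        apply Real.exp_le_exp.2
        have := dist_nonneg (x := a) (y := b)
        linarith
      linarith
    have h4 := hfour w.2 x.2 y.2 z.2
    set P := ‖h x.1 y.1‖ * ‖h z.1 w.1‖ with hP
    set Q := ‖h y.1 z.1‖ * ‖h x.1 w.1‖ with hQ
    have hP0 : 0 ≤ P := by positivity
    have hQ0 : 0 ≤ Q := by positivity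
    have hmax : ‖h x.1 z.1‖ * ‖h y.1 w.1‖ ≤ 4 * max P Q := by
      have h5 : Real.sqrt P ≤ Real.sqrt (max P Q) := Real.sqrt_le_sqrt (le_max_left _ _)
      have h6 : Real.sqrt Q ≤ Real.sqrt (max P Q) := Real.sqrt_le_sqrt (le_max_right _ _)
      have h7 : Real.sqrt (‖h x.1 z.1‖ * ‖h y.1 w.1‖) ≤ 2 * Real.sqrt (max P Q) := by linarith
      have h8 : 0 ≤ ‖h x.1 z.1‖ * ‖h y.1 w.1‖ := by positivity
      have h9 : 0 ≤ max P Q := le_trans hP0 (le_max_left _ _)
      calc ‖h x.1 z.1‖ * ‖h y.1 w.1‖
          = Real.sqrt (‖h x.1 z.1‖ * ‖h y.1 w.1‖) ^ 2 := (Real.sq_sqrt h8).symm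
        _ ≤ (2 * Real.sqrt (max P Q)) ^ 2 := by
            apply pow_le_pow_left₀ (Real.sqrt_nonneg _) h7
        _ = 4 * max P Q := by rw [mul_pow, Real.sq_sqrt h9]; norm_num
    have e1 : Real.exp (dist x z + dist y w) ≤ 16 * max P Q := by
      rw [Real.exp_add]
      calc Real.exp (dist x z) * Real.exp (dist y w)
          ≤ (2 * ‖h x.1 z.1‖) * (2 * ‖h y.1 w.1‖) :=
            mul_le_mul (hc1 _ _) (hc1 _ _) (Real.exp_pos _).le (by positivity)
        _ = 4 * (‖h x.1 z.1‖ * ‖h y.1 w.1‖) := by ring
        _ ≤ 4 * (4 * max P Q) := by linarith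
        _ = 16 * max P Q := by ring
    have e2 : P ≤ Real.exp (dist x y + dist z w) := by
      rw [Real.exp_add]
      exact mul_le_mul (hc2 _ _) (hc2 _ _) (norm_nonneg _) (Real.exp_pos _).le
    have e3 : Q ≤ Real.exp (dist y z + dist x w) := by
      rw [Real.exp_add]
      exact mul_le_mul (hc2 _ _) (hc2 _ _) (norm_nonneg _) (Real.exp_pos _).le
    have hL : (16 : ℝ) = Real.exp (Real.log 16) := (Real.exp_log (by norm_num)).symm
    have main : dist x z + dist y w ≤
        Real.log 16 + max (dist x y + dist z w) (dist y z + dist x w) := by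
      rcases le_total P Q with hPQ | hPQ
      · rw [max_eq_right hPQ] at e1
        have : Real.exp (dist x z + dist y w) ≤
            Real.exp (Real.log 16 + (dist y z + dist x w)) := by
          rw [Real.exp_add (Real.log 16), ← hL]
          linarith
        have h10 := Real.exp_le_exp.1 this
        have h11 := le_max_right (dist x y + dist z w) (dist y z + dist x w)
        linarith
      · rw [max_eq_left hPQ] at e1
        have : Real.exp (dist x z + dist y w) ≤
            Real.exp (Real.log 16 + (dist x y + dist z w)) := by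
          rw [Real.exp_add (Real.log 16), ← hL]
          linarith
        have h10 := Real.exp_le_exp.1 this
        have h11 := le_max_left (dist x y + dist z w) (dist y z + dist x w)
        linarith
    have c1 := dist_comm w x
    have c2 := dist_comm w y
    have c3 := dist_comm w z
    rcases le_total (dist x y + dist z w) (dist y z + dist x w) with hm | hm
    · rw [max_eq_right hm] at main
      have := min_le_right ((dist w x + dist w y - dist x y) / 2)
        ((dist w y + dist w z - dist y z) / 2)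
      linarith
    · rw [max_eq_left hm] at main
      have := min_le_left ((dist w x + dist w y - dist x y) / 2)
        ((dist w y + dist w z - dist y z) / 2)
      linarith
  · -- the action
    let act : U → T14_X → T14_X := fun g x =>
      ⟨(g : E ≃ₗ[ℂ] E) x.1, by rw [g.2 x.1 x.1]; exact x.2⟩
    have act_dist : ∀ (g : U) (x y : T14_X), dist (act g x) (act g y) = dist x y := by
      intro g x y
      rw [dX, dX]
      change Real.arcosh ‖h ((g : E ≃ₗ[ℂ] E) x.1) ((g : E ≃ₗ[ℂ] E) y.1)‖ = _
      rw [g.2 x.1 y.1]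
    have act_ins : ∀ (g : U) (x y : T14_X), Inseparable x y →
        (SeparationQuotient.mk (act g x) : SeparationQuotient T14_X) =
          SeparationQuotient.mk (act g y) := by
      intro g x y hxy
      apply SeparationQuotient.mk_eq_mk.2
      rw [Metric.inseparable_iff] at hxy ⊢
      rw [act_dist, hxy]
    let F : U → SeparationQuotient T14_X → SeparationQuotient T14_X := fun g =>
      SeparationQuotient.lift (fun x => SeparationQuotient.mk (act g x)) (act_ins g)
    have F_mk : ∀ (g : U) (x : T14_X), F g (SeparationQuotient.mk x) =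
        SeparationQuotient.mk (act g x) := fun g x => rfl
    have F_one : ∀ X, F 1 X = X := by
      intro X
      obtain ⟨x, rfl⟩ := SeparationQuotient.surjective_mk X
      rw [F_mk]
      rfl
    have F_mul : ∀ g g' X, F (g * g') X = F g (F g' X) := by
      intro g g' X
      obtain ⟨x, rfl⟩ := SeparationQuotient.surjective_mk X
      rw [F_mk, F_mk, F_mk]
      rfl
    have F_iso : ∀ g, Isometry (F g) := by
      intro g
      apply Isometry.of_dist_eq
      intro X Y
      obtain ⟨x, rfl⟩ := SeparationQuotient.surjective_mk X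
      obtain ⟨y, rfl⟩ := SeparationQuotient.surjective_mk Y
      rw [F_mk, F_mk, SeparationQuotient.dist_mk, SeparationQuotient.dist_mk, act_dist]
    let Φ : U → (SeparationQuotient T14_X ≃ᵢ SeparationQuotient T14_X) := fun g =>
      { toFun := F g
        invFun := F g⁻¹
        left_inv := fun X => by rw [← F_mul, inv_mul_cancel, F_one]
        right_inv := fun X => by rw [← F_mul, mul_inv_cancel, F_one]
        isometry_toFun := F_iso g }
    let Ψ : U →* (SeparationQuotient T14_X ≃ᵢ SeparationQuotient T14_X) :=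
      { toFun := Φ
        map_one' := by
          ext X
          exact F_one X
        map_mul' := by
          intro g g'
          ext X
          exact F_mul g g' X }
    have hΨ : ∀ g X, Ψ g X = F g X := fun _ _ => rfl
    have h0 : h (e 0) (e 0) = -1 := by rw [h_e_self]; simp [sg]
    refine ⟨Ψ, SeparationQuotient.mk ⟨e 0, h0⟩, ?_⟩
    intro g g'
    rw [hΨ, hΨ, F_mk, F_mk, dS]

end Pool.Agent.H332R3
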