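import Pool.Agent.H332R3.Defs2

/-! Task T11 of H332-UTR: the orthogonal complement of a negative vector (helper526 for helper332). -/

set_option autoImplicit false

namespace Pool.Agent.H332R3

open scoped ComplexConjugate

theorem T11_h_sum {S : Finset ℕ} (h0 : (0 : ℕ) ∉ S) {x : E} (hx : x.support ⊆ insert 0 S) (y : E) :
    h x y = (∑ n ∈ S, x n * conj (y n)) - x 0 * conj (y 0) := by
  unfold h
  rw [Finsupp.sum_of_support_subset x hx _ (by intro i _; simp), Finset.sum_insert h0]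
  ring

theorem T11_h_self {S : Finset ℕ} (h0 : (0 : ℕ) ∉ S) {x : E} (hx : x.support ⊆ insert 0 S) :
    (h x x).re = (∑ n ∈ S, ‖x n‖ ^ 2) - ‖x 0‖ ^ 2 := by
  rw [T11_h_sum h0 hx x]
  simp only [Complex.mul_conj, Complex.normSq_eq_norm_sq]
  rw [← Complex.ofReal_sum, ← Complex.ofReal_sub, Complex.ofReal_re]

theorem neg_orth_pos {w x : E} (hw : (h w w).re < 0) (hx : h x w = 0) :
    0 ≤ (h x x).re ∧ ((h x x).re = 0 → x = 0) := by
  classical
  set S : Finset ℕ := (x.support ∪ w.support).erase 0 with hS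
  have h0 : (0 : ℕ) ∉ S := by simp [hS]
  have hxs : x.support ⊆ insert 0 S := by
    intro n hn
    by_cases h : n = 0
    · simp [h]
    · simp only [hS, Finset.mem_insert, Finset.mem_erase, Finset.mem_union]
      exact Or.inr ⟨h, Or.inl hn⟩
  have hws : w.support ⊆ insert 0 S := by
    intro n hn
    by_cases h : n = 0
    · simp [h]
    · simp only [hS, Finset.mem_insert, Finset.mem_erase, Finset.mem_union]
      exact Or.inr ⟨h, Or.inr hn⟩
  have e1 := T11_h_self h0 hxs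
  have e2 := T11_h_self h0 hws
  have e3 := T11_h_sum h0 hxs w
  set X := ∑ n ∈ S, ‖x n‖ ^ 2 with hX
  set W := ∑ n ∈ S, ‖w n‖ ^ 2 with hW
  have hX0 : 0 ≤ X := Finset.sum_nonneg fun _ _ => by positivity
  have hW0 : 0 ≤ W := Finset.sum_nonneg fun _ _ => by positivity
  rw [e2] at hw
  rw [hx] at e3
  have e4 : x 0 * conj (w 0) = ∑ n ∈ S, x n * conj (w n) := by
    linear_combination e3
  have e5 : ‖x 0‖ * ‖w 0‖ ≤ ∑ n ∈ S, ‖x n‖ * ‖w n‖ := by
    have : ‖x 0 * conj (w 0)‖ = ‖x 0‖ * ‖w 0‖ := by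
      rw [norm_mul, RCLike.norm_conj]
    rw [← this, e4]
    refine (norm_sum_le _ _).trans (Finset.sum_le_sum ?_)
    intro n _
    rw [norm_mul, RCLike.norm_conj]
  have e6 : (∑ n ∈ S, ‖x n‖ * ‖w n‖) ^ 2 ≤ X * W := Finset.sum_mul_sq_le_sq_mul_sq S _ _
  have e7 : ‖x 0‖ ^ 2 * ‖w 0‖ ^ 2 ≤ X * W := by
    refine le_trans ?_ e6
    rw [← mul_pow]
    exact pow_le_pow_left₀ (by positivity) e5 2
  have hb : 0 < ‖w 0‖ ^ 2 := by linarith
  have hpos : 0 ≤ X - ‖x 0‖ ^ 2 := by
    by_contra hneg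
    push Not at hneg
    have : X * W ≤ X * ‖w 0‖ ^ 2 := mul_le_mul_of_nonneg_left (by linarith) hX0
    have h2 : X * ‖w 0‖ ^ 2 < ‖x 0‖ ^ 2 * ‖w 0‖ ^ 2 :=
      mul_lt_mul_of_pos_right (by linarith) hb
    linarith
  refine ⟨by rw [e1]; exact hpos, ?_⟩
  intro hz
  rw [e1] at hz
  have hXa : X = ‖x 0‖ ^ 2 := by linarith
  have h3 : X * (‖w 0‖ ^ 2 - W) ≤ 0 := by
    rw [← hXa] at e7
    nlinarith
  have h4 : X = 0 := by
    have h5 : 0 < ‖w 0‖ ^ 2 - W := by linarith
    by_contra hne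
    have : 0 < X := lt_of_le_of_ne hX0 (Ne.symm hne)
    have := mul_pos this h5
    linarith
  have h6 : x 0 = 0 := by
    rw [h4] at hXa
    have : ‖x 0‖ = 0 := pow_eq_zero_iff (two_ne_zero) |>.1 hXa.symm
    exact norm_eq_zero.1 this
  have h7 : ∀ n ∈ S, ‖x n‖ ^ 2 = 0 := by
    rw [hX] at h4
    exact (Finset.sum_eq_zero_iff_of_nonneg (fun _ _ => by positivity)).1 h4
  ext n
  by_cases hn : n ∈ x.support
  · have := hxs hn
    rcases Finset.mem_insert.1 this with h | h
    · rw [h]; exact h6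
    · have := h7 n h
      have : ‖x n‖ = 0 := pow_eq_zero_iff (two_ne_zero) |>.1 this
      exact norm_eq_zero.1 this
  · simpa using hn

/-- Cauchy-Schwarz on the orthogonal complement of a negative vector -/
theorem orth_CS {w x y : E} (hw : (h w w).re < 0) (hx : h x w = 0) (hy : h y w = 0) :
    ‖h x y‖ ^ 2 ≤ (h x x).re * (h y y).re := by
  obtain ⟨hy0, hy1⟩ := neg_orth_pos hw hy
  by_cases hc : (h y y).re = 0
  · have := hy1 hc
    rw [this]; simp
  · have hcp : 0 < (h y y).re := lt_of_le_of_ne hy0 (Ne.symm hc)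
    set b := h x y with hb
    set c := (h y y).re with hcdef
    have hyy : h y y = (c : ℂ) := (h_self_real y).symm
    set a := (h x x).re with hadef
    have hxx : h x x = (a : ℂ) := (h_self_real x).symm
    have hcc : (c : ℂ) ≠ 0 := by exact_mod_cast hcp.ne'
    have hu : h (x + (-(b / c)) • y) w = 0 := by
      rw [h_add_left, h_smul_left, hx, hy]; ring
    have hp := (neg_orth_pos hw hu).1
    have e : h (x + (-(b / c)) • y) (x + (-(b / c)) • y) = ((a - ‖b‖ ^ 2 / c : ℝ) : ℂ) := by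
      rw [h_add_left, h_add_right, h_add_right, h_smul_left, h_smul_left, h_smul_right,
        h_smul_right, ← hb, hyy, hxx, h_symm x y, ← hb]
      have hn : b * conj b = ((‖b‖ ^ 2 : ℝ) : ℂ) := by
        rw [Complex.mul_conj, Complex.normSq_eq_norm_sq]
      simp only [map_neg, map_div₀, Complex.conj_ofReal]
      push_cast at hn ⊢
      rw [← hn]
      field_simp
      ring
    rw [e, Complex.ofReal_re] at hp
    have : ‖b‖ ^ 2 / c ≤ a := by linarith
    rwa [div_le_iff₀ hcp] at this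

theorem T11_decomp {x y : E} (hy : h y y = -1) :
    h (x + h x y • y) y = 0 := by
  rw [h_add_left, h_smul_left, hy]; ring

theorem T11_self {x y : E} (hx : h x x = -1) (hy : h y y = -1) :
    h (x + h x y • y) (x + h x y • y) = ((‖h x y‖ ^ 2 - 1 : ℝ) : ℂ) := by
  rw [h_add_left, h_add_right, h_add_right, h_smul_left, h_smul_left, h_smul_right,
    h_smul_right, hx, hy, h_symm x y]
  have hn : h x y * conj (h x y) = ((‖h x y‖ ^ 2 : ℝ) : ℂ) := by
    rw [Complex.mul_conj, Complex.normSq_eq_norm_sq]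
  push_cast at hn ⊢
  rw [← hn]
  ring

/-- reversed Cauchy-Schwarz, with equality case -/
theorem neg_neg {x y : E} (hx : h x x = -1) (hy : h y y = -1) :
    1 ≤ ‖h x y‖ ∧ (‖h x y‖ = 1 → ∃ c : ℂ, ‖c‖ = 1 ∧ x = c • y) := by
  have hyr : (h y y).re < 0 := by rw [hy]; simp
  obtain ⟨h1, h2⟩ := neg_orth_pos hyr (T11_decomp (x := x) hy)
  rw [T11_self hx hy, Complex.ofReal_re] at h1 h2
  refine ⟨?_, ?_⟩
  · by_contra hlt
    push Not at hlt
    have : ‖h x y‖ ^ 2 < 1 := by
      have := norm_nonneg (h x y)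
      nlinarith
    linarith
  · intro he
    have h3 := h2 (by rw [he]; norm_num)
    refine ⟨-h x y, by rw [norm_neg, he], ?_⟩
    rw [neg_smul]
    exact eq_neg_of_add_eq_zero_left h3

theorem arcosh_triangle {x y z : E} (hx : h x x = -1) (hy : h y y = -1) (hz : h z z = -1) :
    Real.arcosh ‖h x z‖ ≤ Real.arcosh ‖h x y‖ + Real.arcosh ‖h y z‖ := by
  have hyr : (h y y).re < 0 := by rw [hy]; simp
  have hzy : ‖h y z‖ = ‖h z y‖ := by rw [h_symm z y, RCLike.norm_conj]
  rw [hzy]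
  obtain ⟨ha, -⟩ := neg_neg hx hy
  obtain ⟨hb, -⟩ := neg_neg hz hy
  obtain ⟨hc, -⟩ := neg_neg hx hz
  have hCS := orth_CS hyr (T11_decomp (x := x) hy) (T11_decomp (x := z) hy)
  rw [T11_self hx hy, T11_self hz hy, Complex.ofReal_re, Complex.ofReal_re] at hCS
  have e : h (x + h x y • y) (z + h z y • y) = h x z + h x y * conj (h z y) := by
    rw [h_add_left, h_add_right, h_add_right, h_smul_left, h_smul_left, h_smul_right,
      h_smul_right, hy, h_symm z y]
    ring
  rw [e] at hCS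
  have hA : 0 ≤ Real.arcosh ‖h x y‖ := Real.arcosh_nonneg ha
  have hB : 0 ≤ Real.arcosh ‖h z y‖ := Real.arcosh_nonneg hb
  rw [← Real.arcosh_cosh (add_nonneg hA hB)]
  rw [Real.arcosh_le_arcosh (by linarith) (Real.cosh_pos _), Real.cosh_add, Real.cosh_arcosh ha,
    Real.cosh_arcosh hb, Real.sinh_arcosh ha, Real.sinh_arcosh hb]
  have h1 : ‖h x z + h x y * conj (h z y)‖ ≤
      √(‖h x y‖ ^ 2 - 1) * √(‖h z y‖ ^ 2 - 1) := by
    rw [← Real.sqrt_mul (by nlinarith)]
    exact Real.le_sqrt_of_sq_le hCS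
  have h2 : ‖h x z‖ ≤ ‖h x z + h x y * conj (h z y)‖ + ‖h x y * conj (h z y)‖ := by
    have := norm_sub_le (h x z + h x y * conj (h z y)) (h x y * conj (h z y))
    rwa [add_sub_cancel_right] at this
  rw [norm_mul, RCLike.norm_conj] at h2
  linarith

end Pool.Agent.H332R3
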