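import Pool.Agent.H332R3.Final

/-!
# The general type action of `G1 A`
-/

set_option autoImplicit false

namespace Pool.Agent.H332R3

theorem main_action (A : Arith) : ∃ (S : Type) (_ : MetricSpace S) (φ : G1 A →* (S ≃ᵢ S)),
      (∀ x y : S, ∃ γ : ℝ → S, γ 0 = x ∧ γ (dist x y) = y ∧
          ∀ s ∈ Set.Icc (0:ℝ) (dist x y), ∀ t ∈ Set.Icc (0:ℝ) (dist x y),
            dist (γ s) (γ t) = |s - t|) ∧
      (∃ δ : ℝ, ∀ x y z w : S,
          min ((dist w x + dist w y - dist x y) / 2) ((dist w y + dist w z - dist y z) / 2) - δ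
            ≤ (dist w x + dist w z - dist x z) / 2) ∧
        ∃ (g h : G1 A) (x : S) (c : ℝ), 0 < c ∧ ∃ C : ℝ,
          (∀ n : ℤ, c * |(n:ℝ)| ≤ dist x ((φ g ^ n) x) ∧ c * |(n:ℝ)| ≤ dist x ((φ h ^ n) x)) ∧
          ∀ n m : ℤ,
            (dist x ((φ g ^ n) x) + dist x ((φ h ^ m) x)
              - dist ((φ g ^ n) x) ((φ h ^ m) x)) / 2 ≤ C := by
  obtain ⟨S, mS, hgeo, hhyp, φ, o, hφ⟩ := Pool.Agent.H332R3.hyp_space
    (fun hx hy => Pool.Agent.H332R3.neg_neg hx hy)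
    (fun hx hy hz => Pool.Agent.H332R3.arcosh_triangle hx hy hz)
    (fun hw hx hy hz => Pool.Agent.H332R3.four_point_mul
      (fun h1 h2 => Pool.Agent.H332R3.neg_orth_pos h1 h2)
      (fun u v w h1 h2 h3 => Pool.Agent.H332R3.ball_ineq u v w h1 h2 h3) hw hx hy hz)
  let ψ : Pool.Agent.H332R3.G1 A →* (S ≃ᵢ S) :=
    φ.comp (Subgroup.inclusion (Pool.Agent.H332R3.G1_le_U A))
  have hψ : ∀ g g' : Pool.Agent.H332R3.G1 A, dist (ψ g o) (ψ g' o) =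
      Real.arcosh ‖Pool.Agent.H332R3.h (g.1 (Pool.Agent.H332R3.e 0))
        (g'.1 (Pool.Agent.H332R3.e 0))‖ := by
    intro g g'
    exact hφ _ _
  obtain ⟨g, hg, g', hg', η, hη, a, b, a', b', hab⟩ := Pool.Agent.H332R3.gen_type A
  have hgG := Pool.Agent.H332R3.KK_le_G1 A hg
  have hg'G := Pool.Agent.H332R3.KK_le_G1 A hg'
  have ho : ψ 1 o = o := by rw [map_one]; rfl
  have hd1 : ∀ n : ℤ, dist o ((ψ ⟨g, hgG⟩ ^ n) o) = Real.arcosh ‖a n‖ := by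
    intro n
    have h0 : dist o ((ψ ⟨g, hgG⟩ ^ n) o) = dist (ψ 1 o) (ψ (⟨g, hgG⟩ ^ n) o) := by
      rw [ho, map_zpow]
    rw [h0, hψ]
    congr 1
    show ‖Pool.Agent.H332R3.h (Pool.Agent.H332R3.e 0) ((g ^ n : _) (Pool.Agent.H332R3.e 0))‖ = _
    rw [(hab n).1, Pool.Agent.H332R3.h_add_right, Pool.Agent.H332R3.h_smul_right,
      Pool.Agent.H332R3.h_smul_right, Pool.Agent.H332R3.h_e_self,
      Pool.Agent.H332R3.h_e_e (by norm_num)]
    simp [Pool.Agent.H332R3.sg]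
  have hd2 : ∀ n : ℤ, dist o ((ψ ⟨g', hg'G⟩ ^ n) o) = Real.arcosh ‖a' n‖ := by
    intro n
    have h0 : dist o ((ψ ⟨g', hg'G⟩ ^ n) o) = dist (ψ 1 o) (ψ (⟨g', hg'G⟩ ^ n) o) := by
      rw [ho, map_zpow]
    rw [h0, hψ]
    congr 1
    show ‖Pool.Agent.H332R3.h (Pool.Agent.H332R3.e 0) ((g' ^ n : _) (Pool.Agent.H332R3.e 0))‖ = _
    rw [(hab n).2.1, Pool.Agent.H332R3.h_add_right, Pool.Agent.H332R3.h_smul_right,
      Pool.Agent.H332R3.h_smul_right, Pool.Agent.H332R3.h_e_self,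
      Pool.Agent.H332R3.h_e_e (by norm_num)]
    simp [Pool.Agent.H332R3.sg]
  have hd3 : ∀ n m : ℤ, dist ((ψ ⟨g, hgG⟩ ^ n) o) ((ψ ⟨g', hg'G⟩ ^ m) o) =
      Real.arcosh (‖a n‖ * ‖a' m‖) := by
    intro n m
    rw [← map_zpow, ← map_zpow, hψ]
    congr 1
    show ‖Pool.Agent.H332R3.h ((g ^ n : _) (Pool.Agent.H332R3.e 0))
      ((g' ^ m : _) (Pool.Agent.H332R3.e 0))‖ = _
    rw [(hab n).1, (hab m).2.1, Pool.Agent.H332R3.h_add_right, Pool.Agent.H332R3.h_smul_right,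
      Pool.Agent.H332R3.h_smul_right, Pool.Agent.H332R3.h_add_left,
      Pool.Agent.H332R3.h_add_left, Pool.Agent.H332R3.h_smul_left,
      Pool.Agent.H332R3.h_smul_left, Pool.Agent.H332R3.h_smul_left,
      Pool.Agent.H332R3.h_smul_left, Pool.Agent.H332R3.h_e_self,
      Pool.Agent.H332R3.h_e_e (n := 1) (m := 0) (by norm_num),
      Pool.Agent.H332R3.h_e_e (n := 0) (m := 2) (by norm_num),
      Pool.Agent.H332R3.h_e_e (n := 1) (m := 2) (by norm_num)]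
    simp [Pool.Agent.H332R3.sg, mul_comm]
  refine ⟨S, mS, ψ, hgeo, hhyp, ⟨g, hgG⟩, ⟨g', hg'G⟩, o, η, hη, Real.log 4 / 2, ?_, ?_⟩
  · intro n
    rw [hd1 n, hd2 n]
    have hn0 : 0 ≤ |(n : ℝ)| * η := by positivity
    have hcosh : Real.cosh (|(n : ℝ)| * η) = Real.cosh ((n : ℝ) * η) := by
      rw [← Real.cosh_abs ((n : ℝ) * η), abs_mul, abs_of_pos hη]
    have h3 : η * |(n : ℝ)| = Real.arcosh (Real.cosh ((n : ℝ) * η)) := by
      rw [← hcosh, Real.arcosh_cosh hn0]; ring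
    have h4 := (hab n).2.2.1
    have h5 := (hab n).2.2.2
    have h6 : (0 : ℝ) < Real.cosh ((n : ℝ) * η) := Real.cosh_pos _
    rw [h3]
    constructor
    · rw [Real.arcosh_le_arcosh h6 (lt_of_lt_of_le h6 h4)]; exact h4
    · rw [Real.arcosh_le_arcosh h6 (lt_of_lt_of_le h6 h5)]; exact h5
  · intro n m
    rw [hd1, hd2, hd3]
    have h4 := (hab n).2.2.1
    have h5 := (hab m).2.2.2
    have := Fin_arcosh_aux ((Real.one_le_cosh _).trans h4) ((Real.one_le_cosh _).trans h5)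
    linarith

end Pool.Agent.H332R3
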