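import Pool.Agent.H332R3.Defs2

set_option autoImplicit false

namespace Pool.Agent.H332R3

open scoped ComplexConjugate

theorem Rot (A : Arith) {L : Subgroup (E ≃ₗ[ℂ] E)} (hL : L ≤ U) {a y : E} {θ : ℂ}
    (ha : InR A L a) (hay : InR A L (a + y)) (hort : h a y = 0) (hθ : A.Th θ) :
    InR A L (a + θ • y) := by
  obtain ⟨g, hg, hgx⟩ := ha.2 (conj θ) (Arith.Th_conj hθ)
  have h1 := hay.map hL hg
  have hya : h y a = 0 := by rw [h_symm a y, hort, map_zero]
  have h2 : g (a + y) = conj θ • (a + θ • y) := by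
    rw [map_add, hgx, hgx, Rf_self ha.1, Rf_orth _ hya, smul_add, smul_smul]
    have h3 : conj θ * θ = 1 := by
      rw [mul_comm, Complex.mul_conj, Complex.normSq_eq_norm_sq, hθ.1]
      simp
    rw [h3, one_smul]
  rw [h2] at h1
  exact InR.of_smul (by
    have := Arith.Th_ne_zero (Arith.Th_conj hθ)
    exact this) h1

theorem T16_real (Y r : ℝ) (hr0 : r ≠ 0) (hr : |r| * (1 + |Y|) ≤ 3 / 2) :
    0 < 1 + r ^ 2 * Y ∧ r ^ 2 * ((1 + Y) ^ 2 / (1 + r ^ 2 * Y)) ≤ 9 / 4 := by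
  have h0 : 0 ≤ |r| * (1 + |Y|) := by positivity
  have h1 : r ^ 2 * (1 + |Y|) ^ 2 ≤ 9 / 4 := by
    have := mul_self_le_mul_self h0 hr
    have h2 : |r| * |r| = r ^ 2 := by rw [← sq, sq_abs]
    nlinarith
  have hY : |Y| * |Y| = Y ^ 2 := by rw [← sq, sq_abs]
  have hYl : -|Y| ≤ Y := neg_abs_le Y
  have hYu : Y ≤ |Y| := le_abs_self Y
  have hY0 : 0 ≤ |Y| := abs_nonneg Y
  have hr2 : 0 < r ^ 2 := by positivity
  have h4 : r ^ 2 * |Y| ≤ 9 / 16 := by
    have : r ^ 2 * (4 * |Y|) ≤ r ^ 2 * (1 + |Y|) ^ 2 := by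
      apply mul_le_mul_of_nonneg_left _ hr2.le
      nlinarith [sq_nonneg (1 - |Y|)]
    linarith
  have h5 : 0 < 1 + r ^ 2 * Y := by
    have : r ^ 2 * (-|Y|) ≤ r ^ 2 * Y := mul_le_mul_of_nonneg_left hYl hr2.le
    linarith
  refine ⟨h5, ?_⟩
  rw [mul_div_assoc', div_le_iff₀ h5]
  have h6 : r ^ 2 * ((1 + Y) ^ 2 - 9 / 4 * Y) ≤ r ^ 2 * (1 + |Y|) ^ 2 := by
    apply mul_le_mul_of_nonneg_left _ hr2.le
    nlinarith
  nlinarith

theorem OS (A : Arith) {L : Subgroup (E ≃ₗ[ℂ] E)} (hL : L ≤ U) {a y : E} {Y r : ℝ}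
    (ha : InR A L a) (hay : InR A L (a + y)) (hort : h a y = 0) (hY : h y y = Y * h a a)
    (hYI : A.I Y) (hrI : A.I r) (hr : |r| * (1 + |Y|) ≤ 3 / 2) :
    InR A L (a + (Complex.I * r) • y) := by
  by_cases hr0 : r = 0
  · subst hr0
    simpa using ha
  obtain ⟨hu, hx9⟩ := T16_real Y r hr0 hr
  have hya : h y a = 0 := by rw [h_symm a y, hort, map_zero]
  set u : ℝ := 1 + r ^ 2 * Y with hudef
  set q2 : ℝ := (1 + Y) ^ 2 / u with hq2def
  set x : ℝ := r ^ 2 * q2 with hxdef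
  have hq20 : 0 ≤ q2 := by positivity
  have hx0 : 0 ≤ x := by positivity
  have hYO : (Y : ℂ) ∈ A.O := Arith.I_mem' hYI
  have hrO : (r : ℂ) ∈ A.O := Arith.I_mem' hrI
  have h1YO : (1 + Y : ℂ) ∈ A.O := A.O.add_mem A.O.one_mem hYO
  have hrY : A.I ((r : ℂ) ^ 2 * Y) := Arith.I_mul_left (A.O.pow_mem hrO 2) hYI
  obtain ⟨hu0, huO⟩ := Arith.unit_of_I hrY
  have hucast : (u : ℂ) = 1 + (r : ℂ) ^ 2 * Y := by
    rw [hudef]
    push_cast
    ring
  rw [← hucast] at hu0 huO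
  have hq2cast : (q2 : ℂ) = (1 + Y) ^ 2 * (u : ℂ)⁻¹ := by
    rw [hq2def]
    push_cast
    rw [div_eq_mul_inv]
  have hq2O : (q2 : ℂ) ∈ A.O := by
    rw [hq2cast]
    exact A.O.mul_mem (A.O.pow_mem h1YO 2) huO
  have hq2I : A.I ((q2 : ℂ) - 1) := by
    have h1 : (q2 : ℂ) - 1 = (2 + Y - (r : ℂ) ^ 2) * (u : ℂ)⁻¹ * Y := by
      rw [hq2cast]
      field_simp
      rw [hucast]
      ring
    rw [h1]
    refine Arith.I_mul_left (A.O.mul_mem ?_ huO) hYI
    have h2 : (2 : ℂ) ∈ A.O := by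
      have := A.O.add_mem A.O.one_mem A.O.one_mem
      rwa [one_add_one_eq_two] at this
    exact A.O.sub_mem (A.O.add_mem h2 hYO) (A.O.pow_mem hrO 2)
  have hxcast : (x : ℂ) = (r : ℂ) * (q2 : ℂ) * r := by
    rw [hxdef]
    push_cast
    ring
  have hxI : A.I (x : ℂ) := by
    rw [hxcast]
    exact Arith.I_mul_left (A.O.mul_mem hrO hq2O) hrI
  have hxO : (x : ℂ) ∈ A.O := Arith.I_mem' hxI
  have hsO : ((Real.sqrt (1 - x / 4) : ℝ) : ℂ) ∈ A.O := by
    refine A.sqrt_mem _ (by linarith) ?_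
    have h1 : ((1 - x / 4 : ℝ) : ℂ) = 1 - (1 / 2) * ((1 / 2) * (x : ℂ)) := by
      push_cast
      ring
    rw [h1]
    exact A.O.sub_mem A.O.one_mem (A.O.mul_mem A.half_mem (A.O.mul_mem A.half_mem hxO))
  have hqO : ((Real.sqrt q2 : ℝ) : ℂ) ∈ A.O := A.sqrt_mem _ hq20 hq2O
  set p : ℝ := Real.sqrt q2 * Real.sqrt (1 - x / 4) with hpdef
  have hpO : (p : ℂ) ∈ A.O := by
    rw [hpdef, Complex.ofReal_mul]
    exact A.O.mul_mem hqO hsO
  have hp2 : p ^ 2 = q2 * (1 - x / 4) := by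
    rw [hpdef, mul_pow, Real.sq_sqrt hq20, Real.sq_sqrt (by linarith)]
  have hp2I : A.I ((p : ℂ) ^ 2 - 1) := by
    have h1 : (p : ℂ) ^ 2 - 1 = ((q2 : ℂ) - 1) - (q2 * ((1 / 2) * (1 / 2))) * x := by
      rw [← Complex.ofReal_pow, hp2]
      push_cast
      ring
    rw [h1]
    exact Arith.I_sub hq2I (Arith.I_mul_left
      (A.O.mul_mem hq2O (A.O.mul_mem A.half_mem A.half_mem)) hxI)
  obtain ⟨t, ht2, htI⟩ : ∃ t : ℝ, t ^ 2 = q2 * (1 - x / 4) ∧ A.I ((t : ℂ) - 1) := by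
    obtain ⟨k, hk⟩ := hp2I
    rcases A.sq_one k (p : ℂ) hpO (Or.inl (Complex.conj_ofReal p)) hk with h1 | h1
    · exact ⟨p, hp2, k, h1⟩
    · refine ⟨-p, by rw [neg_sq, hp2], ?_⟩
      have h2 : ((-p : ℝ) : ℂ) - 1 = -((p : ℂ) + 1) := by
        push_cast
        ring
      rw [h2]
      exact Arith.I_neg ⟨k, h1⟩
  have htO : (t : ℂ) ∈ A.O := Arith.mem_of_I' htI
  set lam : ℂ := ((1 - x / 2 : ℝ) : ℂ) + ((r * t : ℝ) : ℂ) * Complex.I with hlam
  have hlamnorm : ‖lam‖ = 1 := by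
    have h1 : Complex.normSq lam = 1 := by
      rw [hlam, Complex.normSq_add_mul_I, mul_pow, ht2]
      have : r ^ 2 * (q2 * (1 - x / 4)) = x * (1 - x / 4) := by
        rw [hxdef]
        ring
      rw [this]
      ring
    rw [Complex.normSq_eq_norm_sq] at h1
    have h2 : 0 ≤ ‖lam‖ := norm_nonneg _
    nlinarith
  have hlam1 : lam - 1 = -(1 / 2) * (x : ℂ) + (t * Complex.I) * r := by
    rw [hlam]
    push_cast
    ring
  have hlamI : A.I (lam - 1) := by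
    rw [hlam1]
    exact Arith.I_add (Arith.I_mul_left (A.O.neg_mem A.half_mem) hxI)
      (Arith.I_mul_left (A.O.mul_mem htO A.I_mem) hrI)
  have hlamTh : A.Th lam := ⟨hlamnorm, hlamI⟩
  have hlYI : A.I ((lam + Y) - 1) := by
    have : (lam + Y) - 1 = (lam - 1) + Y := by ring
    rw [this]
    exact Arith.I_add hlamI hYI
  obtain ⟨hlY0, hlYO⟩ := Arith.unit_of_I' hlYI
  have hrC : (r : ℂ) ≠ 0 := by exact_mod_cast hr0
  have h1Y0 : (1 + Y : ℂ) ≠ 0 := (Arith.unit_of_I hYI).1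
  set κ : ℂ := (lam - 1) / (lam + Y) with hκ
  -- the new vector
  have hnew : InR A L (a + κ • y) := by
    obtain ⟨g, hg, hgx⟩ := hay.2 lam hlamTh
    have h1 := ha.map hL hg
    have h2 : h a (a + y) = h a a := by rw [h_add_right, hort, add_zero]
    have h3 : h (a + y) (a + y) = (1 + Y) * h a a := by
      rw [h_add_left, h2, h_add_right, hya, hY]
      ring
    have h4 : (lam - 1) * h a (a + y) / h (a + y) (a + y) = (lam - 1) / (1 + Y) := by
      rw [h2, h3]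
      have := ha.1
      field_simp
    have h5 : g a = ((lam + Y) / (1 + Y)) • (a + κ • y) := by
      rw [hgx, Rf_apply, h4, smul_add, smul_add, smul_smul]
      have h6 : (lam + Y) / (1 + Y) * κ = (lam - 1) / (1 + Y) := by
        rw [hκ]
        field_simp
      have h7 : (lam + Y) / (1 + Y) = 1 + (lam - 1) / (1 + Y) := by
        field_simp
        ring
      rw [h6, h7, add_smul, one_smul, add_assoc]
    rw [h5] at h1
    exact InR.of_smul (div_ne_zero hlY0 h1Y0) h1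
  -- the unimodular factor
  set μ : ℂ := (Complex.I * r * q2 / 2 + t) / (lam + Y) with hμ
  have hκμ : κ = (Complex.I * r) * μ := by
    rw [hκ, hμ, hlam1, hxcast]
    field_simp
    ring_nf
    rw [Complex.I_sq]
    ring
  have hμI : A.I (μ - 1) := by
    have h1 : μ - 1 = ((Complex.I * q2 * (1 / 2)) * r + ((t : ℂ) - 1) - (lam + Y - 1)) *
        (lam + Y)⁻¹ := by
      rw [hμ]
      field_simp
      ring
    rw [h1]
    refine Arith.I_mul_right (Arith.I_sub (Arith.I_add ?_ htI) hlYI) hlYO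
    exact Arith.I_mul_left (A.O.mul_mem (A.O.mul_mem A.I_mem hq2O) A.half_mem) hrI
  have hμn : ‖μ‖ = 1 := by
    have h1 : Complex.normSq (Complex.I * r * q2 / 2 + t) = Complex.normSq (lam + Y) := by
      have h2 : (Complex.I * r * q2 / 2 + t : ℂ) = ((t : ℝ) : ℂ) + ((r * q2 / 2 : ℝ) : ℂ) *
          Complex.I := by
        push_cast
        ring
      have h3 : (lam + Y : ℂ) = ((1 - x / 2 + Y : ℝ) : ℂ) + ((r * t : ℝ) : ℂ) * Complex.I := by
        rw [hlam]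
        push_cast
        ring
      rw [h2, h3, Complex.normSq_add_mul_I, Complex.normSq_add_mul_I]
      have hq2u : q2 * (1 + r ^ 2 * Y) = (1 + Y) ^ 2 := by
        rw [hq2def, ← hudef]
        field_simp
      rw [mul_pow, ht2]
      have hx' : x = r ^ 2 * q2 := hxdef
      rw [hx']
      nlinarith [hq2u]
    have h4 : Complex.normSq μ = 1 := by
      rw [hμ, Complex.normSq_div, h1]
      refine div_self ?_
      rw [Complex.normSq_eq_zero.ne]
      exact hlY0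
    rw [Complex.normSq_eq_norm_sq] at h4
    have h5 : 0 ≤ ‖μ‖ := norm_nonneg _
    nlinarith
  have hμTh : A.Th μ := ⟨hμn, hμI⟩
  have hfin := Rot A hL (θ := μ⁻¹) ha hnew (by rw [h_smul_right, hort, mul_zero])
    (Arith.Th_inv hμTh)
  rw [smul_smul, hκμ] at hfin
  have h9 : μ⁻¹ * (Complex.I * r * μ) = Complex.I * r := by
    have := Arith.Th_ne_zero hμTh
    field_simp
  rw [h9] at hfin
  exact hfin

end Pool.Agent.H332R3
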